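import Mathlib

set_option autoImplicit false

/-! Tools for the derivatives of real polynomials: Cauchy estimates on complex circles and a lower bound
by finite differences. -/

namespace Pool.Agent.Y855.SN

open Polynomial Set Finset

/-- the complex evaluation of a real polynomial -/
noncomputable def ce (P : ℝ[X]) (z : ℂ) : ℂ := (P.map (algebraMap ℝ ℂ)).eval z

theorem ce_ofReal (P : ℝ[X]) (x : ℝ) : ce P (x : ℂ) = ((P.eval x : ℝ) : ℂ) := by
  unfold ce
  rw [Polynomial.eval_map_algebraMap, ← Complex.coe_algebraMap, Polynomial.aeval_algebraMap_apply]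
  simp

theorem hasDerivAt_ce (P : ℝ[X]) (z : ℂ) : HasDerivAt (ce P) (ce (derivative P) z) z := by
  unfold ce
  rw [← Polynomial.derivative_map]
  exact Polynomial.hasDerivAt _ _

theorem iteratedDeriv_ce (k : ℕ) (P : ℝ[X]) : iteratedDeriv k (ce P) = ce (derivative^[k] P) := by
  induction k generalizing P with
  | zero => simp
  | succ k ih =>
    rw [iteratedDeriv_succ, ih]
    funext z
    rw [(hasDerivAt_ce _ z).deriv, Function.iterate_succ_apply']

theorem cauchy (P : ℝ[X]) (k : ℕ) (x ρ B : ℝ) (hρ : 0 < ρ)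
    (hB : ∀ z : ℂ, ‖z - (x : ℂ)‖ = ρ → ‖ce P z‖ ≤ B) :
    |(derivative^[k] P).eval x| ≤ k.factorial * B / ρ ^ k := by
  have h1 : DiffContOnCl ℂ (ce P) (Metric.ball (x : ℂ) ρ) := by
    apply Differentiable.diffContOnCl
    intro z
    exact (hasDerivAt_ce P z).differentiableAt
  have h2 := Complex.norm_iteratedDeriv_le_of_forall_mem_sphere_norm_le k hρ h1 (C := B) (by
    intro z hz
    exact hB z (mem_sphere_iff_norm.1 hz))
  rw [iteratedDeriv_ce, ce_ofReal, Complex.norm_real, Real.norm_eq_abs] at h2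
  exact h2

theorem iter_comp (P : ℝ[X]) (h : ℝ) (k : ℕ) :
    derivative^[k] (P.comp (X + C h)) = (derivative^[k] P).comp (X + C h) := by
  induction k generalizing P with
  | zero => rfl
  | succ k ih =>
    rw [Function.iterate_succ_apply, Function.iterate_succ_apply, derivative_comp]
    have : derivative (X + C h : ℝ[X]) = 1 := by simp
    rw [this, one_mul, ih]

theorem step_le (P : ℝ[X]) (a b x h A : ℝ) (hh : 0 ≤ h) (hx : a ≤ x) (hxb : x + h ≤ b)
    (hA : ∀ y ∈ Set.Icc a b, |(derivative P).eval y| ≤ A) :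
    |P.eval (x + h) - P.eval x| ≤ A * h := by
  have h1 := Convex.norm_image_sub_le_of_norm_hasDerivWithin_le (f := fun y : ℝ => P.eval y)
    (f' := fun y : ℝ => (derivative P).eval y) (C := A) (s := Set.Icc a b) (x := x) (y := x + h)
    (fun y _ => (P.hasDerivAt y).hasDerivWithinAt) (fun y hy => by
      rw [Real.norm_eq_abs]; exact hA y hy) (convex_Icc a b) ⟨hx, by linarith⟩
      ⟨by linarith, hxb⟩
  rw [Real.norm_eq_abs, Real.norm_eq_abs] at h1
  have h2 : |x + h - x| = h := by rw [add_sub_cancel_left, abs_of_nonneg hh]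
  rw [h2] at h1
  exact h1

theorem fd (h : ℝ) (hh : 0 ≤ h) (k : ℕ) (P : ℝ[X]) (x A : ℝ)
    (hA : ∀ y ∈ Set.Icc x (x + k * h), |(derivative^[k] P).eval y| ≤ A) :
    |(fwdDiff h)^[k] (fun y : ℝ => P.eval y) x| ≤ A * h ^ k := by
  induction k generalizing P A with
  | zero =>
    have := hA x ⟨le_rfl, by simp⟩
    simpa using this
  | succ k ih =>
    rw [Function.iterate_succ_apply]
    have e : fwdDiff h (fun y : ℝ => P.eval y) = fun y : ℝ => (P.comp (X + C h) - P).eval y := by
      funext y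
      simp [fwdDiff]
    rw [e]
    have h1 := ih (P.comp (X + C h) - P) (A * h) (by
      intro y hy
      rw [iterate_derivative_sub, iter_comp, eval_sub, eval_comp]
      have e2 : eval y (X + C h : ℝ[X]) = y + h := by simp
      rw [e2]
      refine step_le (derivative^[k] P) x (x + ((k + 1 : ℕ) : ℝ) * h) y h A hh hy.1 ?_ ?_
      · have := hy.2
        push_cast
        linarith
      · intro t ht
        have := hA t ht
        rwa [Function.iterate_succ_apply'] at this)
    calc _ ≤ A * h * h ^ k := h1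
      _ = A * h ^ (k + 1) := by ring

/-- lower bound for the `k`-th derivative of a polynomial which is much smaller at `h, 2 h, …, k h`
than at `0` -/
theorem lower (h : ℝ) (hh : 0 < h) (k : ℕ) (P : ℝ[X]) (A K : ℝ) (hK : 0 ≤ K)
    (hA : ∀ y ∈ Set.Icc 0 (k * h), |(derivative^[k] P).eval y| ≤ A)
    (h0 : K ≤ |P.eval 0|) (s : ℝ) (hs : ∀ j : ℕ, 1 ≤ j → j ≤ k → |P.eval (j * h)| ≤ K * s)
    (hs0 : 0 ≤ s) (hs2 : 2 ^ k * s ≤ 1 / 2) : K / 2 ≤ A * h ^ k := by
  have h1 := fd h hh.le k P 0 A (by simpa using hA)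
  refine le_trans ?_ h1
  rw [fwdDiff_iter_eq_sum_shift, Finset.sum_range_succ']
  set S := ∑ j ∈ Finset.range k, ((-1 : ℤ) ^ (k - (j + 1)) * (k.choose (j + 1) : ℕ)) •
    P.eval (0 + (j + 1) • h) with hS
  have hT : |S| ≤ K * s * 2 ^ k := by
    have h2 : |S| ≤ ∑ j ∈ Finset.range k, (k.choose (j + 1) : ℝ) * (K * s) := by
      rw [hS]
      refine (Finset.abs_sum_le_sum_abs _ _).trans (Finset.sum_le_sum fun j hj => ?_)
      rw [Finset.mem_range] at hj
      have h3 := hs (j + 1) (by omega) (by omega)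
      have h4 : ((-1 : ℤ) ^ (k - (j + 1)) * (k.choose (j + 1) : ℕ)) • P.eval (0 + (j + 1) • h) =
          (-1 : ℝ) ^ (k - (j + 1)) * ((k.choose (j + 1) : ℝ) * P.eval (((j + 1 : ℕ) : ℝ) * h)) := by
        rw [zero_add, nsmul_eq_mul, zsmul_eq_mul]
        push_cast
        ring
      rw [h4, abs_mul, abs_pow, abs_neg, abs_one, one_pow, one_mul, abs_mul, Nat.abs_cast]
      gcongr
    refine h2.trans ?_
    rw [← Finset.sum_mul, mul_comm]
    have h5 : ∑ j ∈ Finset.range k, (k.choose (j + 1) : ℝ) ≤ 2 ^ k := by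
      have h6 : ∑ j ∈ Finset.range (k + 1), (k.choose j : ℝ) = 2 ^ k := by
        exact_mod_cast Nat.sum_range_choose k
      rw [Finset.sum_range_succ'] at h6
      have : (0 : ℝ) ≤ (k.choose 0 : ℝ) := by positivity
      linarith
    have h7 : 0 ≤ K * s := by positivity
    gcongr
  have h8 : ((-1 : ℤ) ^ (k - 0) * (k.choose 0 : ℕ)) • P.eval (0 + 0 • h) =
      (-1 : ℝ) ^ k * P.eval 0 := by
    simp
  rw [h8]
  have h9 : |(-1 : ℝ) ^ k * P.eval 0| = |P.eval 0| := by
    rw [abs_mul, abs_pow, abs_neg, abs_one, one_pow, one_mul]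
  have h10 : |(-1 : ℝ) ^ k * P.eval 0| ≤ |S + (-1 : ℝ) ^ k * P.eval 0| + |S| := by
    have := abs_sub (S + (-1 : ℝ) ^ k * P.eval 0) S
    rwa [add_sub_cancel_left] at this
  have h11 : K * s * 2 ^ k ≤ K / 2 := by nlinarith
  linarith

end Pool.Agent.Y855.SN
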