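import Mathlib
import Pool.Agent.Y855.S1

set_option autoImplicit false

/-! The polynomials `W` with all zeros close to `1` and `-1`. -/

namespace Pool.Agent.Y855.SN

open Polynomial Set Finset

/-- the zeros -/
noncomputable def c (m j : ℕ) : ℝ := 1 - (j + 1) / (8 * (m + 2) ^ 2)

/-- the nodes -/
noncomputable def sg (m j : ℕ) : ℝ := 1 - (j + 1 / 2) / (8 * (m + 2) ^ 2)

/-- the polynomial with the zeros `c m j`, `j < m + e`, and `- c m j`, `j < m` -/
noncomputable def W (m e : ℕ) : ℝ[X] :=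
  (∏ j ∈ Finset.range (m + e), (X - C (c m j))) * ∏ j ∈ Finset.range m, (X + C (c m j))

theorem Lpos (m : ℕ) : (0 : ℝ) < 8 * ((m : ℝ) + 2) ^ 2 := by positivity

theorem c_lt (m j : ℕ) : c m j < 1 := by
  unfold c
  have := Lpos m
  have h : 0 < ((j : ℝ) + 1) / (8 * ((m : ℝ) + 2) ^ 2) := by positivity
  linarith

theorem c_ge {m j : ℕ} (hj : j ≤ m + 1) : 1 - 1 / (8 * ((m : ℝ) + 2)) ≤ c m j := by
  unfold c
  have h1 : ((j : ℝ) + 1) ≤ (m : ℝ) + 2 := by
    have : (j : ℝ) ≤ m + 1 := by exact_mod_cast hj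
    linarith
  have h2 : ((j : ℝ) + 1) / (8 * ((m : ℝ) + 2) ^ 2) ≤ 1 / (8 * ((m : ℝ) + 2)) := by
    rw [div_le_div_iff₀ (Lpos m) (by positivity)]
    nlinarith [Nat.cast_nonneg (α := ℝ) m]
  linarith

theorem c_pos {m j : ℕ} (hj : j ≤ m + 1) : 1 / 2 ≤ c m j := by
  refine le_trans ?_ (c_ge hj)
  have h2 : 1 / (8 * ((m : ℝ) + 2)) ≤ 1 / 2 := by
    rw [div_le_div_iff₀ (by positivity) (by norm_num)]
    nlinarith [Nat.cast_nonneg (α := ℝ) m]
  linarith

theorem sg_lt_one (m j : ℕ) : sg m j < 1 := by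
  unfold sg
  have := Lpos m
  have h : 0 < ((j : ℝ) + 1 / 2) / (8 * ((m : ℝ) + 2) ^ 2) := by positivity
  linarith

theorem sg_ge {m j : ℕ} (hj : j ≤ m + 1) : 1 / 2 < sg m j := by
  refine lt_of_le_of_lt (c_pos hj) ?_
  unfold sg c
  have := Lpos m
  have h : ((j : ℝ) + 1 / 2) / (8 * ((m : ℝ) + 2) ^ 2) < ((j : ℝ) + 1) / (8 * ((m : ℝ) + 2) ^ 2) := by
    gcongr
    norm_num
  linarith

theorem sg_lt_c {m i j : ℕ} (hij : j < i) : sg m i < c m j := by
  unfold sg c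
  have := Lpos m
  have h1 : ((j : ℝ) + 1) ≤ i := by exact_mod_cast hij
  have h : ((j : ℝ) + 1) / (8 * ((m : ℝ) + 2) ^ 2) < ((i : ℝ) + 1 / 2) / (8 * ((m : ℝ) + 2) ^ 2) :=
    div_lt_div_of_pos_right (by linarith) this
  linarith

theorem c_lt_sg {m i j : ℕ} (hij : i ≤ j) : c m j < sg m i := by
  unfold sg c
  have := Lpos m
  have h1 : (i : ℝ) ≤ j := by exact_mod_cast hij
  have h : ((i : ℝ) + 1 / 2) / (8 * ((m : ℝ) + 2) ^ 2) < ((j : ℝ) + 1) / (8 * ((m : ℝ) + 2) ^ 2) :=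
    div_lt_div_of_pos_right (by linarith) this
  linarith

theorem sg_anti {m i j : ℕ} (hij : i < j) : sg m j < sg m i := (sg_lt_c hij).trans (c_lt_sg le_rfl)

/-- the sign of the products at the nodes -/
theorem sign_prod (m a i : ℕ) (hi : i ≤ a) :
    0 < (-1 : ℝ) ^ i * ∏ j ∈ Finset.range a, (sg m i - c m j) := by
  rw [← Finset.prod_range_mul_prod_Ico _ hi, ← mul_assoc]
  apply mul_pos
  · have h1 : (-1 : ℝ) ^ i * ∏ j ∈ Finset.range i, (sg m i - c m j) =
        ∏ j ∈ Finset.range i, (c m j - sg m i) := by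
      have h2 : (-1 : ℝ) ^ i = ∏ j ∈ Finset.range i, (-1 : ℝ) := by
        rw [Finset.prod_const, Finset.card_range]
      rw [h2, ← Finset.prod_mul_distrib]
      refine Finset.prod_congr rfl fun j _ => ?_
      ring
    rw [h1]
    apply Finset.prod_pos
    intro j hj
    rw [Finset.mem_range] at hj
    exact sub_pos.2 (sg_lt_c hj)
  · apply Finset.prod_pos
    intro j hj
    rw [Finset.mem_Ico] at hj
    exact sub_pos.2 (c_lt_sg hj.1)

theorem W_eval (m e : ℕ) (x : ℝ) : (W m e).eval x =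
    (∏ j ∈ Finset.range (m + e), (x - c m j)) * ∏ j ∈ Finset.range m, (x + c m j) := by
  unfold W
  rw [eval_mul, eval_prod, eval_prod]
  simp

theorem W_ce (m e : ℕ) (z : ℂ) : ce (W m e) z =
    (∏ j ∈ Finset.range (m + e), (z - (c m j : ℂ))) * ∏ j ∈ Finset.range m, (z + (c m j : ℂ)) := by
  unfold ce W
  rw [Polynomial.map_mul, Polynomial.map_prod, Polynomial.map_prod, eval_mul, eval_prod, eval_prod]
  simp

/-- the value at `0` -/
noncomputable def K (m e : ℕ) : ℝ := (∏ j ∈ Finset.range (m + e), c m j) * ∏ j ∈ Finset.range m, c m j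

theorem K_pos {m e : ℕ} (he : e ≤ 1) : 0 < K m e := by
  unfold K
  apply mul_pos
  · apply Finset.prod_pos
    intro j hj
    rw [Finset.mem_range] at hj
    have := c_pos (m := m) (j := j) (by omega)
    linarith
  · apply Finset.prod_pos
    intro j hj
    rw [Finset.mem_range] at hj
    have := c_pos (m := m) (j := j) (by omega)
    linarith

theorem W_zero (m e : ℕ) : |(W m e).eval 0| = K m e ∨ |(W m e).eval 0| = |K m e| := by
  right
  rw [W_eval]
  unfold K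
  rw [abs_mul, abs_mul, Finset.abs_prod, Finset.abs_prod, Finset.abs_prod, Finset.abs_prod]
  simp

/-- the elementary factor -/
theorem factor (c x ρ u : ℝ) (z : ℂ) (hx : |x| ≤ 1) (hz : ‖z - (x : ℂ)‖ ≤ ρ)
    (hc : c ^ 2 = 1 - u) (hu : 0 ≤ u) (hu2 : u ≤ 1 / 2) :
    ‖z ^ 2 - (c : ℂ) ^ 2‖ ≤ c ^ 2 * Real.exp (-x ^ 2 + 2 * ρ * |x| + ρ ^ 2 + 3 * u) := by
  have hρ : 0 ≤ ρ := (norm_nonneg _).trans hz
  have h1 : ‖z ^ 2 - (c : ℂ) ^ 2‖ ≤ |x ^ 2 - c ^ 2| + ρ * (2 * |x| + ρ) := by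
    have e1 : z ^ 2 - (c : ℂ) ^ 2 = ((x ^ 2 - c ^ 2 : ℝ) : ℂ) + (z - x) * ((z - x) + 2 * x) := by
      push_cast
      ring
    rw [e1]
    refine (norm_add_le _ _).trans ?_
    rw [Complex.norm_real, Real.norm_eq_abs, norm_mul]
    have h2 : ‖(z - x) + 2 * (x : ℂ)‖ ≤ ρ + 2 * |x| := by
      refine (norm_add_le _ _).trans ?_
      have : ‖(2 : ℂ) * (x : ℂ)‖ = 2 * |x| := by
        rw [norm_mul, Complex.norm_real, Real.norm_eq_abs]
        simp
      rw [this]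
      linarith
    have h3 : ‖z - (x : ℂ)‖ * ‖(z - x) + 2 * (x : ℂ)‖ ≤ ρ * (ρ + 2 * |x|) :=
      mul_le_mul hz h2 (norm_nonneg _) hρ
    linarith
  have h4 : |x ^ 2 - c ^ 2| ≤ 1 - x ^ 2 + u := by
    rw [hc]
    have : x ^ 2 ≤ 1 := by
      rw [← sq_abs]
      nlinarith [abs_nonneg x]
    rw [abs_le]
    constructor <;> nlinarith [sq_nonneg x]
  set y := -x ^ 2 + 2 * ρ * |x| + ρ ^ 2 + u with hy
  have h5 : ‖z ^ 2 - (c : ℂ) ^ 2‖ ≤ 1 + y := by
    rw [hy]
    linarith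
  have h6 : 1 + y ≤ Real.exp y := by
    have := Real.add_one_le_exp y
    linarith
  have h7 : 1 ≤ (1 - u) * Real.exp (2 * u) := by
    have h8 := Real.add_one_le_exp (2 * u)
    have h9 : 0 ≤ 1 - u := by linarith
    nlinarith
  have h8 : Real.exp y ≤ (1 - u) * Real.exp (2 * u) * Real.exp y := by
    have := Real.exp_pos y
    nlinarith
  calc ‖z ^ 2 - (c : ℂ) ^ 2‖ ≤ Real.exp y := h5.trans h6
    _ ≤ (1 - u) * Real.exp (2 * u) * Real.exp y := h8
    _ = c ^ 2 * Real.exp (-x ^ 2 + 2 * ρ * |x| + ρ ^ 2 + 3 * u) := by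
        rw [hc, mul_assoc, ← Real.exp_add]
        congr 2
        rw [hy]
        ring

/-- the bound for `W` close to the real axis -/
theorem W_bound (m e : ℕ) (he : e ≤ 1) (x ρ : ℝ) (z : ℂ) (hx : |x| ≤ 1) (hρ : ρ ≤ 1)
    (hz : ‖z - (x : ℂ)‖ ≤ ρ) :
    ‖ce (W m e) z‖ ≤ K m e * (5 * Real.exp (m * (-x ^ 2 + 2 * ρ * |x| + ρ ^ 2) + 1)) := by
  have hρ0 : 0 ≤ ρ := (norm_nonneg _).trans hz
  have hz2 : ‖z‖ ≤ 2 := by
    have h1 : ‖z‖ ≤ ‖z - (x : ℂ)‖ + ‖(x : ℂ)‖ := by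
      simpa using norm_add_le (z - (x : ℂ)) (x : ℂ)
    rw [Complex.norm_real, Real.norm_eq_abs] at h1
    linarith
  have hmain : ‖∏ j ∈ Finset.range m, (z ^ 2 - (c m j : ℂ) ^ 2)‖ ≤
      (∏ j ∈ Finset.range m, c m j ^ 2) *
        Real.exp (m * (-x ^ 2 + 2 * ρ * |x| + ρ ^ 2) + 1) := by
    rw [norm_prod]
    set u : ℝ := 1 / (4 * ((m : ℝ) + 2)) with hu
    have h2 : ∀ j ∈ Finset.range m, ‖z ^ 2 - (c m j : ℂ) ^ 2‖ ≤
        c m j ^ 2 * Real.exp (-x ^ 2 + 2 * ρ * |x| + ρ ^ 2 + 3 * u) := by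
      intro j hj
      rw [Finset.mem_range] at hj
      have h3 := c_ge (m := m) (j := j) (by omega)
      have h4 := c_lt m j
      have h5 := c_pos (m := m) (j := j) (by omega)
      have hm0 := Nat.cast_nonneg (α := ℝ) m
      have h6 : 0 ≤ 1 - c m j ^ 2 := by nlinarith
      have h7 : 1 - c m j ^ 2 ≤ u := by
        have h8 : 1 - c m j ≤ 1 / (8 * ((m : ℝ) + 2)) := by linarith
        have h9 : u = 2 * (1 / (8 * ((m : ℝ) + 2))) := by
          rw [hu]
          field_simp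
          norm_num
        rw [h9]
        nlinarith
      have h8 : u ≤ 1 / 2 := by
        rw [hu, div_le_div_iff₀ (by positivity) (by norm_num)]
        linarith
      refine (factor (c m j) x ρ (1 - c m j ^ 2) z hx hz (by ring) h6 (by linarith)).trans ?_
      gcongr
    refine (Finset.prod_le_prod (fun j _ => norm_nonneg _) h2).trans ?_
    rw [Finset.prod_mul_distrib, Finset.prod_const, Finset.card_range, ← Real.exp_nat_mul]
    have h3 : (m : ℝ) * (-x ^ 2 + 2 * ρ * |x| + ρ ^ 2 + 3 * u) ≤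
        m * (-x ^ 2 + 2 * ρ * |x| + ρ ^ 2) + 1 := by
      have h4 : (m : ℝ) * (3 * u) ≤ 1 := by
        rw [hu]
        have hm0 := Nat.cast_nonneg (α := ℝ) m
        rw [mul_one_div, mul_div_assoc', div_le_one (by positivity)]
        nlinarith
      linarith
    gcongr
  have hsplit : ce (W m e) z = (∏ j ∈ Finset.range m, (z ^ 2 - (c m j : ℂ) ^ 2)) *
      (z - (c m m : ℂ)) ^ e := by
    rw [W_ce]
    have h1 : ∏ j ∈ Finset.range (m + e), (z - (c m j : ℂ)) =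
        (∏ j ∈ Finset.range m, (z - (c m j : ℂ))) * (z - (c m m : ℂ)) ^ e := by
      interval_cases e
      · simp
      · rw [Finset.prod_range_succ, pow_one]
    rw [h1, mul_right_comm, ← Finset.prod_mul_distrib]
    congr 1
    refine Finset.prod_congr rfl fun j _ => ?_
    ring
  have hK : K m e = (∏ j ∈ Finset.range m, c m j ^ 2) * (c m m) ^ e := by
    unfold K
    have h1 : ∏ j ∈ Finset.range (m + e), c m j =
        (∏ j ∈ Finset.range m, c m j) * (c m m) ^ e := by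
      interval_cases e
      · simp
      · rw [Finset.prod_range_succ, pow_one]
    rw [h1, mul_right_comm, ← Finset.prod_mul_distrib]
    congr 1
    refine Finset.prod_congr rfl fun j _ => ?_
    ring
  have hcm := c_pos (m := m) (j := m) (by omega)
  have hcl := c_lt m m
  have hlast : ‖(z - (c m m : ℂ)) ^ e‖ ≤ (c m m) ^ e * 5 := by
    interval_cases e
    · simp
    · rw [pow_one, pow_one]
      refine (norm_sub_le _ _).trans ?_
      rw [Complex.norm_real, Real.norm_eq_abs, abs_of_pos (by linarith)]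
      linarith
  rw [hsplit, hK, norm_mul]
  have hP0 : 0 ≤ ∏ j ∈ Finset.range m, c m j ^ 2 := Finset.prod_nonneg fun j _ => sq_nonneg _
  calc _ ≤ ((∏ j ∈ Finset.range m, c m j ^ 2) *
        Real.exp (m * (-x ^ 2 + 2 * ρ * |x| + ρ ^ 2) + 1)) * ((c m m) ^ e * 5) :=
        mul_le_mul hmain hlast (norm_nonneg _) (by positivity)
    _ = _ := by ring

end Pool.Agent.Y855.SN
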