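import Mathlib
import Pool.Agent.Y855.S2
import Pool.Agent.Results.MP_01622d_an.SnakeNotExtremal

set_option autoImplicit false

/-! The two bounds for the `k`-th derivatives and the snake property of `X * W`. -/

namespace Pool.Agent.Y855.SN

open Polynomial Set Finset
open Pool.Agent.Results.MP_01622d_an.SnakeNotExtremal (le_supNorm supNorm_le IsMajorant
  Admissible IsSnake)

/-- the uniform norm on `[-1, 1]` of the starting file -/
noncomputable abbrev sN (P : ℝ[X]) : ℝ :=
  Pool.Agent.Results.MP_01622d_an.SnakeNotExtremal.supNorm P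

theorem exp_aux (y : ℝ) (_hy : 0 ≤ y) : (y + 1) * Real.exp (-y ^ 2 + 2 * y + 2) ≤ 3 * Real.exp 3 := by
  have h1 : Real.exp (-y ^ 2 + 2 * y + 2) = Real.exp 3 * Real.exp (-(y - 1) ^ 2) := by
    rw [← Real.exp_add]
    congr 1
    ring
  have h2 : (y + 1) * Real.exp (-(y - 1) ^ 2) ≤ 3 := by
    rw [Real.exp_neg, ← div_eq_mul_inv, div_le_iff₀ (Real.exp_pos _)]
    have h3 := Real.add_one_le_exp ((y - 1) ^ 2)
    nlinarith [sq_nonneg (y - 1)]
  rw [h1]
  have h3 := Real.exp_pos 3
  nlinarith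

/-- upper bound for the derivatives of `X * W` -/
theorem upper (m e k : ℕ) (he : e ≤ 1) (hm : 1 ≤ m) :
    sN (derivative^[k] (X * W m e)) ≤
      k.factorial * (K m e * (15 * Real.exp 3) / √m) * √m ^ k := by
  have hm0 : (0 : ℝ) < m := by exact_mod_cast hm
  have hs : 0 < √(m : ℝ) := Real.sqrt_pos.2 hm0
  have hs1 : 1 ≤ √(m : ℝ) := Real.one_le_sqrt.2 (by exact_mod_cast hm)
  have hss : √(m : ℝ) ^ 2 = m := Real.sq_sqrt hm0.le
  have hK := K_pos (m := m) he
  apply supNorm_le
  intro x hx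
  have hx1 : |x| ≤ 1 := abs_le.2 ⟨by linarith [hx.1], hx.2⟩
  have h1 := cauchy (X * W m e) k x (1 / √m) (K m e * (15 * Real.exp 3) / √m) (by positivity) (by
    intro z hz
    have e1 : ce (X * W m e) z = z * ce (W m e) z := by
      unfold ce
      rw [Polynomial.map_mul, eval_mul, Polynomial.map_X, eval_X]
    rw [e1, norm_mul]
    have h2 := W_bound m e he x (1 / √m) z hx1 (by
      rw [div_le_one hs]; exact hs1) hz.le
    have h3 : ‖z‖ ≤ |x| + 1 / √m := by
      have h4 : ‖z‖ ≤ ‖z - (x : ℂ)‖ + ‖(x : ℂ)‖ := by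
        simpa using norm_add_le (z - (x : ℂ)) (x : ℂ)
      rw [Complex.norm_real, Real.norm_eq_abs, hz] at h4
      linarith
    set y := √(m : ℝ) * |x| with hy
    have hy0 : 0 ≤ y := by positivity
    have h5 : (m : ℝ) * (-x ^ 2 + 2 * (1 / √m) * |x| + (1 / √m) ^ 2) + 1 =
        -y ^ 2 + 2 * y + 2 := by
      have e2 : (m : ℝ) * x ^ 2 = y ^ 2 := by
        rw [hy, mul_pow, hss, sq_abs]
      have e3 : (m : ℝ) * (2 * (1 / √m) * |x|) = 2 * y := by
        rw [hy]
        nth_rewrite 1 [← hss]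
        field_simp
      have e4 : (m : ℝ) * (1 / √m) ^ 2 = 1 := by
        rw [div_pow, hss, one_pow]
        field_simp
      linear_combination e3 + e4 - e2
    rw [h5] at h2
    have h6 : |x| + 1 / √m = (y + 1) / √m := by
      rw [hy]
      field_simp
    rw [h6] at h3
    have h7 := exp_aux y hy0
    calc ‖z‖ * ‖ce (W m e) z‖ ≤ ((y + 1) / √m) *
          (K m e * (5 * Real.exp (-y ^ 2 + 2 * y + 2))) :=
          mul_le_mul h3 h2 (norm_nonneg _) (by positivity)
      _ = K m e * (5 * ((y + 1) * Real.exp (-y ^ 2 + 2 * y + 2))) / √m := by ring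
      _ ≤ K m e * (5 * (3 * Real.exp 3)) / √m := by gcongr
      _ = K m e * (15 * Real.exp 3) / √m := by ring)
  refine h1.trans (le_of_eq ?_)
  rw [one_div, inv_pow, div_inv_eq_mul]

theorem exp_aux2 (k : ℕ) : 2 ^ k * (5 * Real.exp (1 - ((k : ℝ) + 2) ^ 2)) ≤ 1 / 2 := by
  have h1 : (2 : ℝ) ≤ Real.exp 1 := by
    have := Real.add_one_le_exp (1 : ℝ)
    linarith
  have h2 : (2 : ℝ) ^ k ≤ Real.exp k := by
    calc (2 : ℝ) ^ k ≤ (Real.exp 1) ^ k := by gcongr
      _ = Real.exp k := by rw [← Real.exp_nat_mul, mul_one]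
  have h3 : Real.exp (1 - ((k : ℝ) + 2) ^ 2) ≤ Real.exp (-3 - k) := by
    apply Real.exp_le_exp.2
    nlinarith [Nat.cast_nonneg (α := ℝ) k]
  have h4 : Real.exp k * (5 * Real.exp (-3 - k)) = 5 * Real.exp (-3) := by
    rw [mul_left_comm, ← Real.exp_add]
    congr 2
    ring
  have h5 : 5 * Real.exp (-3) ≤ 1 / 2 := by
    have h6 : Real.exp 3 = Real.exp 1 ^ 3 := by
      rw [← Real.exp_nat_mul]
      norm_num
    have h7 := Real.exp_one_gt_d9
    have h8 : (10 : ℝ) ≤ Real.exp 3 := by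
      rw [h6]
      have : (2.7 : ℝ) ^ 3 ≤ Real.exp 1 ^ 3 := by
        gcongr
        linarith
      norm_num at this ⊢
      linarith
    rw [Real.exp_neg]
    have h9 : (Real.exp 3)⁻¹ ≤ 10⁻¹ := inv_anti₀ (by norm_num) h8
    linarith
  calc 2 ^ k * (5 * Real.exp (1 - ((k : ℝ) + 2) ^ 2)) ≤ Real.exp k * (5 * Real.exp (-3 - k)) := by
        gcongr
    _ ≤ 1 / 2 := by rw [h4]; exact h5

/-- lower bound for the derivatives of `W` -/
theorem lowerW (m e k : ℕ) (he : e ≤ 1) (hm : 1 ≤ m) (hkm : (k : ℝ) * (k + 2) ≤ √m) :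
    K m e / 2 ≤ sN (derivative^[k] (W m e)) * (((k : ℝ) + 2) / √m) ^ k := by
  have hm0 : (0 : ℝ) < m := by exact_mod_cast hm
  have hs : 0 < √(m : ℝ) := Real.sqrt_pos.2 hm0
  have hss : √(m : ℝ) ^ 2 = m := Real.sq_sqrt hm0.le
  have hK := K_pos (m := m) he
  have hk0 := Nat.cast_nonneg (α := ℝ) k
  have hkh : (k : ℝ) * (((k : ℝ) + 2) / √m) ≤ 1 := by
    rw [mul_div_assoc', div_le_one hs]
    exact hkm
  refine lower (((k : ℝ) + 2) / √m) (by positivity) k (W m e) _ (K m e) hK.le ?_ ?_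
    (5 * Real.exp (1 - ((k : ℝ) + 2) ^ 2)) ?_ (by positivity) (exp_aux2 k)
  · intro y hy
    exact le_supNorm _ ⟨by linarith [hy.1], by linarith [hy.2]⟩
  · rcases W_zero m e with h | h
    · exact h.ge
    · rw [h]
      exact le_abs_self _
  · intro j hj1 hjk
    have hj1' : (1 : ℝ) ≤ j := by exact_mod_cast hj1
    have hjk' : (j : ℝ) ≤ k := by exact_mod_cast hjk
    set x : ℝ := (j : ℝ) * (((k : ℝ) + 2) / √m) with hx
    have hx0 : 0 ≤ x := by positivity
    have hx1 : x ≤ 1 := by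
      refine le_trans ?_ hkh
      rw [hx]
      gcongr
    have h1 := W_bound m e he x 0 (x : ℂ) (by rw [abs_of_nonneg hx0]; exact hx1) (by norm_num)
      (by simp)
    rw [ce_ofReal, Complex.norm_real, Real.norm_eq_abs] at h1
    refine h1.trans ?_
    have h2 : (m : ℝ) * (-x ^ 2 + 2 * 0 * |x| + 0 ^ 2) + 1 ≤ 1 - ((k : ℝ) + 2) ^ 2 := by
      have h3 : (m : ℝ) * x ^ 2 = (j : ℝ) ^ 2 * ((k : ℝ) + 2) ^ 2 := by
        rw [hx, mul_pow, div_pow, hss]
        field_simp
      have h4 : ((k : ℝ) + 2) ^ 2 ≤ (j : ℝ) ^ 2 * ((k : ℝ) + 2) ^ 2 := by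
        have : (1 : ℝ) ≤ (j : ℝ) ^ 2 := by nlinarith
        nlinarith [sq_nonneg ((k : ℝ) + 2)]
      linarith
    gcongr

/-- the nodes -/
noncomputable def tau (m e : ℕ) (i : Fin (2 * m + e + 1 + 1)) : ℝ :=
  if (i : ℕ) ≤ m + e then sg m i else -sg m (2 * m + e + 1 - i)

theorem tau_abs (m e : ℕ) (he : e ≤ 1) (i : Fin (2 * m + e + 1 + 1)) :
    1 / 2 < |tau m e i| ∧ |tau m e i| ≤ 1 := by
  have hi := i.isLt
  unfold tau
  split_ifs with h
  · have h1 := sg_ge (m := m) (j := i) (by omega)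
    have h2 := sg_lt_one m i
    rw [abs_of_pos (by linarith)]
    exact ⟨h1, h2.le⟩
  · have h1 := sg_ge (m := m) (j := 2 * m + e + 1 - i) (by omega)
    have h2 := sg_lt_one m (2 * m + e + 1 - i)
    rw [abs_neg, abs_of_pos (by linarith)]
    exact ⟨h1, h2.le⟩

theorem tau_anti (m e : ℕ) (he : e ≤ 1) (i j : Fin (2 * m + e + 1 + 1)) (hij : i < j) :
    tau m e j < tau m e i := by
  have hi := i.isLt
  have hj := j.isLt
  have hij' : (i : ℕ) < j := hij
  unfold tau
  split_ifs with h1 h2 h2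
  · exact sg_anti hij'
  · omega
  · have h3 := sg_ge (m := m) (j := 2 * m + e + 1 - j) (by omega)
    have h4 := sg_ge (m := m) (j := i) (by omega)
    linarith
  · have h3 := sg_anti (m := m) (i := 2 * m + e + 1 - j) (j := 2 * m + e + 1 - i) (by omega)
    linarith

theorem tau_sign (m e : ℕ) (he : e ≤ 1) (i : Fin (2 * m + e + 1 + 1)) :
    0 < (-1 : ℝ) ^ (i : ℕ) * (X * W m e).eval (tau m e i) := by
  have hi := i.isLt
  rw [eval_mul, eval_X, W_eval]
  unfold tau
  split_ifs with h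
  · have h1 := sign_prod m (m + e) i h
    have h2 := sg_ge (m := m) (j := i) (by omega)
    have h3 : 0 < ∏ j ∈ Finset.range m, (sg m i + c m j) := by
      apply Finset.prod_pos
      intro j hj
      rw [Finset.mem_range] at hj
      have := c_pos (m := m) (j := j) (by omega)
      linarith
    have h4 : 0 < (-1 : ℝ) ^ (i : ℕ) * (∏ j ∈ Finset.range (m + e), (sg m i - c m j)) * sg m i *
        ∏ j ∈ Finset.range m, (sg m i + c m j) := by
      have : 0 < sg m i := by linarith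
      positivity
    calc 0 < _ := h4
      _ = _ := by ring
  · obtain ⟨l, hl⟩ : ∃ l, l = 2 * m + e + 1 - (i : ℕ) := ⟨_, rfl⟩
    rw [← hl]
    have h1 := sign_prod m m l (by omega)
    have h2 := sg_ge (m := m) (j := l) (by omega)
    have h3 : 0 < ∏ j ∈ Finset.range (m + e), (sg m l + c m j) := by
      apply Finset.prod_pos
      intro j hj
      rw [Finset.mem_range] at hj
      have := c_pos (m := m) (j := j) (by omega)
      linarith
    have e1 : ∏ j ∈ Finset.range (m + e), (-sg m l - c m j) =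
        (-1 : ℝ) ^ (m + e) * ∏ j ∈ Finset.range (m + e), (sg m l + c m j) := by
      have h5 : (-1 : ℝ) ^ (m + e) = ∏ j ∈ Finset.range (m + e), (-1 : ℝ) := by
        rw [Finset.prod_const, Finset.card_range]
      rw [h5, ← Finset.prod_mul_distrib]
      refine Finset.prod_congr rfl fun j _ => ?_
      ring
    have e2 : ∏ j ∈ Finset.range m, (-sg m l + c m j) =
        (-1 : ℝ) ^ m * ∏ j ∈ Finset.range m, (sg m l - c m j) := by
      have h5 : (-1 : ℝ) ^ m = ∏ j ∈ Finset.range m, (-1 : ℝ) := by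
        rw [Finset.prod_const, Finset.card_range]
      rw [h5, ← Finset.prod_mul_distrib]
      refine Finset.prod_congr rfl fun j _ => ?_
      ring
    rw [e1, e2]
    have e3 : (-1 : ℝ) ^ (i : ℕ) * (-1) ^ (m + e) * (-1) ^ m * (-1) = (-1) ^ l := by
      have h6 : (-1 : ℝ) ^ (i : ℕ) * (-1) ^ (m + e) * (-1) ^ m * (-1) =
          (-1) ^ ((i : ℕ) + (m + e) + m + 1) := by
        rw [pow_add _ ((i : ℕ) + (m + e) + m) 1, pow_add _ ((i : ℕ) + (m + e)) m,
          pow_add _ (i : ℕ) (m + e), pow_one]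
      rw [h6]
      have h7 : (i : ℕ) + (m + e) + m + 1 = l + 2 * i := by omega
      rw [h7, pow_add, pow_mul]
      simp
    have h4 : 0 < ((-1 : ℝ) ^ l * ∏ j ∈ Finset.range m, (sg m l - c m j)) * sg m l *
        ∏ j ∈ Finset.range (m + e), (sg m l + c m j) := by
      have : 0 < sg m l := by linarith
      positivity
    calc 0 < _ := h4
      _ = ((-1 : ℝ) ^ (i : ℕ) * (-1) ^ (m + e) * (-1) ^ m * (-1)) *
          (∏ j ∈ Finset.range m, (sg m l - c m j)) * sg m l *
          ∏ j ∈ Finset.range (m + e), (sg m l + c m j) := by rw [e3]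
      _ = _ := by ring

/-- the competitor -/
noncomputable def q (m e : ℕ) : ℝ[X] := C (1 / 2) * W m e

/-- the majorant -/
noncomputable def mu (m e : ℕ) (x : ℝ) : ℝ :=
  max |(X * W m e).eval x| |(q m e).eval x| + ∏ i : Fin (2 * m + e + 1 + 1), |x - tau m e i|

theorem mu_cont (m e : ℕ) : Continuous (mu m e) := by
  unfold mu
  refine Continuous.add ?_ ?_
  · exact ((Polynomial.continuous _).abs).max ((Polynomial.continuous _).abs)
  · exact continuous_finsetProd _ fun i _ => (continuous_id.sub continuous_const).abs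

theorem prod_nonneg' (m e : ℕ) (x : ℝ) : 0 ≤ ∏ i : Fin (2 * m + e + 1 + 1), |x - tau m e i| :=
  Finset.prod_nonneg fun _ _ => abs_nonneg _

theorem mu_tau (m e : ℕ) (he : e ≤ 1) (i : Fin (2 * m + e + 1 + 1)) :
    mu m e (tau m e i) = |(X * W m e).eval (tau m e i)| := by
  unfold mu
  rw [Finset.prod_eq_zero (Finset.mem_univ i) (by simp), add_zero, max_eq_left]
  unfold q
  rw [eval_mul, eval_mul, eval_C, eval_X, abs_mul, abs_mul]
  have h1 := (tau_abs m e he i).1
  have h2 : |(1 / 2 : ℝ)| = 1 / 2 := abs_of_pos (by norm_num)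
  rw [h2]
  gcongr

theorem mu_pos (m e : ℕ) (he : e ≤ 1) (x : ℝ) : 0 < mu m e x := by
  by_cases h : ∃ i, x = tau m e i
  · obtain ⟨i, rfl⟩ := h
    rw [mu_tau m e he i, abs_pos]
    intro h0
    have := tau_sign m e he i
    rw [h0, mul_zero] at this
    exact lt_irrefl _ this
  · push Not at h
    unfold mu
    have h1 : 0 < ∏ i : Fin (2 * m + e + 1 + 1), |x - tau m e i| :=
      Finset.prod_pos fun i _ => abs_pos.2 (sub_ne_zero.2 (h i))
    have h2 : 0 ≤ max |(X * W m e).eval x| |(q m e).eval x| := le_max_of_le_left (abs_nonneg _)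
    linarith

theorem W_deg (m e : ℕ) : (W m e).natDegree ≤ 2 * m + e := by
  unfold W
  refine natDegree_mul_le.trans ?_
  have h1 : (∏ j ∈ Finset.range (m + e), (X - C (c m j) : ℝ[X])).natDegree ≤ m + e := by
    refine (natDegree_prod_le _ _).trans ?_
    refine (Finset.sum_le_sum (fun j _ => (natDegree_X_sub_C (c m j)).le)).trans ?_
    simp
  have h2 : (∏ j ∈ Finset.range m, (X + C (c m j) : ℝ[X])).natDegree ≤ m := by
    refine (natDegree_prod_le _ _).trans ?_
    refine (Finset.sum_le_sum (fun j _ => (natDegree_X_add_C (c m j)).le)).trans ?_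
    simp
  omega

theorem snake (m e : ℕ) (he : e ≤ 1) : IsMajorant (mu m e) ∧
    IsSnake (2 * m + e + 1) (mu m e) (X * W m e) ∧ Admissible (2 * m + e + 1) (mu m e) (q m e) := by
  refine ⟨⟨(mu_cont m e).continuousOn, fun x _ => (mu_pos m e he x).le⟩,
    ⟨⟨?_, ?_⟩, tau m e, tau_anti m e he, ?_, ?_⟩, ?_, ?_⟩
  · refine natDegree_mul_le.trans ?_
    have := W_deg m e
    rw [natDegree_X]
    omega
  · intro x _
    unfold mu
    have h1 := prod_nonneg' m e x
    have h2 := le_max_left |(X * W m e).eval x| |(q m e).eval x|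
    linarith
  · intro i
    exact abs_le.1 (tau_abs m e he i).2
  · intro i
    rw [mu_tau m e he i]
    have h1 := tau_sign m e he i
    rcases Nat.even_or_odd (i : ℕ) with h | h
    · rw [h.neg_one_pow, one_mul] at h1 ⊢
      rw [abs_of_pos h1]
    · rw [h.neg_one_pow] at h1 ⊢
      rw [abs_of_neg (by linarith)]
      ring
  · unfold q
    refine natDegree_C_mul_le _ _ |>.trans ?_
    have := W_deg m e
    omega
  · intro x _
    unfold mu
    have h1 := prod_nonneg' m e x
    have h2 := le_max_right |(X * W m e).eval x| |(q m e).eval x|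
    linarith

end Pool.Agent.Y855.SN
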