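import Pool.Agent.Y855.A18

/-!
Examples of sets of exponent vectors: curves and boxes.
-/

set_option autoImplicit false

open Finset

namespace Pool.Agent.Y855

/-- the moment curve -/
def curve (r N : ℕ) : Finset (Fin r → ℕ) := (range N).image (fun t i => t ^ ((i : ℕ) + 1))

theorem curve_card (r N : ℕ) (hr : 1 ≤ r) : (curve r N).card = N := by
  unfold curve
  rw [card_image_of_injOn, card_range]
  intro s _ t _ h
  have := congrFun h ⟨0, hr⟩
  simpa using this

theorem HypC_curve (r N z : ℕ) (hN : N ≤ z + 1) : HypC (curve r N) z r := by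
  intro l hl hzl u hu c
  have : Fact l.Prime := ⟨hl⟩
  set P : Polynomial (ZMod l) := ∑ i : Fin r, Polynomial.C (u i) * Polynomial.X ^ ((i : ℕ) + 1) -
    Polynomial.C c with hP
  have hcoef : ∀ j : Fin r, P.coeff ((j : ℕ) + 1) = u j := by
    intro j
    rw [hP, Polynomial.coeff_sub, Polynomial.finsetSum_coeff, Polynomial.coeff_C_succ, sub_zero]
    rw [Finset.sum_eq_single j]
    · rw [Polynomial.coeff_C_mul_X_pow, if_pos rfl]
    · intro i _ hij
      rw [Polynomial.coeff_C_mul_X_pow, if_neg]
      intro h
      apply hij
      apply Fin.ext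
      omega
    · intro h
      exact absurd (mem_univ j) h
  have hP0 : P ≠ 0 := by
    intro h
    apply hu
    funext j
    rw [← hcoef j, h, Polynomial.coeff_zero]
    rfl
  have hdeg : P.natDegree ≤ r := by
    rw [hP]
    refine (Polynomial.natDegree_sub_le _ _).trans (max_le ?_ ?_)
    · apply Polynomial.natDegree_sum_le_of_forall_le
      intro i _
      refine (Polynomial.natDegree_C_mul_X_pow_le _ _).trans ?_
      omega
    · rw [Polynomial.natDegree_C]
      omega
  have hroots : (P.roots.toFinset).card ≤ r :=
    (Multiset.toFinset_card_le _).trans ((Polynomial.card_roots' P).trans hdeg)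
  refine le_trans ?_ hroots
  set S := (range N).filter (fun t : ℕ => ∑ i : Fin r, u i * ((t ^ ((i : ℕ) + 1) : ℕ) : ZMod l) = c)
    with hS
  have h1 : ((curve r N).filter (fun v => ∑ i, u i * (v i : ZMod l) = c)).card ≤ S.card := by
    unfold curve
    rw [filter_image]
    exact card_image_le
  refine h1.trans ?_
  apply card_le_card_of_injOn (fun t : ℕ => (t : ZMod l))
  · intro t ht
    rw [hS, mem_coe, mem_filter, mem_range] at ht
    rw [mem_coe, Multiset.mem_toFinset, Polynomial.mem_roots hP0, Polynomial.IsRoot.def, hP,
      Polynomial.eval_sub, Polynomial.eval_finset_sum, Polynomial.eval_C, sub_eq_zero, ← ht.2]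
    apply sum_congr rfl
    intro i _
    rw [Polynomial.eval_mul, Polynomial.eval_C, Polynomial.eval_pow, Polynomial.eval_X]
    push_cast
    rfl
  · intro s hs t ht h
    rw [hS, mem_coe, mem_filter, mem_range] at hs ht
    simp only at h
    rw [ZMod.natCast_eq_natCast_iff] at h
    exact Nat.ModEq.eq_of_lt_of_lt h (by omega) (by omega)

/-- the box -/
def box (r N : ℕ) : Finset (Fin r → ℕ) := Fintype.piFinset (fun _ => range N)

theorem box_card (r N : ℕ) : (box r N).card = N ^ r := by
  unfold box
  rw [Fintype.card_piFinset]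
  simp

theorem HypC_box (r N z : ℕ) (hN : N ≤ z + 1) : HypC (box r N) z (N ^ (r - 1)) := by
  classical
  intro l hl hzl u hu c
  have : Fact l.Prime := ⟨hl⟩
  obtain ⟨j, hj⟩ : ∃ j, u j ≠ 0 := by
    by_contra hcon
    push Not at hcon
    exact hu (funext hcon)
  have hr : 1 ≤ r := by
    have := j.2
    omega
  -- the vectors of the box with `v j = 0`
  set W : Finset (Fin r → ℕ) := Fintype.piFinset (fun i => if i = j then {0} else range N) with hW
  have hWc : W.card = N ^ (r - 1) := by
    rw [hW, Fintype.card_piFinset, ← Finset.mul_prod_erase univ _ (mem_univ j), if_pos rfl,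
      card_singleton, one_mul]
    rw [prod_congr rfl (g := fun _ => N)]
    · rw [prod_const, card_erase_of_mem (mem_univ j), card_univ, Fintype.card_fin]
    · intro i hi
      rw [if_neg (mem_erase.1 hi).1, card_range]
  rw [← hWc]
  apply card_le_card_of_injOn (fun v => Function.update v j 0)
  · intro v hv
    rw [mem_coe, mem_filter] at hv
    unfold box at hv
    rw [Fintype.mem_piFinset] at hv
    rw [mem_coe, hW, Fintype.mem_piFinset]
    intro i
    simp only
    by_cases hi : i = j
    · rw [if_pos hi, hi, Function.update_self, mem_singleton]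
    · rw [if_neg hi, Function.update_of_ne hi]
      exact hv.1 i
  · intro v hv w hw h
    rw [mem_coe, mem_filter] at hv hw
    unfold box at hv hw
    rw [Fintype.mem_piFinset] at hv hw
    simp only at h
    have h1 : ∀ i, i ≠ j → v i = w i := by
      intro i hi
      have := congrFun h i
      rwa [Function.update_of_ne hi, Function.update_of_ne hi] at this
    have h2 : ∑ i, u i * (v i : ZMod l) = ∑ i, u i * (w i : ZMod l) := by rw [hv.2, hw.2]
    rw [← Finset.add_sum_erase univ _ (mem_univ j), ← Finset.add_sum_erase univ _ (mem_univ j),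
      sum_congr rfl (fun i hi => by rw [h1 i (mem_erase.1 hi).1])] at h2
    have h3 := add_right_cancel h2
    have h4 := mul_left_cancel₀ hj h3
    rw [ZMod.natCast_eq_natCast_iff] at h4
    have h5 := mem_range.1 (hv.1 j)
    have h6 := mem_range.1 (hw.1 j)
    have h7 := Nat.ModEq.eq_of_lt_of_lt h4 (by omega) (by omega)
    funext i
    by_cases hi : i = j
    · rw [hi]; exact h7
    · exact h1 i hi

end Pool.Agent.Y855
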