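import Pool.Agent.Y855.A12

/-!
Artin's density in sifted sets of primes, outside a bounded number of independent bases: assembly.
-/

set_option autoImplicit false

open Finset

namespace Pool.Agent.Y855

open Pool.Agent.H442R2.KF

theorem x_facts (x : ℕ) (hx3 : 3 ≤ x) (w : ℕ) (hw : w = Nat.sqrt (Nat.sqrt x)) :
    x < (w + 1) ^ 4 ∧ (w : ℝ) ≤ (x : ℝ) ^ (1 / 4 : ℝ) ∧ (1 : ℝ) ≤ (x : ℝ) ^ (1 / 4 : ℝ) := by
  have hx3r : (3 : ℝ) ≤ x := by exact_mod_cast hx3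
  refine ⟨?_, ?_, Real.one_le_rpow (by linarith) (by norm_num)⟩
  · have h1 : Nat.sqrt x < (w + 1) * (w + 1) := by rw [hw]; exact Nat.lt_succ_sqrt _
    have h2 : x < (Nat.sqrt x + 1) * (Nat.sqrt x + 1) := Nat.lt_succ_sqrt _
    have h3 : Nat.sqrt x + 1 ≤ (w + 1) * (w + 1) := h1
    calc x < (Nat.sqrt x + 1) * (Nat.sqrt x + 1) := h2
      _ ≤ ((w + 1) * (w + 1)) * ((w + 1) * (w + 1)) := Nat.mul_le_mul h3 h3
      _ = (w + 1) ^ 4 := by ring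
  · have h1 : w * w ≤ Nat.sqrt x := by rw [hw]; exact Nat.sqrt_le _
    have h2 : Nat.sqrt x * Nat.sqrt x ≤ x := Nat.sqrt_le _
    have h3 : w ^ 4 ≤ x := by
      calc w ^ 4 = (w * w) * (w * w) := by ring
        _ ≤ Nat.sqrt x * Nat.sqrt x := Nat.mul_le_mul h1 h1
        _ ≤ x := h2
    have h4 : ((w : ℝ)) ^ 4 ≤ x := by exact_mod_cast h3
    have h5 : (((w : ℝ)) ^ 4) ^ (1 / 4 : ℝ) ≤ (x : ℝ) ^ (1 / 4 : ℝ) :=
      Real.rpow_le_rpow (by positivity) h4 (by norm_num)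
    rw [← Real.rpow_natCast, ← Real.rpow_mul (Nat.cast_nonneg _)] at h5
    norm_num at h5
    exact h5

theorem log2_le (z : ℕ) (hz2 : 2 ≤ z) (L : ℝ) (hℓL : Real.log z ≤ L) (hL : 120 ≤ L) :
    ((Nat.log 2 z : ℝ) + 2) ≤ 4 * L := by
  have h5 : (Nat.log 2 z : ℝ) * Real.log 2 ≤ Real.log z := by
    have h6 : 2 ^ Nat.log 2 z ≤ z := Nat.pow_log_le_self 2 (by omega)
    have h7 : ((2 : ℝ)) ^ Nat.log 2 z ≤ z := by exact_mod_cast h6
    have h8 := Real.log_le_log (by positivity) h7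
    rwa [Real.log_pow] at h8
  have h6 := Real.log_two_gt_d9
  have h7 : (0 : ℝ) ≤ (Nat.log 2 z : ℝ) := Nat.cast_nonneg _
  nlinarith

/-- the count for one base -/
theorem one_base (B B₁ : ℕ) (K ε₁ ε : ℝ) (x z : ℕ) (L ℓ PV t SQ : ℝ) (S : Sz B K B₁ x z L ℓ)
    (hε₁ : 0 < ε₁) (hε₁ε : 20 * ε₁ ≤ ε) (hPV0 : 0 < PV)
    (ht : t = ((TT x z).card : ℝ)) (hT : |t - PV| ≤ 2 * ε₁ * PV) (htPV : PV ≤ 2 * t)
    (hPV : PV = piN x * VP (OP z))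
    (hSQ : SQ = ∑ d ∈ Icc 1 ⌊(x : ℝ) ^ (2 / 5 : ℝ)⌋₊, Es x d)
    (herr : L ^ (B + 1) * (12 * SQ) ≤ ε₁ * PV) (hsm : 3 * L ^ B ≤ ε₁ * PV)
    (hTQ : ∀ m : ℕ, Squarefree m → m.primeFactors ⊆ OP z →
      |((TQ x z m).card : ℝ) - dl m * (piN x * VP (OP z))| ≤
      ε₁ * (piN x * VP (OP z)) + m * ((Nat.log 2 z + 2) * ∑ d ∈ Icc 1 (m * z ^ B₁), Es x d))
    (H : ℕ) (hH2 : 2 ≤ H) (hHr : (H : ℝ) ≤ 3 * L ^ B) (n D k : ℤ) (hn0 : n ≠ 0)
    (hnr : (n.natAbs : ℝ) ≤ L ^ B) (hnH : n.natAbs ≤ H) (hD : Squarefree D) (hD4 : D % 4 = 1)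
    (hn : n = D * k ^ 2) (hbad : ((Bad n x z H).card : ℝ) ≤ ε / 4 * t) :
    |((PR n x z).card : ℝ) - dl D.natAbs * t| ≤ ε * t := by
  have hL120 := S.hL120
  have hL0 : 0 < L := by linarith
  have hx3r : (3 : ℝ) ≤ x := by exact_mod_cast S.hx3
  have hx0 : (0 : ℝ) < x := by linarith
  have hm : Squarefree D.natAbs := Int.squarefree_natAbs.2 hD
  obtain ⟨m, hmD⟩ : ∃ m : ℕ, m = D.natAbs := ⟨_, rfl⟩
  rw [← hmD] at hm ⊢
  have hDn : D ∣ n := ⟨k ^ 2, hn⟩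
  have hmn : m ≤ n.natAbs := by
    rw [hmD]
    exact Nat.le_of_dvd (Int.natAbs_pos.2 hn0) (Int.natAbs_dvd_natAbs.2 hDn)
  have hmr : (m : ℝ) ≤ L ^ B := le_trans (by exact_mod_cast hmn) hnr
  have hmz : m ≤ z := by
    have : (m : ℝ) ≤ z := hmr.trans S.hLBz
    exact_mod_cast this
  have hm0 : 0 < m := Nat.pos_of_ne_zero hm.ne_zero
  have hmOP : m.primeFactors ⊆ OP z := by
    intro q hq
    have hqp := Nat.prime_of_mem_primeFactors hq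
    have hqm := Nat.dvd_of_mem_primeFactors hq
    rw [mem_OP]
    refine ⟨hqp, ?_, (Nat.le_of_dvd hm0 hqm).trans hmz⟩
    rcases Nat.lt_or_ge q 3 with h | h
    · exfalso
      have h2 : q = 2 := by have := hqp.two_le; omega
      rw [h2, hmD] at hqm
      have : (2 : ℤ) ∣ D := Int.natCast_dvd.2 hqm
      omega
    · exact h
  have hm3 : ∀ q ∈ m.primeFactors, 3 ≤ q := fun q hq => (mem_OP.1 (hmOP hq)).2.1
  have hdl0 := dl_nonneg m hm hm3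
  have hdl1 := dl_le_one m hm3
  have h1 := hTQ m hm hmOP
  rw [← hPV] at h1
  -- the error
  have hSQ0 : 0 ≤ SQ := by rw [hSQ]; exact sum_nonneg fun d _ => Es_nonneg x d
  have hsub : ∑ d ∈ Icc 1 (m * z ^ B₁), Es x d ≤ SQ := by
    rw [hSQ]
    apply sum_le_sum_of_subset_of_nonneg
    · apply Icc_subset_Icc_right
      apply Nat.le_floor
      push_cast
      calc (m : ℝ) * (z : ℝ) ^ B₁ ≤ (x : ℝ) ^ (1 / 4 : ℝ) * (x : ℝ) ^ (1 / 7 : ℝ) :=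
            mul_le_mul (hmr.trans S.hLBx) S.hzB (by positivity) (by positivity)
        _ = (x : ℝ) ^ (1 / 4 + 1 / 7 : ℝ) := (Real.rpow_add hx0 _ _).symm
        _ ≤ (x : ℝ) ^ (2 / 5 : ℝ) :=
            Real.rpow_le_rpow_of_exponent_le (by linarith) (by norm_num)
    · intro d _ _
      exact Es_nonneg x d
  have hlog2 := log2_le z S.hz2 L (by rw [← S.hℓ]; exact S.hℓL) hL120
  have hE : (m : ℝ) * ((Nat.log 2 z + 2) * ∑ d ∈ Icc 1 (m * z ^ B₁), Es x d) ≤ ε₁ * PV := by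
    have h2 : ((Nat.log 2 z : ℝ) + 2) * ∑ d ∈ Icc 1 (m * z ^ B₁), Es x d ≤ (4 * L) * SQ :=
      mul_le_mul hlog2 hsub (sum_nonneg fun d _ => Es_nonneg x d) (by positivity)
    have h3 : (m : ℝ) * ((Nat.log 2 z + 2) * ∑ d ∈ Icc 1 (m * z ^ B₁), Es x d) ≤
        L ^ B * ((4 * L) * SQ) := by
      apply mul_le_mul hmr h2 _ (by positivity)
      exact mul_nonneg (by positivity) (sum_nonneg fun d _ => Es_nonneg x d)
    have h4 : L ^ B * ((4 * L) * SQ) ≤ L ^ (B + 1) * (12 * SQ) := by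
      have h5 : L ^ B * ((4 * L) * SQ) = L ^ (B + 1) * (4 * SQ) := by rw [pow_succ]; ring
      rw [h5]
      apply mul_le_mul_of_nonneg_left _ (by positivity)
      linarith
    linarith
  have h2 := PR_close n D k hn hD4 hn0 x z H hnH hH2
  rw [← hmD] at h2
  have h3 : |((PR n x z).card : ℝ) - (TQ x z m).card| ≤ ε₁ * PV + ε / 4 * t := by
    refine h2.trans ?_
    linarith
  have h4 : |((TQ x z m).card : ℝ) - dl m * PV| ≤ 2 * (ε₁ * PV) := by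
    refine h1.trans ?_
    linarith
  have h5 : |dl m * PV - dl m * t| ≤ 2 * (ε₁ * PV) := by
    rw [← mul_sub, abs_mul, abs_of_nonneg hdl0, abs_sub_comm]
    calc dl m * |t - PV| ≤ 1 * |t - PV| := mul_le_mul_of_nonneg_right hdl1 (abs_nonneg _)
      _ ≤ _ := by rw [one_mul]; linarith
  have h6 : |((PR n x z).card : ℝ) - dl m * t| ≤
      |((PR n x z).card : ℝ) - (TQ x z m).card| + |((TQ x z m).card : ℝ) - dl m * PV| +
      |dl m * PV - dl m * t| := by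
    have e : ((PR n x z).card : ℝ) - dl m * t = (((PR n x z).card : ℝ) - (TQ x z m).card) +
      (((TQ x z m).card : ℝ) - dl m * PV) + (dl m * PV - dl m * t) := by ring
    rw [e]
    exact abs_add_three _ _ _
  have h7 : ε₁ * PV ≤ ε₁ * (2 * t) := mul_le_mul_of_nonneg_left htPV hε₁.le
  have ht0 : 0 < t := by linarith
  have h8 : 20 * ε₁ * t ≤ ε * t := mul_le_mul_of_nonneg_right hε₁ε ht0.le
  have h9 : 0 < ε * t := by
    have : 0 < ε := by linarith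
    positivity
  linarith

theorem main (B : ℕ) (ε : ℝ) (hε : 0 < ε) : ∃ K : ℝ, 1 ≤ K ∧ ∃ x₀ : ℕ, ∀ x : ℕ, x₀ ≤ x →
    ∀ z : ℕ, K * (Real.log x * Real.log (Real.log x)) ≤ (Real.log z) ^ 2 → (z : ℝ) ^ K ≤ x →
    ∀ M : Finset ℤ, (∀ n ∈ M, n ≠ 0 ∧ |(n : ℝ)| ≤ (Real.log x) ^ B) → MI M →
    (x : ℝ) / (K * (Real.log x * Real.log z)) ≤ ((TT x z).card : ℝ) ∧
    ∃ E ⊆ M, (E.card : ℝ) ≤ K * (Real.log x / Real.log z) ∧ ∀ n ∈ M \ E, ∀ D k : ℤ,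
      Squarefree D → D % 4 = 1 → n = D * k ^ 2 →
      |((PR n x z).card : ℝ) - dl D.natAbs * (TT x z).card| ≤ ε * (TT x z).card := by
  classical
  obtain ⟨ε₁, hε₁⟩ : ∃ ε₁ : ℝ, ε₁ = min ε 1 / 20 := ⟨_, rfl⟩
  have hmin : 0 < min ε 1 := lt_min hε one_pos
  have hε₁0 : 0 < ε₁ := by rw [hε₁]; positivity
  have hε₁1 : ε₁ ≤ 1 / 20 := by
    rw [hε₁]
    have := min_le_right ε 1
    linarith
  have hε₁ε : 20 * ε₁ ≤ ε := by
    rw [hε₁]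
    have := min_le_left ε 1
    linarith
  obtain ⟨B₁, hB₁, hasy⟩ := asymp ε₁ hε₁0
  obtain ⟨CS, hCS, hSL⟩ := SL_bound
  obtain ⟨cV, hcV, hV⟩ := VP_lower
  obtain ⟨Xπ, hXπ3, hπ⟩ := piN_ge
  obtain ⟨CB, hCB, hBV⟩ := bvEs (B + 1 + 5)
  obtain ⟨C₁, hC₁⟩ : ∃ C₁ : ℝ, C₁ = 30 + 2 * CS := ⟨_, rfl⟩
  have hC₁0 : 0 < C₁ := by rw [hC₁]; linarith
  obtain ⟨K, hK⟩ : ∃ K : ℝ, K = 7 * B₁ + 36 * (B + 1) + 4 / cV + 4 * C₁ / ε := ⟨_, rfl⟩
  have hB₁r : (1 : ℝ) ≤ B₁ := by exact_mod_cast hB₁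
  have hBr : (0 : ℝ) ≤ B := Nat.cast_nonneg B
  have hp1 : 0 < 4 / cV := by positivity
  have hp2 : 0 < 4 * C₁ / ε := by positivity
  have hKa : 7 * (B₁ : ℝ) ≤ K := by rw [hK]; linarith
  have hKb : 36 * ((B : ℝ) + 1) ≤ K := by rw [hK]; linarith
  have hKc : 4 / cV ≤ K := by rw [hK]; linarith
  have hKd : 4 * C₁ / ε ≤ K := by rw [hK]; linarith
  have hK1 : 1 ≤ K := by linarith
  obtain ⟨Q₀, hQ₀⟩ : ∃ Q₀ : ℝ, Q₀ = 54 / cV + 6 / (ε₁ * cV) + 2 := ⟨_, rfl⟩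
  have hp3 : 0 < 54 / cV := by positivity
  have hp4 : 0 < 6 / (ε₁ * cV) := by positivity
  have hQ1 : 1 ≤ Q₀ := by rw [hQ₀]; linarith
  have hQa : 54 / cV ≤ Q₀ := by rw [hQ₀]; linarith
  have hQb : 6 / (ε₁ * cV) ≤ Q₀ := by rw [hQ₀]; linarith
  obtain ⟨L₀, hL₀⟩ := ev_exp (B + 3) Q₀
  obtain ⟨L₁, hL₁⟩ : ∃ L₁ : ℝ, L₁ = max (max L₀ 120) (24 * CB / (cV * ε₁) + 1) := ⟨_, rfl⟩
  refine ⟨K, hK1, max Xπ ⌈Real.exp L₁⌉₊, ?_⟩
  intro x hx z hKL hzK M hM0 hMI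
  have hxXπ : Xπ ≤ x := (le_max_left _ _).trans hx
  have hx3 : 3 ≤ x := hXπ3.trans hxXπ
  have hx3r : (3 : ℝ) ≤ x := by exact_mod_cast hx3
  have hx0 : (0 : ℝ) < x := by linarith
  obtain ⟨L, hL⟩ : ∃ L : ℝ, L = Real.log x := ⟨_, rfl⟩
  have hLL₁ : L₁ ≤ L := by
    rw [hL, Real.le_log_iff_exp_le hx0]
    have h1 := Nat.le_ceil (Real.exp L₁)
    have h2 : ((⌈Real.exp L₁⌉₊ : ℕ) : ℝ) ≤ x := by exact_mod_cast (le_max_right _ _).trans hx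
    linarith
  have hL120 : 120 ≤ L := by
    rw [hL₁] at hLL₁
    exact ((le_max_right _ _).trans (le_max_left _ _)).trans hLL₁
  have hLL₀ : L₀ ≤ L := by
    rw [hL₁] at hLL₁
    exact ((le_max_left _ _).trans (le_max_left _ _)).trans hLL₁
  have hLc : 24 * CB / (cV * ε₁) ≤ L := by
    rw [hL₁] at hLL₁
    have := (le_max_right _ _).trans hLL₁
    linarith
  have hexp := hL₀ L hLL₀
  obtain ⟨ℓ, hℓ⟩ : ∃ ℓ : ℝ, ℓ = Real.log z := ⟨_, rfl⟩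
  have S : Sz B K B₁ x z L ℓ := by
    rw [hℓ]
    exact sz B K B₁ hK1 hKa Q₀ hQ1 x z L hL hL120 hx3 hexp hKL hzK
  rw [← hL, ← hℓ]
  have hL0 : 0 < L := by linarith
  have hL1 : 1 ≤ L := by linarith
  have hℓ0 : 0 < ℓ := by linarith [S.hℓ1]
  have hXL : Real.exp L = x := by rw [hL]; exact Real.exp_log hx0
  obtain ⟨PV, hPV⟩ : ∃ PV : ℝ, PV = piN x * VP (OP z) := ⟨_, rfl⟩
  obtain ⟨hPVlow, hPVlow2⟩ := PV_low cV hcV x z L ℓ PV hL0 hℓ0 S.hℓL hPV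
    (by rw [hL]; exact hπ x hxXπ) (by rw [hℓ]; exact hV z S.hz2)
  have hPV0 : 0 < PV := lt_of_lt_of_le (by positivity) hPVlow2
  obtain ⟨SQ, hSQ⟩ : ∃ SQ : ℝ, SQ = ∑ d ∈ Icc 1 ⌊(x : ℝ) ^ (2 / 5 : ℝ)⌋₊, Es x d := ⟨_, rfl⟩
  have hBVx : SQ ≤ CB * (x / L ^ (B + 1 + 5)) := by rw [hSQ, hL]; exact hBV x hx3
  have hSQ0 : 0 ≤ SQ := by rw [hSQ]; exact sum_nonneg fun d _ => Es_nonneg x d
  have herr2 := err_gen (B + 1) cV CB ε₁ hcV hε₁0 x L PV SQ hx0 hL1 hBVx hPVlow2 hLc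
  have herr : L ^ (B + 1) * (12 * SQ) ≤ ε₁ * PV := by
    refine le_trans ?_ herr2
    apply mul_le_mul_of_nonneg_right _ (by positivity)
    exact pow_le_pow_right₀ hL1 (by omega)
  have hsm := small_gen2 B cV Q₀ ε₁ hcV hε₁0 hQb x L PV hx0 hL1 hXL hexp hPVlow2
  have hExc2 := small_gen B cV Q₀ hcV hQa x L ℓ PV hx0 hL1 S.hsq hexp hPVlow2
  obtain ⟨w, hw⟩ : ∃ w : ℕ, w = Nat.sqrt (Nat.sqrt x) := ⟨_, rfl⟩
  obtain ⟨hw1, hw2, hx14⟩ := x_facts x hx3 w hw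
  have hsubsum : ∀ a : ℕ, (a : ℝ) ≤ (x : ℝ) ^ (1 / 4 : ℝ) →
      ∑ d ∈ Icc 1 (a * z ^ B₁), Es x d ≤ SQ := by
    intro a ha
    rw [hSQ]
    apply sum_le_sum_of_subset_of_nonneg
    · apply Icc_subset_Icc_right
      apply Nat.le_floor
      push_cast
      calc (a : ℝ) * (z : ℝ) ^ B₁ ≤ (x : ℝ) ^ (1 / 4 : ℝ) * (x : ℝ) ^ (1 / 7 : ℝ) :=
            mul_le_mul ha S.hzB (by positivity) (by positivity)
        _ = (x : ℝ) ^ (1 / 4 + 1 / 7 : ℝ) := (Real.rpow_add hx0 _ _).symm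
        _ ≤ (x : ℝ) ^ (2 / 5 : ℝ) :=
            Real.rpow_le_rpow_of_exponent_le (by linarith) (by norm_num)
    · intro d _ _
      exact Es_nonneg x d
  have hlog2 := log2_le z S.hz2 L (by rw [← hℓ]; exact S.hℓL) hL120
  have hlog20 : (0 : ℝ) ≤ (Nat.log 2 z : ℝ) + 2 := by positivity
  have hpowB1 : L ≤ L ^ (B + 1) := le_self_pow₀ hL1 (by omega)
  obtain ⟨hT, hTQ, hNS⟩ := hasy z S.hz2 x
  rw [← hPV] at hT
  obtain ⟨t, ht⟩ : ∃ t : ℝ, t = ((TT x z).card : ℝ) := ⟨_, rfl⟩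
  rw [← ht] at hT ⊢
  have hET : ((Nat.log 2 z : ℝ) + 2) * ∑ d ∈ Icc 1 (z ^ B₁), Es x d ≤ ε₁ * PV := by
    have h1 := hsubsum 1 (by rw [Nat.cast_one]; exact hx14)
    rw [one_mul] at h1
    have h2 : ((Nat.log 2 z : ℝ) + 2) * ∑ d ∈ Icc 1 (z ^ B₁), Es x d ≤ (4 * L) * SQ :=
      mul_le_mul hlog2 h1 (sum_nonneg fun d _ => Es_nonneg x d) (by positivity)
    have h3 : (4 * L) * SQ ≤ L ^ (B + 1) * (12 * SQ) := by
      have h4 : L * (12 * SQ) ≤ L ^ (B + 1) * (12 * SQ) :=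
        mul_le_mul_of_nonneg_right hpowB1 (by positivity)
      have h5 : 0 ≤ L * SQ := by positivity
      linarith
    linarith
  have hT' : |t - PV| ≤ 2 * ε₁ * PV := by linarith
  have hT1 := abs_le.1 hT'
  have hεPV : ε₁ * PV ≤ 1 / 20 * PV := mul_le_mul_of_nonneg_right hε₁1 hPV0.le
  have htPV : PV ≤ 2 * t := by linarith [hT1.1]
  have htPV2 : t ≤ 2 * PV := by linarith [hT1.2]
  have ht0 : 0 < t := by linarith
  have hratio : 1 ≤ L / ℓ := by rw [le_div_iff₀ hℓ0]; linarith [S.hℓL]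
  have hratio0 : 0 ≤ L / ℓ := by linarith
  refine ⟨?_, ?_⟩
  · have h1 : 1 / K ≤ cV / 4 := by
      rw [div_le_iff₀ hcV] at hKc
      rw [div_le_iff₀ (by linarith : 0 < K)]
      linarith
    calc (x : ℝ) / (K * (L * ℓ)) = 1 / K * (x / (L * ℓ)) := by
          rw [div_mul_div_comm, one_mul]
      _ ≤ cV / 4 * (x / (L * ℓ)) := mul_le_mul_of_nonneg_right h1 (by positivity)
      _ = (cV / 2 * (x / (L * ℓ))) / 2 := by ring
      _ ≤ t := by linarith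
  -- the bad sum
  obtain ⟨H, hH⟩ : ∃ H : ℕ, H = ⌊L ^ B⌋₊ + 2 := ⟨_, rfl⟩
  have hLB1 : 1 ≤ L ^ B := one_le_pow₀ hL1
  have hHr : (H : ℝ) ≤ 3 * L ^ B := by
    rw [hH]; push_cast
    have := Nat.floor_le (by positivity : 0 ≤ L ^ B)
    linarith
  have hH1 : 1 ≤ H := by omega
  have hH2 : 2 ≤ H := by omega
  have hM0' : ∀ n ∈ M, n ≠ 0 := fun n hn => (hM0 n hn).1
  have hnatr : ∀ n ∈ M, (n.natAbs : ℝ) ≤ L ^ B := by
    intro n hn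
    have h1 := (hM0 n hn).2
    rw [Nat.cast_natAbs, Int.cast_abs, hL]
    exact h1
  have hMH : ∀ n ∈ M, n.natAbs ≤ H := by
    intro n hn
    have h2 : n.natAbs ≤ ⌊L ^ B⌋₊ := Nat.le_floor (hnatr n hn)
    omega
  obtain ⟨R, hR⟩ : ∃ R : ℕ, R = ⌈2 * (L / ℓ)⌉₊ := ⟨_, rfl⟩
  have hRa : 2 * (L / ℓ) ≤ R := by rw [hR]; exact Nat.le_ceil _
  have hRb : (R : ℝ) ≤ 3 * (L / ℓ) := by
    have h1 := Nat.ceil_lt_add_one (show 0 ≤ 2 * (L / ℓ) by positivity)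
    rw [← hR] at h1
    linarith
  have hR1 : 1 ≤ R := by
    have : (0 : ℝ) < R := by linarith
    exact_mod_cast this
  have hRz : x ^ 2 ≤ z ^ R := by
    have hz2 : (2 : ℝ) ≤ z := by exact_mod_cast S.hz2
    have h1 : ((x : ℝ)) ^ 2 ≤ (z : ℝ) ^ R := by
      rw [← Real.log_le_log_iff (by positivity) (by positivity), Real.log_pow, Real.log_pow,
        ← hL, ← hℓ]
      push_cast
      have h2 : 2 * (L / ℓ) * ℓ ≤ R * ℓ := mul_le_mul_of_nonneg_right hRa hℓ0.le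
      have h3 : 2 * (L / ℓ) * ℓ = 2 * L := by field_simp
      linarith
    exact_mod_cast h1
  have hbad := bad_sum M x z R H hx3 S.hz2 hRz hM0' hMH
  rw [← hL] at hbad
  have hSLb := hSL B₁ z x w S.hz2 hx3 hw1 (by
    intro l hl hzl
    have h1 := hNS l hl hzl
    refine h1.trans (add_le_add ?_ le_rfl)
    have hl2 : (2 : ℝ) ≤ l := by exact_mod_cast hl.two_le
    have h2 : 0 ≤ (piN x : ℝ) / ((l : ℝ) - 1) := div_nonneg (Nat.cast_nonneg _) (by linarith)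
    have h3 : 0 < VP (OP z) := VP_pos _ fun q hq => (mem_OP.1 hq).2.1
    apply mul_le_mul_of_nonneg_right _ (mul_nonneg h2 h3.le)
    linarith)
  rw [← hPV, ← ht, ← hL, ← hℓ] at hSLb
  have herr3 : 3 * L * (((Nat.log 2 z : ℝ) + 2) * ∑ d ∈ Icc 1 (w * z ^ B₁), Es x d) ≤ ε₁ * PV := by
    have h1 := hsubsum w hw2
    have h2 : ((Nat.log 2 z : ℝ) + 2) * ∑ d ∈ Icc 1 (w * z ^ B₁), Es x d ≤ (4 * L) * SQ :=
      mul_le_mul hlog2 h1 (sum_nonneg fun d _ => Es_nonneg x d) (by positivity)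
    have h5 : 3 * L * (((Nat.log 2 z : ℝ) + 2) * ∑ d ∈ Icc 1 (w * z ^ B₁), Es x d) ≤
        3 * L * ((4 * L) * SQ) := mul_le_mul_of_nonneg_left h2 (by positivity)
    have h6 : 3 * L * ((4 * L) * SQ) = L ^ 2 * (12 * SQ) := by ring
    have h7 : L ^ 2 * (12 * SQ) ≤ L ^ (B + 1 + 1) * (12 * SQ) := by
      apply mul_le_mul_of_nonneg_right _ (by positivity)
      exact pow_le_pow_right₀ hL1 (by omega)
    linarith
  have hExc := Exc_total B x z R H M L ℓ K hL hℓ (by omega) hKb S.hKL S.hℓL hL120 S.hℓ1 hR1 hRb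
    hH1 hHr hM0' hMI hMH
  have hsumbad : ∑ n ∈ M, ((Bad n x z H).card : ℝ) ≤ C₁ * t * (L / ℓ) := by
    have h1 : CS * PV * (L / ℓ) ≤ CS * (2 * t) * (L / ℓ) := by
      apply mul_le_mul_of_nonneg_right _ hratio0
      exact mul_le_mul_of_nonneg_left htPV hCS.le
    have h2 : t ≤ t * (L / ℓ) := le_mul_of_one_le_right ht0.le hratio
    have h3 : ∑ n ∈ M, ((Bad n x z H).card : ℝ) ≤
        24 * t + CS * (2 * t) * (L / ℓ) + ε₁ * PV + PV := by linarith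
    have h4 : C₁ * t * (L / ℓ) = 30 * (t * (L / ℓ)) + CS * (2 * t) * (L / ℓ) := by
      rw [hC₁]; ring
    rw [h4]
    linarith
  -- the exceptional bases
  refine ⟨M.filter (fun n => ε / 4 * t < ((Bad n x z H).card : ℝ)), filter_subset _ _, ?_, ?_⟩
  · have h1 : ((M.filter (fun n => ε / 4 * t < ((Bad n x z H).card : ℝ))).card : ℝ) *
        (ε / 4 * t) ≤ C₁ * t * (L / ℓ) := by
      refine le_trans ?_ hsumbad
      rw [← nsmul_eq_mul, ← sum_const]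
      calc ∑ _n ∈ M.filter (fun n => ε / 4 * t < ((Bad n x z H).card : ℝ)), ε / 4 * t
          ≤ ∑ n ∈ M.filter (fun n => ε / 4 * t < ((Bad n x z H).card : ℝ)),
            ((Bad n x z H).card : ℝ) := sum_le_sum fun n hn => (mem_filter.1 hn).2.le
        _ ≤ _ := sum_le_sum_of_subset_of_nonneg (filter_subset _ _)
            fun _ _ _ => Nat.cast_nonneg _
    have h2 : ((M.filter (fun n => ε / 4 * t < ((Bad n x z H).card : ℝ))).card : ℝ) ≤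
        4 * C₁ / ε * (L / ℓ) := by
      have h3 : 0 < ε / 4 * t := by positivity
      rw [← mul_le_mul_iff_left₀ h3]
      refine h1.trans (le_of_eq ?_)
      field_simp
    exact h2.trans (mul_le_mul_of_nonneg_right hKd hratio0)
  · intro n hn D k hD hD4 hnD
    rw [mem_sdiff, mem_filter] at hn
    have hb : ((Bad n x z H).card : ℝ) ≤ ε / 4 * t := by
      by_contra hcon
      exact hn.2 ⟨hn.1, not_le.1 hcon⟩
    exact one_base B B₁ K ε₁ ε x z L ℓ PV t SQ S hε₁0 hε₁ε hPV0 ht hT' htPV hPV hSQ herr hsm hTQ H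
      hH2 hHr n D k (hM0' n hn.1) (hnatr n hn.1) (hMH n hn.1) hD hD4 hnD hb

end Pool.Agent.Y855
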