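import Pool.Agent.Y855.A1
import Pool.Agent.W308.PL.FLW

/-!
The fundamental lemma of the sieve, uniform in the range of sieving.
-/

set_option autoImplicit false

open Finset

namespace Pool.Agent.Y855

open Pool.Agent.W308.PL.FLW

/-- blocks -/
def blk (P : Finset ℕ) (z j : ℕ) : Finset ℕ :=
  P.filter (fun p => p ^ 2 ^ j ≤ z ∧ z < p ^ 2 ^ (j + 1))

theorem blk_disj (P : Finset ℕ) (hP : ∀ p ∈ P, p.Prime) (z i j : ℕ) (hij : i < j) :
    Disjoint (blk P z i) (blk P z j) := by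
  rw [disjoint_left]
  intro p hi hj
  unfold blk at hi hj
  rw [mem_filter] at hi hj
  have h1 : p ^ 2 ^ (i + 1) ≤ p ^ 2 ^ j :=
    Nat.pow_le_pow_right (hP p hi.1).pos (Nat.pow_le_pow_right (by norm_num) hij)
  have := hi.2.2
  have := hj.2.1
  omega

theorem blk_cover (P : Finset ℕ) (z : ℕ) (hP : ∀ p ∈ P, p.Prime ∧ p ≤ z) :
    P = univ.biUnion (fun j : Fin (Nat.log 2 z + 1) => blk P z j) := by
  ext p
  rw [mem_biUnion]
  constructor
  · intro hp
    obtain ⟨hpp, hpz⟩ := hP p hp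
    have hz2 : 2 ≤ z := hpp.two_le.trans hpz
    have hlast : z < p ^ 2 ^ (Nat.log 2 z + 1) := by
      calc z < 2 ^ (Nat.log 2 z + 1) := Nat.lt_pow_succ_log_self (by norm_num) z
        _ ≤ 2 ^ 2 ^ (Nat.log 2 z + 1) :=
            Nat.pow_le_pow_right (by norm_num) (Nat.lt_two_pow_self).le
        _ ≤ p ^ 2 ^ (Nat.log 2 z + 1) := Nat.pow_le_pow_left hpp.two_le _
    have hex : ∃ j, z < p ^ 2 ^ (j + 1) := ⟨_, hlast⟩
    have h1 := Nat.find_spec hex
    have h2 : Nat.find hex ≤ Nat.log 2 z := Nat.find_min' hex hlast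
    refine ⟨⟨Nat.find hex, by omega⟩, mem_univ _, ?_⟩
    unfold blk
    rw [mem_filter]
    refine ⟨hp, ?_, h1⟩
    by_cases h0 : Nat.find hex = 0
    · simp only [h0, pow_zero, pow_one]
      exact hpz
    · have h3 := Nat.find_min hex (m := Nat.find hex - 1) (by omega)
      have h4 : Nat.find hex - 1 + 1 = Nat.find hex := by omega
      rw [h4] at h3
      exact not_lt.1 h3
  · rintro ⟨j, -, hj⟩
    unfold blk at hj
    exact (mem_filter.1 hj).1

theorem level (P : Finset ℕ) (z b : ℕ) (hz : 2 ≤ z) (hP : ∀ p ∈ P, p.Prime ∧ p ≤ z)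
    (U : Finset ℕ) (hU : U ⊆ P)
    (hc : ∀ j : Fin (Nat.log 2 z + 1), (U ∩ blk P z j).card ≤ 2 * (b + j) + 1) :
    ∏ p ∈ U, p ≤ z ^ (4 * b + 6) := by
  have hUpos : ∀ p ∈ U, (0 : ℝ) < p := fun p hp => by
    exact_mod_cast (hP p (hU hp)).1.pos
  have hz0 : (0 : ℝ) < z := by exact_mod_cast (by omega : 0 < z)
  have hlz : 0 ≤ Real.log z := Real.log_nonneg (by exact_mod_cast (by omega : 1 ≤ z))
  have hsplit : U = univ.biUnion fun j : Fin (Nat.log 2 z + 1) => U ∩ blk P z j := by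
    ext p
    rw [mem_biUnion]
    constructor
    · intro hp
      have := hU hp
      rw [blk_cover P z hP, mem_biUnion] at this
      obtain ⟨j, hj, hpj⟩ := this
      exact ⟨j, hj, mem_inter.2 ⟨hp, hpj⟩⟩
    · rintro ⟨j, -, hj⟩
      exact (mem_inter.1 hj).1
  have hdisj : ∀ i j : Fin (Nat.log 2 z + 1), i ≠ j → Disjoint (blk P z i) (blk P z j) := by
    intro i j hij
    rcases lt_or_gt_of_ne (fun h => hij (Fin.ext h) : (i : ℕ) ≠ j) with h | h
    · exact blk_disj P (fun p hp => (hP p hp).1) z i j h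
    · exact (blk_disj P (fun p hp => (hP p hp).1) z j i h).symm
  have hlogU : ∑ p ∈ U, Real.log p ≤ (4 * b + 6) * Real.log z := by
    calc ∑ p ∈ U, Real.log p = ∑ j : Fin (Nat.log 2 z + 1), ∑ p ∈ U ∩ blk P z j, Real.log p := by
          conv_lhs => rw [hsplit]
          rw [sum_biUnion]
          intro i _ j _ hij
          exact disjoint_of_subset_left inter_subset_right
            (disjoint_of_subset_right inter_subset_right (hdisj i j hij))
      _ ≤ ∑ j : Fin (Nat.log 2 z + 1), (2 * ((b : ℝ) + (j : ℕ)) + 1) * (1 / 2 : ℝ) ^ (j : ℕ) *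
            Real.log z := by
          apply sum_le_sum
          intro j _
          calc ∑ p ∈ U ∩ blk P z j, Real.log p ≤
              ∑ p ∈ U ∩ blk P z j, (1 / 2) ^ (j : ℕ) * Real.log z := by
                apply sum_le_sum
                intro p hp
                have h1 := (mem_inter.1 hp).2
                unfold blk at h1
                have h2 := (mem_filter.1 h1).2.1
                have hp0 : (0 : ℝ) < p := hUpos p (mem_inter.1 hp).1
                have h3 : ((p : ℝ)) ^ 2 ^ (j : ℕ) ≤ z := by exact_mod_cast h2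
                have h4 := Real.log_le_log (by positivity) h3
                rw [Real.log_pow] at h4
                push_cast at h4
                have h5 : (0 : ℝ) < (1 / 2 : ℝ) ^ (j : ℕ) := by positivity
                have h6 : (1 / 2 : ℝ) ^ (j : ℕ) * (2 : ℝ) ^ (j : ℕ) = 1 := by
                  rw [← mul_pow]; norm_num
                calc Real.log p = (1 / 2 : ℝ) ^ (j : ℕ) * ((2 : ℝ) ^ (j : ℕ) * Real.log p) := by
                      rw [← mul_assoc, h6, one_mul]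
                  _ ≤ _ := mul_le_mul_of_nonneg_left h4 h5.le
            _ = ((U ∩ blk P z j).card : ℝ) * ((1 / 2) ^ (j : ℕ) * Real.log z) := by
                rw [sum_const, nsmul_eq_mul]
            _ ≤ (2 * ((b : ℝ) + (j : ℕ)) + 1) * ((1 / 2) ^ (j : ℕ) * Real.log z) := by
                apply mul_le_mul_of_nonneg_right _ (by positivity)
                exact_mod_cast hc j
            _ = _ := by ring
      _ = (4 * b + 6 - (4 * ((Nat.log 2 z + 1 : ℕ) : ℝ) + 4 * b + 6) *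
            (1 / 2 : ℝ) ^ (Nat.log 2 z + 1)) * Real.log z := by
          rw [← sum_mul, Fin.sum_univ_eq_sum_range
            (fun j => (2 * ((b : ℝ) + (j : ℕ)) + 1) * (1 / 2 : ℝ) ^ j), geo_sum]
      _ ≤ (4 * b + 6) * Real.log z := by
          apply mul_le_mul_of_nonneg_right _ hlz
          have : 0 ≤ (4 * ((Nat.log 2 z + 1 : ℕ) : ℝ) + 4 * b + 6) *
            (1 / 2 : ℝ) ^ (Nat.log 2 z + 1) := by positivity
          linarith
  have h : ((∏ p ∈ U, p : ℕ) : ℝ) ≤ ((z ^ (4 * b + 6) : ℕ) : ℝ) := by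
    push_cast
    rw [← Real.log_le_log_iff (prod_pos hUpos) (by positivity), Real.log_pow,
      Real.log_prod (fun p hp => (hUpos p hp).ne')]
    push_cast
    exact hlogU
  exact_mod_cast h

/-- the fundamental lemma -/
theorem FL (ε : ℝ) (hε : 0 < ε) : ∃ B : ℕ, 1 ≤ B ∧ ∀ z : ℕ, 2 ≤ z → ∀ P : Finset ℕ,
    (∀ p ∈ P, p.Prime ∧ p ≤ z) → ∀ g : ℕ → ℝ,
    (∀ p ∈ P, 0 ≤ g p ∧ g p ≤ 1 / 2 ∧ g p ≤ 2 / (p : ℝ)) →
    ∀ {Ω : Type} (S : Finset Ω) (n : Ω → ℕ) (X : ℝ), 0 ≤ X →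
    |((S.filter (fun ω => ∀ p ∈ P, ¬ p ∣ n ω)).card : ℝ) - X * ∏ p ∈ P, (1 - g p)| ≤
      ε * (X * ∏ p ∈ P, (1 - g p)) + (Nat.log 2 z + 2) *
        ∑ U ∈ P.powerset.filter (fun U => ∏ p ∈ U, p ≤ z ^ B),
          |((S.filter (fun ω => ∀ p ∈ U, p ∣ n ω)).card : ℝ) - X * ∏ p ∈ U, g p| := by
  obtain ⟨L1, hL1, hLb⟩ := block_bd
  set L : ℝ := 2 * L1 with hL
  have hL0 : 0 < L := by positivity
  set K : ℝ := 2 * L + L * Real.exp 1 + |Real.log (min (ε / 6) 1)| with hK
  have hmin : 0 < min (ε / 6) 1 := lt_min (by positivity) one_pos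
  set b : ℕ := ⌈K⌉₊ with hb
  have hbK : K ≤ b := Nat.le_ceil K
  have hK0 : 0 ≤ K := by positivity
  refine ⟨4 * b + 6, by omega, ?_⟩
  intro z hz P hP g hg Ω S n X hX
  set J : ℕ := Nat.log 2 z + 1 with hJ
  have hdisj : ∀ i j : Fin J, i ≠ j → Disjoint (blk P z i) (blk P z j) := by
    intro i j hij
    rcases lt_or_gt_of_ne (fun h => hij (Fin.ext h) : (i : ℕ) ≠ j) with h | h
    · exact blk_disj P (fun p hp => (hP p hp).1) z i j h
    · exact (blk_disj P (fun p hp => (hP p hp).1) z j i h).symm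
  have hsub : ∀ j : Fin J, ∀ p ∈ blk P z j, p ∈ P := fun j p hp => (mem_filter.1 hp).1
  have hLj : ∀ j : Fin J, ∑ p ∈ blk P z j, g p ≤ L := by
    intro j
    have h1 : ∑ p ∈ blk P z j, (1 : ℝ) / p ≤ L1 := by
      apply hLb _ (fun p hp => (hP p (hsub j p hp)).1)
      intro p hp q hq
      unfold blk at hp hq
      rw [mem_filter] at hp hq
      have h2 : q ^ 2 ^ (j : ℕ) < (p ^ 2) ^ 2 ^ (j : ℕ) := by
        rw [← pow_mul, ← pow_succ']
        exact lt_of_le_of_lt hq.2.1 hp.2.2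
      exact lt_of_pow_lt_pow_left₀ _ (Nat.zero_le _) h2
    calc ∑ p ∈ blk P z j, g p ≤ ∑ p ∈ blk P z j, 2 * ((1 : ℝ) / p) := by
          apply sum_le_sum
          intro p hp
          have := (hg p (hsub j p hp)).2.2
          rw [mul_one_div]
          exact this
      _ = 2 * ∑ p ∈ blk P z j, (1 : ℝ) / p := by rw [mul_sum]
      _ ≤ L := by rw [hL]; linarith
  have hρ : ∑ j : Fin J, Real.exp (2 * L) *
      (L ^ (2 * (b + (j : ℕ)) + 1) / ((2 * (b + (j : ℕ)) + 1).factorial : ℝ)) ≤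
      min (ε / 6) 1 := by
    rw [← mul_sum, Fin.sum_univ_eq_sum_range
      (fun j => L ^ (2 * (b + j) + 1) / ((2 * (b + j) + 1).factorial : ℝ))]
    have h1 := tail_sum L 1 hL0 (by norm_num) b J
    have h2 := mul_le_mul_of_nonneg_left h1 (Real.exp_pos (2 * L)).le
    refine h2.trans ?_
    rw [← Real.exp_add]
    have h3 : min (ε / 6) 1 = Real.exp (Real.log (min (ε / 6) 1)) := (Real.exp_log hmin).symm
    rw [h3]
    apply Real.exp_le_exp.2
    have h4 := neg_abs_le (Real.log (min (ε / 6) 1))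
    have h5 : (0 : ℝ) ≤ b := Nat.cast_nonneg b
    linarith
  have h := core_count (fun j : Fin J => blk P z j) b hdisj P (blk_cover P z hP) g
    (fun j p hp => ⟨(hg p (hsub j p hp)).1, (hg p (hsub j p hp)).2.1⟩) L hLj (min (ε / 6) 1)
    (min_le_right _ _) hρ S n X hX
  have hV0 : 0 ≤ X * ∏ p ∈ P, (1 - g p) := by
    apply mul_nonneg hX
    apply prod_nonneg
    intro p hp
    linarith [(hg p hp).2.1]
  refine h.trans ?_
  have h6 : 6 * min (ε / 6) 1 ≤ ε := by
    have := min_le_left (ε / 6) 1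
    linarith
  have h7 : 6 * min (ε / 6) 1 * (X * ∏ p ∈ P, (1 - g p)) ≤ ε * (X * ∏ p ∈ P, (1 - g p)) :=
    mul_le_mul_of_nonneg_right h6 hV0
  have h8 : ∑ U ∈ P.powerset.filter (fun U => ∀ j : Fin J, (U ∩ blk P z j).card ≤ 2 * (b + j) + 1),
      |((S.filter (fun ω => ∀ p ∈ U, p ∣ n ω)).card : ℝ) - X * ∏ p ∈ U, g p| ≤
      ∑ U ∈ P.powerset.filter (fun U => ∏ p ∈ U, p ≤ z ^ (4 * b + 6)),
      |((S.filter (fun ω => ∀ p ∈ U, p ∣ n ω)).card : ℝ) - X * ∏ p ∈ U, g p| := by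
    apply sum_le_sum_of_subset_of_nonneg
    · intro U hU
      rw [mem_filter, mem_powerset] at hU ⊢
      exact ⟨hU.1, level P z b hz hP U hU.1 hU.2⟩
    · intro _ _ _
      exact abs_nonneg _
  have h9 : ((J : ℝ) + 1) = (Nat.log 2 z : ℝ) + 2 := by
    rw [hJ]; push_cast; ring
  rw [h9]
  have h10 : (0 : ℝ) ≤ (Nat.log 2 z : ℝ) + 2 := by positivity
  have h11 := mul_le_mul_of_nonneg_left h8 h10
  linarith

end Pool.Agent.Y855
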