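import Pool.Agent.Y855.R4
import Pool.Agent.H615R3.FRMain

set_option autoImplicit false

namespace Pool.Agent.Y855.RS.FR

open Finset Classical Pool.Agent.Y855.RS Pool.Agent.H615R3.FR
open Pool.Agent.H615R3.Free (cf cf_zero cf_dense)

variable {𝕂 : Type} [RCLike 𝕂] {q : ℕ}

/-- the data -/
noncomputable def dat (E : Enum 𝕂 q) : Data 𝕂 q := E.data (A E.Lam)

lemma lam_strict (E : Enum 𝕂 q) : StrictMono E.Lam := by
  apply strictMono_nat_of_lt_succ
  intro n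
  unfold Enum.Lam
  rw [sum_range_succ _ (n + 1)]
  omega

lemma fr_core (E : Enum 𝕂 q) (S : Set ℕ) (a : Fin (q + 1) → 𝕂) (δ : ℝ) (hδ : 0 < δ) (h k1 : ℕ)
    (hk1 : h ≤ k1) (η : ℝ) (hη : 0 < η) (m₀ i ks : ℕ) (F : Finset ℕ)
    (hik : k1 + 2 ≤ i) (hm₀ : m₀ ≤ i) (hmi : 2 * (m₀ : ℝ) ≤ η * δ * i)
    (hks : ks < k1) (hperp : ∀ j, pisum (E.e (Pool.Agent.H615R3.Free.cls ks) j) a = 0)
    (hF : ∀ y ∈ F, y ∈ S ∧ p E.Lam i ≤ y ∧ y ≤ NN E.Lam i ∧
      (y % p E.Lam i) * R E.Lam ks < p E.Lam i ∧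
      p E.Lam i ≤ (y % p E.Lam i) * R E.Lam (ks + 1)) (hFc : δ * NN E.Lam i ≤ F.card) :
    F.Nonempty ∧
    (∀ n ∈ F, n ∈ S) ∧ ∃ low : ℕ → Prop, (∀ m < h, low m) ∧
    (∀ k, ∀ n ∈ (dat E).A k, (∀ l < (dat E).Lam k + 2 * (dat E).b k + h, (low (n + l) ↔ low l)) ∨
      ((∀ j, pisum ((dat E).x k j) a = 0) ∧ (∀ l < (dat E).Lam k + 2 * (dat E).b k + h, low l) ∧
        ((∀ l < (dat E).Lam k + 2 * (dat E).b k + h, low (n + l)) ∨
          (∀ l < (dat E).Lam k + 2 * (dat E).b k + h, ¬ low (n + l))))) ∧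
    (∀ k, ∀ n ∈ (dat E).A k, ∀ l < (dat E).Lam k + 2 * (dat E).b k,
      4 ^ ((dat E).Lam k + (dat E).b k) *
        ((F.filter fun y => ¬ (low (y + l + n) ↔ low (y + l))).card : ℝ) ≤
        (12 / δ + 16 ^ E.Lam k1) * F.card) ∧
    (∀ m ≤ m₀, ((F.filter fun y => low (y + m)).card : ℝ) ≤ η * F.card) := by
  have hLm := lam_strict E
  have hLb : ∀ k, k + 1 + 2 * E.bb (Pool.Agent.H615R3.Free.cls k) ≤ E.Lam k := E.Lam_ge
  have hLk : ∀ k, k + 1 ≤ E.Lam k := fun k => by have := hLb k; omega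
  have hNpos : 0 < NN E.Lam i := by
    have h1 := p_pos E.Lam i
    have h2 := p_le_NN (Lam := E.Lam) i
    omega
  have hNr : (0 : ℝ) < NN E.Lam i := by exact_mod_cast hNpos
  have hFpos : (0 : ℝ) < F.card := lt_of_lt_of_le (by positivity) hFc
  have hF' : ∀ y ∈ F, p E.Lam i ≤ y ∧ y ≤ NN E.Lam i ∧
      (y % p E.Lam i) * R E.Lam ks < p E.Lam i ∧
      p E.Lam i ≤ (y % p E.Lam i) * R E.Lam (ks + 1) := fun y hy => (hF y hy).2
  refine ⟨card_pos.1 (by exact_mod_cast hFpos), fun n hn => (hF n hn).1,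
    low E.Lam i k1 ks, ?_, ?_, ?_, ?_⟩
  · intro m hm
    apply low0
    have := p_ge E.Lam hLm hLk i
    omega
  · intro k n hn
    rcases fr_phi hLm hLk hk1 hik (fun k => E.bb (Pool.Agent.H615R3.Free.cls k)) hLb k n hn (ks := ks) with h1 | h1
    · exact Or.inl h1
    · right
      refine ⟨?_, h1.2⟩
      obtain ⟨⟨h2, h3⟩, _⟩ := h1
      subst h2
      exact hperp
  · intro k n hn l hl
    have hb := hLb k
    have e1 : (dat E).Lam k = E.Lam k := rfl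
    have e2 : (dat E).b k = E.bb (Pool.Agent.H615R3.Free.cls k) := rfl
    rw [e1, e2] at hl ⊢
    have hpow : (4 : ℝ) ^ (E.Lam k + E.bb (Pool.Agent.H615R3.Free.cls k)) ≤ 16 ^ E.Lam k := by
      calc (4 : ℝ) ^ (E.Lam k + E.bb (Pool.Agent.H615R3.Free.cls k)) ≤ 4 ^ (2 * E.Lam k) :=
            pow_le_pow_right₀ (by norm_num) (by omega)
        _ = 16 ^ E.Lam k := by rw [pow_mul]; norm_num
    by_cases hkk1 : k1 ≤ k
    · have h1 := fr_count hLm hLk hks (show k1 ≤ i by omega) k n hn hkk1 l (by omega) F hF'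
      have h2 : (16 : ℝ) ^ E.Lam k * ((F.filter fun y => ¬ (low E.Lam i k1 ks (y + l + n) ↔
          low E.Lam i k1 ks (y + l))).card : ℝ) ≤ 12 * NN E.Lam i := by exact_mod_cast h1
      calc _ ≤ (16 : ℝ) ^ E.Lam k * ((F.filter fun y => ¬ (low E.Lam i k1 ks (y + l + n) ↔
          low E.Lam i k1 ks (y + l))).card : ℝ) := by gcongr
        _ ≤ 12 * NN E.Lam i := h2
        _ = 12 / δ * (δ * NN E.Lam i) := by field_simp
        _ ≤ 12 / δ * F.card := by gcongr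
        _ ≤ (12 / δ + 16 ^ E.Lam k1) * F.card := by
            have : (0 : ℝ) ≤ 16 ^ E.Lam k1 := by positivity
            nlinarith
    · push Not at hkk1
      have h1 : (16 : ℝ) ^ E.Lam k ≤ 16 ^ E.Lam k1 :=
        pow_le_pow_right₀ (by norm_num) (hLm.monotone hkk1.le)
      have h2 : ((F.filter fun y => ¬ (low E.Lam i k1 ks (y + l + n) ↔
          low E.Lam i k1 ks (y + l))).card : ℝ) ≤ F.card := by
        exact_mod_cast card_filter_le _ _
      calc _ ≤ (16 : ℝ) ^ E.Lam k1 * F.card := by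
            apply mul_le_mul (hpow.trans h1) h2 (by positivity) (by positivity)
        _ ≤ (12 / δ + 16 ^ E.Lam k1) * F.card := by
            have : (0 : ℝ) ≤ 12 / δ := by positivity
            nlinarith
  · intro m hm
    have hpi := p_ge E.Lam hLm hLk i
    have h1 := fr_low_count hLm hLk hks (show k1 ≤ i by omega) m (by omega) F hF'
    have h2 : (p E.Lam i : ℝ) * ((F.filter fun y => low E.Lam i k1 ks (y + m)).card : ℝ) ≤
        2 * NN E.Lam i * m := by exact_mod_cast h1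
    have hpr : (i : ℝ) ≤ p E.Lam i := by exact_mod_cast (by omega : i ≤ p E.Lam i)
    have hppos : (0 : ℝ) < p E.Lam i := by exact_mod_cast p_pos E.Lam i
    have hmr : (m : ℝ) ≤ m₀ := by exact_mod_cast hm
    have h3 : (p E.Lam i : ℝ) * ((F.filter fun y => low E.Lam i k1 ks (y + m)).card : ℝ) ≤
        p E.Lam i * (η * F.card) := by
      calc _ ≤ 2 * NN E.Lam i * (m : ℝ) := h2
        _ ≤ 2 * NN E.Lam i * (m₀ : ℝ) := by gcongr
        _ = NN E.Lam i * (2 * (m₀ : ℝ)) := by ring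
        _ ≤ NN E.Lam i * (η * δ * i) := by gcongr
        _ ≤ NN E.Lam i * (η * δ * p E.Lam i) := by gcongr
        _ = p E.Lam i * (η * (δ * NN E.Lam i)) := by ring
        _ ≤ p E.Lam i * (η * F.card) := by gcongr
    exact le_of_mul_le_mul_left h3 hppos

theorem fr_good (E : Enum 𝕂 q) (S : Set ℕ) (hS : BigL S) :
    ∃ k, ∀ a : Fin (q + 1) → 𝕂, (∀ r, ‖a r‖ ≤ 1) → (∀ j, pisum (E.e (Pool.Agent.H615R3.Free.cls k) j) a = 0) →
      Good (dat E) S a := by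
  have hLm := lam_strict E
  have hLb : ∀ k, k + 1 + 2 * E.bb (Pool.Agent.H615R3.Free.cls k) ≤ E.Lam k := E.Lam_ge
  have hLk : ∀ k, k + 1 ≤ E.Lam k := fun k => by have := hLb k; omega
  obtain ⟨ks, δ, hδ, hw⟩ := windows hLm hLk S hS
  refine ⟨ks, fun a ha hperp h => ?_⟩
  refine ⟨12 / δ + 16 ^ E.Lam (max h (ks + 1)), by positivity, fun η hη m₀ => ?_⟩
  obtain ⟨K, hK⟩ := exists_nat_gt (2 * (m₀ : ℝ) / (η * δ))
  obtain ⟨i, hi, F, hF, hFc⟩ := hw (max h (ks + 1) + 2 + m₀ + K)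
  have hKi : (K : ℝ) ≤ i := by exact_mod_cast (by omega : K ≤ i)
  refine ⟨F, fr_core E S a δ hδ h (max h (ks + 1)) (le_max_left _ _) η hη m₀ i ks F
      (by omega) (by omega) ?_ (by omega) hperp hF hFc⟩
  rw [div_lt_iff₀ (by positivity)] at hK
  calc 2 * (m₀ : ℝ) ≤ K * (η * δ) := hK.le
    _ ≤ i * (η * δ) := by gcongr
    _ = _ := by ring

theorem fr_hyp (E : Enum 𝕂 q) : Hyp (dat E) BigL := by
  have hLk : ∀ k, k + 1 ≤ E.Lam k := fun k => by have := E.Lam_ge k; omega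
  exact E.hyp (A E.Lam) BigL (fun S S' h => BigL.mono h) (fun k => big_A (lam_strict E) hLk k)
    (fun S hS => fr_good E S hS)

end Pool.Agent.Y855.RS.FR
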