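import Pool.Agent.Y855.R5
import Pool.Agent.Y855.R6
import Pool.Agent.H615R3.DensConv

set_option autoImplicit false

namespace Pool.Agent.Y855.RS

open Filter Topology Set Pool.Agent.H615R3

/-- restriction to fewer coordinates -/
lemma restr {𝕂 : Type} [RCLike 𝕂] {X : Type} [NormedAddCommGroup X] [NormedSpace 𝕂 X]
    (T : X →L[𝕂] X) (Big : Set ℕ → Prop) (hmono : ∀ S S' : Set ℕ, S ⊆ S' → Big S → Big S')
    {m M : ℕ} (h : m ≤ M)
    (hM : Dense {z : Fin M → X | ∀ U ∈ 𝓝 z,
      Big {n | (fun (w : Fin M → X) (j : Fin M) => T (w j))^[n] z ∈ U}}) :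
    Dense {z : Fin m → X | ∀ U ∈ 𝓝 z,
      Big {n | (fun (w : Fin m → X) (j : Fin m) => T (w j))^[n] z ∈ U}} := by
  let ρ : (Fin M → X) → (Fin m → X) := fun z j => z (Fin.castLE h j)
  have hρc : Continuous ρ := continuous_pi fun j => continuous_apply _
  have hρs : Function.Surjective ρ := by
    intro y
    refine ⟨fun i => if hi : (i : ℕ) < m then y ⟨i, hi⟩ else 0, ?_⟩
    funext j
    simp [ρ]
  refine (hρs.denseRange.dense_image hρc hM).mono ?_
  rintro _ ⟨z, hz, rfl⟩ U hU
  refine hmono _ _ ?_ (hz _ (hρc.continuousAt.preimage_mem_nhds hU))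
  intro n hn
  simp only [mem_ofPred_eq, mem_preimage] at hn ⊢
  rw [iter_sum] at hn ⊢
  exact hn

/-- the space is separable -/
lemma sep {𝕂 : Type} [RCLike 𝕂] {N : ℕ} (D : Data 𝕂 N) :
    TopologicalSpace.SeparableSpace (MM D) := by
  have h1 : TopologicalSpace.IsSeparable (Set.range (gen D)) :=
    (Set.countable_range (gen D)).isSeparable
  have h2 : TopologicalSpace.IsSeparable ((Submodule.span 𝕂 (Set.range (gen D)) :
      Submodule 𝕂 (EE D)) : Set (EE D)) := h1.span
  have h3 : TopologicalSpace.IsSeparable (MM D : Set (EE D)) := by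
    unfold MM
    rw [Submodule.topologicalClosure_coe]
    exact h2.closure
  exact h3.separableSpace

/-- thresholds for frequent recurrence -/
theorem freq_threshold (𝕂 : Type) [RCLike 𝕂] (N : ℕ) :
    ∃ (X : Type) (_ : NormedAddCommGroup X) (_ : NormedSpace 𝕂 X) (_ : CompleteSpace X)
      (_ : TopologicalSpace.SeparableSpace X) (T : X →L[𝕂] X), ∀ m : ℕ,
        (Dense {z : Fin m → X | IsFRec (fun (w : Fin m → X) (j : Fin m) => T (w j)) z} ↔
          m ≤ N) := by
  obtain ⟨E⟩ := nonempty_enum 𝕂 N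
  have hyp := FR.fr_hyp E
  refine ⟨MM (FR.dat E), inferInstance, inferInstance, inferInstance, sep _,
    TT (FR.dat E), fun m => ?_⟩
  simp only [isFRec_iff]
  constructor
  · intro hm
    by_contra hc
    push Not at hc
    exact hyp.sum_not_dense (restr (TT (FR.dat E)) _ hyp.mono (show N + 1 ≤ m from hc) hm)
  · intro hm
    exact restr (TT (FR.dat E)) _ hyp.mono hm hyp.dense_rec

/-- thresholds for `𝒰`-frequent recurrence -/
theorem ufreq_threshold (𝕂 : Type) [RCLike 𝕂] (N : ℕ) :
    ∃ (X : Type) (_ : NormedAddCommGroup X) (_ : NormedSpace 𝕂 X) (_ : CompleteSpace X)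
      (_ : TopologicalSpace.SeparableSpace X) (T : X →L[𝕂] X), ∀ m : ℕ,
        (Dense {z : Fin m → X | IsUFRec (fun (w : Fin m → X) (j : Fin m) => T (w j)) z} ↔
          m ≤ N) := by
  obtain ⟨E⟩ := nonempty_enum 𝕂 N
  have hyp := UF.uf_hyp E
  refine ⟨MM (UF.dat E), inferInstance, inferInstance, inferInstance, sep _,
    TT (UF.dat E), fun m => ?_⟩
  simp only [isUFRec_iff]
  constructor
  · intro hm
    by_contra hc
    push Not at hc
    exact hyp.sum_not_dense (restr (TT (UF.dat E)) _ hyp.mono (show N + 1 ≤ m from hc) hm)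
  · intro hm
    exact restr (TT (UF.dat E)) _ hyp.mono hm hyp.dense_rec

end Pool.Agent.Y855.RS
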