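import Mathlib

set_option autoImplicit false

/-! From `k`-linear forms to `(k + m)`-linear forms: if some `k`-linear form on a real normed space has
distance at least `δ` from the norm-attaining `k`-linear forms, then some `(k + m)`-linear form has
distance at least `δ / 3` from the norm-attaining `(k + m)`-linear forms. -/

namespace Pool.Agent.Y855.NA

variable {X : Type*} [NormedAddCommGroup X] [NormedSpace ℝ X]

/-- norm-attaining forms with variables indexed by `ι` -/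
def NAt {ι : Type*} [Fintype ι] (B : ContinuousMultilinearMap ℝ (fun _ : ι => X) ℝ) : Prop :=
  ∃ f : ι → X, (∀ i, ‖f i‖ ≤ 1) ∧ |B f| = ‖B‖

theorem NAt.congr {ι ι' : Type*} [Fintype ι] [Fintype ι'] (σ : ι ≃ ι')
    {B : ContinuousMultilinearMap ℝ (fun _ : ι => X) ℝ} (h : NAt B) :
    NAt (ContinuousMultilinearMap.domDomCongr σ B) := by
  obtain ⟨f, hf, hB⟩ := h
  refine ⟨fun i => f (σ.symm i), fun i => hf _, ?_⟩
  rw [ContinuousMultilinearMap.norm_domDomCongr, ContinuousMultilinearMap.domDomCongr_apply]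
  simpa using hB

omit [NormedSpace ℝ X] in
theorem prod_le_one' {ι : Type*} [Fintype ι] (f : ι → X) (hf : ∀ i, ‖f i‖ ≤ 1) :
    ∏ i, ‖f i‖ ≤ 1 := Finset.prod_le_one (fun _ _ => norm_nonneg _) fun i _ => hf i

theorem sumCase {ι ι' : Type*} [Fintype ι] [Fintype ι']
    (A : ContinuousMultilinearMap ℝ (fun _ : ι => X) ℝ) (δ : ℝ)
    (hA : ∀ B : ContinuousMultilinearMap ℝ (fun _ : ι => X) ℝ, NAt B → δ ≤ ‖A - B‖)
    (φ : X →L[ℝ] ℝ) (hφ : ‖φ‖ ≤ 1) (u : X) (hu : ‖u‖ ≤ 1) (hφu : φ u = 1) :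
    ∃ A' : ContinuousMultilinearMap ℝ (fun _ : ι ⊕ ι' => X) ℝ,
      ∀ B : ContinuousMultilinearMap ℝ (fun _ : ι ⊕ ι' => X) ℝ, NAt B → δ / 3 ≤ ‖A' - B‖ := by
  classical
  let E : ContinuousMultilinearMap ℝ (fun _ : ι' => X) ℝ :=
    (ContinuousMultilinearMap.mkPiAlgebra ℝ ι' ℝ).compContinuousLinearMap fun _ => φ
  have hE : ∀ g, E g = ∏ j, φ (g j) := fun g => rfl
  let A' : ContinuousMultilinearMap ℝ (fun _ : ι ⊕ ι' => X) ℝ :=
    ((ContinuousLinearMap.toSpanSingleton ℝ E).compContinuousMultilinearMap A).uncurrySum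
  have hA' : ∀ f g, A' (Sum.elim f g) = A f * ∏ j, φ (g j) := by
    intro f g
    show (A ((Sum.elim f g) ∘ Sum.inl) • E) ((Sum.elim f g) ∘ Sum.inr) = _
    rw [Sum.elim_comp_inl, Sum.elim_comp_inr, smul_apply, hE, smul_eq_mul]
  have hAA : ‖A‖ ≤ ‖A'‖ := by
    refine ContinuousMultilinearMap.opNorm_le_bound (norm_nonneg _) fun f => ?_
    have h1 := A'.le_opNorm (Sum.elim f fun _ => u)
    rw [hA', Fintype.prod_sum_type] at h1
    simp only [hφu, Finset.prod_const_one, mul_one, Sum.elim_inl, Sum.elim_inr] at h1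
    refine h1.trans ?_
    have h2 : ∏ _j : ι', ‖u‖ ≤ 1 := prod_le_one' (fun _ : ι' => u) fun _ => hu
    have h3 : 0 ≤ ∏ i, ‖f i‖ := Finset.prod_nonneg fun i _ => norm_nonneg _
    have h4 : (∏ i, ‖f i‖) * ∏ _j : ι', ‖u‖ ≤ ∏ i, ‖f i‖ := mul_le_of_le_one_right h3 h2
    gcongr
  refine ⟨A', ?_⟩
  rintro B ⟨g, hg, hgB⟩
  set d := ‖A' - B‖ with hd
  set g1 : ι → X := g ∘ Sum.inl with hg1
  set g2 : ι' → X := g ∘ Sum.inr with hg2
  have hgs : g = Sum.elim g1 g2 := (Sum.elim_comp_inl_inr g).symm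
  have hg2n : ∏ j, ‖g2 j‖ ≤ 1 := prod_le_one' g2 fun j => hg _
  set c : ℝ := ∏ j, φ (g2 j) with hc
  have hc1 : |c| ≤ 1 := by
    rw [hc, Finset.abs_prod]
    refine Finset.prod_le_one (fun j _ => abs_nonneg _) fun j _ => ?_
    have h1 := φ.le_opNorm (g2 j)
    rw [Real.norm_eq_abs] at h1
    have h2 : ‖g2 j‖ ≤ 1 := hg _
    nlinarith [norm_nonneg φ, norm_nonneg (g2 j)]
  let B' : ContinuousMultilinearMap ℝ (fun _ : ι => X) ℝ :=
    (ContinuousMultilinearMap.apply ℝ (fun _ : ι' => X) ℝ g2).compContinuousMultilinearMap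
      B.currySum
  have hB' : ∀ f, B' f = B (Sum.elim f g2) := fun f => rfl
  have hBB : ‖B'‖ ≤ ‖B‖ := by
    refine ContinuousMultilinearMap.opNorm_le_bound (norm_nonneg _) fun f => ?_
    have h1 := B.le_opNorm (Sum.elim f g2)
    rw [Fintype.prod_sum_type] at h1
    simp only [Sum.elim_inl, Sum.elim_inr] at h1
    rw [hB']
    refine h1.trans ?_
    have h3 : 0 ≤ ∏ i, ‖f i‖ := Finset.prod_nonneg fun i _ => norm_nonneg _
    have h4 : (∏ i, ‖f i‖) * ∏ j, ‖g2 j‖ ≤ ∏ i, ‖f i‖ := mul_le_of_le_one_right h3 hg2n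
    gcongr
  have hatt : |B' g1| = ‖B‖ := by rw [hB', ← hgs]; exact hgB
  have hBeq : ‖B'‖ = ‖B‖ := by
    refine le_antisymm hBB ?_
    rw [← hatt]
    have h1 := B'.le_opNorm g1
    rw [Real.norm_eq_abs] at h1
    have h2 : ∏ i, ‖g1 i‖ ≤ 1 := prod_le_one' g1 fun i => hg _
    have := norm_nonneg B'
    nlinarith
  have hclose : ‖c • A - B'‖ ≤ d := by
    refine ContinuousMultilinearMap.opNorm_le_bound (norm_nonneg _) fun f => ?_
    have h1 := (A' - B).le_opNorm (Sum.elim f g2)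
    rw [Fintype.prod_sum_type, sub_apply, hA'] at h1
    simp only [Sum.elim_inl, Sum.elim_inr] at h1
    rw [sub_apply, smul_apply, smul_eq_mul, hB',
      mul_comm c]
    refine h1.trans ?_
    have h3 : 0 ≤ ∏ i, ‖f i‖ := Finset.prod_nonneg fun i _ => norm_nonneg _
    have h4 : (∏ i, ‖f i‖) * ∏ j, ‖g2 j‖ ≤ ∏ i, ‖f i‖ := mul_le_of_le_one_right h3 hg2n
    gcongr
  have hA1 : ‖A‖ ≤ ‖B'‖ + d := by
    have h1 : ‖A'‖ ≤ ‖A' - B‖ + ‖B‖ := by
      simpa using norm_add_le (A' - B) B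
    linarith
  have hB1 : ‖B'‖ ≤ |c| * ‖A‖ + d := by
    have h1 : ‖B'‖ ≤ ‖c • A‖ + ‖c • A - B'‖ := by
      have := norm_sub_le (c • A) (c • A - B')
      rwa [sub_sub_cancel] at this
    rw [norm_smul, Real.norm_eq_abs] at h1
    linarith
  obtain ⟨σ, hσ, hσc⟩ : ∃ σ : ℝ, |σ| = 1 ∧ σ * c = |c| := by
    rcases le_total 0 c with h | h
    · exact ⟨1, abs_one, by rw [abs_of_nonneg h, one_mul]⟩
    · exact ⟨-1, by simp, by rw [abs_of_nonpos h]; ring⟩
  have hNA : NAt (σ • B') := by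
    refine ⟨g1, fun i => hg _, ?_⟩
    rw [smul_apply, smul_eq_mul, abs_mul, hσ, norm_smul, Real.norm_eq_abs,
      hσ, hatt, hBeq]
  have hfin := hA _ hNA
  have h5 : ‖A - σ • B'‖ ≤ (1 - |c|) * ‖A‖ + d := by
    have e : A - σ • B' = (1 - |c|) • A + σ • (c • A - B') := by
      ext f
      simp only [sub_apply, add_apply, smul_apply, smul_eq_mul]
      linear_combination (-(A f)) * hσc
    rw [e]
    refine (norm_add_le _ _).trans ?_
    rw [norm_smul, norm_smul, Real.norm_eq_abs, Real.norm_eq_abs, hσ,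
      abs_of_nonneg (by linarith : (0 : ℝ) ≤ 1 - |c|), one_mul]
    linarith
  nlinarith

theorem lift (k m : ℕ) (A : ContinuousMultilinearMap ℝ (fun _ : Fin k => X) ℝ) (δ : ℝ)
    (hA : ∀ B : ContinuousMultilinearMap ℝ (fun _ : Fin k => X) ℝ, NAt B → δ ≤ ‖A - B‖)
    (φ : X →L[ℝ] ℝ) (hφ : ‖φ‖ ≤ 1) (u : X) (hu : ‖u‖ ≤ 1) (hφu : φ u = 1) :
    ∃ A' : ContinuousMultilinearMap ℝ (fun _ : Fin (k + m) => X) ℝ,
      ∀ B : ContinuousMultilinearMap ℝ (fun _ : Fin (k + m) => X) ℝ, NAt B → δ / 3 ≤ ‖A' - B‖ := by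
  obtain ⟨A1, hA1⟩ := sumCase (ι' := Fin m) A δ hA φ hφ u hu hφu
  refine ⟨ContinuousMultilinearMap.domDomCongr finSumFinEquiv A1, fun B hB => ?_⟩
  have h1 := hA1 _ (hB.congr finSumFinEquiv.symm)
  refine h1.trans (le_of_eq ?_)
  rw [← ContinuousMultilinearMap.norm_domDomCongr ℝ X ℝ finSumFinEquiv
    (A1 - ContinuousMultilinearMap.domDomCongr finSumFinEquiv.symm B)]
  congr 1
  ext f
  simp only [ContinuousMultilinearMap.domDomCongr_apply, sub_apply]
  have e : (fun i => f (finSumFinEquiv (finSumFinEquiv.symm i))) = f := by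
    funext i
    rw [Equiv.apply_symm_apply]
  rw [e]

end Pool.Agent.Y855.NA
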