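import Pool.Agent.W308.PL.FLW2

/-!
The fundamental lemma of the sieve (Brun-Hooley blocks) for an arbitrary finite set and a density `g`
with `g p ≤ 1 / 2`; library: helper308 (coefficients), helper112 (local inequalities).
-/

set_option autoImplicit false

open Finset

namespace Pool.Agent.Y855

open Pool.Agent.W308.PL.FLW
open Pool.Agent.Helper112.LP.Kbh
open Pool.Agent.Helper112.LP.Kba

section core

variable {J : ℕ} (Pb : Fin J → Finset ℕ) (b : ℕ)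
  (hd : ∀ i j, i ≠ j → Disjoint (Pb i) (Pb j)) (P : Finset ℕ) (hP : P = univ.biUnion Pb)

include hd hP

theorem core_point (N : ℕ) :
    (if ∀ p ∈ P, ¬ p ∣ N then (1 : ℝ) else 0) ≤
      ∑ U ∈ P.powerset, Cth Pb b U * (if ∀ p ∈ U, p ∣ N then (1 : ℝ) else 0) ∧
    (∑ U ∈ P.powerset, Cth Pb b U * (if ∀ p ∈ U, p ∣ N then (1 : ℝ) else 0)) -
      (if ∀ p ∈ P, ¬ p ∣ N then (1 : ℝ) else 0) ≤
      ∑ U ∈ P.powerset, Cdl Pb b U * (if ∀ p ∈ U, p ∣ N then (1 : ℝ) else 0) := by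
  classical
  have e0 : ∀ U : Finset ℕ, (if ∀ p ∈ U, p ∣ N then (1 : ℝ) else 0) =
      ∏ p ∈ U, (if p ∣ N then (1 : ℝ) else 0) := by
    intro U
    rw [Finset.prod_ite_zero]
    simp only [prod_const_one]
  simp only [e0]
  rw [sum_Cth Pb b hd P hP, sum_Cdl Pb b hd P hP]
  have hy : ∀ j : Fin J, (∑ U ∈ (Pb j).powerset.filter (fun U => U.card ≤ 2 * (b + j)),
      (-1 : ℝ) ^ U.card * ∏ l ∈ U, (if l ∣ N then (1 : ℝ) else 0)) =
      ∑ U ∈ (Pb j).powerset.filter (fun U => U.card ≤ 2 * (b + j)),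
        if ∀ l ∈ U, l ∣ N then ((-1 : ℝ)) ^ U.card else 0 := by
    intro j
    apply sum_congr rfl
    intro U _
    rw [Finset.prod_ite_zero]
    simp only [prod_const_one]
    split_ifs <;> simp
  have he : ∀ j : Fin J, (∑ U ∈ (Pb j).powersetCard (2 * (b + j) + 1),
      ∏ l ∈ U, (if l ∣ N then (1 : ℝ) else 0)) =
      ∑ U ∈ (Pb j).powersetCard (2 * (b + j) + 1), if ∀ l ∈ U, l ∣ N then (1 : ℝ) else 0 := by
    intro j
    apply sum_congr rfl
    intro U _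
    rw [Finset.prod_ite_zero]
    simp only [prod_const_one]
  simp only [hy, he]
  have hloc := fun j : Fin J => bh_local (Pb j) (2 * (b + j)) (even_two_mul _) N
  have hx : (if ∀ p ∈ P, ¬ p ∣ N then (1 : ℝ) else 0) =
      ∏ j : Fin J, (if ∀ l ∈ Pb j, ¬ l ∣ N then (1 : ℝ) else 0) := by
    rw [Finset.prod_ite_zero]
    simp only [prod_const_one]
    have : (∀ p ∈ P, ¬ p ∣ N) ↔ ∀ i ∈ (univ : Finset (Fin J)), ∀ l ∈ Pb i, ¬ l ∣ N := by
      rw [hP]
      simp only [mem_biUnion, mem_univ, true_and, forall_exists_index, forall_true_left]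
      constructor
      · intro h i l hl
        exact h l i hl
      · intro h l i hl
        exact h i l hl
    simp only [this]
  rw [hx]
  constructor
  · exact prod_le_prod (fun j _ => (hloc j).1) fun j _ => (hloc j).2.1
  · exact bh_prod_sub univ _ _ _ (fun j => (hloc j).1) (fun j => (hloc j).2.1)
      fun j => (hloc j).2.2

theorem core_hat (g : ℕ → ℝ) (hg : ∀ j, ∀ p ∈ Pb j, 0 ≤ g p ∧ g p ≤ 1 / 2) (L : ℝ)
    (hL : ∀ j, ∑ p ∈ Pb j, g p ≤ L) (ρ : ℝ) (hρ1 : ρ ≤ 1)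
    (hρ : ∑ j : Fin J, Real.exp (2 * L) * (L ^ (2 * (b + j) + 1) / (2 * (b + j) + 1).factorial) ≤ ρ) :
    |(∑ U ∈ P.powerset, Cth Pb b U * ∏ p ∈ U, g p) - ∏ p ∈ P, (1 - g p)| ≤
      3 * ρ * ∏ p ∈ P, (1 - g p) ∧
    |∑ U ∈ P.powerset, Cdl Pb b U * ∏ p ∈ U, g p| ≤ 3 * ρ * ∏ p ∈ P, (1 - g p) := by
  classical
  rw [sum_Cth Pb b hd P hP, sum_Cdl Pb b hd P hP]
  set V : Fin J → ℝ := fun j => ∏ p ∈ Pb j, (1 - g p) with hV
  set T : Fin J → ℝ := fun j => bhA g (2 * (b + j)) (Pb j) with hT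
  set E : Fin J → ℝ := fun j => bhE g (2 * (b + j) + 1) (Pb j) with hE
  have hTd : ∀ j : Fin J, (∑ U ∈ (Pb j).powerset.filter (fun U => U.card ≤ 2 * (b + j)),
      (-1 : ℝ) ^ U.card * ∏ l ∈ U, g l) = T j := fun j => rfl
  have hEd : ∀ j : Fin J, (∑ U ∈ (Pb j).powersetCard (2 * (b + j) + 1),
      ∏ l ∈ U, g l) = E j := fun j => rfl
  simp only [hTd, hEd]
  have hVV : ∏ p ∈ P, (1 - g p) = ∏ j, V j := by
    rw [hP, prod_biUnion]
    intro i _ j _ hij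
    exact hd i j hij
  rw [hVV]
  have hgb := hg
  have hbonf : ∀ j, V j ≤ T j ∧ T j ≤ V j + E j := by
    intro j
    have h := bh_bonf g (Pb j)
      (fun p hp => ⟨(hgb j p hp).1, (hgb j p hp).2.trans (by norm_num)⟩) (2 * (b + j))
    rw [(even_two_mul _).neg_one_pow, one_mul] at h
    constructor
    · have := h.1; simp only [hV, hT]; linarith
    · have := h.2; simp only [hV, hT, hE]; linarith
  set v : ℝ := Real.exp (-(2 * L)) with hv
  have hv0 : 0 < v := Real.exp_pos _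
  have hvinv : Real.exp (2 * L) = v⁻¹ := by rw [hv, Real.exp_neg, inv_inv]
  have hVv : ∀ j, v ≤ V j := by
    intro j
    have h1 : Real.exp (-(2 * ∑ l ∈ Pb j, g l)) ≤ V j := by
      have : -(2 * ∑ l ∈ Pb j, g l) = ∑ l ∈ Pb j, (-(2 * g l)) := by
        rw [mul_sum, ← sum_neg_distrib]
      rw [this, Real.exp_sum]
      exact prod_le_prod (fun l _ => (Real.exp_pos _).le)
        fun l hl => bh_inv_ge (hgb j l hl).1 (hgb j l hl).2
    refine le_trans ?_ h1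
    exact Real.exp_le_exp.2 (by linarith [hL j])
  have hE0 : ∀ j, 0 ≤ E j := fun j => bhE_nonneg _ _ _ fun l hl => (hgb j l hl).1
  have hEle : ∀ j : Fin J, E j ≤ L ^ (2 * (b + (j : ℕ)) + 1) /
      ((2 * (b + (j : ℕ)) + 1).factorial : ℝ) := by
    intro j
    refine (bhE_le g (Pb j) (fun l hl => (hgb j l hl).1)
      (2 * (b + j) + 1)).trans ?_
    have h0 : 0 ≤ ∑ l ∈ Pb j, g l := sum_nonneg fun l hl => (hgb j l hl).1
    have := hL j
    gcongr
  have hsum : ∑ j, E j / v ≤ ρ := by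
    refine le_trans (sum_le_sum fun j _ => ?_) hρ
    rw [hvinv, div_eq_inv_mul]
    exact mul_le_mul_of_nonneg_left (hEle j) (by positivity)
  have hV0 : ∀ j, 0 < V j := fun j => lt_of_lt_of_le hv0 (hVv j)
  have hT0 : ∀ j, 0 < T j := fun j => lt_of_lt_of_le (hV0 j) (hbonf j).1
  have hρ0 : 0 ≤ ρ := le_trans (sum_nonneg fun j _ => div_nonneg (hE0 j) hv0.le) hsum
  have hVT : ∏ j, V j ≤ ∏ j, T j := prod_le_prod (fun j _ => (hV0 j).le) fun j _ => (hbonf j).1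
  have hTV : ∏ j, T j ≤ (∏ j, V j) * Real.exp ρ := by
    have h1 : ∏ j, T j ≤ ∏ j, V j * Real.exp (E j / v) := by
      refine prod_le_prod (fun j _ => (hT0 j).le) fun j _ => ?_
      refine (hbonf j).2.trans ?_
      have h2 := Real.add_one_le_exp (E j / v)
      have h3 : V j * (E j / v + 1) ≤ V j * Real.exp (E j / v) :=
        mul_le_mul_of_nonneg_left h2 (hV0 j).le
      refine le_trans ?_ h3
      have h4 : E j ≤ V j * (E j / v) := by
        rw [← mul_div_assoc, le_div_iff₀ hv0, mul_comm (V j)]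
        exact mul_le_mul_of_nonneg_left (hVv j) (hE0 j)
      linarith
    rw [prod_mul_distrib, ← Real.exp_sum] at h1
    exact h1.trans (mul_le_mul_of_nonneg_left (Real.exp_le_exp.2 hsum)
      (prod_nonneg fun j _ => (hV0 j).le))
  have hVp : 0 < ∏ j, V j := prod_pos fun j _ => hV0 j
  have hexp : Real.exp ρ ≤ 1 + 2 * ρ := by
    have h1 := Real.abs_exp_sub_one_sub_id_le (x := ρ) (by rw [abs_of_nonneg hρ0]; exact hρ1)
    have h2 := (abs_le.1 h1).2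
    nlinarith
  constructor
  · rw [abs_le]
    constructor
    · have : 0 ≤ 3 * ρ * ∏ j, V j := by positivity
      linarith
    · have : (∏ j, V j) * Real.exp ρ ≤ (∏ j, V j) * (1 + 2 * ρ) :=
        mul_le_mul_of_nonneg_left hexp hVp.le
      have h3 : 0 ≤ ρ * ∏ j, V j := by positivity
      nlinarith
  · have hterm : ∀ k, 0 ≤ E k * ∏ i ∈ univ.erase k, T i ∧
        E k * ∏ i ∈ univ.erase k, T i ≤ E k / v * ∏ i, T i := by
      intro k
      have h2 : 0 ≤ ∏ i ∈ univ.erase k, T i := prod_nonneg fun i _ => (hT0 i).le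
      refine ⟨mul_nonneg (hE0 k) h2, ?_⟩
      have h1 : ∏ i, T i = T k * ∏ i ∈ univ.erase k, T i :=
        (mul_prod_erase univ T (mem_univ k)).symm
      rw [h1, div_mul_eq_mul_div, le_div_iff₀ hv0]
      have h3 : v ≤ T k := (hVv k).trans (hbonf k).1
      have h4 : E k * (∏ i ∈ univ.erase k, T i) * v ≤
          E k * (∏ i ∈ univ.erase k, T i) * T k :=
        mul_le_mul_of_nonneg_left h3 (mul_nonneg (hE0 k) h2)
      linarith
    rw [abs_of_nonneg (sum_nonneg fun k _ => (hterm k).1)]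
    calc ∑ k, E k * ∏ i ∈ univ.erase k, T i ≤ ∑ k, E k / v * ∏ i, T i :=
          sum_le_sum fun k _ => (hterm k).2
      _ = (∑ k, E k / v) * ∏ i, T i := by rw [sum_mul]
      _ ≤ ρ * ((∏ j, V j) * Real.exp ρ) :=
          mul_le_mul hsum hTV (prod_nonneg fun i _ => (hT0 i).le) hρ0
      _ ≤ ρ * ((∏ j, V j) * 3) := by
          apply mul_le_mul_of_nonneg_left _ hρ0
          apply mul_le_mul_of_nonneg_left _ hVp.le
          linarith
      _ = 3 * ρ * ∏ j, V j := by ring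

/-- counting form -/
theorem core_count (g : ℕ → ℝ) (hg : ∀ j, ∀ p ∈ Pb j, 0 ≤ g p ∧ g p ≤ 1 / 2) (L : ℝ)
    (hL : ∀ j, ∑ p ∈ Pb j, g p ≤ L) (ρ : ℝ) (hρ1 : ρ ≤ 1)
    (hρ : ∑ j : Fin J, Real.exp (2 * L) * (L ^ (2 * (b + j) + 1) / (2 * (b + j) + 1).factorial) ≤ ρ)
    {Ω : Type*} (S : Finset Ω) (n : Ω → ℕ) (X : ℝ) (hX : 0 ≤ X) :
    |((S.filter (fun ω => ∀ p ∈ P, ¬ p ∣ n ω)).card : ℝ) - X * ∏ p ∈ P, (1 - g p)| ≤
      6 * ρ * (X * ∏ p ∈ P, (1 - g p)) + (J + 1) *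
        ∑ U ∈ P.powerset.filter (fun U => ∀ j : Fin J, (U ∩ Pb j).card ≤ 2 * (b + j) + 1),
          |((S.filter (fun ω => ∀ p ∈ U, p ∣ n ω)).card : ℝ) - X * ∏ p ∈ U, g p| := by
  classical
  obtain ⟨h1, h2⟩ := core_hat Pb b hd P hP g hg L hL ρ hρ1 hρ
  set R : Finset ℕ → ℝ := fun U =>
    ((S.filter (fun ω => ∀ p ∈ U, p ∣ n ω)).card : ℝ) - X * ∏ p ∈ U, g p with hR
  set V : ℝ := ∏ p ∈ P, (1 - g p) with hV
  have hcard : ((S.filter (fun ω => ∀ p ∈ P, ¬ p ∣ n ω)).card : ℝ) =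
      ∑ ω ∈ S, (if ∀ p ∈ P, ¬ p ∣ n ω then (1 : ℝ) else 0) := by
    rw [card_filter]
    push_cast
    rfl
  have hsw : ∀ C : Finset ℕ → ℝ, ∑ ω ∈ S, ∑ U ∈ P.powerset, C U *
      (if ∀ p ∈ U, p ∣ n ω then (1 : ℝ) else 0) =
      X * ∑ U ∈ P.powerset, C U * ∏ p ∈ U, g p + ∑ U ∈ P.powerset, C U * R U := by
    intro C
    rw [sum_comm, mul_sum, ← sum_add_distrib]
    apply sum_congr rfl
    intro U _
    rw [← mul_sum]
    have : (∑ ω ∈ S, if ∀ p ∈ U, p ∣ n ω then (1 : ℝ) else 0) = X * ∏ p ∈ U, g p + R U := by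
      simp only [hR]
      rw [card_filter]
      push_cast
      ring
    rw [this]
    ring
  have hCR : ∀ (C : Finset ℕ → ℝ) (K : ℝ), (∀ U, |C U| ≤ K) →
      (∀ U, C U ≠ 0 → ∀ j : Fin J, (U ∩ Pb j).card ≤ 2 * (b + j) + 1) →
      |∑ U ∈ P.powerset, C U * R U| ≤ K *
        ∑ U ∈ P.powerset.filter (fun U => ∀ j : Fin J, (U ∩ Pb j).card ≤ 2 * (b + j) + 1),
          |R U| := by
    intro C K hK hs
    have e : ∑ U ∈ P.powerset, C U * R U =
        ∑ U ∈ P.powerset.filter (fun U => ∀ j : Fin J, (U ∩ Pb j).card ≤ 2 * (b + j) + 1),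
          C U * R U := by
      symm
      apply sum_filter_of_ne
      intro U _ h
      exact hs U (left_ne_zero_of_mul h)
    rw [e, mul_sum]
    refine (abs_sum_le_sum_abs _ _).trans (sum_le_sum fun U _ => ?_)
    rw [abs_mul]
    exact mul_le_mul_of_nonneg_right (hK U) (abs_nonneg _)
  set Er := ∑ U ∈ P.powerset.filter (fun U => ∀ j : Fin J, (U ∩ Pb j).card ≤ 2 * (b + j) + 1),
          |R U| with hEr
  have hEr0 : 0 ≤ Er := sum_nonneg fun _ _ => abs_nonneg _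
  have h3 := hCR (Cth Pb b) 1 (Cth_abs Pb b) (fun U h => Cth_supp Pb b h)
  have h4 := hCR (Cdl Pb b) J (Cdl_abs Pb b) (fun U h => Cdl_supp Pb b h)
  have hup : ((S.filter (fun ω => ∀ p ∈ P, ¬ p ∣ n ω)).card : ℝ) ≤
      X * ∑ U ∈ P.powerset, Cth Pb b U * ∏ p ∈ U, g p + ∑ U ∈ P.powerset, Cth Pb b U * R U := by
    rw [hcard, ← hsw]
    exact sum_le_sum fun ω _ => (core_point Pb b hd P hP (n ω)).1
  have hlow : (X * ∑ U ∈ P.powerset, Cth Pb b U * ∏ p ∈ U, g p +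
      ∑ U ∈ P.powerset, Cth Pb b U * R U) -
      ((S.filter (fun ω => ∀ p ∈ P, ¬ p ∣ n ω)).card : ℝ) ≤
      X * ∑ U ∈ P.powerset, Cdl Pb b U * ∏ p ∈ U, g p + ∑ U ∈ P.powerset, Cdl Pb b U * R U := by
    rw [hcard, ← hsw, ← hsw, ← sum_sub_distrib]
    exact sum_le_sum fun ω _ => (core_point Pb b hd P hP (n ω)).2
  have h1' := mul_le_mul_of_nonneg_left (abs_le.1 h1).1 hX
  have h1'' := mul_le_mul_of_nonneg_left (abs_le.1 h1).2 hX
  have h2'' := mul_le_mul_of_nonneg_left (abs_le.1 h2).2 hX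
  have h3' := abs_le.1 h3
  have h4' := abs_le.1 h4
  rw [abs_le]
  constructor
  · nlinarith
  · have h5 : 0 ≤ 3 * ρ * V := (abs_nonneg _).trans h1
    have h6 : 0 ≤ X * (3 * ρ * V) := mul_nonneg hX h5
    have h7 : 0 ≤ (J : ℝ) * Er := mul_nonneg (Nat.cast_nonneg _) hEr0
    nlinarith

end core

end Pool.Agent.Y855
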