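import Pool.Agent.Y855.A5
import Pool.Agent.Helper112.Lp.Kmt

/-!
Sums over large primes and the lower bound for the sieve product.
-/

set_option autoImplicit false

open Finset

namespace Pool.Agent.Y855

open Pool.Agent.H442R2.KF

theorem sum_biUnion_le' {ι : Type*} (s : Finset ι) (t : ι → Finset ℕ) (f : ℕ → ℝ)
    (hf : ∀ l, 0 ≤ f l) : ∑ l ∈ s.biUnion t, f l ≤ ∑ j ∈ s, ∑ l ∈ t j, f l := by
  classical
  induction s using Finset.induction_on with
  | empty => simp
  | insert a s ha ih =>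
    rw [biUnion_insert, sum_insert ha]
    have h1 := sum_union_inter (f := f) (s₁ := t a) (s₂ := s.biUnion t)
    have h2 : 0 ≤ ∑ l ∈ t a ∩ s.biUnion t, f l := sum_nonneg fun l _ => hf l
    linarith

theorem sum_inv_log : ∃ C : ℝ, 0 < C ∧ ∀ z : ℕ, 2 ≤ z → ∀ S : Finset ℕ,
    (∀ l ∈ S, l.Prime ∧ z < l) → ∑ l ∈ S, 1 / ((l : ℝ) * Real.log l) ≤ C / Real.log z := by
  classical
  obtain ⟨L, hL0, hL⟩ := Pool.Agent.W308.PL.FLW.block_bd
  refine ⟨2 * L, by positivity, ?_⟩
  intro z hz S hS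
  have hz2 : (2 : ℝ) ≤ z := by exact_mod_cast hz
  have hlz : 0 < Real.log z := Real.log_pos (by linarith)
  obtain ⟨J, hJ⟩ := S.exists_nat_subset_range
  set Sj : ℕ → Finset ℕ := fun j => S.filter (fun l => z ^ 2 ^ j < l ∧ l ≤ z ^ 2 ^ (j + 1)) with hSj
  have hcov : S ⊆ (range J).biUnion Sj := by
    intro l hl
    obtain ⟨hlp, hzl⟩ := hS l hl
    have hlJ : l < J := mem_range.1 (hJ hl)
    have hlast : l ≤ z ^ 2 ^ ((J - 1) + 1) := by
      calc l ≤ J := hlJ.le
        _ ≤ 2 ^ J := Nat.lt_two_pow_self.le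
        _ ≤ 2 ^ 2 ^ J := Nat.pow_le_pow_right (by norm_num) Nat.lt_two_pow_self.le
        _ ≤ z ^ 2 ^ J := Nat.pow_le_pow_left hz _
        _ = z ^ 2 ^ ((J - 1) + 1) := by congr 2; omega
    have hex : ∃ j, l ≤ z ^ 2 ^ (j + 1) := ⟨_, hlast⟩
    have h1 := Nat.find_spec hex
    have h2 : Nat.find hex ≤ J - 1 := Nat.find_min' hex hlast
    rw [mem_biUnion]
    refine ⟨Nat.find hex, mem_range.2 (by omega), ?_⟩
    simp only [hSj]
    rw [mem_filter]
    refine ⟨hl, ?_, h1⟩
    by_cases h0 : Nat.find hex = 0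
    · simp only [h0, pow_zero, pow_one]
      exact hzl
    · have h3 := Nat.find_min hex (m := Nat.find hex - 1) (by omega)
      have h4 : Nat.find hex - 1 + 1 = Nat.find hex := by omega
      rw [h4] at h3
      exact not_le.1 h3
  have hblock : ∀ j : ℕ, ∑ l ∈ Sj j, 1 / ((l : ℝ) * Real.log l) ≤ (1 / 2 : ℝ) ^ j * (L / Real.log z) := by
    intro j
    have h1 : ∑ l ∈ Sj j, (1 : ℝ) / l ≤ L := by
      apply hL
      · intro p hp
        exact (hS p (mem_filter.1 hp).1).1
      · intro p hp q hq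
        simp only [hSj] at hp hq
        rw [mem_filter] at hp hq
        calc q ≤ z ^ 2 ^ (j + 1) := hq.2.2
          _ = (z ^ 2 ^ j) ^ 2 := by rw [← pow_mul, ← pow_succ]
          _ < p ^ 2 := Nat.pow_lt_pow_left hp.2.1 (by norm_num)
    calc ∑ l ∈ Sj j, 1 / ((l : ℝ) * Real.log l) ≤
        ∑ l ∈ Sj j, (1 : ℝ) / l * (1 / (2 ^ j * Real.log z)) := by
          apply sum_le_sum
          intro l hl
          simp only [hSj] at hl
          rw [mem_filter] at hl
          have hlp := (hS l hl.1).1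
          have hl0 : (0 : ℝ) < l := by exact_mod_cast hlp.pos
          have h2 : 2 ^ j * Real.log z ≤ Real.log l := by
            have h3 : ((z : ℝ)) ^ 2 ^ j ≤ l := by exact_mod_cast hl.2.1.le
            have h4 := Real.log_le_log (by positivity) h3
            rw [Real.log_pow] at h4
            push_cast at h4
            exact h4
          rw [one_div_mul_one_div]
          apply one_div_le_one_div_of_le (by positivity)
          exact mul_le_mul_of_nonneg_left h2 hl0.le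
      _ = (∑ l ∈ Sj j, (1 : ℝ) / l) * (1 / (2 ^ j * Real.log z)) := by rw [sum_mul]
      _ ≤ L * (1 / (2 ^ j * Real.log z)) := mul_le_mul_of_nonneg_right h1 (by positivity)
      _ = (1 / 2 : ℝ) ^ j * (L / Real.log z) := by
          rw [one_div_pow]
          field_simp
  calc ∑ l ∈ S, 1 / ((l : ℝ) * Real.log l)
      ≤ ∑ l ∈ (range J).biUnion Sj, 1 / ((l : ℝ) * Real.log l) := by
        apply sum_le_sum_of_subset_of_nonneg hcov
        intro l _ _
        exact div_nonneg zero_le_one (mul_nonneg (Nat.cast_nonneg _) (Real.log_natCast_nonneg l))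
    _ ≤ ∑ j ∈ range J, ∑ l ∈ Sj j, 1 / ((l : ℝ) * Real.log l) := by
        apply sum_biUnion_le'
        intro l
        exact div_nonneg zero_le_one (mul_nonneg (Nat.cast_nonneg _) (Real.log_natCast_nonneg l))
    _ ≤ ∑ j ∈ range J, (1 / 2 : ℝ) ^ j * (L / Real.log z) := sum_le_sum fun j _ => hblock j
    _ = (∑ j ∈ range J, (1 / 2 : ℝ) ^ j) * (L / Real.log z) := by rw [sum_mul]
    _ ≤ 2 * (L / Real.log z) := by
        apply mul_le_mul_of_nonneg_right _ (by positivity)
        exact sum_geometric_two_le J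
    _ = 2 * L / Real.log z := by ring

theorem sq_prod (N : ℕ) (hN : 3 ≤ N) :
    (1 : ℝ) / 2 ≤ ∏ n ∈ Icc 3 N, (1 - 1 / ((n : ℝ) - 1) ^ 2) := by
  have key : ∀ N : ℕ, 3 ≤ N → ∏ n ∈ Icc 3 N, (1 - 1 / ((n : ℝ) - 1) ^ 2) =
      (N : ℝ) / (2 * ((N : ℝ) - 1)) := by
    intro N hN
    induction N, hN using Nat.le_induction with
    | base => norm_num [Icc_self]
    | succ n hn ih =>
      rw [Finset.prod_Icc_succ_top (by omega), ih]
      have h3 : (3 : ℝ) ≤ n := by exact_mod_cast hn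
      push_cast
      have h4 : (n : ℝ) - 1 ≠ 0 := by linarith
      have h5 : (n : ℝ) ≠ 0 := by linarith
      have h6 : (n : ℝ) + 1 - 1 = n := by ring
      rw [h6]
      field_simp
      ring
  rw [key N hN]
  have h3 : (3 : ℝ) ≤ N := by exact_mod_cast hN
  rw [div_le_div_iff₀ (by norm_num) (by linarith)]
  linarith

theorem prod_subset_le {S T : Finset ℕ} (hST : S ⊆ T) (f : ℕ → ℝ) (h0 : ∀ n ∈ T, 0 ≤ f n)
    (h1 : ∀ n ∈ T, f n ≤ 1) : ∏ n ∈ T, f n ≤ ∏ n ∈ S, f n := by
  classical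
  rw [← prod_sdiff hST]
  calc (∏ n ∈ T \ S, f n) * ∏ n ∈ S, f n ≤ 1 * ∏ n ∈ S, f n := by
        apply mul_le_mul_of_nonneg_right
        · exact prod_le_one (fun n hn => h0 n (mem_sdiff.1 hn).1) fun n hn => h1 n (mem_sdiff.1 hn).1
        · exact prod_nonneg fun n hn => h0 n (hST hn)
    _ = _ := one_mul _

theorem VP_lower : ∃ c : ℝ, 0 < c ∧ ∀ z : ℕ, 2 ≤ z → c / Real.log z ≤ VP (OP z) := by
  obtain ⟨c, C, hc, hC, h⟩ := Pool.Agent.Helper112.LP.mertens_prod
  refine ⟨c / 6, by positivity, ?_⟩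
  intro z hz
  have hz2 : (2 : ℝ) ≤ z := by exact_mod_cast hz
  have hlz : 0 < Real.log z := Real.log_pos (by linarith)
  have e1 : VP (OP z) = (∏ q ∈ OP z, (1 - 1 / (q : ℝ))) *
      ∏ q ∈ OP z, (1 - 1 / ((q : ℝ) - 1) ^ 2) := by
    unfold VP
    rw [← prod_mul_distrib]
    apply prod_congr rfl
    intro q hq
    have h3 : (3 : ℝ) ≤ q := by exact_mod_cast (mem_OP.1 hq).2.1
    have h4 : (q : ℝ) ≠ 0 := by linarith
    have h5 : (q : ℝ) - 1 ≠ 0 := by linarith
    field_simp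
    ring
  have h2 : (1 : ℝ) / 2 ≤ ∏ q ∈ OP z, (1 - 1 / ((q : ℝ) - 1) ^ 2) := by
    refine (sq_prod (max z 3) (le_max_right _ _)).trans ?_
    apply prod_subset_le
    · intro q hq
      rw [mem_Icc]
      exact ⟨(mem_OP.1 hq).2.1, (mem_OP.1 hq).2.2.trans (le_max_left _ _)⟩
    · intro n hn
      have h3 : (3 : ℝ) ≤ n := by exact_mod_cast (mem_Icc.1 hn).1
      have h4 : 1 / ((n : ℝ) - 1) ^ 2 ≤ 1 := by
        rw [div_le_one (by nlinarith)]
        nlinarith
      linarith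
    · intro n _
      have : 0 ≤ 1 / ((n : ℝ) - 1) ^ 2 := by positivity
      linarith
  set J : ℕ := Nat.log 2 (Nat.log 2 z) + 1 with hJ
  have hlog1 : 1 ≤ Nat.log 2 z := Nat.log_pos (by norm_num) hz
  have hzJ : z < 2 ^ 2 ^ J := by
    calc z < 2 ^ (Nat.log 2 z + 1) := Nat.lt_pow_succ_log_self (by norm_num) z
      _ ≤ 2 ^ 2 ^ J := by
          apply Nat.pow_le_pow_right (by norm_num)
          exact Nat.lt_pow_succ_log_self (by norm_num) _
  have hJ2 : (2 : ℝ) ^ J ≤ 3 * Real.log z := by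
    have h3 : 2 ^ Nat.log 2 (Nat.log 2 z) ≤ Nat.log 2 z := Nat.pow_log_le_self 2 (by omega)
    have h4 : (2 : ℝ) ^ J ≤ 2 * (Nat.log 2 z : ℝ) := by
      rw [hJ, pow_succ]
      have : (2 : ℝ) ^ Nat.log 2 (Nat.log 2 z) ≤ Nat.log 2 z := by exact_mod_cast h3
      linarith
    have h5 : (Nat.log 2 z : ℝ) * Real.log 2 ≤ Real.log z := by
      have h6 : 2 ^ Nat.log 2 z ≤ z := Nat.pow_log_le_self 2 (by omega)
      have h7 : ((2 : ℝ)) ^ Nat.log 2 z ≤ z := by exact_mod_cast h6
      have h8 := Real.log_le_log (by positivity) h7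
      rwa [Real.log_pow] at h8
    have h6 := Real.log_two_gt_d9
    nlinarith
  have h3 : c / (3 * Real.log z) ≤ ∏ q ∈ OP z, (1 - 1 / (q : ℝ)) := by
    calc c / (3 * Real.log z) ≤ c / 2 ^ J := div_le_div_of_nonneg_left hc.le (by positivity) hJ2
      _ ≤ ∏ l ∈ (range (2 ^ 2 ^ J)).filter Nat.Prime, (1 - (1 : ℝ) / l) := (h J).1
      _ ≤ _ := by
          apply prod_subset_le
          · intro q hq
            rw [mem_filter, mem_range]
            exact ⟨lt_of_le_of_lt (mem_OP.1 hq).2.2 hzJ, (mem_OP.1 hq).1⟩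
          · intro n hn
            have h3 : (2 : ℝ) ≤ n := by exact_mod_cast (mem_filter.1 hn).2.two_le
            have h4 : 1 / (n : ℝ) ≤ 1 := by
              rw [div_le_one (by linarith)]
              linarith
            linarith
          · intro n _
            have : 0 ≤ 1 / (n : ℝ) := by positivity
            linarith
  rw [e1]
  calc c / 6 / Real.log z = c / (3 * Real.log z) * (1 / 2) := by field_simp; norm_num
    _ ≤ _ := mul_le_mul h3 h2 (by norm_num) (le_trans (by positivity) h3)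

/-- Chebyshev's lower bound -/
theorem piN_ge : ∃ X : ℕ, 3 ≤ X ∧ ∀ x : ℕ, X ≤ x → (x : ℝ) / (2 * Real.log x) ≤ piN x := by
  have e : ∀ x : ℕ, piN x = Nat.primeCounting x := by
    intro x
    unfold piN
    rw [Nat.primeCounting, Nat.primeCounting', Nat.count_eq_card_filter_range]
    congr 1
    ext p
    rw [mem_filter, mem_filter, mem_Icc, mem_range]
    constructor
    · rintro ⟨h1, h2⟩
      exact ⟨by omega, h2⟩
    · rintro ⟨h1, h2⟩
      exact ⟨⟨h2.pos, by omega⟩, h2⟩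
  refine ⟨20, by norm_num, fun x hx => ?_⟩
  have hx20 : (20 : ℝ) ≤ x := by exact_mod_cast hx
  have hlog : 0 < Real.log x := Real.log_pos (by linarith)
  rw [e]
  refine le_trans ?_ (Chebyshev.pi_ge x)
  have h20 : Real.log 20 ≤ 3 := by
    rw [Real.log_le_iff_le_exp (by norm_num)]
    have h1 := Real.exp_one_gt_d9
    have h2 : Real.exp 3 = Real.exp 1 ^ 3 := by
      rw [← Real.exp_nat_mul]; norm_num
    rw [h2]
    have h3 : (2.7182818283 : ℝ) ^ 3 ≤ Real.exp 1 ^ 3 := pow_le_pow_left₀ (by norm_num) h1.le 3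
    refine le_trans ?_ h3
    norm_num
  have h1 : Real.log ((x : ℝ) + 1) ≤ ((x : ℝ) + 1) / 20 - 1 + 3 := by
    have h2 := Real.log_le_sub_one_of_pos (show (0 : ℝ) < ((x : ℝ) + 1) / 20 by positivity)
    rw [Real.log_div (by positivity) (by norm_num)] at h2
    linarith
  have h2 := Real.log_two_gt_d9
  rw [← div_div, div_le_div_iff_of_pos_right hlog]
  nlinarith

end Pool.Agent.Y855
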