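import Pool.Agent.Y855.A5

/-!
Local facts: primitive roots and the Jacobi symbol.
-/

set_option autoImplicit false

open Finset

namespace Pool.Agent.Y855

theorem jac_recip (D : ℤ) (hD : D % 4 = 1) (p : ℕ) (hp : Odd p) :
    jacobiSym D p = jacobiSym p D.natAbs := by
  rcases le_total 0 D with h | h
  · have h1 : (D.natAbs : ℤ) = D := Int.natAbs_of_nonneg h
    have h2 : D.natAbs % 4 = 1 := by omega
    have h3 := jacobiSym.quadratic_reciprocity_one_mod_four h2 hp
    rw [h1] at h3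
    exact h3
  · have h1 : D = -(D.natAbs : ℤ) := by omega
    have h2 : D.natAbs % 4 = 3 := by omega
    have hodd : Odd D.natAbs := by rw [Nat.odd_iff]; omega
    have h3 : jacobiSym D p = jacobiSym (-1) p * jacobiSym (D.natAbs : ℤ) p := by
      rw [← jacobiSym.mul_left, neg_one_mul, ← h1]
    rw [h3, jacobiSym.at_neg_one hp]
    rcases Nat.odd_mod_four_iff.1 (Nat.odd_iff.1 hp) with h4 | h4
    · rw [ZMod.χ₄_nat_one_mod_four h4, one_mul, jacobiSym.quadratic_reciprocity_one_mod_four h4 hodd]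
    · rw [ZMod.χ₄_nat_three_mod_four h4, jacobiSym.quadratic_reciprocity_three_mod_four h2 h4]
      ring

theorem pow_half (n D k : ℤ) (hn : n = D * k ^ 2) (hD : D % 4 = 1) (p : ℕ) (hp : p.Prime)
    (hp2 : 2 < p) (hpn : ¬ (p : ℤ) ∣ n) :
    (n : ZMod p) ^ ((p - 1) / 2) = ((jacobiSym p D.natAbs : ℤ) : ZMod p) := by
  have : Fact p.Prime := ⟨hp⟩
  have hodd : Odd p := hp.odd_of_ne_two (by omega)
  have h1 : (p - 1) / 2 = p / 2 := by
    obtain ⟨t, ht⟩ := hodd
    omega
  have hpk : ¬ (p : ℤ) ∣ k := by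
    intro h
    apply hpn
    rw [hn]
    exact (Dvd.dvd.pow h (by norm_num)).mul_left D
  rw [h1, ← legendreSym.eq_pow, jacobiSym.legendreSym.to_jacobiSym, ← jac_recip D hD p hodd, hn,
    jacobiSym.mul_left, jacobiSym.pow_left]
  have h2 : jacobiSym k p ^ 2 = 1 := by
    apply jacobiSym.sq_one
    have h3 := (Nat.Prime.coprime_iff_not_dvd hp).2 (fun h => hpk (Int.natCast_dvd.2 h))
    rw [Int.gcd_comm]
    exact h3
  rw [h2, mul_one]

theorem jac_cases (n D k : ℤ) (hn : n = D * k ^ 2) (p : ℕ) (hp : p.Prime) (hpn : ¬ (p : ℤ) ∣ n) :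
    jacobiSym p D.natAbs = 1 ∨ jacobiSym p D.natAbs = -1 := by
  apply jacobiSym.eq_one_or_neg_one
  rw [Int.gcd_natCast_natCast]
  apply (Nat.Prime.coprime_iff_not_dvd hp).2
  intro h
  apply hpn
  rw [hn]
  exact (Int.natCast_dvd.2 h).mul_right _

theorem order_iff (n D k : ℤ) (hn : n = D * k ^ 2) (hD : D % 4 = 1) (p : ℕ) (hp : p.Prime)
    (hp2 : 2 < p) (hpn : ¬ (p : ℤ) ∣ n) :
    orderOf (n : ZMod p) = p - 1 ↔ jacobiSym p D.natAbs = -1 ∧
      ¬ ∃ l : ℕ, l.Prime ∧ 3 ≤ l ∧ l ∣ p - 1 ∧ (n : ZMod p) ^ ((p - 1) / l) = 1 := by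
  have : Fact p.Prime := ⟨hp⟩
  have hn0 : (n : ZMod p) ≠ 0 := by
    intro h
    exact hpn ((ZMod.intCast_zmod_eq_zero_iff_dvd _ _).1 h)
  have hodd : Odd p := hp.odd_of_ne_two (by omega)
  have h2d : 2 ∣ p - 1 := by
    obtain ⟨t, ht⟩ := hodd
    exact ⟨t, by omega⟩
  have hone : (n : ZMod p) ^ (p - 1) = 1 := ZMod.pow_card_sub_one_eq_one hn0
  have hne : (1 : ZMod p) ≠ -1 := by
    intro h
    have h3 : ((2 : ℕ) : ZMod p) = 0 := by
      push_cast
      have h4 : (1 : ZMod p) + 1 = 0 := by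
        nth_rewrite 2 [h]
        ring
      rw [← h4]; norm_num
    rw [ZMod.natCast_eq_zero_iff] at h3
    exact absurd (Nat.le_of_dvd (by norm_num) h3) (by omega)
  have hhalf := pow_half n D k hn hD p hp hp2 hpn
  have hdiv : ∀ l : ℕ, l.Prime → l ∣ p - 1 → orderOf (n : ZMod p) = p - 1 →
      (n : ZMod p) ^ ((p - 1) / l) ≠ 1 := by
    intro l hl hlp ho h
    have h1 := orderOf_dvd_of_pow_eq_one h
    rw [ho] at h1
    have h2 : 0 < (p - 1) / l := Nat.div_pos (Nat.le_of_dvd (by omega) hlp) hl.pos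
    have h3 := Nat.le_of_dvd h2 h1
    have h4 : (p - 1) / l < p - 1 := Nat.div_lt_self (by omega) hl.one_lt
    omega
  constructor
  · intro ho
    constructor
    · rcases jac_cases n D k hn p hp hpn with h | h
      · exfalso
        apply hdiv 2 Nat.prime_two h2d ho
        rw [hhalf, h]
        norm_num
      · exact h
    · rintro ⟨l, hl, _, hlp, h⟩
      exact hdiv l hl hlp ho h
  · rintro ⟨h1, h2⟩
    apply orderOf_eq_of_pow_and_pow_div_prime (by omega) hone
    intro l hl hlp h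
    rcases Nat.lt_or_ge l 3 with h3 | h3
    · have h4 : l = 2 := by have := hl.two_le; omega
      rw [h4, hhalf, h1] at h
      push_cast at h
      exact hne h.symm
    · exact h2 ⟨l, hl, h3, hlp, h⟩

open Classical in
/-- the primes of `TT` modulo which `n` is a primitive root -/
noncomputable def PR (n : ℤ) (x z : ℕ) : Finset ℕ :=
  (TT x z).filter (fun p => orderOf (n : ZMod p) = p - 1)

open Classical in
/-- the bad primes for `n` -/
noncomputable def Bad (n : ℤ) (x z H : ℕ) : Finset ℕ :=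
  (TT x z).filter (fun p => H < p ∧ ∃ l : ℕ, l.Prime ∧ 3 ≤ l ∧ l ∣ p - 1 ∧
    (n : ZMod p) ^ ((p - 1) / l) = 1)

theorem PR_close (n D k : ℤ) (hn : n = D * k ^ 2) (hD : D % 4 = 1) (hn0 : n ≠ 0) (x z H : ℕ)
    (hH : n.natAbs ≤ H) (hH2 : 2 ≤ H) :
    |((PR n x z).card : ℝ) - (TQ x z D.natAbs).card| ≤ H + (Bad n x z H).card := by
  classical
  have hnd : ∀ p : ℕ, H < p → ¬ (p : ℤ) ∣ n := by
    intro p hp h
    have := Nat.le_of_dvd (Int.natAbs_pos.2 hn0) (Int.natCast_dvd.1 h)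
    omega
  have h1 : PR n x z ⊆ TQ x z D.natAbs ∪ Icc 1 H := by
    intro p hp
    unfold PR at hp
    rw [mem_filter] at hp
    have hp' := hp.1
    unfold TT at hp'
    rw [mem_filter, mem_Icc] at hp'
    rw [mem_union]
    rcases Nat.lt_or_ge H p with h | h
    · left
      unfold TQ
      rw [mem_filter]
      exact ⟨hp.1, ((order_iff n D k hn hD p hp'.2.1 (by omega) (hnd p h)).1 hp.2).1⟩
    · right
      rw [mem_Icc]
      exact ⟨hp'.1.1, h⟩
  have h2 : TQ x z D.natAbs ⊆ PR n x z ∪ (Icc 1 H ∪ Bad n x z H) := by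
    intro p hp
    unfold TQ at hp
    rw [mem_filter] at hp
    have hp' := hp.1
    unfold TT at hp'
    rw [mem_filter, mem_Icc] at hp'
    rw [mem_union, mem_union]
    rcases Nat.lt_or_ge H p with h | h
    · by_cases hb : ∃ l : ℕ, l.Prime ∧ 3 ≤ l ∧ l ∣ p - 1 ∧ (n : ZMod p) ^ ((p - 1) / l) = 1
      · right; right
        unfold Bad
        rw [mem_filter]
        exact ⟨hp.1, h, hb⟩
      · left
        unfold PR
        rw [mem_filter]
        exact ⟨hp.1, (order_iff n D k hn hD p hp'.2.1 (by omega) (hnd p h)).2 ⟨hp.2, hb⟩⟩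
    · right; left
      rw [mem_Icc]
      exact ⟨hp'.1.1, h⟩
  have c1 := (card_le_card h1).trans (card_union_le _ _)
  have c2 := (card_le_card h2).trans ((card_union_le _ _).trans
    (Nat.add_le_add_left (card_union_le _ _) _))
  rw [Nat.card_Icc] at c1 c2
  have c1' : ((PR n x z).card : ℝ) ≤ (TQ x z D.natAbs).card + H := by
    have : (PR n x z).card ≤ (TQ x z D.natAbs).card + H := by omega
    exact_mod_cast this
  have c2' : ((TQ x z D.natAbs).card : ℝ) ≤ (PR n x z).card + (H + (Bad n x z H).card) := by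
    have : (TQ x z D.natAbs).card ≤ (PR n x z).card + (H + (Bad n x z H).card) := by omega
    exact_mod_cast this
  have : (0 : ℝ) ≤ (Bad n x z H).card := Nat.cast_nonneg _
  rw [abs_le]
  constructor <;> linarith

end Pool.Agent.Y855
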