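import Pool.Agent.Y855.A7
import Pool.Agent.Y855.A8
import Pool.Agent.Y855.A9

/-!
The sum of the numbers of bad primes over an independent set.
-/

set_option autoImplicit false

open Finset

namespace Pool.Agent.Y855

open Pool.Agent.H442R2.KF

/-- large prime factors of `p - 1` -/
def LF (z p : ℕ) : Finset ℕ := (p - 1).primeFactors.filter (fun l => z < l)

theorem few_powers (M : Finset ℤ) (x z R : ℕ) (hx : 3 ≤ x) (hz : 2 ≤ z) (hR : x ^ 2 ≤ z ^ R)
    (p : ℕ) (hpx : p ≤ x) (hp : p.Prime) (hpM : ∀ n ∈ M, ¬ (p : ℤ) ∣ n)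
    (hE : ∀ r ∈ Icc 2 R, p ∉ Exc x r M) (l : ℕ) (hl : l.Prime) (hlp : l ∣ p - 1) (hzl : z < l) :
    ((M.filter (fun n : ℤ => (n : ZMod p) ^ ((p - 1) / l) = 1)).card : ℝ) ≤
      2 * Real.log x / Real.log l := by
  classical
  have hp1 : 0 < p - 1 := by have := hp.two_le; omega
  have hlx : l < x := by have := Nat.le_of_dvd hp1 hlp; omega
  have hex : ∃ r, x ^ 2 ≤ l ^ r := ⟨R, hR.trans (Nat.pow_le_pow_left hzl.le R)⟩
  set r := Nat.find hex with hr
  have h1 : x ^ 2 ≤ l ^ r := Nat.find_spec hex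
  have h2 : r ≤ R := Nat.find_min' hex (hR.trans (Nat.pow_le_pow_left hzl.le R))
  have h3 : 2 < r := by
    by_contra hcon
    have h4 : r ≤ 2 := by omega
    have h5 : l ^ r ≤ l ^ 2 := Nat.pow_le_pow_right hl.pos h4
    have h6 : l ^ 2 < x ^ 2 := Nat.pow_lt_pow_left hlx (by norm_num)
    omega
  have h4 : l ^ (r - 1) < x ^ 2 := not_le.1 (Nat.find_min hex (by omega))
  have h5 : (M.filter (fun n : ℤ => (n : ZMod p) ^ ((p - 1) / l) = 1)).card < r := by
    by_contra hcon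
    apply hE r (mem_Icc.2 ⟨by omega, h2⟩)
    unfold Exc
    rw [mem_filter, mem_Icc]
    exact ⟨⟨hp.one_le, hpx⟩, hp, hpM, l, hl, hlp, h1, not_lt.1 hcon⟩
  have hl2 : (2 : ℝ) ≤ l := by exact_mod_cast hl.two_le
  have hll : 0 < Real.log l := Real.log_pos (by linarith)
  have hx0 : (0 : ℝ) < x := by exact_mod_cast (by omega : 0 < x)
  rw [le_div_iff₀ hll]
  have h6 : ((l : ℝ)) ^ (r - 1) ≤ (x : ℝ) ^ 2 := by exact_mod_cast h4.le
  have h7 := Real.log_le_log (by positivity) h6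
  rw [Real.log_pow, Real.log_pow] at h7
  have h8 : ((M.filter (fun n : ℤ => (n : ZMod p) ^ ((p - 1) / l) = 1)).card : ℝ) ≤
      ((r - 1 : ℕ) : ℝ) := by
    exact_mod_cast (by omega : (M.filter (fun n : ℤ => (n : ZMod p) ^ ((p - 1) / l) = 1)).card ≤ r - 1)
  calc _ ≤ ((r - 1 : ℕ) : ℝ) * Real.log l := mul_le_mul_of_nonneg_right h8 hll.le
    _ ≤ _ := by push_cast at h7 ⊢; exact h7

theorem bad_sum (M : Finset ℤ) (x z R H : ℕ) (hx : 3 ≤ x) (hz : 2 ≤ z) (hR : x ^ 2 ≤ z ^ R)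
    (h0 : ∀ n ∈ M, n ≠ 0) (hH : ∀ n ∈ M, n.natAbs ≤ H) :
    ∑ n ∈ M, ((Bad n x z H).card : ℝ) ≤
      ∑ p ∈ TT x z, ∑ l ∈ LF z p, 2 * Real.log x / Real.log l +
      M.card * ∑ r ∈ Icc 2 R, ((Exc x r M).card : ℝ) := by
  classical
  set EE : Finset ℕ := (Icc 2 R).biUnion (fun r => Exc x r M) with hEE
  have hdc : ∑ n ∈ M, ((Bad n x z H).card : ℝ) = ∑ p ∈ TT x z,
      ((M.filter (fun n : ℤ => H < p ∧ ∃ l : ℕ, l.Prime ∧ 3 ≤ l ∧ l ∣ p - 1 ∧
        (n : ZMod p) ^ ((p - 1) / l) = 1)).card : ℝ) := by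
    unfold Bad
    simp only [card_filter]
    push_cast
    rw [sum_comm]
  rw [hdc]
  have hlx : 0 ≤ Real.log x := Real.log_natCast_nonneg x
  have hpt : ∀ p ∈ TT x z, ((M.filter (fun n : ℤ => H < p ∧ ∃ l : ℕ, l.Prime ∧ 3 ≤ l ∧ l ∣ p - 1 ∧
        (n : ZMod p) ^ ((p - 1) / l) = 1)).card : ℝ) ≤
      ∑ l ∈ LF z p, 2 * Real.log x / Real.log l + M.card * (if p ∈ EE then (1 : ℝ) else 0) := by
    intro p hp
    have hsum0 : 0 ≤ ∑ l ∈ LF z p, 2 * Real.log x / Real.log l :=
      sum_nonneg fun l _ => div_nonneg (by positivity) (Real.log_natCast_nonneg l)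
    by_cases hpH : H < p
    · by_cases hpE : p ∈ EE
      · rw [if_pos hpE, mul_one]
        have : ((M.filter (fun n : ℤ => H < p ∧ ∃ l : ℕ, l.Prime ∧ 3 ≤ l ∧ l ∣ p - 1 ∧
          (n : ZMod p) ^ ((p - 1) / l) = 1)).card : ℝ) ≤ M.card := by
          exact_mod_cast card_filter_le _ _
        linarith
      · rw [if_neg hpE, mul_zero, add_zero]
        unfold TT at hp
        rw [mem_filter, mem_Icc] at hp
        have hnd : ∀ n ∈ M, ¬ (p : ℤ) ∣ n := by
          intro n hn h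
          have h1 := Nat.le_of_dvd (Int.natAbs_pos.2 (h0 n hn)) (Int.natCast_dvd.1 h)
          have h2 := hH n hn
          omega
        have hEr : ∀ r ∈ Icc 2 R, p ∉ Exc x r M := by
          intro r hr h
          exact hpE (mem_biUnion.2 ⟨r, hr, h⟩)
        have hsub : M.filter (fun n : ℤ => H < p ∧ ∃ l : ℕ, l.Prime ∧ 3 ≤ l ∧ l ∣ p - 1 ∧
            (n : ZMod p) ^ ((p - 1) / l) = 1) ⊆
            (LF z p).biUnion (fun l => M.filter (fun n : ℤ => (n : ZMod p) ^ ((p - 1) / l) = 1)) := by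
          intro n hn
          rw [mem_filter] at hn
          obtain ⟨hnM, _, l, hl, hl3, hlp, hln⟩ := hn
          rw [mem_biUnion]
          refine ⟨l, ?_, mem_filter.2 ⟨hnM, hln⟩⟩
          unfold LF
          rw [mem_filter, Nat.mem_primeFactors]
          refine ⟨⟨hl, hlp, by have := hp.2.1.two_le; omega⟩, ?_⟩
          by_contra hcon
          exact hp.2.2 l (mem_OP.2 ⟨hl, hl3, by omega⟩) hlp
        have h1 : ((M.filter (fun n : ℤ => H < p ∧ ∃ l : ℕ, l.Prime ∧ 3 ≤ l ∧ l ∣ p - 1 ∧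
            (n : ZMod p) ^ ((p - 1) / l) = 1)).card : ℝ) ≤
            ∑ l ∈ LF z p, ((M.filter (fun n : ℤ => (n : ZMod p) ^ ((p - 1) / l) = 1)).card : ℝ) := by
          exact_mod_cast (card_le_card hsub).trans card_biUnion_le
        refine h1.trans (sum_le_sum fun l hl => ?_)
        unfold LF at hl
        rw [mem_filter] at hl
        exact few_powers M x z R hx hz hR p hp.1.2 hp.2.1 hnd hEr l
          (Nat.prime_of_mem_primeFactors hl.1) (Nat.dvd_of_mem_primeFactors hl.1) hl.2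
    · have : M.filter (fun n : ℤ => H < p ∧ ∃ l : ℕ, l.Prime ∧ 3 ≤ l ∧ l ∣ p - 1 ∧
          (n : ZMod p) ^ ((p - 1) / l) = 1) = ∅ := by
        apply filter_false_of_mem
        intro n _ h
        exact hpH h.1
      rw [this, card_empty, Nat.cast_zero]
      have : 0 ≤ (M.card : ℝ) * (if p ∈ EE then (1 : ℝ) else 0) := by
        split_ifs <;> simp
      linarith
  refine (sum_le_sum hpt).trans ?_
  rw [sum_add_distrib, ← mul_sum]
  apply add_le_add le_rfl
  apply mul_le_mul_of_nonneg_left _ (Nat.cast_nonneg _)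
  have h2 : ∑ p ∈ TT x z, (if p ∈ EE then (1 : ℝ) else 0) ≤ (EE.card : ℝ) := by
    rw [← sum_filter, sum_const, nsmul_eq_mul, mul_one]
    exact_mod_cast card_le_card (by
      intro p hp
      exact (mem_filter.1 hp).2)
  refine h2.trans ?_
  rw [hEE]
  exact_mod_cast card_biUnion_le

theorem ErS_sum (x z w B : ℕ) (hz : 2 ≤ z) :
    ∑ l ∈ (Ioc z w).filter Nat.Prime, ErS x l z B (OP z) ≤ ∑ d ∈ Icc 1 (w * z ^ B), Es x d := by
  classical
  set F := (OP z).powerset.filter (fun U => ∏ p ∈ U, p ≤ z ^ B) with hF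
  unfold ErS
  rw [← hF, ← sum_product']
  have hFp : ∀ U ∈ F, ∀ p ∈ U, p.Prime ∧ p ≤ z := by
    intro U hU p hp
    rw [hF, mem_filter, mem_powerset] at hU
    have := mem_OP.1 (hU.1 hp)
    exact ⟨this.1, this.2.2⟩
  have hinj : Set.InjOn (fun lU : ℕ × Finset ℕ => lU.1 * ∏ p ∈ lU.2, p)
      (((Ioc z w).filter Nat.Prime) ×ˢ F : Finset (ℕ × Finset ℕ)) := by
    rintro ⟨l, U⟩ h1 ⟨l', U'⟩ h2 h
    rw [mem_coe, mem_product, mem_filter, mem_Ioc] at h1 h2
    simp only at h1 h2 h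
    have hl : l = l' := by
      have h3 : l ∣ l' * ∏ p ∈ U', p := ⟨_, h.symm⟩
      rcases (Nat.Prime.dvd_mul h1.1.2).1 h3 with h4 | h4
      · exact (Nat.prime_dvd_prime_iff_eq h1.1.2 h2.1.2).1 h4
      · exfalso
        obtain ⟨q, hq, hlq⟩ := (Prime.dvd_finsetProd_iff h1.1.2.prime _).1 h4
        have h5 := (Nat.prime_dvd_prime_iff_eq h1.1.2 (hFp U' h2.2 q hq).1).1 hlq
        have h6 := (hFp U' h2.2 q hq).2
        have h7 := h1.1.1.1
        omega
    subst hl
    have h3 : ∏ p ∈ U, p = ∏ p ∈ U', p := Nat.eq_of_mul_eq_mul_left h1.1.2.pos h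
    have h4 : (∏ p ∈ U, p).primeFactors = U := Nat.primeFactors_prod fun p hp => (hFp U h1.2 p hp).1
    have h5 : (∏ p ∈ U', p).primeFactors = U' :=
      Nat.primeFactors_prod fun p hp => (hFp U' h2.2 p hp).1
    rw [← h4, ← h5, h3]
  rw [← sum_image (f := fun d => Es x d) hinj]
  apply sum_le_sum_of_subset_of_nonneg
  · intro d hd
    rw [mem_image] at hd
    obtain ⟨⟨l, U⟩, hU, rfl⟩ := hd
    rw [mem_product, mem_filter, mem_Ioc] at hU
    simp only at hU
    rw [mem_Icc]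
    refine ⟨Nat.mul_pos hU.1.2.pos (prod_pos fun p hp => (hFp U hU.2 p hp).1.pos), ?_⟩
    have h3 := hU.2
    rw [hF, mem_filter] at h3
    exact Nat.mul_le_mul hU.1.1.2 h3.2
  · intro d _ _
    exact Es_nonneg x d

/-- the sum over the large prime factors -/
theorem SL_bound : ∃ C : ℝ, 0 < C ∧ ∀ B z x w : ℕ, 2 ≤ z → 3 ≤ x → x < (w + 1) ^ 4 →
    (∀ l : ℕ, l.Prime → z < l →
      ((NS x l 1 (OP z)).card : ℝ) ≤ 2 * (piN x / ((l : ℝ) - 1) * VP (OP z)) +
        (Nat.log 2 z + 2) * ErS x l z B (OP z)) →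
    ∑ p ∈ TT x z, ∑ l ∈ LF z p, 2 * Real.log x / Real.log l ≤
      24 * (TT x z).card + C * (piN x * VP (OP z)) * (Real.log x / Real.log z) +
      3 * Real.log x * ((Nat.log 2 z + 2) * ∑ d ∈ Icc 1 (w * z ^ B), Es x d) := by
  classical
  obtain ⟨C, hC, hlog⟩ := sum_inv_log
  refine ⟨8 * C, by positivity, ?_⟩
  intro B z x w hz hx hw hNS
  have hx3 : (3 : ℝ) ≤ x := by exact_mod_cast hx
  have hL : 0 < Real.log x := Real.log_pos (by linarith)
  have hz2 : (2 : ℝ) ≤ z := by exact_mod_cast hz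
  have hlz : 0 < Real.log z := Real.log_pos (by linarith)
  have hV : 0 < VP (OP z) := VP_pos _ fun q hq => (mem_OP.1 hq).2.1
  have hpV : 0 ≤ (piN x : ℝ) * VP (OP z) := mul_nonneg (Nat.cast_nonneg _) hV.le
  set g : ℕ → ℝ := fun l => 2 * Real.log x / Real.log l with hg
  have hsplit : ∑ p ∈ TT x z, ∑ l ∈ LF z p, g l =
      ∑ p ∈ TT x z, ∑ l ∈ (LF z p).filter (fun l => l ≤ w), g l +
      ∑ p ∈ TT x z, ∑ l ∈ (LF z p).filter (fun l => ¬ l ≤ w), g l := by
    rw [← sum_add_distrib]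
    apply sum_congr rfl
    intro p _
    rw [sum_filter_add_sum_filter_not]
  have hpart2 : ∑ p ∈ TT x z, ∑ l ∈ (LF z p).filter (fun l => ¬ l ≤ w), g l ≤
      24 * (TT x z).card := by
    have h1 : ∀ p ∈ TT x z, ∑ l ∈ (LF z p).filter (fun l => ¬ l ≤ w), g l ≤ 24 := by
      intro p hp
      unfold TT at hp
      rw [mem_filter, mem_Icc] at hp
      have hp1 : 0 < p - 1 := by have := hp.2.1.two_le; omega
      set s := (LF z p).filter (fun l => ¬ l ≤ w) with hs
      have hsmem : ∀ l ∈ s, l.Prime ∧ l ∣ p - 1 ∧ w + 1 ≤ l := by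
        intro l hl
        rw [hs, mem_filter] at hl
        have h2 := hl.1
        unfold LF at h2
        rw [mem_filter] at h2
        exact ⟨Nat.prime_of_mem_primeFactors h2.1, Nat.dvd_of_mem_primeFactors h2.1, by omega⟩
      have hcard : s.card ≤ 3 := by
        by_contra hcon
        have h2 : ∏ l ∈ s, l ∣ p - 1 := Finset.prod_primes_dvd _
          (fun l hl => (hsmem l hl).1.prime) fun l hl => (hsmem l hl).2.1
        have h3 := Nat.le_of_dvd hp1 h2
        have h4 : (w + 1) ^ s.card ≤ ∏ l ∈ s, l := by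
          rw [← prod_const]
          exact prod_le_prod' fun l hl => (hsmem l hl).2.2
        have h5 : (w + 1) ^ 4 ≤ (w + 1) ^ s.card := Nat.pow_le_pow_right (by omega) (by omega)
        omega
      have hterm : ∀ l ∈ s, g l ≤ 8 := by
        intro l hl
        obtain ⟨h2, h3, h4⟩ := hsmem l hl
        have hl2 : (2 : ℝ) ≤ l := by exact_mod_cast h2.two_le
        have hll : 0 < Real.log l := Real.log_pos (by linarith)
        simp only [hg]
        rw [div_le_iff₀ hll]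
        have h5 : x ≤ l ^ 4 := hw.le.trans (Nat.pow_le_pow_left h4 4)
        have h6 : (x : ℝ) ≤ (l : ℝ) ^ 4 := by exact_mod_cast h5
        have h7 := Real.log_le_log (by linarith) h6
        rw [Real.log_pow] at h7
        push_cast at h7
        linarith
      calc ∑ l ∈ s, g l ≤ ∑ _l ∈ s, (8 : ℝ) := sum_le_sum hterm
        _ = s.card * 8 := by rw [sum_const, nsmul_eq_mul]
        _ ≤ 3 * 8 := by
            apply mul_le_mul_of_nonneg_right _ (by norm_num)
            exact_mod_cast hcard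
        _ = 24 := by norm_num
    calc ∑ p ∈ TT x z, ∑ l ∈ (LF z p).filter (fun l => ¬ l ≤ w), g l
        ≤ ∑ _p ∈ TT x z, (24 : ℝ) := sum_le_sum h1
      _ = 24 * (TT x z).card := by rw [sum_const, nsmul_eq_mul, mul_comm]
  set Q := (Ioc z w).filter Nat.Prime with hQ
  have hpart1 : ∑ p ∈ TT x z, ∑ l ∈ (LF z p).filter (fun l => l ≤ w), g l =
      ∑ l ∈ Q, g l * (((TT x z).filter (fun p => l ∣ p - 1)).card : ℝ) := by
    have h1 : ∀ l ∈ Q, g l * (((TT x z).filter (fun p => l ∣ p - 1)).card : ℝ) =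
        ∑ p ∈ (TT x z).filter (fun p => l ∣ p - 1), g l := by
      intro l _
      rw [sum_const, nsmul_eq_mul, mul_comm]
    rw [sum_congr rfl h1]
    apply sum_comm'
    intro p l
    simp only [LF, hQ, mem_filter, mem_Ioc, Nat.mem_primeFactors]
    constructor
    · rintro ⟨h2, ⟨⟨h3, h4, h5⟩, h6⟩, h7⟩
      exact ⟨⟨h2, h4⟩, ⟨h6, h7⟩, h3⟩
    · rintro ⟨⟨h2, h4⟩, ⟨h6, h7⟩, h3⟩
      refine ⟨h2, ⟨⟨h3, h4, ?_⟩, h6⟩, h7⟩
      unfold TT at h2
      rw [mem_filter] at h2
      have := h2.2.1.two_le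
      omega
  have hcardNS : ∀ l ∈ Q, (((TT x z).filter (fun p => l ∣ p - 1)).card : ℝ) ≤
      ((NS x l 1 (OP z)).card : ℝ) := by
    intro l _
    have h1 : (TT x z).filter (fun p => l ∣ p - 1) ⊆ NS x l 1 (OP z) := by
      intro p hp
      rw [mem_filter] at hp
      obtain ⟨hp1, hp2⟩ := hp
      unfold TT at hp1
      unfold NS
      rw [mem_filter] at hp1 ⊢
      refine ⟨hp1.1, hp1.2.1, ?_, hp1.2.2⟩
      exact ((Nat.modEq_iff_dvd' (mem_Icc.1 hp1.1).1).2 hp2).symm
    exact_mod_cast card_le_card h1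
  have hgb : ∀ l ∈ Q, 0 ≤ g l ∧ g l ≤ 3 * Real.log x := by
    intro l hl
    rw [hQ, mem_filter] at hl
    have hl2 : (2 : ℝ) ≤ l := by exact_mod_cast hl.2.two_le
    have h2 : Real.log 2 ≤ Real.log l := Real.log_le_log (by norm_num) hl2
    have h3 := Real.log_two_gt_d9
    have hll : 0 < Real.log l := by linarith
    simp only [hg]
    refine ⟨by positivity, ?_⟩
    rw [div_le_iff₀ hll]
    nlinarith
  have hmain : ∑ l ∈ Q, g l * (2 * (piN x / ((l : ℝ) - 1) * VP (OP z))) ≤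
      8 * C * (piN x * VP (OP z)) * (Real.log x / Real.log z) := by
    calc ∑ l ∈ Q, g l * (2 * (piN x / ((l : ℝ) - 1) * VP (OP z)))
        ≤ ∑ l ∈ Q, 8 * Real.log x * (piN x * VP (OP z)) * (1 / ((l : ℝ) * Real.log l)) := by
          apply sum_le_sum
          intro l hl
          rw [hQ, mem_filter] at hl
          have hl2 : (2 : ℝ) ≤ l := by exact_mod_cast hl.2.two_le
          have hll : 0 < Real.log l := Real.log_pos (by linarith)
          simp only [hg]
          have h4 : 1 / ((l : ℝ) - 1) ≤ 2 / l := by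
            rw [div_le_div_iff₀ (by linarith) (by linarith)]
            linarith
          have e1 : 2 * Real.log x / Real.log l * (2 * (piN x / ((l : ℝ) - 1) * VP (OP z))) =
              4 * Real.log x * (piN x * VP (OP z)) / Real.log l * (1 / ((l : ℝ) - 1)) := by
            ring
          have e2 : 8 * Real.log x * (piN x * VP (OP z)) * (1 / ((l : ℝ) * Real.log l)) =
              4 * Real.log x * (piN x * VP (OP z)) / Real.log l * (2 / l) := by
            field_simp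
            ring
          rw [e1, e2]
          exact mul_le_mul_of_nonneg_left h4 (by positivity)
      _ = 8 * Real.log x * (piN x * VP (OP z)) * ∑ l ∈ Q, 1 / ((l : ℝ) * Real.log l) := by
          rw [mul_sum]
      _ ≤ 8 * Real.log x * (piN x * VP (OP z)) * (C / Real.log z) := by
          apply mul_le_mul_of_nonneg_left _ (by positivity)
          apply hlog z hz
          intro l hl
          rw [hQ, mem_filter, mem_Ioc] at hl
          exact ⟨hl.2, hl.1.1⟩
      _ = _ := by ring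
  have herr : ∑ l ∈ Q, g l * ((Nat.log 2 z + 2) * ErS x l z B (OP z)) ≤
      3 * Real.log x * ((Nat.log 2 z + 2) * ∑ d ∈ Icc 1 (w * z ^ B), Es x d) := by
    calc ∑ l ∈ Q, g l * ((Nat.log 2 z + 2) * ErS x l z B (OP z))
        ≤ ∑ l ∈ Q, 3 * Real.log x * ((Nat.log 2 z + 2) * ErS x l z B (OP z)) := by
          apply sum_le_sum
          intro l hl
          exact mul_le_mul_of_nonneg_right (hgb l hl).2
            (mul_nonneg (by positivity) (ErS_nonneg _ _ _ _ _))
      _ = 3 * Real.log x * ((Nat.log 2 z + 2) * ∑ l ∈ Q, ErS x l z B (OP z)) := by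
          rw [← mul_sum, ← mul_sum]
      _ ≤ _ := by
          apply mul_le_mul_of_nonneg_left _ (by positivity)
          apply mul_le_mul_of_nonneg_left _ (by positivity)
          exact ErS_sum x z w B hz
  have hfirst : ∑ l ∈ Q, g l * (((TT x z).filter (fun p => l ∣ p - 1)).card : ℝ) ≤
      ∑ l ∈ Q, g l * (2 * (piN x / ((l : ℝ) - 1) * VP (OP z))) +
      ∑ l ∈ Q, g l * ((Nat.log 2 z + 2) * ErS x l z B (OP z)) := by
    rw [← sum_add_distrib]
    apply sum_le_sum
    intro l hl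
    rw [← mul_add]
    apply mul_le_mul_of_nonneg_left _ (hgb l hl).1
    refine (hcardNS l hl).trans ?_
    rw [hQ, mem_filter, mem_Ioc] at hl
    exact hNS l hl.2 hl.1.1
  rw [hsplit, hpart1]
  linarith

end Pool.Agent.Y855
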