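import Pool.Agent.Y855.A10

/-!
Artin's density in sifted sets of primes, outside a bounded number of independent bases.
-/

set_option autoImplicit false

open Finset

namespace Pool.Agent.Y855

open Pool.Agent.H442R2.KF

theorem ev_exp (k : ℕ) (C : ℝ) : ∃ L₀ : ℝ, ∀ L : ℝ, L₀ ≤ L → C * L ^ k ≤ Real.exp (√L / 6) := by
  have h1 : ∀ᶠ t : ℝ in Filter.atTop, C * (t ^ 2) ^ k ≤ Real.exp (1 / 6 * t) := by
    have h2 := (isLittleO_pow_exp_pos_mul_atTop (k := 2 * k) (b := 1 / 6) (by norm_num)).bound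
      (show (0 : ℝ) < 1 / (|C| + 1) by positivity)
    filter_upwards [h2, Filter.eventually_ge_atTop 0] with t ht ht0
    rw [Real.norm_of_nonneg (by positivity), Real.norm_of_nonneg (Real.exp_pos _).le] at ht
    have h3 : (|C| + 1) * t ^ (2 * k) ≤ Real.exp (1 / 6 * t) := by
      have h4 : (0 : ℝ) < |C| + 1 := by positivity
      calc (|C| + 1) * t ^ (2 * k) ≤ (|C| + 1) * (1 / (|C| + 1) * Real.exp (1 / 6 * t)) :=
            mul_le_mul_of_nonneg_left ht h4.le
        _ = Real.exp (1 / 6 * t) := by field_simp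
    have h5 : C * (t ^ 2) ^ k ≤ (|C| + 1) * t ^ (2 * k) := by
      rw [← pow_mul]
      apply mul_le_mul_of_nonneg_right _ (by positivity)
      have := le_abs_self C
      linarith
    linarith
  have h2 := Real.tendsto_sqrt_atTop.eventually h1
  obtain ⟨L₀, h3⟩ := Filter.eventually_atTop.1 (h2.and (Filter.eventually_ge_atTop 0))
  refine ⟨L₀, fun L hL => ?_⟩
  obtain ⟨h4, h5⟩ := h3 L hL
  rw [Real.sq_sqrt h5] at h4
  convert h4 using 2
  ring

theorem card_M (M : Finset ℤ) (H : ℕ) (hH1 : 1 ≤ H) (hH : ∀ n ∈ M, n.natAbs ≤ H) :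
    M.card ≤ 3 * H := by
  have h1 : M ⊆ Icc (-(H : ℤ)) H := by
    intro n hn
    have := hH n hn
    rw [mem_Icc]
    omega
  have h2 := card_le_card h1
  rw [Int.card_Icc] at h2
  omega

/-- the sum of the exceptional sets -/
theorem Exc_total (B : ℕ) (x z R H : ℕ) (M : Finset ℤ) (L ℓ K : ℝ) (hL : L = Real.log x)
    (hℓ : ℓ = Real.log z) (hx : 1 ≤ x) (hK : 36 * ((B : ℝ) + 1) ≤ K)
    (hKL : K * (L * Real.log L) ≤ ℓ ^ 2) (hℓL : ℓ ≤ L) (hL120 : 120 ≤ L) (hℓ1 : 1 ≤ ℓ)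
    (hR1 : 1 ≤ R) (hR : (R : ℝ) ≤ 3 * (L / ℓ)) (hH1 : 1 ≤ H) (hHB : (H : ℝ) ≤ 3 * L ^ B)
    (h0 : ∀ n ∈ M, n ≠ 0) (hM : MI M) (hH : ∀ n ∈ M, n.natAbs ≤ H) :
    (M.card : ℝ) * ∑ r ∈ Icc 2 R, ((Exc x r M).card : ℝ) ≤
      27 * L ^ (B + 1) * (x * Real.exp (-(ℓ / 6))) := by
  have hL0 : 0 < L := by linarith
  have hℓ0 : 0 < ℓ := by linarith
  have hx1 : (1 : ℝ) ≤ x := by exact_mod_cast hx
  have hx0 : (0 : ℝ) < x := by linarith
  have hMc := card_M M H hH1 hH
  have hMc' : (M.card : ℝ) ≤ 9 * L ^ B := by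
    have h1 : (M.card : ℝ) ≤ 3 * H := by exact_mod_cast hMc
    linarith
  have hR0 : (0 : ℝ) < R := by exact_mod_cast hR1
  have hlogL : 0 ≤ Real.log L := Real.log_nonneg (by linarith)
  have hterm : ∀ r ∈ Icc 2 R, ((Exc x r M).card : ℝ) ≤ x * Real.exp (-(ℓ / 6)) := by
    intro r hr
    rw [mem_Icc] at hr
    have hr0 : (0 : ℝ) < r := by exact_mod_cast (by omega : 0 < r)
    have hrR : (r : ℝ) ≤ R := by exact_mod_cast hr.2
    have h1 := Exc_real x r hx hr.1 M h0 hM H hH1 hH hMc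
    have h40 : (40 * (H : ℝ)) ≤ L ^ (B + 1) := by
      rw [pow_succ]
      have : 0 ≤ L ^ B := by positivity
      nlinarith
    have hH0 : (0 : ℝ) ≤ 40 * H := by positivity
    have h2 : (40 * (H : ℝ)) ^ (2 * r) ≤ Real.exp (2 * (B + 1) * r * Real.log L) := by
      calc (40 * (H : ℝ)) ^ (2 * r) ≤ (L ^ (B + 1)) ^ (2 * r) := pow_le_pow_left₀ hH0 h40 _
        _ = Real.exp (2 * (B + 1) * r * Real.log L) := by
            rw [← pow_mul, ← Real.exp_log (by positivity : 0 < L ^ ((B + 1) * (2 * r))),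
              Real.log_pow]
            congr 1
            push_cast
            ring
    have h3 : (x : ℝ) ^ (1 - 1 / (r : ℝ)) = x * Real.exp (-(L / r)) := by
      rw [Real.rpow_sub hx0, Real.rpow_one, Real.exp_neg, ← div_eq_mul_inv]
      congr 1
      rw [Real.rpow_def_of_pos hx0, ← hL]
      congr 1
      ring
    have h4 : 2 * ((B : ℝ) + 1) * r * Real.log L ≤ ℓ / 6 := by
      have h5 : 2 * ((B : ℝ) + 1) * r * Real.log L ≤ 2 * ((B : ℝ) + 1) * (3 * (L / ℓ)) * Real.log L := by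
        apply mul_le_mul_of_nonneg_right _ hlogL
        apply mul_le_mul_of_nonneg_left _ (by positivity)
        linarith
      have h6 : 36 * ((B : ℝ) + 1) * (L * Real.log L) ≤ ℓ ^ 2 := by
        refine le_trans ?_ hKL
        apply mul_le_mul_of_nonneg_right hK (by positivity)
      have h7 : 2 * ((B : ℝ) + 1) * (3 * (L / ℓ)) * Real.log L =
          (36 * ((B : ℝ) + 1) * (L * Real.log L)) / (6 * ℓ) := by
        field_simp
        ring
      rw [h7] at h5
      refine h5.trans ?_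
      rw [div_le_div_iff₀ (by positivity) (by norm_num)]
      nlinarith
    have h5 : ℓ / 3 ≤ L / r := by
      rw [div_le_div_iff₀ (by norm_num) hr0]
      have h6 : (r : ℝ) ≤ 3 * (L / ℓ) := by linarith
      have h7 : (r : ℝ) * ℓ ≤ 3 * (L / ℓ) * ℓ := mul_le_mul_of_nonneg_right h6 hℓ0.le
      have h8 : 3 * (L / ℓ) * ℓ = 3 * L := by field_simp
      linarith
    calc ((Exc x r M).card : ℝ) ≤ (40 * H) ^ (2 * r) * (x : ℝ) ^ (1 - 1 / (r : ℝ)) := h1
      _ ≤ Real.exp (2 * (B + 1) * r * Real.log L) * (x * Real.exp (-(L / r))) := by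
          rw [h3]
          exact mul_le_mul_of_nonneg_right h2 (by positivity)
      _ = x * Real.exp (2 * (B + 1) * r * Real.log L - L / r) := by
          rw [Real.exp_sub, Real.exp_neg]
          ring
      _ ≤ x * Real.exp (-(ℓ / 6)) := by
          apply mul_le_mul_of_nonneg_left _ hx0.le
          apply Real.exp_le_exp.2
          linarith
  have hsum : ∑ r ∈ Icc 2 R, ((Exc x r M).card : ℝ) ≤ (3 * L) * (x * Real.exp (-(ℓ / 6))) := by
    refine (sum_le_sum hterm).trans ?_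
    rw [sum_const, nsmul_eq_mul]
    apply mul_le_mul_of_nonneg_right _ (by positivity)
    have h1 : ((Icc 2 R).card : ℝ) ≤ R := by
      have : (Icc 2 R).card ≤ R := by rw [Nat.card_Icc]; omega
      exact_mod_cast this
    have h2 : 3 * (L / ℓ) ≤ 3 * L := by
      have : L / ℓ ≤ L := div_le_self hL0.le hℓ1
      linarith
    linarith
  have hE0 : 0 ≤ x * Real.exp (-(ℓ / 6)) := by positivity
  calc (M.card : ℝ) * ∑ r ∈ Icc 2 R, ((Exc x r M).card : ℝ)
      ≤ (9 * L ^ B) * ((3 * L) * (x * Real.exp (-(ℓ / 6)))) := by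
        apply mul_le_mul hMc' hsum (sum_nonneg fun _ _ => Nat.cast_nonneg _) (by positivity)
    _ = _ := by rw [pow_succ]; ring

end Pool.Agent.Y855
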