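import Pool.Agent.Y855.A11

/-!
Artin's density in sifted sets of primes, outside a bounded number of independent bases: assembly.
-/

set_option autoImplicit false

open Finset

namespace Pool.Agent.Y855

open Pool.Agent.H442R2.KF

/-- size facts about `x` and `z` -/
structure Sz (B : ℕ) (K : ℝ) (B₁ : ℕ) (x z : ℕ) (L ℓ : ℝ) : Prop where
  hL : L = Real.log x
  hℓ : ℓ = Real.log z
  hx3 : 3 ≤ x
  hz2 : 2 ≤ z
  hL120 : 120 ≤ L
  hℓ1 : 1 ≤ ℓ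
  hℓL : ℓ ≤ L
  hKL : K * (L * Real.log L) ≤ ℓ ^ 2
  hsq : √L ≤ ℓ
  hLBz : L ^ B ≤ z
  hLBx : L ^ B ≤ (x : ℝ) ^ (1 / 4 : ℝ)
  hzB : ((z : ℝ)) ^ B₁ ≤ (x : ℝ) ^ (1 / 7 : ℝ)

theorem sz (B : ℕ) (K : ℝ) (B₁ : ℕ) (hK1 : 1 ≤ K) (hKa : 7 * (B₁ : ℝ) ≤ K) (Q₀ : ℝ) (hQ₀ : 1 ≤ Q₀)
    (x z : ℕ) (L : ℝ) (hL : L = Real.log x) (hL120 : 120 ≤ L) (hx3 : 3 ≤ x)
    (hexp : Q₀ * L ^ (B + 3) ≤ Real.exp (√L / 6))
    (hKL : K * (Real.log x * Real.log (Real.log x)) ≤ (Real.log z) ^ 2) (hzK : (z : ℝ) ^ K ≤ x) :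
    Sz B K B₁ x z L (Real.log z) := by
  have hx3r : (3 : ℝ) ≤ x := by exact_mod_cast hx3
  have hx0 : (0 : ℝ) < x := by linarith
  have hL0 : 0 < L := by linarith
  have hlogL1 : 1 ≤ Real.log L := by
    rw [Real.le_log_iff_exp_le hL0]
    have := Real.exp_one_lt_d9
    linarith
  rw [← hL] at hKL
  have hz1 : 1 ≤ z := by
    by_contra hcon
    have hz0 : z = 0 := by omega
    rw [hz0] at hKL
    have h2 : 0 < K * (L * Real.log L) := by positivity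
    norm_num at hKL
    linarith
  have hz1r : (1 : ℝ) ≤ z := by exact_mod_cast hz1
  obtain ⟨ℓ, hℓ⟩ : ∃ ℓ : ℝ, ℓ = Real.log z := ⟨_, rfl⟩
  rw [← hℓ] at hKL ⊢
  have hℓ0 : 0 ≤ ℓ := by rw [hℓ]; exact Real.log_nonneg hz1r
  have hℓsq : L ≤ ℓ ^ 2 := by
    refine le_trans ?_ hKL
    have h1 : L ≤ L * Real.log L := le_mul_of_one_le_right hL0.le hlogL1
    have h2 : L * Real.log L ≤ K * (L * Real.log L) :=
      le_mul_of_one_le_left (by positivity) hK1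
    linarith
  have hℓsqrt : √L ≤ ℓ := by
    rw [Real.sqrt_le_left hℓ0]
    exact hℓsq
  have hℓ1 : 1 ≤ ℓ := by
    have : (1 : ℝ) ≤ √L := by
      rw [Real.one_le_sqrt]
      linarith
    linarith
  have hz2 : 2 ≤ z := by
    by_contra hcon
    have hz1' : z = 1 := by omega
    rw [hℓ, hz1', Nat.cast_one, Real.log_one] at hℓ1
    linarith
  have hz0r : (0 : ℝ) < z := by linarith
  have hKℓ : K * ℓ ≤ L := by
    have h1 := Real.log_le_log (by positivity) hzK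
    rw [Real.log_rpow hz0r, ← hL, ← hℓ] at h1
    exact h1
  have hℓL : ℓ ≤ L := by
    have : ℓ ≤ K * ℓ := le_mul_of_one_le_left hℓ0 hK1
    linarith
  have hpow : L ^ B ≤ Real.exp (√L / 6) := by
    have h1 : L ^ B ≤ L ^ (B + 3) := pow_le_pow_right₀ (by linarith) (by omega)
    have h2 : L ^ (B + 3) ≤ Q₀ * L ^ (B + 3) := le_mul_of_one_le_left (by positivity) hQ₀
    linarith
  have hs0 := Real.sqrt_nonneg L
  refine ⟨hL, hℓ, hx3, hz2, hL120, hℓ1, hℓL, hKL, hℓsqrt, ?_, ?_, ?_⟩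
  · have h3 : Real.exp (√L / 6) ≤ z := by
      rw [← Real.le_log_iff_exp_le hz0r, ← hℓ]
      linarith
    linarith
  · have h3 : Real.exp (√L / 6) ≤ (x : ℝ) ^ (1 / 4 : ℝ) := by
      rw [Real.rpow_def_of_pos hx0]
      apply Real.exp_le_exp.2
      rw [← hL]
      have h4 : √L ≤ L := by
        rw [Real.sqrt_le_left hL0.le]
        nlinarith
      linarith
    linarith
  · have h1 : ((z : ℝ)) ^ (7 * (B₁ : ℝ)) ≤ x :=
      (Real.rpow_le_rpow_of_exponent_le hz1r hKa).trans hzK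
    have h2 : (((z : ℝ)) ^ (7 * (B₁ : ℝ))) ^ (1 / 7 : ℝ) ≤ (x : ℝ) ^ (1 / 7 : ℝ) :=
      Real.rpow_le_rpow (by positivity) h1 (by norm_num)
    rw [← Real.rpow_mul hz0r.le] at h2
    rw [← Real.rpow_natCast]
    have e : 7 * (B₁ : ℝ) * (1 / 7) = (B₁ : ℝ) := by ring
    rw [e] at h2
    exact h2

/-- the lower bound for the expected number -/
theorem PV_low (cV : ℝ) (hcV : 0 < cV) (x z : ℕ) (L ℓ PV : ℝ) (hL0 : 0 < L) (hℓ0 : 0 < ℓ)
    (hℓL : ℓ ≤ L) (hPV : PV = piN x * VP (OP z))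
    (h1 : (x : ℝ) / (2 * L) ≤ piN x) (h2 : cV / ℓ ≤ VP (OP z)) :
    cV / 2 * (x / (L * ℓ)) ≤ PV ∧ cV / 2 * (x / L ^ 2) ≤ PV := by
  have h3 : cV / 2 * (x / (L * ℓ)) ≤ PV := by
    rw [hPV]
    calc cV / 2 * (x / (L * ℓ)) = x / (2 * L) * (cV / ℓ) := by field_simp
      _ ≤ _ := mul_le_mul h1 h2 (by positivity) (Nat.cast_nonneg _)
  refine ⟨h3, le_trans ?_ h3⟩
  apply mul_le_mul_of_nonneg_left _ (by positivity)
  apply div_le_div_of_nonneg_left (Nat.cast_nonneg _) (by positivity)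
  rw [sq]
  exact mul_le_mul_of_nonneg_left hℓL hL0.le

/-- the error terms from the theorem of Bombieri and Vinogradov -/
theorem err_gen (B : ℕ) (cV CB ε₁ : ℝ) (hcV : 0 < cV) (hε₁ : 0 < ε₁) (X L PV SQ : ℝ)
    (hX : 0 < X) (hL1 : 1 ≤ L) (hSQ : SQ ≤ CB * (X / L ^ (B + 5)))
    (hPV : cV / 2 * (X / L ^ 2) ≤ PV) (hLc : 24 * CB / (cV * ε₁) ≤ L) :
    L ^ (B + 1) * (12 * SQ) ≤ ε₁ * PV := by
  have hL0 : 0 < L := by linarith
  have h1 : L ^ (B + 1) * (12 * SQ) ≤ L ^ (B + 1) * (12 * (CB * (X / L ^ (B + 5)))) := by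
    apply mul_le_mul_of_nonneg_left _ (by positivity)
    linarith
  have h2 : L ^ (B + 1) * (12 * (CB * (X / L ^ (B + 5)))) = 12 * CB / L ^ 2 * (X / L ^ 2) := by
    have e : L ^ (B + 5) = L ^ (B + 1) * (L ^ 2 * L ^ 2) := by ring
    rw [e]
    field_simp
  have h3 : 12 * CB / L ^ 2 ≤ ε₁ * (cV / 2) := by
    rw [div_le_iff₀ (by positivity)]
    rw [div_le_iff₀ (by positivity)] at hLc
    have h5 : L ≤ L ^ 2 := by nlinarith
    have h6 : L * (cV * ε₁) ≤ L ^ 2 * (cV * ε₁) := mul_le_mul_of_nonneg_right h5 (by positivity)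
    nlinarith
  calc L ^ (B + 1) * (12 * SQ) ≤ 12 * CB / L ^ 2 * (X / L ^ 2) := by rw [← h2]; exact h1
    _ ≤ ε₁ * (cV / 2) * (X / L ^ 2) := mul_le_mul_of_nonneg_right h3 (by positivity)
    _ = ε₁ * (cV / 2 * (X / L ^ 2)) := by ring
    _ ≤ ε₁ * PV := mul_le_mul_of_nonneg_left hPV hε₁.le

/-- small powers of `L` -/
theorem small_gen (B : ℕ) (cV Q₀ : ℝ) (hcV : 0 < cV) (hQ : 54 / cV ≤ Q₀) (X L ℓ PV : ℝ)
    (hX : 0 < X) (hL1 : 1 ≤ L) (hsq : √L ≤ ℓ)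
    (hexp : Q₀ * L ^ (B + 3) ≤ Real.exp (√L / 6)) (hPV : cV / 2 * (X / L ^ 2) ≤ PV) :
    27 * L ^ (B + 1) * (X * Real.exp (-(ℓ / 6))) ≤ PV := by
  have hL0 : 0 < L := by linarith
  refine le_trans ?_ hPV
  have h1 : 54 / cV * L ^ (B + 3) ≤ Real.exp (ℓ / 6) := by
    have h2 : 54 / cV * L ^ (B + 3) ≤ Q₀ * L ^ (B + 3) :=
      mul_le_mul_of_nonneg_right hQ (by positivity)
    have h3 : Real.exp (√L / 6) ≤ Real.exp (ℓ / 6) := Real.exp_le_exp.2 (by linarith)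
    linarith
  have h2 : 27 * L ^ (B + 1) * L ^ 2 ≤ cV / 2 * Real.exp (ℓ / 6) := by
    have h3 := mul_le_mul_of_nonneg_left h1 (show 0 ≤ cV / 2 by positivity)
    have h4 : cV / 2 * (54 / cV * L ^ (B + 3)) = 27 * L ^ (B + 1) * L ^ 2 := by
      have e : L ^ (B + 3) = L ^ (B + 1) * L ^ 2 := by ring
      rw [e]
      field_simp
      norm_num
    linarith
  rw [Real.exp_neg, mul_div_assoc', le_div_iff₀ (by positivity)]
  have h5 : 27 * L ^ (B + 1) * (X * (Real.exp (ℓ / 6))⁻¹) * L ^ 2 =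
      (27 * L ^ (B + 1) * L ^ 2) * (X * (Real.exp (ℓ / 6))⁻¹) := by ring
  rw [h5]
  have h6 : (27 * L ^ (B + 1) * L ^ 2) * (X * (Real.exp (ℓ / 6))⁻¹) ≤
      (cV / 2 * Real.exp (ℓ / 6)) * (X * (Real.exp (ℓ / 6))⁻¹) :=
    mul_le_mul_of_nonneg_right h2 (by positivity)
  refine h6.trans (le_of_eq ?_)
  field_simp

theorem small_gen2 (B : ℕ) (cV Q₀ ε₁ : ℝ) (hcV : 0 < cV) (hε₁ : 0 < ε₁) (hQ : 6 / (ε₁ * cV) ≤ Q₀)
    (X L PV : ℝ) (hX : 0 < X) (hL1 : 1 ≤ L) (hXL : Real.exp L = X)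
    (hexp : Q₀ * L ^ (B + 3) ≤ Real.exp (√L / 6)) (hPV : cV / 2 * (X / L ^ 2) ≤ PV) :
    3 * L ^ B ≤ ε₁ * PV := by
  have hL0 : 0 < L := by linarith
  have h1 : 6 / (ε₁ * cV) * L ^ (B + 3) ≤ X := by
    have h2 : 6 / (ε₁ * cV) * L ^ (B + 3) ≤ Q₀ * L ^ (B + 3) :=
      mul_le_mul_of_nonneg_right hQ (by positivity)
    have h3 : Real.exp (√L / 6) ≤ Real.exp L := by
      apply Real.exp_le_exp.2
      have h4 : √L ≤ L := by
        rw [Real.sqrt_le_left hL0.le]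
        nlinarith
      have := Real.sqrt_nonneg L
      linarith
    rw [hXL] at h3
    linarith
  have h2 := mul_le_mul_of_nonneg_left hPV hε₁.le
  refine le_trans ?_ h2
  rw [← mul_assoc, mul_div_assoc', le_div_iff₀ (by positivity)]
  have h3 := mul_le_mul_of_nonneg_left h1 (show 0 ≤ ε₁ * (cV / 2) by positivity)
  have h4 : ε₁ * (cV / 2) * (6 / (ε₁ * cV) * L ^ (B + 3)) = 3 * L ^ (B + 3) := by
    field_simp
    norm_num
  have h5 : 3 * L ^ B * L ^ 2 ≤ 3 * L ^ (B + 3) := by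
    rw [mul_assoc, ← pow_add]
    apply mul_le_mul_of_nonneg_left _ (by norm_num)
    exact pow_le_pow_right₀ hL1 (by omega)
  linarith

end Pool.Agent.Y855
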