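import Pool.Agent.Y855.A10

/-!
Cosets of finitely generated groups of rational numbers: few elements are `l`-th powers.
-/

set_option autoImplicit false

open Finset

namespace Pool.Agent.Y855

open Pool.Agent.H442R2.KF

/-- the element `b ∏ a_i ^ v_i` of a coset -/
def nv {r : ℕ} (a : Fin r → ℤ) (b : ℤ) (v : Fin r → ℕ) : ℤ := b * ∏ i, a i ^ v i

/-- multiplicative independence of a family -/
def MIf {r : ℕ} (a : Fin r → ℤ) : Prop := ∀ c : Fin r → ℤ, ∏ i, (a i : ℚ) ^ (c i) = 1 → ∀ i, c i = 0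

theorem MIf.inj {r : ℕ} {a : Fin r → ℤ} (h : MIf a) (h0 : ∀ i, a i ≠ 0) : Function.Injective a := by
  intro i j hij
  by_contra hne
  have h1 := h (Function.update (Function.update 0 i 1) j (-1)) (by
    rw [← Finset.mul_prod_erase univ _ (mem_univ j), ← Finset.mul_prod_erase (univ.erase j) _
      (mem_erase.2 ⟨hne, mem_univ i⟩)]
    rw [Function.update_self, Function.update_of_ne hne, Function.update_self, ← mul_assoc]
    rw [prod_eq_one (s := (univ.erase j).erase i)]
    · have hj : (a j : ℚ) ≠ 0 := by exact_mod_cast h0 j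
      rw [hij, mul_one, zpow_neg, zpow_one]
      exact inv_mul_cancel₀ hj
    · intro k hk
      rw [mem_erase, mem_erase] at hk
      rw [Function.update_of_ne hk.2.1, Function.update_of_ne hk.1]
      simp) j
  rw [Function.update_self] at h1
  norm_num at h1

theorem MIf.image {r : ℕ} {a : Fin r → ℤ} (h : MIf a) (h0 : ∀ i, a i ≠ 0) :
    MI (univ.image a) := by
  intro c hc n hn
  rw [prod_image (fun i _ j _ hij => h.inj h0 hij)] at hc
  obtain ⟨i, -, rfl⟩ := mem_image.1 hn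
  exact h (fun i => c (a i)) hc i

theorem nv_dvd {r : ℕ} (a : Fin r → ℤ) (b : ℤ) (v : Fin r → ℕ) (p : ℕ) (hp : p.Prime)
    (hpb : ¬ (p : ℤ) ∣ b) (hpa : ∀ i, ¬ (p : ℤ) ∣ a i) : ¬ (p : ℤ) ∣ nv a b v := by
  have hpi : Prime (p : ℤ) := Nat.prime_iff_prime_int.1 hp
  unfold nv
  intro h
  rcases hpi.dvd_or_dvd h with h1 | h1
  · exact hpb h1
  · obtain ⟨i, -, h2⟩ := (Prime.dvd_finsetProd_iff hpi _).1 h1
    exact hpa i (hpi.dvd_of_dvd_pow h2)

theorem hyper {r : ℕ} (a : Fin r → ℤ) (b : ℤ) (p l : ℕ) (hp : p.Prime) (hl : l.Prime)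
    (hlp : l ∣ p - 1) (hpb : ¬ (p : ℤ) ∣ b) (hpa : ∀ i, ¬ (p : ℤ) ∣ a i)
    (hne : ∃ i, (a i : ZMod p) ^ ((p - 1) / l) ≠ 1) :
    ∃ u : Fin r → ZMod l, u ≠ 0 ∧ ∃ c : ZMod l, ∀ v : Fin r → ℕ,
      (nv a b v : ZMod p) ^ ((p - 1) / l) = 1 → ∑ i, u i * (v i : ZMod l) = c := by
  have : Fact p.Prime := ⟨hp⟩
  have hml : (p - 1) / l * l = p - 1 := Nat.div_mul_cancel hlp
  have hpow : ∀ n : ℤ, ¬ (p : ℤ) ∣ n → ((n : ZMod p) ^ ((p - 1) / l)) ^ l = 1 := by
    intro n hn
    rw [← pow_mul, hml]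
    apply ZMod.pow_card_sub_one_eq_one
    intro h
    exact hn ((ZMod.intCast_zmod_eq_zero_iff_dvd _ _).1 h)
  obtain ⟨i₀, hi₀⟩ := hne
  set ζ : ZMod p := (a i₀ : ZMod p) ^ ((p - 1) / l) with hζ
  have hord : orderOf ζ = l := by
    have := Fact.mk hl
    exact orderOf_eq_prime (hpow _ (hpa i₀)) hi₀
  have hprim : IsPrimitiveRoot ζ l := by
    rw [← hord]
    exact IsPrimitiveRoot.orderOf ζ
  have : NeZero l := ⟨hl.ne_zero⟩
  have hex : ∀ n : ℤ, ¬ (p : ℤ) ∣ n → ∃ e : ℕ, ζ ^ e = (n : ZMod p) ^ ((p - 1) / l) := by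
    intro n hn
    obtain ⟨e, -, he⟩ := hprim.eq_pow_of_pow_eq_one (hpow n hn)
    exact ⟨e, he⟩
  choose e he using fun i => hex (a i) (hpa i)
  obtain ⟨f, hf⟩ := hex b hpb
  refine ⟨fun i => (e i : ZMod l), ?_, -(f : ZMod l), ?_⟩
  · intro h
    have h1 : ((e i₀ : ℕ) : ZMod l) = 0 := congrFun h i₀
    rw [ZMod.natCast_eq_zero_iff] at h1
    have h2 : ζ ^ (e i₀) = 1 := by
      rw [← orderOf_dvd_iff_pow_eq_one, hord]
      exact h1
    rw [he i₀] at h2
    exact hi₀ h2
  · intro v hv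
    have h1 : (nv a b v : ZMod p) ^ ((p - 1) / l) = ζ ^ (f + ∑ i, e i * v i) := by
      unfold nv
      push_cast
      rw [mul_pow, ← hf, ← prod_pow, pow_add]
      congr 1
      rw [← prod_pow_eq_pow_sum]
      apply prod_congr rfl
      intro i _
      rw [pow_right_comm, ← he i, ← pow_mul]
    rw [h1, ← orderOf_dvd_iff_pow_eq_one, hord, ← ZMod.natCast_eq_zero_iff] at hv
    push_cast at hv
    rw [eq_neg_iff_add_eq_zero, add_comm]
    exact hv

theorem LF_card (x z p : ℕ) (hz : 2 ≤ z) (hp : p ∈ TT x z) :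
    ((LF z p).card : ℝ) ≤ Real.log x / Real.log z := by
  unfold TT at hp
  rw [mem_filter, mem_Icc] at hp
  have hp1 : 0 < p - 1 := by have := hp.2.1.two_le; omega
  have hz2 : (2 : ℝ) ≤ z := by exact_mod_cast hz
  have hlz : 0 < Real.log z := Real.log_pos (by linarith)
  have h1 : ∀ l ∈ LF z p, l.Prime ∧ l ∣ p - 1 ∧ z < l := by
    intro l hl
    unfold LF at hl
    rw [mem_filter] at hl
    exact ⟨Nat.prime_of_mem_primeFactors hl.1, Nat.dvd_of_mem_primeFactors hl.1, hl.2⟩
  have h2 : ∏ l ∈ LF z p, l ∣ p - 1 := Finset.prod_primes_dvd _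
    (fun l hl => (h1 l hl).1.prime) fun l hl => (h1 l hl).2.1
  have h3 := Nat.le_of_dvd hp1 h2
  have h4 : z ^ (LF z p).card ≤ ∏ l ∈ LF z p, l := by
    rw [← prod_const]
    exact prod_le_prod' fun l hl => (h1 l hl).2.2.le
  have h5 : z ^ (LF z p).card ≤ x := by omega
  have h6 : ((z : ℝ)) ^ (LF z p).card ≤ x := by exact_mod_cast h5
  rw [le_div_iff₀ hlz, ← Real.log_pow]
  exact Real.log_le_log (by positivity) h6

/-- the sum of the numbers of bad primes over a subset of a coset -/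
theorem coset_sum {r : ℕ} (a : Fin r → ℤ) (b : ℤ) (V : Finset (Fin r → ℕ)) (x z h H : ℕ)
    (hr : 2 ≤ r) (hz : 2 ≤ z) (hR : x ^ 2 ≤ z ^ r) (h0 : ∀ i, a i ≠ 0) (hMI : MIf a)
    (hb : b ≠ 0) (hH : ∀ i, (a i).natAbs ≤ H) (hbH : b.natAbs ≤ H)
    (hV : ∀ l : ℕ, l.Prime → z < l → ∀ u : Fin r → ZMod l, u ≠ 0 → ∀ c : ZMod l,
      (V.filter (fun v => ∑ i, u i * (v i : ZMod l) = c)).card ≤ h) :
    ∑ v ∈ V, ((Bad (nv a b v) x z H).card : ℝ) ≤
      h * (Real.log x / Real.log z) * (TT x z).card +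
      V.card * ((Exc x r (univ.image a)).card : ℝ) := by
  classical
  set EE := Exc x r (univ.image a) with hEE
  have hdc : ∑ v ∈ V, ((Bad (nv a b v) x z H).card : ℝ) = ∑ p ∈ TT x z,
      ((V.filter (fun v => H < p ∧ ∃ l : ℕ, l.Prime ∧ 3 ≤ l ∧ l ∣ p - 1 ∧
        (nv a b v : ZMod p) ^ ((p - 1) / l) = 1)).card : ℝ) := by
    unfold Bad
    simp only [card_filter]
    push_cast
    rw [sum_comm]
  rw [hdc]
  have hpt : ∀ p ∈ TT x z, ((V.filter (fun v => H < p ∧ ∃ l : ℕ, l.Prime ∧ 3 ≤ l ∧ l ∣ p - 1 ∧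
        (nv a b v : ZMod p) ^ ((p - 1) / l) = 1)).card : ℝ) ≤
      h * (Real.log x / Real.log z) + V.card * (if p ∈ EE then (1 : ℝ) else 0) := by
    intro p hp
    have hLF := LF_card x z p hz hp
    have hh0 : (0 : ℝ) ≤ h := Nat.cast_nonneg _
    have hq0 : 0 ≤ Real.log x / Real.log z := le_trans (Nat.cast_nonneg _) hLF
    by_cases hpH : H < p
    · by_cases hpE : p ∈ EE
      · rw [if_pos hpE, mul_one]
        have : ((V.filter (fun v => H < p ∧ ∃ l : ℕ, l.Prime ∧ 3 ≤ l ∧ l ∣ p - 1 ∧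
          (nv a b v : ZMod p) ^ ((p - 1) / l) = 1)).card : ℝ) ≤ V.card := by
          exact_mod_cast card_filter_le _ _
        have h1 : 0 ≤ (h : ℝ) * (Real.log x / Real.log z) := mul_nonneg hh0 hq0
        linarith
      · rw [if_neg hpE, mul_zero, add_zero]
        have hp' := hp
        unfold TT at hp
        rw [mem_filter, mem_Icc] at hp
        have hnda : ∀ i, ¬ (p : ℤ) ∣ a i := by
          intro i hi
          have h1 := Nat.le_of_dvd (Int.natAbs_pos.2 (h0 i)) (Int.natCast_dvd.1 hi)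
          have h2 := hH i
          omega
        have hndb : ¬ (p : ℤ) ∣ b := by
          intro hi
          have h1 := Nat.le_of_dvd (Int.natAbs_pos.2 hb) (Int.natCast_dvd.1 hi)
          omega
        have hone : ∀ l ∈ LF z p,
            (V.filter (fun v => (nv a b v : ZMod p) ^ ((p - 1) / l) = 1)).card ≤ h := by
          intro l hl
          unfold LF at hl
          rw [mem_filter] at hl
          have hlp := Nat.dvd_of_mem_primeFactors hl.1
          have hlpr := Nat.prime_of_mem_primeFactors hl.1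
          have hne : ∃ i, (a i : ZMod p) ^ ((p - 1) / l) ≠ 1 := by
            by_contra hcon
            push Not at hcon
            apply hpE
            rw [hEE]
            unfold Exc
            rw [mem_filter, mem_Icc]
            refine ⟨hp.1, hp.2.1, ?_, l, hlpr, hlp, hR.trans (Nat.pow_le_pow_left hl.2.le r), ?_⟩
            · intro n hn
              obtain ⟨i, -, rfl⟩ := mem_image.1 hn
              exact hnda i
            · rw [filter_true_of_mem, card_image_of_injective _ (hMI.inj h0), card_univ,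
                Fintype.card_fin]
              intro n hn
              obtain ⟨i, -, rfl⟩ := mem_image.1 hn
              exact hcon i
          obtain ⟨u, hu, c, huc⟩ := hyper a b p l hp.2.1 hlpr hlp hndb hnda hne
          refine (card_le_card ?_).trans (hV l hlpr hl.2 u hu c)
          intro v hv
          rw [mem_filter] at hv ⊢
          exact ⟨hv.1, huc v hv.2⟩
        have hsub : V.filter (fun v => H < p ∧ ∃ l : ℕ, l.Prime ∧ 3 ≤ l ∧ l ∣ p - 1 ∧
            (nv a b v : ZMod p) ^ ((p - 1) / l) = 1) ⊆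
            (LF z p).biUnion (fun l => V.filter (fun v =>
              (nv a b v : ZMod p) ^ ((p - 1) / l) = 1)) := by
          intro v hv
          rw [mem_filter] at hv
          obtain ⟨hvV, _, l, hl, hl3, hlp, hln⟩ := hv
          rw [mem_biUnion]
          refine ⟨l, ?_, mem_filter.2 ⟨hvV, hln⟩⟩
          unfold LF
          rw [mem_filter, Nat.mem_primeFactors]
          refine ⟨⟨hl, hlp, by have := hp.2.1.two_le; omega⟩, ?_⟩
          by_contra hcon
          exact hp.2.2 l (mem_OP.2 ⟨hl, hl3, by omega⟩) hlp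
        have h1 : ((V.filter (fun v => H < p ∧ ∃ l : ℕ, l.Prime ∧ 3 ≤ l ∧ l ∣ p - 1 ∧
            (nv a b v : ZMod p) ^ ((p - 1) / l) = 1)).card : ℝ) ≤
            ∑ l ∈ LF z p, ((V.filter (fun v =>
              (nv a b v : ZMod p) ^ ((p - 1) / l) = 1)).card : ℝ) := by
          exact_mod_cast (card_le_card hsub).trans card_biUnion_le
        refine h1.trans ?_
        calc ∑ l ∈ LF z p, ((V.filter (fun v =>
              (nv a b v : ZMod p) ^ ((p - 1) / l) = 1)).card : ℝ)
            ≤ ∑ _l ∈ LF z p, (h : ℝ) := sum_le_sum fun l hl => by exact_mod_cast hone l hl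
          _ = h * (LF z p).card := by rw [sum_const, nsmul_eq_mul, mul_comm]
          _ ≤ _ := mul_le_mul_of_nonneg_left hLF hh0
    · have : V.filter (fun v => H < p ∧ ∃ l : ℕ, l.Prime ∧ 3 ≤ l ∧ l ∣ p - 1 ∧
          (nv a b v : ZMod p) ^ ((p - 1) / l) = 1) = ∅ := by
        apply filter_false_of_mem
        intro n _ hh
        exact hpH hh.1
      rw [this, card_empty, Nat.cast_zero]
      have h1 : 0 ≤ (V.card : ℝ) * (if p ∈ EE then (1 : ℝ) else 0) := by
        split_ifs <;> simp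
      have h2 : 0 ≤ (h : ℝ) * (Real.log x / Real.log z) := mul_nonneg hh0 hq0
      linarith
  refine (sum_le_sum hpt).trans ?_
  rw [sum_add_distrib, sum_const, nsmul_eq_mul, ← mul_sum]
  apply add_le_add (le_of_eq (by ring))
  apply mul_le_mul_of_nonneg_left _ (Nat.cast_nonneg _)
  rw [← sum_filter, sum_const, nsmul_eq_mul, mul_one]
  exact_mod_cast card_le_card (by
    intro p hp
    exact (mem_filter.1 hp).2)

end Pool.Agent.Y855
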