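import Pool.Agent.Y855.A13
import Pool.Agent.Y855.A14

/-!
The sifted primes in residue classes and with prescribed quadratic symbols: clean asymptotics.
-/

set_option autoImplicit false

open Finset

namespace Pool.Agent.Y855

open Pool.Agent.H442R2.KF

/-- size facts about `x` and `z` -/
structure Sy (B : ℕ) (B₁ : ℕ) (x z : ℕ) (L ℓ : ℝ) : Prop where
  hL : L = Real.log x
  hℓ : ℓ = Real.log z
  hx3 : 3 ≤ x
  hz2 : 2 ≤ z
  hL120 : 120 ≤ L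
  hℓ1 : 1 ≤ ℓ
  hℓL : ℓ ≤ L
  hsq : √L ≤ ℓ
  hLBz : L ^ B ≤ z
  hLBx : L ^ B ≤ (x : ℝ) ^ (1 / 4 : ℝ)
  hzB : ((z : ℝ)) ^ B₁ ≤ (x : ℝ) ^ (1 / 7 : ℝ)

theorem sy (B : ℕ) (K : ℝ) (B₁ : ℕ) (hK1 : 1 ≤ K) (hKa : 7 * (B₁ : ℝ) ≤ K) (Q₀ : ℝ) (hQ₀ : 1 ≤ Q₀)
    (x z : ℕ) (L : ℝ) (hL : L = Real.log x) (hL120 : 120 ≤ L) (hx3 : 3 ≤ x)
    (hexp : Q₀ * L ^ (B + 3) ≤ Real.exp (√L / 6))
    (hsq : √L ≤ Real.log z) (hzK : (z : ℝ) ^ K ≤ x) :
    Sy B B₁ x z L (Real.log z) := by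
  have hx3r : (3 : ℝ) ≤ x := by exact_mod_cast hx3
  have hx0 : (0 : ℝ) < x := by linarith
  have hL0 : 0 < L := by linarith
  have hs1 : (1 : ℝ) ≤ √L := by
    rw [Real.one_le_sqrt]
    linarith
  have hz1 : 1 ≤ z := by
    by_contra hcon
    have hz0 : z = 0 := by omega
    rw [hz0] at hsq
    norm_num at hsq
    linarith
  have hz1r : (1 : ℝ) ≤ z := by exact_mod_cast hz1
  obtain ⟨ℓ, hℓ⟩ : ∃ ℓ : ℝ, ℓ = Real.log z := ⟨_, rfl⟩
  rw [← hℓ] at hsq ⊢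
  have hℓ1 : 1 ≤ ℓ := by linarith
  have hℓ0 : 0 ≤ ℓ := by linarith
  have hz2 : 2 ≤ z := by
    by_contra hcon
    have hz1' : z = 1 := by omega
    rw [hℓ, hz1', Nat.cast_one, Real.log_one] at hℓ1
    linarith
  have hz0r : (0 : ℝ) < z := by linarith
  have hKℓ : K * ℓ ≤ L := by
    have h1 := Real.log_le_log (by positivity) hzK
    rw [Real.log_rpow hz0r, ← hL, ← hℓ] at h1
    exact h1
  have hℓL : ℓ ≤ L := by
    have : ℓ ≤ K * ℓ := le_mul_of_one_le_left hℓ0 hK1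
    linarith
  have hpow : L ^ B ≤ Real.exp (√L / 6) := by
    have h1 : L ^ B ≤ L ^ (B + 3) := pow_le_pow_right₀ (by linarith) (by omega)
    have h2 : L ^ (B + 3) ≤ Q₀ * L ^ (B + 3) := le_mul_of_one_le_left (by positivity) hQ₀
    linarith
  have hs0 := Real.sqrt_nonneg L
  refine ⟨hL, hℓ, hx3, hz2, hL120, hℓ1, hℓL, hsq, ?_, ?_, ?_⟩
  · have h3 : Real.exp (√L / 6) ≤ z := by
      rw [← Real.le_log_iff_exp_le hz0r, ← hℓ]
      linarith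
    linarith
  · have h3 : Real.exp (√L / 6) ≤ (x : ℝ) ^ (1 / 4 : ℝ) := by
      rw [Real.rpow_def_of_pos hx0]
      apply Real.exp_le_exp.2
      rw [← hL]
      have h4 : √L ≤ L := by
        rw [Real.sqrt_le_left hL0.le]
        nlinarith
      linarith
    linarith
  · have h1 : ((z : ℝ)) ^ (7 * (B₁ : ℝ)) ≤ x :=
      (Real.rpow_le_rpow_of_exponent_le hz1r hKa).trans hzK
    have h2 : (((z : ℝ)) ^ (7 * (B₁ : ℝ))) ^ (1 / 7 : ℝ) ≤ (x : ℝ) ^ (1 / 7 : ℝ) :=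
      Real.rpow_le_rpow (by positivity) h1 (by norm_num)
    rw [← Real.rpow_mul hz0r.le] at h2
    rw [← Real.rpow_natCast]
    have e : 7 * (B₁ : ℝ) * (1 / 7) = (B₁ : ℝ) := by ring
    rw [e] at h2
    exact h2

/-- the odd prime factors -/
def OF (m : ℕ) : Finset ℕ := m.primeFactors.filter (fun q => 3 ≤ q)

theorem OF_three (m : ℕ) : ∀ q ∈ OF m, 3 ≤ q := fun _ hq => (mem_filter.1 hq).2

/-- the relative density of an allowed class modulo `m` -/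
noncomputable def cl (m : ℕ) : ℝ := 1 / ((Nat.totient m : ℝ) * VP (OF m))

theorem cl_pos (m : ℕ) (hm : 1 ≤ m) : 0 < cl m := by
  unfold cl
  have h1 : (0 : ℝ) < Nat.totient m := by exact_mod_cast Nat.totient_pos.2 hm
  have h2 := VP_pos (OF m) (OF_three m)
  positivity

theorem cl_ge (m : ℕ) (hm : 1 ≤ m) : 1 / (m : ℝ) ≤ cl m := by
  unfold cl
  have h1 : (0 : ℝ) < Nat.totient m := by exact_mod_cast Nat.totient_pos.2 hm
  have h2 := VP_pos (OF m) (OF_three m)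
  have h3 := VP_le_one (OF m) (OF_three m)
  have h4 : ((Nat.totient m : ℕ) : ℝ) ≤ m := by exact_mod_cast Nat.totient_le m
  apply one_div_le_one_div_of_le (by positivity)
  nlinarith

theorem NS_sdiff (x z m a : ℕ)
    (ha : ∀ q ∈ m.primeFactors, 3 ≤ q → a % q ≠ 1) :
    NS x m a (OP z) = NS x m a (OP z \ OF m) := by
  unfold NS
  apply filter_congr
  intro p hp
  constructor
  · rintro ⟨h1, h2, h3⟩
    exact ⟨h1, h2, fun q hq => h3 q (mem_sdiff.1 hq).1⟩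
  · rintro ⟨h1, h2, h3⟩
    refine ⟨h1, h2, fun q hq hqd => ?_⟩
    by_cases hqm : q ∈ OF m
    · have hqm' := (mem_filter.1 hqm).1
      have hq3 := (mem_filter.1 hqm).2
      have hqp := Nat.prime_of_mem_primeFactors hqm'
      have hqdm := Nat.dvd_of_mem_primeFactors hqm'
      apply ha q hqm' hq3
      have h6 : 1 ≡ p [MOD q] := (Nat.modEq_iff_dvd' (mem_Icc.1 hp).1).2 hqd
      have h7 : p ≡ a [MOD q] := h2.of_dvd hqdm
      have h8 := (h6.trans h7).symm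
      unfold Nat.ModEq at h8
      rw [h8, Nat.mod_eq_of_lt hqp.one_lt]
    · exact h3 q (mem_sdiff.2 ⟨hq, hqm⟩) hqd

theorem VP_sdiff (P Q : Finset ℕ) (hQP : Q ⊆ P) (hQ : ∀ q ∈ Q, 3 ≤ q) :
    VP (P \ Q) = VP P / VP Q := by
  have h := VP_pos Q hQ
  rw [eq_div_iff h.ne']
  unfold VP
  exact prod_sdiff hQP

/-- the clean asymptotics -/
theorem core (ε : ℝ) (hε : 0 < ε) : ∃ K : ℝ, 1 ≤ K ∧ ∀ B : ℕ, ∃ x₀ : ℕ, 3 ≤ x₀ ∧ ∀ x : ℕ, x₀ ≤ x →
    120 ≤ Real.log x ∧ ∀ z : ℕ, √(Real.log x) ≤ Real.log z → (z : ℝ) ^ K ≤ x →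
    2 ≤ z ∧ (Real.log x) ^ B ≤ z ∧ 0 < ((TT x z).card : ℝ) ∧
    (x : ℝ) / (K * (Real.log x * Real.log z)) ≤ ((TT x z).card : ℝ) ∧
    (∀ m : ℕ, Squarefree m → m.primeFactors ⊆ OP z → (m : ℝ) ≤ (Real.log x) ^ B →
      |((TQ x z m).card : ℝ) - dl m * (TT x z).card| ≤ ε * (TT x z).card) ∧
    (∀ m a : ℕ, 1 ≤ m → (m : ℝ) ≤ (Real.log x) ^ B → a.Coprime m →
      (∀ q ∈ m.primeFactors, 3 ≤ q → a % q ≠ 1) →
      |((NS x m a (OP z)).card : ℝ) - cl m * (TT x z).card| ≤ ε * (cl m * (TT x z).card)) := by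
  classical
  obtain ⟨ε₁, hε₁⟩ : ∃ ε₁ : ℝ, ε₁ = min ε 1 / 20 := ⟨_, rfl⟩
  have hmin : 0 < min ε 1 := lt_min hε one_pos
  have hε₁0 : 0 < ε₁ := by rw [hε₁]; positivity
  have hε₁1 : ε₁ ≤ 1 / 20 := by
    rw [hε₁]
    have := min_le_right ε 1
    linarith
  have hε₁ε : 20 * ε₁ ≤ ε := by
    rw [hε₁]
    have := min_le_left ε 1
    linarith
  obtain ⟨B₂, hB₂, hasy⟩ := asymp ε₁ hε₁0
  obtain ⟨B₃, hB₃, hsc⟩ := sieve_class ε₁ hε₁0
  obtain ⟨B₁, hB₁⟩ : ∃ B₁ : ℕ, B₁ = B₂ + B₃ := ⟨_, rfl⟩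
  obtain ⟨cV, hcV, hV⟩ := VP_lower
  obtain ⟨Xπ, hXπ3, hπ⟩ := piN_ge
  obtain ⟨K, hK⟩ : ∃ K : ℝ, K = 7 * B₁ + 4 / cV := ⟨_, rfl⟩
  have hB₁r : (1 : ℝ) ≤ B₁ := by
    have : 1 ≤ B₁ := by omega
    exact_mod_cast this
  have hp1 : 0 < 4 / cV := by positivity
  have hKa : 7 * (B₁ : ℝ) ≤ K := by rw [hK]; linarith
  have hKc : 4 / cV ≤ K := by rw [hK]; linarith
  have hK1 : 1 ≤ K := by linarith
  refine ⟨K, hK1, fun B => ?_⟩
  obtain ⟨CB, hCB, hBV⟩ := bvEs (B + 1 + 5)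
  obtain ⟨Q₀, hQ₀⟩ : ∃ Q₀ : ℝ, Q₀ = 54 / cV + 6 / (ε₁ * cV) + 2 := ⟨_, rfl⟩
  have hp3 : 0 < 54 / cV := by positivity
  have hp4 : 0 < 6 / (ε₁ * cV) := by positivity
  have hQ1 : 1 ≤ Q₀ := by rw [hQ₀]; linarith
  obtain ⟨L₀, hL₀⟩ := ev_exp (B + 3) Q₀
  obtain ⟨L₁, hL₁⟩ : ∃ L₁ : ℝ, L₁ = max (max L₀ 120) (24 * CB / (cV * ε₁) + 1) := ⟨_, rfl⟩
  refine ⟨max Xπ ⌈Real.exp L₁⌉₊, hXπ3.trans (le_max_left _ _), ?_⟩
  intro x hx
  have hxXπ : Xπ ≤ x := (le_max_left _ _).trans hx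
  have hx3 : 3 ≤ x := hXπ3.trans hxXπ
  have hx3r : (3 : ℝ) ≤ x := by exact_mod_cast hx3
  have hx0 : (0 : ℝ) < x := by linarith
  obtain ⟨L, hL⟩ : ∃ L : ℝ, L = Real.log x := ⟨_, rfl⟩
  have hLL₁ : L₁ ≤ L := by
    rw [hL, Real.le_log_iff_exp_le hx0]
    have h1 := Nat.le_ceil (Real.exp L₁)
    have h2 : ((⌈Real.exp L₁⌉₊ : ℕ) : ℝ) ≤ x := by exact_mod_cast (le_max_right _ _).trans hx
    linarith
  have hL120 : 120 ≤ L := by
    rw [hL₁] at hLL₁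
    exact ((le_max_right _ _).trans (le_max_left _ _)).trans hLL₁
  have hLL₀ : L₀ ≤ L := by
    rw [hL₁] at hLL₁
    exact ((le_max_left _ _).trans (le_max_left _ _)).trans hLL₁
  have hLc : 24 * CB / (cV * ε₁) ≤ L := by
    rw [hL₁] at hLL₁
    have := (le_max_right _ _).trans hLL₁
    linarith
  have hexp := hL₀ L hLL₀
  refine ⟨by rw [← hL]; exact hL120, ?_⟩
  intro z hsq hzK
  obtain ⟨ℓ, hℓ⟩ : ∃ ℓ : ℝ, ℓ = Real.log z := ⟨_, rfl⟩
  have S : Sy B B₁ x z L ℓ := by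
    rw [hℓ]
    exact sy B K B₁ hK1 hKa Q₀ hQ1 x z L hL hL120 hx3 hexp (by rw [hL]; exact hsq) hzK
  rw [← hL, ← hℓ]
  have hL0 : 0 < L := by linarith
  have hL1 : 1 ≤ L := by linarith
  have hℓ0 : 0 < ℓ := by linarith [S.hℓ1]
  obtain ⟨PV, hPV⟩ : ∃ PV : ℝ, PV = piN x * VP (OP z) := ⟨_, rfl⟩
  obtain ⟨hPVlow, hPVlow2⟩ := PV_low cV hcV x z L ℓ PV hL0 hℓ0 S.hℓL hPV
    (by rw [hL]; exact hπ x hxXπ) (by rw [hℓ]; exact hV z S.hz2)
  have hPV0 : 0 < PV := lt_of_lt_of_le (by positivity) hPVlow2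
  obtain ⟨SQ, hSQ⟩ : ∃ SQ : ℝ, SQ = ∑ d ∈ Icc 1 ⌊(x : ℝ) ^ (2 / 5 : ℝ)⌋₊, Es x d := ⟨_, rfl⟩
  have hBVx : SQ ≤ CB * (x / L ^ (B + 1 + 5)) := by rw [hSQ, hL]; exact hBV x hx3
  have hSQ0 : 0 ≤ SQ := by rw [hSQ]; exact sum_nonneg fun d _ => Es_nonneg x d
  have herr2 := err_gen (B + 1) cV CB ε₁ hcV hε₁0 x L PV SQ hx0 hL1 hBVx hPVlow2 hLc
  have herr : L ^ (B + 1) * (12 * SQ) ≤ ε₁ * PV := by
    refine le_trans ?_ herr2
    apply mul_le_mul_of_nonneg_right _ (by positivity)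
    exact pow_le_pow_right₀ hL1 (by omega)
  have hlog2 := log2_le z S.hz2 L (by rw [← hℓ]; exact S.hℓL) hL120
  have hlog20 : (0 : ℝ) ≤ (Nat.log 2 z : ℝ) + 2 := by positivity
  have hz1 : (1 : ℝ) ≤ z := by
    have : 1 ≤ z := by have := S.hz2; omega
    exact_mod_cast this
  -- the error for a modulus
  have hsub : ∀ m : ℕ, ∀ B₀ : ℕ, B₀ ≤ B₁ → (m : ℝ) ≤ L ^ B →
      ((Nat.log 2 z : ℝ) + 2) * ∑ d ∈ Icc 1 (m * z ^ B₀), Es x d ≤ (4 * L) * SQ := by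
    intro m B₀ hB₀ hmr
    have h1 : ∑ d ∈ Icc 1 (m * z ^ B₀), Es x d ≤ SQ := by
      rw [hSQ]
      apply sum_le_sum_of_subset_of_nonneg
      · apply Icc_subset_Icc_right
        apply Nat.le_floor
        push_cast
        calc (m : ℝ) * (z : ℝ) ^ B₀ ≤ (x : ℝ) ^ (1 / 4 : ℝ) * (x : ℝ) ^ (1 / 7 : ℝ) := by
              apply mul_le_mul (hmr.trans S.hLBx) _ (by positivity) (by positivity)
              exact (pow_le_pow_right₀ hz1 hB₀).trans S.hzB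
          _ = (x : ℝ) ^ (1 / 4 + 1 / 7 : ℝ) := (Real.rpow_add hx0 _ _).symm
          _ ≤ (x : ℝ) ^ (2 / 5 : ℝ) :=
              Real.rpow_le_rpow_of_exponent_le (by linarith) (by norm_num)
      · intro d _ _
        exact Es_nonneg x d
    exact mul_le_mul hlog2 h1 (sum_nonneg fun d _ => Es_nonneg x d) (by positivity)
  have hLB1 : 1 ≤ L ^ B := one_le_pow₀ hL1
  have hm4 : ∀ m : ℕ, (m : ℝ) ≤ L ^ B → (m : ℝ) * ((4 * L) * SQ) ≤ ε₁ * PV := by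
    intro m hmr
    have h3 : (m : ℝ) * ((4 * L) * SQ) ≤ L ^ B * ((4 * L) * SQ) :=
      mul_le_mul_of_nonneg_right hmr (by positivity)
    have h4 : L ^ B * ((4 * L) * SQ) ≤ L ^ (B + 1) * (12 * SQ) := by
      have h5 : L ^ B * ((4 * L) * SQ) = L ^ (B + 1) * (4 * SQ) := by rw [pow_succ]; ring
      rw [h5]
      apply mul_le_mul_of_nonneg_left _ (by positivity)
      linarith
    linarith
  obtain ⟨hT, hTQ, -⟩ := hasy z S.hz2 x
  rw [← hPV] at hT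
  obtain ⟨t, ht⟩ : ∃ t : ℝ, t = ((TT x z).card : ℝ) := ⟨_, rfl⟩
  rw [← ht] at hT ⊢
  have hET : ((Nat.log 2 z : ℝ) + 2) * ∑ d ∈ Icc 1 (z ^ B₂), Es x d ≤ ε₁ * PV := by
    have h1 := hsub 1 B₂ (by omega) (by rw [Nat.cast_one]; exact hLB1)
    rw [one_mul] at h1
    have h2 := hm4 1 (by rw [Nat.cast_one]; exact hLB1)
    rw [Nat.cast_one, one_mul] at h2
    linarith
  have hT' : |t - PV| ≤ 2 * ε₁ * PV := by linarith
  have hT1 := abs_le.1 hT'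
  have hεPV : ε₁ * PV ≤ 1 / 20 * PV := mul_le_mul_of_nonneg_right hε₁1 hPV0.le
  have htPV : PV ≤ 2 * t := by linarith [hT1.1]
  have ht0 : 0 < t := by linarith
  refine ⟨S.hz2, S.hLBz, ht0, ?_, ?_, ?_⟩
  · have h1 : 1 / K ≤ cV / 4 := by
      rw [div_le_iff₀ hcV] at hKc
      rw [div_le_iff₀ (by linarith : 0 < K)]
      linarith
    calc (x : ℝ) / (K * (L * ℓ)) = 1 / K * (x / (L * ℓ)) := by
          rw [div_mul_div_comm, one_mul]
      _ ≤ cV / 4 * (x / (L * ℓ)) := mul_le_mul_of_nonneg_right h1 (by positivity)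
      _ = (cV / 2 * (x / (L * ℓ))) / 2 := by ring
      _ ≤ t := by linarith
  · intro m hm hmOP hmr
    have hm3 : ∀ q ∈ m.primeFactors, 3 ≤ q := fun q hq => (mem_OP.1 (hmOP hq)).2.1
    have hdl0 := dl_nonneg m hm hm3
    have hdl1 := dl_le_one m hm3
    have h1 := hTQ m hm hmOP
    rw [← hPV] at h1
    have hE : (m : ℝ) * ((Nat.log 2 z + 2) * ∑ d ∈ Icc 1 (m * z ^ B₂), Es x d) ≤ ε₁ * PV := by
      refine le_trans ?_ (hm4 m hmr)
      exact mul_le_mul_of_nonneg_left (hsub m B₂ (by omega) hmr) (Nat.cast_nonneg _)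
    have h4 : |((TQ x z m).card : ℝ) - dl m * PV| ≤ 2 * (ε₁ * PV) := by
      refine h1.trans ?_
      linarith
    have h5 : |dl m * PV - dl m * t| ≤ 2 * (ε₁ * PV) := by
      rw [← mul_sub, abs_mul, abs_of_nonneg hdl0, abs_sub_comm]
      calc dl m * |t - PV| ≤ 1 * |t - PV| := mul_le_mul_of_nonneg_right hdl1 (abs_nonneg _)
        _ ≤ _ := by rw [one_mul]; linarith
    have h6 : |((TQ x z m).card : ℝ) - dl m * t| ≤
        |((TQ x z m).card : ℝ) - dl m * PV| + |dl m * PV - dl m * t| := by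
      have e : ((TQ x z m).card : ℝ) - dl m * t =
        (((TQ x z m).card : ℝ) - dl m * PV) + (dl m * PV - dl m * t) := by ring
      rw [e]
      exact abs_add_le _ _
    have h7 : ε₁ * PV ≤ ε₁ * (2 * t) := mul_le_mul_of_nonneg_left htPV hε₁0.le
    have h8 : 20 * ε₁ * t ≤ ε * t := mul_le_mul_of_nonneg_right hε₁ε ht0.le
    have h9 : 0 < ε₁ * t := by positivity
    linarith
  · intro m a hm hmr hac ha1
    have hOF3 := OF_three m
    have hOFsub : OF m ⊆ OP z := by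
      intro q hq
      have hq' := (mem_filter.1 hq).1
      have hqp := Nat.prime_of_mem_primeFactors hq'
      have hqm := Nat.le_of_dvd hm (Nat.dvd_of_mem_primeFactors hq')
      have hmz : m ≤ z := by
        have : (m : ℝ) ≤ z := hmr.trans S.hLBz
        exact_mod_cast this
      exact mem_OP.2 ⟨hqp, hOF3 q hq, hqm.trans hmz⟩
    rw [NS_sdiff x z m a ha1]
    have hPz : ∀ p ∈ OP z \ OF m, p.Prime ∧ 3 ≤ p ∧ p ≤ z := fun p hp => mem_OP.1 (mem_sdiff.1 hp).1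
    have hPm : ∀ p ∈ OP z \ OF m, ¬ p ∣ m := by
      intro p hp hpm
      apply (mem_sdiff.1 hp).2
      unfold OF
      rw [mem_filter, Nat.mem_primeFactors]
      exact ⟨⟨(hPz p hp).1, hpm, by omega⟩, (hPz p hp).2.1⟩
    have h1 := hsc z S.hz2 (OP z \ OF m) hPz m hm hPm a hac x
    have hmain : (piN x : ℝ) / (Nat.totient m : ℝ) * VP (OP z \ OF m) = cl m * PV := by
      rw [VP_sdiff (OP z) (OF m) hOFsub hOF3, hPV]
      unfold cl
      have h2 : (0 : ℝ) < Nat.totient m := by exact_mod_cast Nat.totient_pos.2 hm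
      have h3 := VP_pos (OF m) hOF3
      field_simp
    rw [hmain] at h1
    have hcl0 := cl_pos m hm
    have hclge := cl_ge m hm
    have hm0 : (0 : ℝ) < m := by exact_mod_cast hm
    have hE : ((Nat.log 2 z : ℝ) + 2) * ErS x m z B₃ (OP z \ OF m) ≤ ε₁ * (cl m * PV) := by
      have h2 : ((Nat.log 2 z : ℝ) + 2) * ErS x m z B₃ (OP z \ OF m) ≤ (4 * L) * SQ := by
        refine le_trans ?_ (hsub m B₃ (by omega) hmr)
        apply mul_le_mul_of_nonneg_left _ hlog20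
        exact ErS_le x m z B₃ hm _ fun p hp => (hPz p hp).1
      have h3 := hm4 m hmr
      have h4 : (4 * L) * SQ ≤ 1 / (m : ℝ) * (ε₁ * PV) := by
        rw [one_div, ← div_eq_inv_mul, le_div_iff₀ hm0]
        linarith
      have h5 : 1 / (m : ℝ) * (ε₁ * PV) ≤ cl m * (ε₁ * PV) :=
        mul_le_mul_of_nonneg_right hclge (by positivity)
      calc _ ≤ (4 * L) * SQ := h2
        _ ≤ cl m * (ε₁ * PV) := h4.trans h5
        _ = _ := by ring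
    have h4 : |((NS x m a (OP z \ OF m)).card : ℝ) - cl m * PV| ≤ 2 * (ε₁ * (cl m * PV)) := by
      refine h1.trans ?_
      linarith
    have h5 : |cl m * PV - cl m * t| ≤ 2 * (ε₁ * (cl m * PV)) := by
      rw [← mul_sub, abs_mul, abs_of_pos hcl0, abs_sub_comm]
      calc cl m * |t - PV| ≤ cl m * (2 * ε₁ * PV) := mul_le_mul_of_nonneg_left hT' hcl0.le
        _ = _ := by ring
    have h6 : |((NS x m a (OP z \ OF m)).card : ℝ) - cl m * t| ≤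
        |((NS x m a (OP z \ OF m)).card : ℝ) - cl m * PV| + |cl m * PV - cl m * t| := by
      have e : ((NS x m a (OP z \ OF m)).card : ℝ) - cl m * t =
        (((NS x m a (OP z \ OF m)).card : ℝ) - cl m * PV) + (cl m * PV - cl m * t) := by ring
      rw [e]
      exact abs_add_le _ _
    have h7 : ε₁ * (cl m * PV) ≤ ε₁ * (cl m * (2 * t)) := by
      apply mul_le_mul_of_nonneg_left _ hε₁0.le
      exact mul_le_mul_of_nonneg_left htPV hcl0.le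
    have h8 : 20 * ε₁ * (cl m * t) ≤ ε * (cl m * t) :=
      mul_le_mul_of_nonneg_right hε₁ε (by positivity)
    have h9 : 0 < ε₁ * (cl m * t) := by positivity
    linarith

end Pool.Agent.Y855
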