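import Pool.Agent.Y855.A15

/-!
Cosets of finitely generated groups: all but few elements are good.
-/

set_option autoImplicit false

open Finset

namespace Pool.Agent.Y855

open Pool.Agent.H442R2.KF

theorem ev_exp2 (r : ℕ) (hr : 1 ≤ r) (k : ℕ) (C : ℝ) : ∃ L₀ : ℝ, ∀ L : ℝ, L₀ ≤ L →
    C * L ^ k ≤ Real.exp (L / (2 * r)) := by
  have hr0 : (0 : ℝ) < r := by exact_mod_cast hr
  have h2 := (isLittleO_pow_exp_pos_mul_atTop (k := k) (b := 1 / (2 * (r : ℝ)))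
    (by positivity)).bound (show (0 : ℝ) < 1 / (|C| + 1) by positivity)
  obtain ⟨L₀, h3⟩ := Filter.eventually_atTop.1 (h2.and (Filter.eventually_ge_atTop 0))
  refine ⟨L₀, fun t ht => ?_⟩
  obtain ⟨ht1, ht0⟩ := h3 t ht
  rw [Real.norm_of_nonneg (by positivity), Real.norm_of_nonneg (Real.exp_pos _).le] at ht1
  have h3 : (|C| + 1) * t ^ k ≤ Real.exp (1 / (2 * (r : ℝ)) * t) := by
    have h4 : (0 : ℝ) < |C| + 1 := by positivity
    calc (|C| + 1) * t ^ k ≤ (|C| + 1) * (1 / (|C| + 1) * Real.exp (1 / (2 * (r : ℝ)) * t)) :=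
          mul_le_mul_of_nonneg_left ht1 h4.le
      _ = Real.exp (1 / (2 * (r : ℝ)) * t) := by field_simp
  have h5 : C * t ^ k ≤ (|C| + 1) * t ^ k := by
    apply mul_le_mul_of_nonneg_right _ (by positivity)
    have := le_abs_self C
    linarith
  have e : 1 / (2 * (r : ℝ)) * t = t / (2 * r) := by ring
  rw [e] at h3
  linarith

/-- the condition on the exponent vectors -/
def HypC {r : ℕ} (V : Finset (Fin r → ℕ)) (z h : ℕ) : Prop :=
  ∀ l : ℕ, l.Prime → z < l → ∀ u : Fin r → ZMod l, u ≠ 0 → ∀ c : ZMod l,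
    (V.filter (fun v => ∑ i, u i * (v i : ZMod l) = c)).card ≤ h

theorem HypC.pos {r : ℕ} (hr : 1 ≤ r) {V : Finset (Fin r → ℕ)} {z h : ℕ} (H : HypC V z h)
    (hV : V.Nonempty) : 1 ≤ h := by
  obtain ⟨v, hv⟩ := hV
  obtain ⟨l, hl1, hl2⟩ := Nat.exists_infinite_primes (z + 1)
  have : Fact l.Prime := ⟨hl2⟩
  have : Nonempty (Fin r) := ⟨⟨0, hr⟩⟩
  have h1 := H l hl2 (by omega) (fun _ => 1) (by
    intro h0
    have h2 := congrFun h0 (Classical.arbitrary (Fin r))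
    simp at h2) (∑ i, 1 * (v i : ZMod l))
  refine le_trans ?_ h1
  rw [Nat.one_le_iff_ne_zero, ← Nat.pos_iff_ne_zero, card_pos]
  exact ⟨v, mem_filter.2 ⟨hv, rfl⟩⟩

theorem coset_bad (ε : ℝ) (hε : 0 < ε) : ∃ K : ℝ, 1 ≤ K ∧ ∀ r : ℕ, 2 ≤ r → ∀ B : ℕ,
    ∃ x₀ : ℕ, 3 ≤ x₀ ∧ ∀ x : ℕ, x₀ ≤ x → ∀ z : ℕ, (z : ℝ) ^ K ≤ x → x ^ 2 ≤ z ^ r →
    √(Real.log x) ≤ Real.log z ∧ 120 ≤ Real.log x ∧ 0 < ((TT x z).card : ℝ) ∧
    ∃ H : ℕ, 2 ≤ H ∧ (H : ℝ) ≤ ε * (TT x z).card ∧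
    ∀ (a : Fin r → ℤ) (b : ℤ), (∀ i, a i ≠ 0 ∧ |(a i : ℝ)| ≤ (Real.log x) ^ B) → MIf a → b ≠ 0 →
    |(b : ℝ)| ≤ (Real.log x) ^ B → (∀ i, (a i).natAbs ≤ H) ∧ b.natAbs ≤ H ∧
    ∀ (V : Finset (Fin r → ℕ)) (h : ℕ), HypC V z h → (V.card) ^ (2 * r) ≤ x →
    ∃ E ⊆ V, (E.card : ℝ) ≤ K * (h * (Real.log x / Real.log z)) ∧ ∀ v ∈ V \ E,
      ((Bad (nv a b v) x z H).card : ℝ) ≤ ε * (TT x z).card := by
  classical
  obtain ⟨K₀, hK₀, hcore⟩ := core 1 one_pos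
  obtain ⟨K, hK⟩ : ∃ K : ℝ, K = K₀ + 2 / ε := ⟨_, rfl⟩
  have h2ε : 0 < 2 / ε := by positivity
  have hK1 : 1 ≤ K := by linarith
  refine ⟨K, hK1, fun r hr B => ?_⟩
  obtain ⟨x₁, hx₁3, hx₁⟩ := hcore B
  obtain ⟨ε', hε'⟩ : ∃ ε' : ℝ, ε' = min ε 1 := ⟨_, rfl⟩
  have hε'0 : 0 < ε' := by rw [hε']; exact lt_min hε one_pos
  have hε'1 : ε' ≤ 1 := by rw [hε']; exact min_le_right _ _
  have hε'ε : ε' ≤ ε := by rw [hε']; exact min_le_left _ _
  have hr0 : (0 : ℝ) < r := by exact_mod_cast (by omega : 0 < r)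
  have hr2 : (2 : ℝ) ≤ r := by exact_mod_cast hr
  obtain ⟨L₀, hL₀⟩ := ev_exp2 r (by omega) ((B + 1) * (2 * r) + 2) (K₀ / ε')
  obtain ⟨L₁, hL₁⟩ : ∃ L₁ : ℝ, L₁ = max (max L₀ 200) ((r : ℝ) ^ 2) := ⟨_, rfl⟩
  refine ⟨max x₁ ⌈Real.exp L₁⌉₊, hx₁3.trans (le_max_left _ _), ?_⟩
  intro x hx z hzK hzr
  have hxx₁ : x₁ ≤ x := (le_max_left _ _).trans hx
  have hx3 : 3 ≤ x := hx₁3.trans hxx₁
  have hx3r : (3 : ℝ) ≤ x := by exact_mod_cast hx3
  have hx0 : (0 : ℝ) < x := by linarith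
  obtain ⟨L, hL⟩ : ∃ L : ℝ, L = Real.log x := ⟨_, rfl⟩
  have hLL₁ : L₁ ≤ L := by
    rw [hL, Real.le_log_iff_exp_le hx0]
    have h1 := Nat.le_ceil (Real.exp L₁)
    have h2 : ((⌈Real.exp L₁⌉₊ : ℕ) : ℝ) ≤ x := by exact_mod_cast (le_max_right _ _).trans hx
    linarith
  have hL200 : 200 ≤ L := by
    rw [hL₁] at hLL₁
    exact ((le_max_right _ _).trans (le_max_left _ _)).trans hLL₁
  have hLL₀ : L₀ ≤ L := by
    rw [hL₁] at hLL₁
    exact ((le_max_left _ _).trans (le_max_left _ _)).trans hLL₁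
  have hLr : (r : ℝ) ^ 2 ≤ L := by
    rw [hL₁] at hLL₁
    exact (le_max_right _ _).trans hLL₁
  have hL0 : 0 < L := by linarith
  have hL1 : 1 ≤ L := by linarith
  have hz1 : 1 ≤ z := by
    by_contra hcon
    have hz0 : z = 0 := by omega
    rw [hz0, zero_pow (by omega)] at hzr
    have : 0 < x ^ 2 := by positivity
    omega
  have hz1r : (1 : ℝ) ≤ z := by exact_mod_cast hz1
  obtain ⟨ℓ, hℓ⟩ : ∃ ℓ : ℝ, ℓ = Real.log z := ⟨_, rfl⟩
  have hrl : 2 * L ≤ r * ℓ := by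
    have h1 : ((x : ℝ)) ^ 2 ≤ (z : ℝ) ^ r := by exact_mod_cast hzr
    have h2 := Real.log_le_log (by positivity) h1
    rw [Real.log_pow, Real.log_pow, ← hL, ← hℓ] at h2
    push_cast at h2
    exact h2
  have hsL : √L ≤ ℓ := by
    have h1 : (r : ℝ) ≤ √L := by
      rw [Real.le_sqrt hr0.le hL0.le]
      exact hLr
    have h2 : √L * √L = L := Real.mul_self_sqrt hL0.le
    have h3 : 0 ≤ √L := Real.sqrt_nonneg L
    by_contra hcon
    push Not at hcon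
    have h4 : (r : ℝ) * ℓ < √L * √L ∨ ℓ ≤ 0 := by
      rcases le_or_gt ℓ 0 with h | h
      · exact Or.inr h
      · left
        calc (r : ℝ) * ℓ < r * √L := mul_lt_mul_of_pos_left hcon hr0
          _ ≤ √L * √L := mul_le_mul_of_nonneg_right h1 h3
    rcases h4 with h4 | h4
    · linarith
    · nlinarith
  have hzK₀ : (z : ℝ) ^ K₀ ≤ x :=
    (Real.rpow_le_rpow_of_exponent_le hz1r (by rw [hK]; linarith)).trans hzK
  obtain ⟨h120, hcx⟩ := hx₁ x hxx₁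
  obtain ⟨hz2, hLBz, ht0, htlow, -, -⟩ := hcx z (by rw [← hL, ← hℓ]; exact hsL) hzK₀
  rw [← hL, ← hℓ] at htlow ⊢
  rw [← hL] at h120
  obtain ⟨t, ht⟩ : ∃ t : ℝ, t = ((TT x z).card : ℝ) := ⟨_, rfl⟩
  rw [← ht] at ht0 htlow ⊢
  have hℓ1 : 1 ≤ ℓ := by
    have : (1 : ℝ) ≤ √L := by rw [Real.one_le_sqrt]; linarith
    linarith
  have hℓ0 : 0 < ℓ := by linarith
  have hℓL : ℓ ≤ L := by
    have h1 := Real.log_le_log (by positivity) hzK₀
    rw [Real.log_rpow (by linarith), ← hL, ← hℓ] at h1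
    have : ℓ ≤ K₀ * ℓ := le_mul_of_one_le_left hℓ0.le hK₀
    linarith
  have hratio : 1 ≤ L / ℓ := by rw [le_div_iff₀ hℓ0]; linarith
  -- lower bound for `t`
  have htx : x / (K₀ * L ^ 2) ≤ t := by
    refine le_trans ?_ htlow
    apply div_le_div_of_nonneg_left hx0.le (by positivity)
    apply mul_le_mul_of_nonneg_left _ (by linarith)
    rw [sq]
    exact mul_le_mul_of_nonneg_left hℓL hL0.le
  have hexp := hL₀ L hLL₀
  -- the height
  obtain ⟨H, hH⟩ : ∃ H : ℕ, H = ⌊L ^ B⌋₊ + 2 := ⟨_, rfl⟩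
  have hLB1 : 1 ≤ L ^ B := one_le_pow₀ hL1
  have hHr : (H : ℝ) ≤ 3 * L ^ B := by
    rw [hH]; push_cast
    have := Nat.floor_le (by positivity : 0 ≤ L ^ B)
    linarith
  have h40 : (40 * (H : ℝ)) ≤ L ^ (B + 1) := by
    rw [pow_succ]
    have : 0 ≤ L ^ B := by positivity
    nlinarith
  have hxe : (x : ℝ) = Real.exp L := by rw [hL, Real.exp_log hx0]
  have key : (40 * (H : ℝ)) ^ (2 * r) * (x : ℝ) ^ (1 - 1 / (2 * (r : ℝ))) ≤ ε' * t := by
    have h1 : (40 * (H : ℝ)) ^ (2 * r) ≤ L ^ ((B + 1) * (2 * r)) := by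
      rw [pow_mul L (B + 1) (2 * r)]
      exact pow_le_pow_left₀ (by positivity) h40 _
    have h2 : (x : ℝ) ^ (1 - 1 / (2 * (r : ℝ))) = x * Real.exp (-(L / (2 * r))) := by
      rw [Real.rpow_sub hx0, Real.rpow_one, Real.exp_neg, ← div_eq_mul_inv]
      congr 1
      rw [Real.rpow_def_of_pos hx0, ← hL]
      congr 1
      ring
    have h3 : K₀ / ε' * L ^ ((B + 1) * (2 * r) + 2) * Real.exp (-(L / (2 * r))) ≤ 1 := by
      rw [Real.exp_neg, ← div_eq_mul_inv, div_le_one (Real.exp_pos _)]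
      exact hexp
    have h4 : ε' * (x / (K₀ * L ^ 2)) ≤ ε' * t := mul_le_mul_of_nonneg_left htx hε'0.le
    refine le_trans ?_ h4
    rw [h2]
    have hK₀0 : 0 < K₀ := by linarith
    calc (40 * (H : ℝ)) ^ (2 * r) * (x * Real.exp (-(L / (2 * r))))
        ≤ L ^ ((B + 1) * (2 * r)) * (x * Real.exp (-(L / (2 * r)))) :=
          mul_le_mul_of_nonneg_right h1 (by positivity)
      _ = (K₀ / ε' * L ^ ((B + 1) * (2 * r) + 2) * Real.exp (-(L / (2 * r)))) *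
          (ε' * (x / (K₀ * L ^ 2))) := by
            rw [pow_add]
            field_simp
      _ ≤ 1 * (ε' * (x / (K₀ * L ^ 2))) := mul_le_mul_of_nonneg_right h3 (by positivity)
      _ = _ := one_mul _
  have hx1 : (1 : ℝ) ≤ x := by linarith
  have hHt : (H : ℝ) ≤ ε * t := by
    have h1 : (H : ℝ) ≤ (40 * (H : ℝ)) ^ (2 * r) * (x : ℝ) ^ (1 - 1 / (2 * (r : ℝ))) := by
      have hH1 : (1 : ℝ) ≤ H := by
        have : 1 ≤ H := by omega
        exact_mod_cast this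
      have h2 : (40 * (H : ℝ)) ≤ (40 * (H : ℝ)) ^ (2 * r) := le_self_pow₀ (by linarith) (by omega)
      have h3 : 1 ≤ (x : ℝ) ^ (1 - 1 / (2 * (r : ℝ))) := by
        apply Real.one_le_rpow hx1
        rw [sub_nonneg, div_le_one (by positivity)]
        linarith
      have h4 : 0 ≤ (40 * (H : ℝ)) ^ (2 * r) := by positivity
      nlinarith
    have h2 : ε' * t ≤ ε * t := mul_le_mul_of_nonneg_right hε'ε ht0.le
    linarith
  refine ⟨hsL, h120, ht0, H, by omega, hHt, ?_⟩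
  intro a b ha hMI hb hbB
  have hnat : ∀ n : ℤ, |(n : ℝ)| ≤ L ^ B → n.natAbs ≤ H := by
    intro n hn
    have h1 : (n.natAbs : ℝ) ≤ L ^ B := by
      rw [Nat.cast_natAbs, Int.cast_abs]
      exact hn
    have h2 : n.natAbs ≤ ⌊L ^ B⌋₊ := Nat.le_floor h1
    omega
  have haH : ∀ i, (a i).natAbs ≤ H := fun i => hnat _ (ha i).2
  have hbH : b.natAbs ≤ H := hnat b hbB
  refine ⟨haH, hbH, ?_⟩
  intro V h hV hVx
  have h0 : ∀ i, a i ≠ 0 := fun i => (ha i).1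
  have hsum := coset_sum a b V x z h H hr hz2 hzr h0 hMI hb haH hbH hV
  rw [← hL, ← hℓ, ← ht] at hsum
  have hExc := Exc_real x r (by omega) hr (univ.image a) (by
      intro n hn
      obtain ⟨i, -, rfl⟩ := mem_image.1 hn
      exact h0 i) (hMI.image h0) H (by omega) (by
      intro n hn
      obtain ⟨i, -, rfl⟩ := mem_image.1 hn
      exact haH i) (by
      apply card_M _ H (by omega)
      intro n hn
      obtain ⟨i, -, rfl⟩ := mem_image.1 hn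
      exact haH i)
  have hVr : (V.card : ℝ) ≤ (x : ℝ) ^ (1 / (2 * (r : ℝ))) := by
    have h1 : ((V.card : ℝ)) ^ (2 * r) ≤ x := by exact_mod_cast hVx
    have h2 : (((V.card : ℝ)) ^ (2 * r)) ^ (1 / (2 * (r : ℝ))) ≤ (x : ℝ) ^ (1 / (2 * (r : ℝ))) :=
      Real.rpow_le_rpow (pow_nonneg (Nat.cast_nonneg _) _) h1
        (one_div_nonneg.2 (mul_nonneg zero_le_two hr0.le))
    rw [← Real.rpow_natCast, ← Real.rpow_mul (Nat.cast_nonneg _)] at h2
    have e : ((2 * r : ℕ) : ℝ) * (1 / (2 * (r : ℝ))) = 1 := by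
      rw [Nat.cast_mul, Nat.cast_ofNat, mul_one_div_cancel]
      exact (mul_pos two_pos hr0).ne'
    rw [e, Real.rpow_one] at h2
    exact h2
  have hprod : (V.card : ℝ) * ((Exc x r (univ.image a)).card : ℝ) ≤ ε' * t := by
    refine le_trans ?_ key
    calc (V.card : ℝ) * ((Exc x r (univ.image a)).card : ℝ)
        ≤ (x : ℝ) ^ (1 / (2 * (r : ℝ))) * ((40 * H) ^ (2 * r) * (x : ℝ) ^ (1 - 1 / (r : ℝ))) :=
          mul_le_mul hVr hExc (Nat.cast_nonneg _) (by positivity)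
      _ = (40 * (H : ℝ)) ^ (2 * r) * ((x : ℝ) ^ (1 / (2 * (r : ℝ))) * (x : ℝ) ^ (1 - 1 / (r : ℝ))) := by
          ring
      _ = (40 * (H : ℝ)) ^ (2 * r) * (x : ℝ) ^ (1 - 1 / (2 * (r : ℝ))) := by
          rw [← Real.rpow_add hx0]
          congr 2
          field_simp
          ring
  rcases V.eq_empty_or_nonempty with hVe | hVne
  · refine ⟨∅, empty_subset _, ?_, ?_⟩
    · rw [card_empty, Nat.cast_zero]
      have : 0 ≤ L / ℓ := by linarith
      positivity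
    · intro v hv
      rw [hVe] at hv
      simp at hv
  have hh1 : (1 : ℝ) ≤ h := by exact_mod_cast hV.pos (by omega) hVne
  refine ⟨V.filter (fun v => ε * t < ((Bad (nv a b v) x z H).card : ℝ)), filter_subset _ _, ?_, ?_⟩
  · have hhr : 1 ≤ h * (L / ℓ) := by nlinarith
    have h1 : ((V.filter (fun v => ε * t < ((Bad (nv a b v) x z H).card : ℝ))).card : ℝ) *
        (ε * t) ≤ 2 * (h * (L / ℓ)) * t := by
      have h2 : ε' * t ≤ (h * (L / ℓ)) * t := mul_le_mul_of_nonneg_right (by linarith) ht0.le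
      have h3 : ∑ v ∈ V, ((Bad (nv a b v) x z H).card : ℝ) ≤ 2 * (h * (L / ℓ)) * t := by linarith
      refine le_trans ?_ h3
      rw [← nsmul_eq_mul, ← sum_const]
      calc ∑ _n ∈ V.filter (fun v => ε * t < ((Bad (nv a b v) x z H).card : ℝ)), ε * t
          ≤ ∑ v ∈ V.filter (fun v => ε * t < ((Bad (nv a b v) x z H).card : ℝ)),
            ((Bad (nv a b v) x z H).card : ℝ) := sum_le_sum fun n hn => (mem_filter.1 hn).2.le
        _ ≤ _ := sum_le_sum_of_subset_of_nonneg (filter_subset _ _)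
            fun _ _ _ => Nat.cast_nonneg _
    have h2 : ((V.filter (fun v => ε * t < ((Bad (nv a b v) x z H).card : ℝ))).card : ℝ) ≤
        2 / ε * (h * (L / ℓ)) := by
      have h3 : 0 < ε * t := by positivity
      rw [← mul_le_mul_iff_left₀ h3]
      refine h1.trans (le_of_eq ?_)
      field_simp
    refine h2.trans (mul_le_mul_of_nonneg_right ?_ (by linarith))
    rw [hK]
    linarith
  · intro v hv
    rw [mem_sdiff, mem_filter] at hv
    by_contra hcon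
    exact hv.2 ⟨hv.1, not_le.1 hcon⟩

end Pool.Agent.Y855
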