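import Pool.Agent.Y855.A16

/-!
Cosets of finitely generated groups: the density of the primitive roots.
-/

set_option autoImplicit false

open Finset

namespace Pool.Agent.Y855

open Pool.Agent.H442R2.KF

theorem order_iff' (n : ℤ) (p : ℕ) [hf : Fact p.Prime] (hp2 : 2 < p) (hpn : ¬ (p : ℤ) ∣ n) :
    orderOf (n : ZMod p) = p - 1 ↔ legendreSym p n = -1 ∧
      ¬ ∃ l : ℕ, l.Prime ∧ 3 ≤ l ∧ l ∣ p - 1 ∧ (n : ZMod p) ^ ((p - 1) / l) = 1 := by
  have hp := hf.1
  have hn0 : (n : ZMod p) ≠ 0 := by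
    intro h
    exact hpn ((ZMod.intCast_zmod_eq_zero_iff_dvd _ _).1 h)
  have hodd : Odd p := hp.odd_of_ne_two (by omega)
  have h2d : 2 ∣ p - 1 := by
    obtain ⟨t, ht⟩ := hodd
    exact ⟨t, by omega⟩
  have hp12 : (p - 1) / 2 = p / 2 := by
    obtain ⟨t, ht⟩ := hodd
    omega
  have hone : (n : ZMod p) ^ (p - 1) = 1 := ZMod.pow_card_sub_one_eq_one hn0
  have hne : (1 : ZMod p) ≠ -1 := by
    intro h
    have h3 : ((2 : ℕ) : ZMod p) = 0 := by
      push_cast
      have h4 : (1 : ZMod p) + 1 = 0 := by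
        nth_rewrite 2 [h]
        ring
      rw [← h4]; norm_num
    rw [ZMod.natCast_eq_zero_iff] at h3
    exact absurd (Nat.le_of_dvd (by norm_num) h3) (by omega)
  have hhalf : (n : ZMod p) ^ ((p - 1) / 2) = ((legendreSym p n : ℤ) : ZMod p) := by
    rw [hp12, legendreSym.eq_pow]
  have hdiv : ∀ l : ℕ, l.Prime → l ∣ p - 1 → orderOf (n : ZMod p) = p - 1 →
      (n : ZMod p) ^ ((p - 1) / l) ≠ 1 := by
    intro l hl hlp ho h
    have h1 := orderOf_dvd_of_pow_eq_one h
    rw [ho] at h1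
    have h2 : 0 < (p - 1) / l := Nat.div_pos (Nat.le_of_dvd (by omega) hlp) hl.pos
    have h3 := Nat.le_of_dvd h2 h1
    have h4 : (p - 1) / l < p - 1 := Nat.div_lt_self (by omega) hl.one_lt
    omega
  constructor
  · intro ho
    constructor
    · rcases legendreSym.eq_one_or_neg_one p hn0 with h | h
      · exfalso
        apply hdiv 2 Nat.prime_two h2d ho
        rw [hhalf, h]
        norm_num
      · exact h
    · rintro ⟨l, hl, _, hlp, h⟩
      exact hdiv l hl hlp ho h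
  · rintro ⟨h1, h2⟩
    apply orderOf_eq_of_pow_and_pow_div_prime (by omega) hone
    intro l hl hlp h
    rcases Nat.lt_or_ge l 3 with h3 | h3
    · have h4 : l = 2 := by have := hl.two_le; omega
      rw [h4, hhalf, h1] at h
      push_cast at h
      exact hne h.symm
    · exact h2 ⟨l, hl, h3, hlp, h⟩

/-- the order is `p - 1` or `(p - 1) / 2` -/
theorem order_iff3 (n : ℤ) (p : ℕ) (hp : p.Prime) (hp4 : p % 4 = 3) (hpn : ¬ (p : ℤ) ∣ n) :
    (orderOf (n : ZMod p) = p - 1 ∨ 2 * orderOf (n : ZMod p) = p - 1) ↔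
      ¬ ∃ l : ℕ, l.Prime ∧ 3 ≤ l ∧ l ∣ p - 1 ∧ (n : ZMod p) ^ ((p - 1) / l) = 1 := by
  have : Fact p.Prime := ⟨hp⟩
  have hp3 : 3 ≤ p := by have := hp.two_le; omega
  have hn0 : (n : ZMod p) ≠ 0 := by
    intro h
    exact hpn ((ZMod.intCast_zmod_eq_zero_iff_dvd _ _).1 h)
  have hone : (n : ZMod p) ^ (p - 1) = 1 := ZMod.pow_card_sub_one_eq_one hn0
  set d := orderOf (n : ZMod p) with hd
  have hdvd : d ∣ p - 1 := orderOf_dvd_of_pow_eq_one hone
  obtain ⟨e, he⟩ := hdvd
  have he0 : e ≠ 0 := by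
    intro h
    rw [h, mul_zero] at he
    omega
  have hd0 : d ≠ 0 := by
    intro h
    rw [h, zero_mul] at he
    omega
  constructor
  · intro h
    have he12 : e = 1 ∨ e = 2 := by
      rcases h with h | h
      · left
        have h1 : d * e = d * 1 := by omega
        exact Nat.eq_of_mul_eq_mul_left (Nat.pos_of_ne_zero hd0) h1
      · right
        have h1 : d * e = d * 2 := by omega
        exact Nat.eq_of_mul_eq_mul_left (Nat.pos_of_ne_zero hd0) h1
    rintro ⟨l, hl, hl3, hlp, h1⟩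
    obtain ⟨f, hf⟩ := hlp
    have h2 : (p - 1) / l = f := by rw [hf]; exact Nat.mul_div_cancel_left f hl.pos
    rw [h2] at h1
    obtain ⟨g, hg⟩ := orderOf_dvd_of_pow_eq_one h1
    rw [← hd] at hg
    -- d * e = l * d * g
    have h3 : d * e = d * (l * g) := by
      rw [← he, hf, hg]; ring
    have h4 := Nat.eq_of_mul_eq_mul_left (Nat.pos_of_ne_zero hd0) h3
    have hg0 : g ≠ 0 := by
      intro h
      rw [h, mul_zero] at h4
      exact he0 h4
    have h5 : l * 1 ≤ l * g := Nat.mul_le_mul_left l (Nat.one_le_iff_ne_zero.2 hg0)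
    omega
  · intro h
    have hnol : ∀ l : ℕ, l.Prime → l ∣ e → l = 2 := by
      intro l hl hle
      by_contra hne
      apply h
      obtain ⟨g, hg⟩ := hle
      refine ⟨l, hl, ?_, ?_, ?_⟩
      · have := hl.two_le; omega
      · rw [he, hg]; exact Dvd.intro (d * g) (by ring)
      · have h1 : (p - 1) / l = d * g := by
          rw [he, hg]
          have : d * (l * g) = l * (d * g) := by ring
          rw [this]
          exact Nat.mul_div_cancel_left _ hl.pos
        rw [h1, pow_mul, hd, pow_orderOf_eq_one, one_pow]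
    have h4 : ¬ 4 ∣ e := by
      rintro ⟨g, hg⟩
      have : p - 1 = 4 * (d * g) := by rw [he, hg]; ring
      omega
    have h5 : e = 1 ∨ e = 2 := by
      have h6 : e = 2 ^ e.primeFactorsList.length :=
        Nat.eq_prime_pow_of_unique_prime_dvd he0 (fun {d} hd1 hd2 => hnol d hd1 hd2)
      set s := e.primeFactorsList.length with hs
      have h7 : s < 2 := by
        by_contra hcon
        apply h4
        rw [h6]
        exact pow_dvd_pow 2 (by omega : 2 ≤ s)
      interval_cases s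
      · left; simpa using h6
      · right; simpa using h6
    rcases h5 with h5 | h5
    · left; rw [h5] at he; omega
    · right; rw [h5] at he; omega

theorem PR_close' (n D k : ℤ) (hn : n = D * k ^ 2) (hD : D % 4 = 1) (x z H : ℕ)
    (hnd : ∀ p : ℕ, p.Prime → H < p → ¬ (p : ℤ) ∣ n) (hH2 : 2 ≤ H) :
    |((PR n x z).card : ℝ) - (TQ x z D.natAbs).card| ≤ H + (Bad n x z H).card := by
  classical
  have h1 : PR n x z ⊆ TQ x z D.natAbs ∪ Icc 1 H := by
    intro p hp
    unfold PR at hp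
    rw [mem_filter] at hp
    have hp' := hp.1
    unfold TT at hp'
    rw [mem_filter, mem_Icc] at hp'
    rw [mem_union]
    rcases Nat.lt_or_ge H p with h | h
    · left
      unfold TQ
      rw [mem_filter]
      exact ⟨hp.1, ((order_iff n D k hn hD p hp'.2.1 (by omega) (hnd p hp'.2.1 h)).1 hp.2).1⟩
    · right
      rw [mem_Icc]
      exact ⟨hp'.1.1, h⟩
  have h2 : TQ x z D.natAbs ⊆ PR n x z ∪ (Icc 1 H ∪ Bad n x z H) := by
    intro p hp
    unfold TQ at hp
    rw [mem_filter] at hp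
    have hp' := hp.1
    unfold TT at hp'
    rw [mem_filter, mem_Icc] at hp'
    rw [mem_union, mem_union]
    rcases Nat.lt_or_ge H p with h | h
    · by_cases hb : ∃ l : ℕ, l.Prime ∧ 3 ≤ l ∧ l ∣ p - 1 ∧ (n : ZMod p) ^ ((p - 1) / l) = 1
      · right; right
        unfold Bad
        rw [mem_filter]
        exact ⟨hp.1, h, hb⟩
      · left
        unfold PR
        rw [mem_filter]
        exact ⟨hp.1, (order_iff n D k hn hD p hp'.2.1 (by omega) (hnd p hp'.2.1 h)).2 ⟨hp.2, hb⟩⟩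
    · right; left
      rw [mem_Icc]
      exact ⟨hp'.1.1, h⟩
  have c1 := (card_le_card h1).trans (card_union_le _ _)
  have c2 := (card_le_card h2).trans ((card_union_le _ _).trans
    (Nat.add_le_add_left (card_union_le _ _) _))
  rw [Nat.card_Icc] at c1 c2
  have c1' : ((PR n x z).card : ℝ) ≤ (TQ x z D.natAbs).card + H := by
    have : (PR n x z).card ≤ (TQ x z D.natAbs).card + H := by omega
    exact_mod_cast this
  have c2' : ((TQ x z D.natAbs).card : ℝ) ≤ (PR n x z).card + (H + (Bad n x z H).card) := by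
    have : (TQ x z D.natAbs).card ≤ (PR n x z).card + (H + (Bad n x z H).card) := by omega
    exact_mod_cast this
  have : (0 : ℝ) ≤ (Bad n x z H).card := Nat.cast_nonneg _
  rw [abs_le]
  constructor <;> linarith

theorem Dbound {r : ℕ} (a : Fin r → ℤ) (b : ℤ) (v : Fin r → ℕ) (D k : ℤ) (hD : Squarefree D)
    (h0 : ∀ i, a i ≠ 0) (hb : b ≠ 0) (h : nv a b v = D * k ^ 2) :
    D.natAbs ≤ b.natAbs * ∏ i, (a i).natAbs := by
  have hDn : Squarefree D.natAbs := Int.squarefree_natAbs.2 hD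
  have h1 : ∏ q ∈ D.natAbs.primeFactors, q = D.natAbs := Nat.prod_primeFactors_of_squarefree hDn
  have h2 : ∏ q ∈ D.natAbs.primeFactors, q ∣ b.natAbs * ∏ i, (a i).natAbs := by
    apply Finset.prod_primes_dvd
    · intro q hq
      exact (Nat.prime_of_mem_primeFactors hq).prime
    · intro q hq
      have hqp := Nat.prime_of_mem_primeFactors hq
      have hqi : Prime (q : ℤ) := Nat.prime_iff_prime_int.1 hqp
      have h3 : (q : ℤ) ∣ nv a b v := by
        rw [h]
        exact (Int.natCast_dvd.2 (Nat.dvd_of_mem_primeFactors hq)).mul_right _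
      unfold nv at h3
      rcases hqi.dvd_or_dvd h3 with h4 | h4
      · exact (Int.natCast_dvd.1 h4).mul_right _
      · obtain ⟨i, -, h5⟩ := (Prime.dvd_finsetProd_iff hqi _).1 h4
        have h6 := hqi.dvd_of_dvd_pow h5
        exact ((Int.natCast_dvd.1 h6).trans (dvd_prod_of_mem (fun i => (a i).natAbs)
          (mem_univ i))).mul_left _
  rw [h1] at h2
  refine Nat.le_of_dvd ?_ h2
  apply Nat.mul_pos (Int.natAbs_pos.2 hb)
  exact prod_pos fun i _ => Int.natAbs_pos.2 (h0 i)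

theorem Dbound' {r : ℕ} (a : Fin r → ℤ) (b : ℤ) (v : Fin r → ℕ) (D k : ℤ) (hD : Squarefree D)
    (B : ℕ) (L : ℝ)
    (h0 : ∀ i, a i ≠ 0 ∧ |(a i : ℝ)| ≤ L ^ B) (hb : b ≠ 0) (hbB : |(b : ℝ)| ≤ L ^ B)
    (h : nv a b v = D * k ^ 2) : (D.natAbs : ℝ) ≤ L ^ (B * (r + 1)) := by
  have h1 := Dbound a b v D k hD (fun i => (h0 i).1) hb h
  have h2 : (D.natAbs : ℝ) ≤ (b.natAbs : ℝ) * ∏ i, ((a i).natAbs : ℝ) := by exact_mod_cast h1
  have h3 : ∀ n : ℤ, |(n : ℝ)| ≤ L ^ B → (n.natAbs : ℝ) ≤ L ^ B := by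
    intro n hn
    rw [Nat.cast_natAbs, Int.cast_abs]
    exact hn
  refine h2.trans ?_
  calc (b.natAbs : ℝ) * ∏ i, ((a i).natAbs : ℝ) ≤ L ^ B * ∏ _i : Fin r, L ^ B := by
        apply mul_le_mul (h3 b hbB) _ (prod_nonneg fun i _ => Nat.cast_nonneg _)
          ((abs_nonneg _).trans hbB)
        exact prod_le_prod (fun i _ => Nat.cast_nonneg _) fun i _ => h3 _ (h0 i).2
    _ = L ^ (B * (r + 1)) := by
        rw [prod_const, card_univ, Fintype.card_fin, ← pow_mul, ← pow_add]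
        congr 1
        ring

/-- **Cosets, squarefree part `1 mod 4`** -/
theorem cosetA (ε : ℝ) (hε : 0 < ε) : ∃ K : ℝ, 1 ≤ K ∧ ∀ r : ℕ, 2 ≤ r → ∀ B : ℕ,
    ∃ x₀ : ℕ, ∀ x : ℕ, x₀ ≤ x → ∀ z : ℕ, (z : ℝ) ^ K ≤ x → x ^ 2 ≤ z ^ r →
    (x : ℝ) / (K * (Real.log x * Real.log z)) ≤ ((TT x z).card : ℝ) ∧
    ∀ (a : Fin r → ℤ) (b : ℤ), (∀ i, a i ≠ 0 ∧ |(a i : ℝ)| ≤ (Real.log x) ^ B) → MIf a → b ≠ 0 →
    |(b : ℝ)| ≤ (Real.log x) ^ B →
    ∀ (V : Finset (Fin r → ℕ)) (h : ℕ), HypC V z h → (V.card) ^ (2 * r) ≤ x →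
    ∃ E ⊆ V, (E.card : ℝ) ≤ K * (h * (Real.log x / Real.log z)) ∧ ∀ v ∈ V \ E, ∀ D k : ℤ,
      Squarefree D → D % 4 = 1 → nv a b v = D * k ^ 2 →
      |((PR (nv a b v) x z).card : ℝ) - dl D.natAbs * (TT x z).card| ≤ ε * (TT x z).card := by
  classical
  obtain ⟨K₁, hK₁, h1⟩ := coset_bad (ε / 4) (by positivity)
  obtain ⟨K₂, hK₂, h2⟩ := core (ε / 4) (by positivity)
  refine ⟨max K₁ K₂, hK₁.trans (le_max_left _ _), fun r hr B => ?_⟩
  obtain ⟨x₁, hx₁, h1⟩ := h1 r hr B
  obtain ⟨x₂, hx₂, h2⟩ := h2 (B * (r + 1))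
  refine ⟨max x₁ x₂, fun x hx z hzK hzr => ?_⟩
  have hx3 : 3 ≤ x := hx₁.trans ((le_max_left _ _).trans hx)
  have hz1 : 1 ≤ z := by
    by_contra hcon
    have hz0 : z = 0 := by omega
    rw [hz0, zero_pow (by omega)] at hzr
    have : 0 < x ^ 2 := by positivity
    omega
  have hz1r : (1 : ℝ) ≤ z := by exact_mod_cast hz1
  have hzK1 : (z : ℝ) ^ K₁ ≤ x :=
    (Real.rpow_le_rpow_of_exponent_le hz1r (le_max_left _ _)).trans hzK
  have hzK2 : (z : ℝ) ^ K₂ ≤ x :=
    (Real.rpow_le_rpow_of_exponent_le hz1r (le_max_right _ _)).trans hzK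
  obtain ⟨hsq, h120, ht0, H, hH2, hHt, h1⟩ := h1 x ((le_max_left _ _).trans hx) z hzK1 hzr
  obtain ⟨-, h2⟩ := h2 x ((le_max_right _ _).trans hx)
  obtain ⟨hz2, hLBz, -, hlow, hTQ, -⟩ := h2 z hsq hzK2
  have hL0 : 0 < Real.log x := by linarith
  have hz2r : (2 : ℝ) ≤ z := by exact_mod_cast hz2
  have hℓ0 : 0 < Real.log z := Real.log_pos (by linarith)
  refine ⟨?_, ?_⟩
  · refine le_trans ?_ hlow
    apply div_le_div_of_nonneg_left (Nat.cast_nonneg _) (by positivity)
    exact mul_le_mul_of_nonneg_right (le_max_right _ _) (by positivity)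
  · intro a b ha hMI hb hbB V h hV hVx
    obtain ⟨haH, hbH, h1⟩ := h1 a b ha hMI hb hbB
    obtain ⟨E, hE, hEc, hbad⟩ := h1 V h hV hVx
    refine ⟨E, hE, hEc.trans ?_, ?_⟩
    · apply mul_le_mul_of_nonneg_right (le_max_left _ _)
      positivity
    · intro v hv D k hD hD4 hn
      have hb1 := hbad v hv
      have hnd : ∀ p : ℕ, p.Prime → H < p → ¬ (p : ℤ) ∣ nv a b v := by
        intro p hp hpH
        apply nv_dvd a b v p hp
        · intro hi
          have h3 := Nat.le_of_dvd (Int.natAbs_pos.2 hb) (Int.natCast_dvd.1 hi)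
          omega
        · intro i hi
          have h3 := Nat.le_of_dvd (Int.natAbs_pos.2 (ha i).1) (Int.natCast_dvd.1 hi)
          have h4 := haH i
          omega
      have h3 := PR_close' (nv a b v) D k hn hD4 x z H hnd hH2
      have hDr := Dbound' a b v D k hD B (Real.log x) ha hb hbB hn
      have hmOP : D.natAbs.primeFactors ⊆ OP z := by
        intro q hq
        have hqp := Nat.prime_of_mem_primeFactors hq
        have hqm := Nat.dvd_of_mem_primeFactors hq
        have hD0 : 0 < D.natAbs := Nat.pos_of_ne_zero (Int.squarefree_natAbs.2 hD).ne_zero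
        have hDz : D.natAbs ≤ z := by
          have : (D.natAbs : ℝ) ≤ z := hDr.trans hLBz
          exact_mod_cast this
        rw [mem_OP]
        refine ⟨hqp, ?_, (Nat.le_of_dvd hD0 hqm).trans hDz⟩
        rcases Nat.lt_or_ge q 3 with h | h
        · exfalso
          have h2 : q = 2 := by have := hqp.two_le; omega
          rw [h2] at hqm
          have : (2 : ℤ) ∣ D := Int.natCast_dvd.2 hqm
          omega
        · exact h
      have h4 := hTQ D.natAbs (Int.squarefree_natAbs.2 hD) hmOP hDr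
      have h5 : |((PR (nv a b v) x z).card : ℝ) - dl D.natAbs * (TT x z).card| ≤
          |((PR (nv a b v) x z).card : ℝ) - (TQ x z D.natAbs).card| +
          |((TQ x z D.natAbs).card : ℝ) - dl D.natAbs * (TT x z).card| := by
        have e : ((PR (nv a b v) x z).card : ℝ) - dl D.natAbs * (TT x z).card =
          (((PR (nv a b v) x z).card : ℝ) - (TQ x z D.natAbs).card) +
          (((TQ x z D.natAbs).card : ℝ) - dl D.natAbs * (TT x z).card) := by ring
        rw [e]
        exact abs_add_le _ _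
      linarith

end Pool.Agent.Y855
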