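import Pool.Agent.Y855.A17

/-!
Cosets of finitely generated groups: squarefree part two, and the primes `3 mod 4`.
-/

set_option autoImplicit false

open Finset

namespace Pool.Agent.Y855

open Pool.Agent.H442R2.KF

theorem NS_eq (x z m a : ℕ) : NS x m a (OP z) = (TT x z).filter (fun p => p ≡ a [MOD m]) := by
  unfold NS TT
  rw [filter_filter]
  apply filter_congr
  intro p _
  tauto

theorem OF_two_pow (s : ℕ) : OF (2 ^ s) = ∅ := by
  unfold OF
  apply filter_false_of_mem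
  intro q hq h3
  have hqp := Nat.prime_of_mem_primeFactors hq
  have h1 := hqp.dvd_of_dvd_pow (Nat.dvd_of_mem_primeFactors hq)
  have h2 := (Nat.prime_dvd_prime_iff_eq hqp Nat.prime_two).1 h1
  omega

theorem cl8 : cl 8 = 1 / 4 := by
  unfold cl
  have h1 : OF 8 = ∅ := OF_two_pow 3
  have h2 : Nat.totient 8 = 4 := by decide
  rw [h1, h2]
  unfold VP
  rw [prod_empty]
  norm_num

theorem cl4 : cl 4 = 1 / 2 := by
  unfold cl
  have h1 : OF 4 = ∅ := OF_two_pow 2
  have h2 : Nat.totient 4 = 2 := by decide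
  rw [h1, h2]
  unfold VP
  rw [prod_empty]
  norm_num

/-- the primes `3, 5` modulo `8` -/
def T35 (x z : ℕ) : Finset ℕ := (TT x z).filter (fun p => p % 8 = 3 ∨ p % 8 = 5)

theorem T35_card (x z : ℕ) : (T35 x z).card =
    (NS x 8 3 (OP z)).card + (NS x 8 5 (OP z)).card := by
  rw [NS_eq, NS_eq, ← card_union_of_disjoint]
  · congr 1
    unfold T35
    rw [← filter_or]
    rfl
  · rw [disjoint_filter]
    intro p _ h1 h2
    unfold Nat.ModEq at h1 h2
    omega

theorem PR_close2 (m : ℤ) (x z H : ℕ)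
    (hnd : ∀ p : ℕ, p.Prime → H < p → ¬ (p : ℤ) ∣ 2 * m ^ 2) (hH2 : 2 ≤ H) :
    |((PR (2 * m ^ 2) x z).card : ℝ) - (T35 x z).card| ≤ H + (Bad (2 * m ^ 2) x z H).card := by
  classical
  have hiff : ∀ p ∈ TT x z, H < p → (orderOf ((2 * m ^ 2 : ℤ) : ZMod p) = p - 1 ↔
      (p % 8 = 3 ∨ p % 8 = 5) ∧ ¬ ∃ l : ℕ, l.Prime ∧ 3 ≤ l ∧ l ∣ p - 1 ∧
        ((2 * m ^ 2 : ℤ) : ZMod p) ^ ((p - 1) / l) = 1) := by
    intro p hp hpH
    unfold TT at hp
    rw [mem_filter, mem_Icc] at hp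
    have : Fact p.Prime := ⟨hp.2.1⟩
    rw [order_iff' (2 * m ^ 2) p (by omega) (hnd p hp.2.1 hpH)]
    have hm0 : ((m : ℤ) : ZMod p) ≠ 0 := by
      intro h
      apply hnd p hp.2.1 hpH
      have h1 := (ZMod.intCast_zmod_eq_zero_iff_dvd _ _).1 h
      exact (h1.pow (by norm_num)).mul_left _
    have h2 : legendreSym p (2 * m ^ 2) = ZMod.χ₈ p := by
      rw [legendreSym.mul, legendreSym.sq_one' p hm0, mul_one, legendreSym.at_two (by omega)]
    have hodd : p % 2 = 1 := by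
      rcases hp.2.1.eq_two_or_odd with h | h
      · omega
      · exact h
    have h3 : legendreSym p (2 * m ^ 2) = -1 ↔ (p % 8 = 3 ∨ p % 8 = 5) := by
      rw [h2, ZMod.χ₈_nat_eq_if_mod_eight]
      split_ifs with h4 h5
      · omega
      · constructor
        · intro h; norm_num at h
        · intro h; omega
      · constructor
        · intro _; omega
        · intro _; rfl
    rw [h3]
  have h1 : PR (2 * m ^ 2) x z ⊆ T35 x z ∪ Icc 1 H := by
    intro p hp
    unfold PR at hp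
    rw [mem_filter] at hp
    have hp' := hp.1
    unfold TT at hp'
    rw [mem_filter, mem_Icc] at hp'
    rw [mem_union]
    rcases Nat.lt_or_ge H p with h | h
    · left
      unfold T35
      rw [mem_filter]
      exact ⟨hp.1, ((hiff p hp.1 h).1 hp.2).1⟩
    · right
      rw [mem_Icc]
      exact ⟨hp'.1.1, h⟩
  have h2 : T35 x z ⊆ PR (2 * m ^ 2) x z ∪ (Icc 1 H ∪ Bad (2 * m ^ 2) x z H) := by
    intro p hp
    unfold T35 at hp
    rw [mem_filter] at hp
    have hp' := hp.1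
    unfold TT at hp'
    rw [mem_filter, mem_Icc] at hp'
    rw [mem_union, mem_union]
    rcases Nat.lt_or_ge H p with h | h
    · by_cases hb : ∃ l : ℕ, l.Prime ∧ 3 ≤ l ∧ l ∣ p - 1 ∧
          ((2 * m ^ 2 : ℤ) : ZMod p) ^ ((p - 1) / l) = 1
      · right; right
        unfold Bad
        rw [mem_filter]
        exact ⟨hp.1, h, hb⟩
      · left
        unfold PR
        rw [mem_filter]
        exact ⟨hp.1, (hiff p hp.1 h).2 ⟨hp.2, hb⟩⟩
    · right; left
      rw [mem_Icc]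
      exact ⟨hp'.1.1, h⟩
  have c1 := (card_le_card h1).trans (card_union_le _ _)
  have c2 := (card_le_card h2).trans ((card_union_le _ _).trans
    (Nat.add_le_add_left (card_union_le _ _) _))
  rw [Nat.card_Icc] at c1 c2
  have c1' : ((PR (2 * m ^ 2) x z).card : ℝ) ≤ (T35 x z).card + H := by
    have : (PR (2 * m ^ 2) x z).card ≤ (T35 x z).card + H := by omega
    exact_mod_cast this
  have c2' : ((T35 x z).card : ℝ) ≤ (PR (2 * m ^ 2) x z).card + (H + (Bad (2 * m ^ 2) x z H).card) := by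
    have : (T35 x z).card ≤ (PR (2 * m ^ 2) x z).card + (H + (Bad (2 * m ^ 2) x z H).card) := by omega
    exact_mod_cast this
  have : (0 : ℝ) ≤ (Bad (2 * m ^ 2) x z H).card := Nat.cast_nonneg _
  rw [abs_le]
  constructor <;> linarith

theorem two_sq {r : ℕ} (a : Fin r → ℤ) (b : ℤ) (v : Fin r → ℕ) :
    nv a (2 * b ^ 2) (fun i => 2 * v i) = 2 * (nv a b v) ^ 2 := by
  unfold nv
  rw [mul_pow, ← prod_pow]
  simp_rw [← pow_mul]
  rw [mul_assoc]
  congr 2
  apply prod_congr rfl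
  intro i _
  rw [mul_comm]

theorem HypC.double {r : ℕ} {V : Finset (Fin r → ℕ)} {z h : ℕ} (hz : 2 ≤ z) (H : HypC V z h) :
    HypC (V.image (fun v i => 2 * v i)) z h := by
  intro l hl hzl u hu c
  have : Fact l.Prime := ⟨hl⟩
  have h2 : ((2 : ℕ) : ZMod l) ≠ 0 := by
    rw [Ne, ZMod.natCast_eq_zero_iff]
    intro h
    have := Nat.le_of_dvd (by norm_num) h
    omega
  have h1 := H l hl hzl (fun i => u i * ((2 : ℕ) : ZMod l)) (by
    intro h0
    apply hu
    funext i
    have h3 := congrFun h0 i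
    simp only [Pi.zero_apply] at h3 ⊢
    rcases mul_eq_zero.1 h3 with h4 | h4
    · exact h4
    · exact absurd h4 h2) c
  refine le_trans ?_ h1
  have hinj : Function.Injective (fun (v : Fin r → ℕ) (i : Fin r) => 2 * v i) := by
    intro v w h
    funext i
    have := congrFun h i
    simp only at this
    omega
  rw [filter_image, card_image_of_injective _ hinj]
  apply card_le_card
  intro v hv
  rw [mem_filter] at hv ⊢
  refine ⟨hv.1, ?_⟩
  rw [← hv.2]
  apply sum_congr rfl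
  intro i _
  push_cast
  ring

/-- **Cosets, squarefree part two** -/
theorem coset2 (ε : ℝ) (hε : 0 < ε) : ∃ K : ℝ, 1 ≤ K ∧ ∀ r : ℕ, 2 ≤ r → ∀ B : ℕ,
    ∃ x₀ : ℕ, ∀ x : ℕ, x₀ ≤ x → ∀ z : ℕ, (z : ℝ) ^ K ≤ x → x ^ 2 ≤ z ^ r →
    (x : ℝ) / (K * (Real.log x * Real.log z)) ≤ ((TT x z).card : ℝ) ∧
    ∀ (a : Fin r → ℤ) (b : ℤ), (∀ i, a i ≠ 0 ∧ |(a i : ℝ)| ≤ (Real.log x) ^ B) → MIf a → b ≠ 0 →
    |(b : ℝ)| ≤ (Real.log x) ^ B →
    ∀ (V : Finset (Fin r → ℕ)) (h : ℕ), HypC V z h → (V.card) ^ (2 * r) ≤ x →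
    ∃ E ⊆ V, (E.card : ℝ) ≤ K * (h * (Real.log x / Real.log z)) ∧ ∀ v ∈ V \ E,
      |((PR (2 * (nv a b v) ^ 2) x z).card : ℝ) - 1 / 2 * (TT x z).card| ≤ ε * (TT x z).card := by
  classical
  obtain ⟨K₁, hK₁, h1⟩ := coset_bad (ε / 4) (by positivity)
  obtain ⟨K₂, hK₂, h2⟩ := core (ε / 4) (by positivity)
  refine ⟨max K₁ K₂, hK₁.trans (le_max_left _ _), fun r hr B => ?_⟩
  obtain ⟨x₁, hx₁, h1⟩ := h1 r hr (2 * B + 1)
  obtain ⟨x₂, hx₂, h2⟩ := h2 1
  refine ⟨max x₁ x₂, fun x hx z hzK hzr => ?_⟩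
  have hx3 : 3 ≤ x := hx₁.trans ((le_max_left _ _).trans hx)
  have hz1 : 1 ≤ z := by
    by_contra hcon
    have hz0 : z = 0 := by omega
    rw [hz0, zero_pow (by omega)] at hzr
    have : 0 < x ^ 2 := by positivity
    omega
  have hz1r : (1 : ℝ) ≤ z := by exact_mod_cast hz1
  have hzK1 : (z : ℝ) ^ K₁ ≤ x :=
    (Real.rpow_le_rpow_of_exponent_le hz1r (le_max_left _ _)).trans hzK
  have hzK2 : (z : ℝ) ^ K₂ ≤ x :=
    (Real.rpow_le_rpow_of_exponent_le hz1r (le_max_right _ _)).trans hzK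
  obtain ⟨hsq, h120, ht0, H, hH2, hHt, h1⟩ := h1 x ((le_max_left _ _).trans hx) z hzK1 hzr
  obtain ⟨-, h2⟩ := h2 x ((le_max_right _ _).trans hx)
  obtain ⟨hz2, hLBz, -, hlow, -, hNS⟩ := h2 z hsq hzK2
  have hL0 : 0 < Real.log x := by linarith
  have hL1 : 1 ≤ Real.log x := by linarith
  have hz2r : (2 : ℝ) ≤ z := by exact_mod_cast hz2
  have hℓ0 : 0 < Real.log z := Real.log_pos (by linarith)
  have h35 : |((T35 x z).card : ℝ) - 1 / 2 * (TT x z).card| ≤ ε / 4 * (TT x z).card := by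
    have h8 : ((8 : ℕ) : ℝ) ≤ Real.log x ^ 1 := by
      push_cast
      linarith
    have hcond : ∀ a : ℕ, ∀ q ∈ (8 : ℕ).primeFactors, 3 ≤ q → a % q ≠ 1 := by
      intro a q hq hq3
      exfalso
      have : q ∈ OF 8 := mem_filter.2 ⟨hq, hq3⟩
      rw [show OF 8 = ∅ from OF_two_pow 3] at this
      simp at this
    have e3 := hNS 8 3 (by norm_num) h8 (by decide) (hcond 3)
    have e5 := hNS 8 5 (by norm_num) h8 (by decide) (hcond 5)
    rw [cl8] at e3 e5
    rw [T35_card]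
    push_cast
    rw [abs_le] at e3 e5 ⊢
    constructor <;> linarith [e3.1, e3.2, e5.1, e5.2]
  refine ⟨?_, ?_⟩
  · refine le_trans ?_ hlow
    apply div_le_div_of_nonneg_left (Nat.cast_nonneg _) (by positivity)
    exact mul_le_mul_of_nonneg_right (le_max_right _ _) (by positivity)
  · intro a b ha hMI hb hbB V h hV hVx
    have hLBB : Real.log x ^ B ≤ Real.log x ^ (2 * B + 1) := pow_le_pow_right₀ hL1 (by omega)
    have hb2 : |((2 * b ^ 2 : ℤ) : ℝ)| ≤ Real.log x ^ (2 * B + 1) := by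
      push_cast
      rw [abs_mul, abs_pow, abs_two]
      have e1 : |(b : ℝ)| ^ 2 ≤ (Real.log x ^ B) ^ 2 := pow_le_pow_left₀ (abs_nonneg _) hbB 2
      have e2 : Real.log x ^ (2 * B + 1) = (Real.log x ^ B) ^ 2 * Real.log x := by ring
      rw [e2]
      have e3 : 0 ≤ (Real.log x ^ B) ^ 2 := by positivity
      nlinarith
    obtain ⟨haH, hbH, h1⟩ := h1 a (2 * b ^ 2) (fun i => ⟨(ha i).1, (ha i).2.trans hLBB⟩) hMI
      (by positivity) hb2
    have hinj : Function.Injective (fun (v : Fin r → ℕ) (i : Fin r) => 2 * v i) := by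
      intro v w h
      funext i
      have := congrFun h i
      simp only at this
      omega
    obtain ⟨E', hE', hEc, hbad⟩ := h1 (V.image (fun v i => 2 * v i)) h (hV.double hz2) (by
      rw [card_image_of_injective _ hinj]
      exact hVx)
    refine ⟨V.filter (fun v => (fun i => 2 * v i) ∈ E'), filter_subset _ _, ?_, ?_⟩
    · have h3 : ((V.filter (fun v => (fun i => 2 * v i) ∈ E')).card : ℝ) ≤ E'.card := by
        have h4 : (V.filter (fun v => (fun i => 2 * v i) ∈ E')).card ≤ E'.card := by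
          rw [← card_image_of_injective _ hinj]
          apply card_le_card
          intro w hw
          rw [mem_image] at hw
          obtain ⟨v, hv, rfl⟩ := hw
          exact (mem_filter.1 hv).2
        exact_mod_cast h4
      refine h3.trans (hEc.trans ?_)
      apply mul_le_mul_of_nonneg_right (le_max_left _ _)
      positivity
    · intro v hv
      rw [mem_sdiff, mem_filter, not_and] at hv
      have hb1 := hbad (fun i => 2 * v i) (mem_sdiff.2 ⟨mem_image.2 ⟨v, hv.1, rfl⟩, hv.2 hv.1⟩)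
      rw [two_sq] at hb1
      have hnd : ∀ p : ℕ, p.Prime → H < p → ¬ (p : ℤ) ∣ 2 * (nv a b v) ^ 2 := by
        intro p hp hpH
        rw [← two_sq]
        apply nv_dvd _ _ _ p hp
        · intro hi
          have h3 := Nat.le_of_dvd (Int.natAbs_pos.2 (by positivity)) (Int.natCast_dvd.1 hi)
          omega
        · intro i hi
          have h3 := Nat.le_of_dvd (Int.natAbs_pos.2 (ha i).1) (Int.natCast_dvd.1 hi)
          have h4 := haH i
          omega
      have h3 := PR_close2 (nv a b v) x z H hnd hH2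
      have h5 : |((PR (2 * (nv a b v) ^ 2) x z).card : ℝ) - 1 / 2 * (TT x z).card| ≤
          |((PR (2 * (nv a b v) ^ 2) x z).card : ℝ) - (T35 x z).card| +
          |((T35 x z).card : ℝ) - 1 / 2 * (TT x z).card| := by
        have e : ((PR (2 * (nv a b v) ^ 2) x z).card : ℝ) - 1 / 2 * (TT x z).card =
          (((PR (2 * (nv a b v) ^ 2) x z).card : ℝ) - (T35 x z).card) +
          (((T35 x z).card : ℝ) - 1 / 2 * (TT x z).card) := by ring
        rw [e]
        exact abs_add_le _ _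
      linarith

/-- the sifted primes `3 mod 4` -/
def T3 (x z : ℕ) : Finset ℕ := (TT x z).filter (fun p => p % 4 = 3)

open Classical in
/-- the admissible ones for the base `n` -/
noncomputable def Adm (n : ℤ) (x z : ℕ) : Finset ℕ :=
  (T3 x z).filter (fun p => orderOf (n : ZMod p) = p - 1 ∨ 2 * orderOf (n : ZMod p) = p - 1)

/-- **Cosets, primes `3 mod 4`** -/
theorem coset3 (ε : ℝ) (hε : 0 < ε) : ∃ K : ℝ, 1 ≤ K ∧ ∀ r : ℕ, 2 ≤ r → ∀ B : ℕ,
    ∃ x₀ : ℕ, ∀ x : ℕ, x₀ ≤ x → ∀ z : ℕ, (z : ℝ) ^ K ≤ x → x ^ 2 ≤ z ^ r →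
    (x : ℝ) / (K * (Real.log x * Real.log z)) ≤ ((T3 x z).card : ℝ) ∧
    ∀ (a : Fin r → ℤ) (b : ℤ), (∀ i, a i ≠ 0 ∧ |(a i : ℝ)| ≤ (Real.log x) ^ B) → MIf a → b ≠ 0 →
    |(b : ℝ)| ≤ (Real.log x) ^ B →
    ∀ (V : Finset (Fin r → ℕ)) (h : ℕ), HypC V z h → (V.card) ^ (2 * r) ≤ x →
    ∃ E ⊆ V, (E.card : ℝ) ≤ K * (h * (Real.log x / Real.log z)) ∧ ∀ v ∈ V \ E,
      (1 - ε) * (T3 x z).card ≤ ((Adm (nv a b v) x z).card : ℝ) := by
  classical
  obtain ⟨K₁, hK₁, h1⟩ := coset_bad (ε / 8) (by positivity)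
  obtain ⟨K₂, hK₂, h2⟩ := core (1 / 2) (by norm_num)
  obtain ⟨K, hK⟩ : ∃ K : ℝ, K = max K₁ (4 * K₂) := ⟨_, rfl⟩
  have hKK₁ : K₁ ≤ K := by rw [hK]; exact le_max_left _ _
  have hKK₂ : 4 * K₂ ≤ K := by rw [hK]; exact le_max_right _ _
  refine ⟨K, hK₁.trans hKK₁, fun r hr B => ?_⟩
  obtain ⟨x₁, hx₁, h1⟩ := h1 r hr B
  obtain ⟨x₂, hx₂, h2⟩ := h2 1
  refine ⟨max x₁ x₂, fun x hx z hzK hzr => ?_⟩
  have hx3 : 3 ≤ x := hx₁.trans ((le_max_left _ _).trans hx)
  have hz1 : 1 ≤ z := by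
    by_contra hcon
    have hz0 : z = 0 := by omega
    rw [hz0, zero_pow (by omega)] at hzr
    have : 0 < x ^ 2 := by positivity
    omega
  have hz1r : (1 : ℝ) ≤ z := by exact_mod_cast hz1
  have hzK1 : (z : ℝ) ^ K₁ ≤ x :=
    (Real.rpow_le_rpow_of_exponent_le hz1r hKK₁).trans hzK
  have hzK2 : (z : ℝ) ^ K₂ ≤ x :=
    (Real.rpow_le_rpow_of_exponent_le hz1r (by linarith)).trans hzK
  obtain ⟨hsq, h120, ht0, H, hH2, hHt, h1⟩ := h1 x ((le_max_left _ _).trans hx) z hzK1 hzr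
  obtain ⟨-, h2⟩ := h2 x ((le_max_right _ _).trans hx)
  obtain ⟨hz2, hLBz, -, hlow, -, hNS⟩ := h2 z hsq hzK2
  have hL0 : 0 < Real.log x := by linarith
  have hz2r : (2 : ℝ) ≤ z := by exact_mod_cast hz2
  have hℓ0 : 0 < Real.log z := Real.log_pos (by linarith)
  have hT3 : (TT x z).card ≤ 4 * ((T3 x z).card : ℝ) := by
    have h8 : ((4 : ℕ) : ℝ) ≤ Real.log x ^ 1 := by
      push_cast
      linarith
    have hcond : ∀ q ∈ (4 : ℕ).primeFactors, 3 ≤ q → 3 % q ≠ 1 := by
      intro q hq hq3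
      exfalso
      have : q ∈ OF 4 := mem_filter.2 ⟨hq, hq3⟩
      rw [show OF 4 = ∅ from OF_two_pow 2] at this
      simp at this
    have e3 := hNS 4 3 (by norm_num) h8 (by decide) hcond
    rw [cl4, NS_eq] at e3
    have e4 : (TT x z).filter (fun p => p ≡ 3 [MOD 4]) = T3 x z := rfl
    rw [e4] at e3
    rw [abs_le] at e3
    linarith [e3.1]
  have hmono : (0 : ℝ) ≤ (T3 x z).card := Nat.cast_nonneg _
  refine ⟨?_, ?_⟩
  · have h3 : (x : ℝ) / (K * (Real.log x * Real.log z)) ≤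
        1 / 4 * (x / (K₂ * (Real.log x * Real.log z))) := by
      have h4 : (x : ℝ) / (K * (Real.log x * Real.log z)) ≤
          x / (4 * K₂ * (Real.log x * Real.log z)) := by
        apply div_le_div_of_nonneg_left (Nat.cast_nonneg _) (by positivity)
        exact mul_le_mul_of_nonneg_right hKK₂ (by positivity)
      refine h4.trans (le_of_eq ?_)
      field_simp
    linarith
  · intro a b ha hMI hb hbB V h hV hVx
    obtain ⟨haH, hbH, h1⟩ := h1 a b ha hMI hb hbB
    obtain ⟨E, hE, hEc, hbad⟩ := h1 V h hV hVx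
    refine ⟨E, hE, hEc.trans ?_, ?_⟩
    · apply mul_le_mul_of_nonneg_right hKK₁
      positivity
    · intro v hv
      have hb1 := hbad v hv
      have hnd : ∀ p : ℕ, p.Prime → H < p → ¬ (p : ℤ) ∣ nv a b v := by
        intro p hp hpH
        apply nv_dvd a b v p hp
        · intro hi
          have h3 := Nat.le_of_dvd (Int.natAbs_pos.2 hb) (Int.natCast_dvd.1 hi)
          omega
        · intro i hi
          have h3 := Nat.le_of_dvd (Int.natAbs_pos.2 (ha i).1) (Int.natCast_dvd.1 hi)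
          have h4 := haH i
          omega
      have h3 : T3 x z ⊆ Adm (nv a b v) x z ∪ (Icc 1 H ∪ Bad (nv a b v) x z H) := by
        intro p hp
        have hp1 := hp
        unfold T3 at hp
        rw [mem_filter] at hp
        have hp' := hp.1
        unfold TT at hp'
        rw [mem_filter, mem_Icc] at hp'
        rw [mem_union, mem_union]
        rcases Nat.lt_or_ge H p with h | h
        · by_cases hbb : ∃ l : ℕ, l.Prime ∧ 3 ≤ l ∧ l ∣ p - 1 ∧
              (nv a b v : ZMod p) ^ ((p - 1) / l) = 1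
          · right; right
            unfold Bad
            rw [mem_filter]
            exact ⟨hp.1, h, hbb⟩
          · left
            unfold Adm
            rw [mem_filter]
            exact ⟨hp1, (order_iff3 (nv a b v) p hp'.2.1 hp.2 (hnd p hp'.2.1 h)).2 hbb⟩
        · right; left
          rw [mem_Icc]
          exact ⟨hp'.1.1, h⟩
      have c2 := (card_le_card h3).trans ((card_union_le _ _).trans
        (Nat.add_le_add_left (card_union_le _ _) _))
      rw [Nat.card_Icc] at c2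
      have c2' : ((T3 x z).card : ℝ) ≤
          (Adm (nv a b v) x z).card + (H + (Bad (nv a b v) x z H).card) := by
        have : (T3 x z).card ≤
          (Adm (nv a b v) x z).card + (H + (Bad (nv a b v) x z H).card) := by omega
        exact_mod_cast this
      have h5 : ε / 8 * (TT x z).card ≤ ε / 8 * (4 * ((T3 x z).card : ℝ)) :=
        mul_le_mul_of_nonneg_left hT3 (by positivity)
      linarith

end Pool.Agent.Y855
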