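import Pool.Agent.Y855.A2
import Pool.Agent.H442R2.KF.Bv

/-!
Primes in a residue class, sifted by the prime factors of `p - 1`.
-/

set_option autoImplicit false

open Finset

namespace Pool.Agent.Y855

open Pool.Agent.H442R2.KF

theorem Er_mod (x d a b : ℕ) (h : a ≡ b [MOD d]) : Er x d a = Er x d b := by
  unfold Er piAP
  have : (Icc 1 x).filter (fun p : ℕ => p.Prime ∧ p ≡ a [MOD d]) =
      (Icc 1 x).filter (fun p : ℕ => p.Prime ∧ p ≡ b [MOD d]) := by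
    apply filter_congr
    intro p _
    exact ⟨fun h' => ⟨h'.1, h'.2.trans h⟩, fun h' => ⟨h'.1, h'.2.trans h.symm⟩⟩
  rw [this]

theorem exists_wr (x d : ℕ) : ∃ a : ℕ, (1 ≤ d → a.Coprime d) ∧
    ∀ b : ℕ, 1 ≤ d → b.Coprime d → |Er x d b| ≤ |Er x d a| := by
  rcases Nat.eq_zero_or_pos d with rfl | hd
  · exact ⟨1, fun h => by omega, fun b h => by omega⟩
  · set s := (range (d + 1)).filter (fun a => a.Coprime d) with hs
    have hne : s.Nonempty := ⟨1, by rw [hs, mem_filter, mem_range]; exact ⟨by omega, Nat.coprime_one_left d⟩⟩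
    obtain ⟨a, ha, hmax⟩ := exists_max_image s (fun a => |Er x d a|) hne
    refine ⟨a, fun _ => (mem_filter.1 ha).2, fun b _ hb => ?_⟩
    have h1 : b % d ∈ s := by
      rw [hs, mem_filter, mem_range]
      refine ⟨(Nat.mod_lt b hd).trans (Nat.lt_succ_self d), ?_⟩
      have : Nat.gcd (b % d) d = Nat.gcd d b := (Nat.gcd_rec d b).symm
      unfold Nat.Coprime
      rw [this, Nat.gcd_comm]
      exact hb
    rw [Er_mod x d b (b % d) (Nat.mod_modEq b d).symm]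
    exact hmax _ h1

/-- the largest error for the modulus `d` -/
noncomputable def Es (x d : ℕ) : ℝ := |Er x d (exists_wr x d).choose|

theorem Es_nonneg (x d : ℕ) : 0 ≤ Es x d := abs_nonneg _

theorem le_Es (x d b : ℕ) (hd : 1 ≤ d) (hb : b.Coprime d) : |Er x d b| ≤ Es x d :=
  (exists_wr x d).choose_spec.2 b hd hb

theorem bvEs (U : ℕ) : ∃ C : ℝ, 0 < C ∧ ∀ N : ℕ, 3 ≤ N →
    ∑ d ∈ Icc 1 ⌊(N : ℝ) ^ (2 / 5 : ℝ)⌋₊, Es N d ≤ C * (N / Real.log N ^ U) := by
  obtain ⟨C, hC, h⟩ := bv (2 / 5) (by norm_num) U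
  refine ⟨C, hC, fun N hN => ?_⟩
  exact h N hN (fun d => (exists_wr N d).choose) fun d hd => (exists_wr N d).choose_spec.1 hd

/-- the sifted set in a class -/
def NS (x m a : ℕ) (P : Finset ℕ) : Finset ℕ :=
  (Icc 1 x).filter (fun p => p.Prime ∧ p ≡ a [MOD m] ∧ ∀ q ∈ P, ¬ q ∣ p - 1)

/-- the sieve density -/
noncomputable def VP (P : Finset ℕ) : ℝ := ∏ q ∈ P, (1 - 1 / ((q : ℝ) - 1))

theorem VP_pos (P : Finset ℕ) (hP : ∀ q ∈ P, 3 ≤ q) : 0 < VP P := by
  apply prod_pos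
  intro q hq
  have h3 : (3 : ℝ) ≤ q := by exact_mod_cast hP q hq
  have h4 : 1 / ((q : ℝ) - 1) ≤ 1 / 2 := one_div_le_one_div_of_le (by norm_num) (by linarith)
  linarith

theorem VP_le_one (P : Finset ℕ) (hP : ∀ q ∈ P, 3 ≤ q) : VP P ≤ 1 := by
  apply prod_le_one
  · intro q hq
    have h3 : (3 : ℝ) ≤ q := by exact_mod_cast hP q hq
    have h4 : 1 / ((q : ℝ) - 1) ≤ 1 / 2 := one_div_le_one_div_of_le (by norm_num) (by linarith)
    linarith
  · intro q hq
    have h3 : (3 : ℝ) ≤ q := by exact_mod_cast hP q hq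
    have : 0 ≤ 1 / ((q : ℝ) - 1) := by
      apply div_nonneg zero_le_one; linarith
    linarith

/-- the error sum -/
noncomputable def ErS (x m z B : ℕ) (P : Finset ℕ) : ℝ :=
  ∑ U ∈ P.powerset.filter (fun U => ∏ p ∈ U, p ≤ z ^ B), Es x (m * ∏ p ∈ U, p)

theorem ErS_nonneg (x m z B : ℕ) (P : Finset ℕ) : 0 ≤ ErS x m z B P :=
  sum_nonneg fun _ _ => Es_nonneg _ _

/-- the sieve for primes in classes -/
theorem sieve_class (ε : ℝ) (hε : 0 < ε) : ∃ B : ℕ, 1 ≤ B ∧ ∀ z : ℕ, 2 ≤ z → ∀ P : Finset ℕ,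
    (∀ p ∈ P, p.Prime ∧ 3 ≤ p ∧ p ≤ z) → ∀ m : ℕ, 1 ≤ m → (∀ p ∈ P, ¬ p ∣ m) →
    ∀ a : ℕ, a.Coprime m → ∀ x : ℕ,
    |((NS x m a P).card : ℝ) - (piN x : ℝ) / (Nat.totient m : ℝ) * VP P| ≤
      ε * ((piN x : ℝ) / (Nat.totient m : ℝ) * VP P) + (Nat.log 2 z + 2) * ErS x m z B P := by
  obtain ⟨B, hB, h⟩ := FL ε hε
  refine ⟨B, hB, ?_⟩
  intro z hz P hP m hm hPm a ha x
  set S : Finset ℕ := (Icc 1 x).filter (fun p => p.Prime ∧ p ≡ a [MOD m]) with hS
  set X : ℝ := (piN x : ℝ) / (Nat.totient m : ℝ) with hX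
  have hX0 : 0 ≤ X := by positivity
  have hm0 : (0 : ℝ) < Nat.totient m := by exact_mod_cast Nat.totient_pos.2 hm
  have hg : ∀ p ∈ P, 0 ≤ 1 / ((p : ℝ) - 1) ∧ 1 / ((p : ℝ) - 1) ≤ 1 / 2 ∧
      1 / ((p : ℝ) - 1) ≤ 2 / (p : ℝ) := by
    intro p hp
    have h3 : (3 : ℝ) ≤ p := by exact_mod_cast (hP p hp).2.1
    refine ⟨by apply div_nonneg zero_le_one; linarith,
      one_div_le_one_div_of_le (by norm_num) (by linarith), ?_⟩
    rw [div_le_div_iff₀ (by linarith) (by linarith)]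
    linarith
  have h1 := h z hz P (fun p hp => ⟨(hP p hp).1, (hP p hp).2.2⟩) (fun p => 1 / ((p : ℝ) - 1)) hg
    S (fun p => p - 1) X hX0
  have e1 : S.filter (fun ω => ∀ p ∈ P, ¬ p ∣ ω - 1) = NS x m a P := by
    rw [hS, filter_filter]
    unfold NS
    apply filter_congr
    intro p _
    tauto
  rw [e1] at h1
  refine h1.trans ?_
  apply add_le_add le_rfl
  apply mul_le_mul_of_nonneg_left _ (by positivity)
  unfold ErS
  apply sum_le_sum
  intro U hU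
  rw [mem_filter, mem_powerset] at hU
  set e : ℕ := ∏ p ∈ U, p with he
  have hUp : ∀ p ∈ U, p.Prime := fun p hp => (hP p (hU.1 hp)).1
  have hcop : m.Coprime e := by
    rw [he]
    apply Nat.Coprime.prod_right
    intro p hp
    rw [Nat.coprime_comm, Nat.Prime.coprime_iff_not_dvd (hUp p hp)]
    exact hPm p (hU.1 hp)
  have he1 : 1 ≤ e := prod_pos fun p hp => (hUp p hp).pos
  obtain ⟨b, hb1, hb2⟩ := Nat.chineseRemainder hcop a 1
  have hbc : b.Coprime (m * e) := by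
    apply Nat.Coprime.mul_right
    · unfold Nat.Coprime
      rw [Nat.ModEq.gcd_eq hb1]
      exact ha
    · unfold Nat.Coprime
      rw [Nat.ModEq.gcd_eq hb2]
      exact Nat.gcd_one_left e
  have hcard : S.filter (fun ω => ∀ p ∈ U, p ∣ ω - 1) =
      (Icc 1 x).filter (fun p : ℕ => p.Prime ∧ p ≡ b [MOD (m * e)]) := by
    rw [hS, filter_filter]
    apply filter_congr
    intro p hp
    have hp1 : 1 ≤ p := (mem_Icc.1 hp).1
    have hdv : (∀ q ∈ U, q ∣ p - 1) ↔ p ≡ 1 [MOD e] := by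
      rw [Nat.ModEq.comm, Nat.modEq_iff_dvd' hp1]
      constructor
      · intro h
        exact Finset.prod_primes_dvd _ (fun q hq => (hUp q hq).prime) h
      · intro h q hq
        exact (dvd_prod_of_mem (fun p => p) hq).trans h
    rw [hdv]
    constructor
    · rintro ⟨⟨h2, h3⟩, h4⟩
      refine ⟨h2, ?_⟩
      exact (Nat.modEq_and_modEq_iff_modEq_mul hcop).1 ⟨h3.trans hb1.symm, h4.trans hb2.symm⟩
    · rintro ⟨h2, h3⟩
      have h4 := (Nat.modEq_and_modEq_iff_modEq_mul hcop).2 h3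
      exact ⟨⟨h2, h4.1.trans hb1⟩, h4.2.trans hb2⟩
  have hφ : X * ∏ p ∈ U, (1 / ((p : ℝ) - 1)) = (piN x : ℝ) / (Nat.totient (m * e) : ℝ) := by
    rw [Nat.totient_mul hcop, hX]
    have h5 : ((Nat.totient e : ℕ) : ℝ) = ∏ p ∈ U, ((p : ℝ) - 1) := by
      rw [he]
      have h6 : Nat.totient (∏ p ∈ U, p) = ∏ p ∈ U, (p - 1) := by
        have hpf : (∏ p ∈ U, p).primeFactors = U := Nat.primeFactors_prod hUp
        have h7 := Nat.totient_mul_prod_primeFactors (∏ p ∈ U, p)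
        rw [hpf] at h7
        exact Nat.eq_of_mul_eq_mul_right he1 (by rw [h7, mul_comm])
      rw [h6]
      push_cast
      apply prod_congr rfl
      intro p hp
      rw [Nat.cast_sub (hUp p hp).one_le, Nat.cast_one]
    push_cast
    rw [h5, prod_div_distrib, prod_const_one]
    field_simp
  have : ((S.filter (fun ω => ∀ p ∈ U, p ∣ ω - 1)).card : ℝ) - X * ∏ p ∈ U, (1 / ((p : ℝ) - 1)) =
      Er x (m * e) b := by
    rw [hcard, hφ]
    unfold Er piAP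
    rfl
  rw [this]
  exact le_Es x (m * e) b (Nat.mul_pos hm he1) hbc

end Pool.Agent.Y855
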