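import Pool.Agent.Y855.A3

/-!
The classes `a` modulo `m` with `(a / m) = -1` and `a ≢ 0, 1` modulo the prime factors of `m`.
-/

set_option autoImplicit false

open Finset

namespace Pool.Agent.Y855

open Pool.Agent.H442R2.KF

theorem sum_crt {m n : ℕ} (hm : 0 < m) (hn : 0 < n) (hmn : m.Coprime n) (f g : ℕ → ℝ) :
    ∑ a ∈ range (m * n), f (a % m) * g (a % n) =
      (∑ a ∈ range m, f a) * ∑ b ∈ range n, g b := by
  rw [sum_mul_sum, ← sum_product']
  refine sum_nbij' (fun a => (a % m, a % n))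
    (fun uv => (Nat.chineseRemainder hmn uv.1 uv.2 : ℕ)) ?_ ?_ ?_ ?_ ?_
  · intro a _
    rw [mem_product, mem_range, mem_range]
    exact ⟨Nat.mod_lt _ hm, Nat.mod_lt _ hn⟩
  · intro uv _
    rw [mem_range]
    exact Nat.chineseRemainder_lt_mul hmn uv.1 uv.2 hm.ne' hn.ne'
  · intro a ha
    rw [mem_range] at ha
    have h1 := (Nat.chineseRemainder hmn (a % m) (a % n)).2
    have h2 : ((Nat.chineseRemainder hmn (a % m) (a % n) : ℕ)) ≡ a [MOD (m * n)] :=
      (Nat.modEq_and_modEq_iff_modEq_mul hmn).1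
        ⟨h1.1.trans (Nat.mod_modEq a m), h1.2.trans (Nat.mod_modEq a n)⟩
    have h3 := Nat.chineseRemainder_lt_mul hmn (a % m) (a % n) hm.ne' hn.ne'
    exact Nat.ModEq.eq_of_lt_of_lt h2 h3 ha
  · intro uv huv
    rw [mem_product, mem_range, mem_range] at huv
    have h1 := (Nat.chineseRemainder hmn uv.1 uv.2).2
    ext
    · exact Nat.mod_eq_of_modEq h1.1 huv.1
    · exact Nat.mod_eq_of_modEq h1.2 huv.2
  · intro a _
    rfl

theorem sum_crt_prod (s : Finset ℕ) (hs : ∀ q ∈ s, q.Prime) (f : ℕ → ℕ → ℝ) :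
    ∑ a ∈ range (∏ q ∈ s, q), ∏ q ∈ s, f q (a % q) = ∏ q ∈ s, ∑ a ∈ range q, f q a := by
  classical
  induction s using Finset.induction_on with
  | empty => simp
  | insert q s hq ih =>
    have hs' : ∀ p ∈ s, p.Prime := fun p hp => hs p (mem_insert_of_mem hp)
    have hqp : q.Prime := hs q (mem_insert_self q s)
    have hcop : q.Coprime (∏ p ∈ s, p) := by
      apply Nat.Coprime.prod_right
      intro p hp
      rw [Nat.coprime_primes hqp (hs' p hp)]
      rintro rfl
      exact hq hp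
    have hpos : 0 < ∏ p ∈ s, p := prod_pos fun p hp => (hs' p hp).pos
    rw [prod_insert hq, prod_insert hq, ← ih hs',
      ← sum_crt hqp.pos hpos hcop (f q) (fun a => ∏ p ∈ s, f p (a % p))]
    apply sum_congr rfl
    intro a _
    rw [prod_insert hq]
    congr 1
    apply prod_congr rfl
    intro p hp
    rw [Nat.mod_mod_of_dvd a (dvd_prod_of_mem (fun p => p) hp)]

theorem jac_prod (s : Finset ℕ) (hs : ∀ q ∈ s, q.Prime) (a : ℤ) :
    jacobiSym a (∏ q ∈ s, q) = ∏ q ∈ s, jacobiSym a q := by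
  classical
  induction s using Finset.induction_on with
  | empty => simp
  | insert q s hq ih =>
    have hs' : ∀ p ∈ s, p.Prime := fun p hp => hs p (mem_insert_of_mem hp)
    have hqp : q.Prime := hs q (mem_insert_self q s)
    have hpos : 0 < ∏ p ∈ s, p := prod_pos fun p hp => (hs' p hp).pos
    have : NeZero q := ⟨hqp.ne_zero⟩
    have : NeZero (∏ p ∈ s, p) := ⟨hpos.ne'⟩
    rw [prod_insert hq, prod_insert hq, jacobiSym.mul_right, ih hs']

/-- the sum of the Legendre symbol over `a ≠ 0, 1` -/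
theorem leg_sum (q : ℕ) (hq : q.Prime) (hq3 : 3 ≤ q) :
    ∑ a ∈ range q, (if a = 0 ∨ a = 1 then (0 : ℝ) else ((jacobiSym a q : ℤ) : ℝ)) = -1 := by
  have : Fact q.Prime := ⟨hq⟩
  have h1 : ∀ a : ℕ, jacobiSym (a : ℤ) q = quadraticChar (ZMod q) (a : ZMod q) := by
    intro a
    rw [← jacobiSym.legendreSym.to_jacobiSym, legendreSym]
    push_cast
    rfl
  have h2 : ∑ a ∈ range q, ((jacobiSym (a : ℤ) q : ℤ) : ℝ) = 0 := by
    have h3 : ∑ a : ZMod q, quadraticChar (ZMod q) a = 0 := by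
      apply quadraticChar_sum_zero
      rw [ZMod.ringChar_zmod_n]
      omega
    have h4 : ∑ a ∈ range q, jacobiSym (a : ℤ) q = 0 := by
      rw [← h3]
      simp only [h1]
      refine sum_nbij' (fun a => (a : ZMod q)) (fun a => a.val) ?_ ?_ ?_ ?_ ?_
      · intro a _
        exact mem_univ _
      · intro a _
        exact mem_range.2 (ZMod.val_lt a)
      · intro a ha
        exact ZMod.val_cast_of_lt (mem_range.1 ha)
      · intro a _
        exact ZMod.natCast_zmod_val a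
      · intro a _
        rfl
    exact_mod_cast h4
  have h5 : ∑ a ∈ range q, (if a = 0 ∨ a = 1 then (0 : ℝ) else ((jacobiSym a q : ℤ) : ℝ)) =
      ∑ a ∈ range q, ((jacobiSym (a : ℤ) q : ℤ) : ℝ) -
      ∑ a ∈ range q, (if a = 0 ∨ a = 1 then ((jacobiSym a q : ℤ) : ℝ) else 0) := by
    rw [← sum_sub_distrib]
    apply sum_congr rfl
    intro a _
    split_ifs <;> simp
  rw [h5, h2, ← sum_filter]
  have h6 : (range q).filter (fun a => a = 0 ∨ a = 1) = {0, 1} := by
    ext a
    rw [mem_filter, mem_range, mem_insert, mem_singleton]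
    constructor
    · exact fun h => h.2
    · intro h
      exact ⟨by omega, h⟩
  rw [h6, sum_pair (by norm_num)]
  have h7 : jacobiSym ((0 : ℕ) : ℤ) q = 0 := by
    rw [h1]; simp
  have h8 : jacobiSym ((1 : ℕ) : ℤ) q = 1 := by
    rw [h1]; simp
  rw [h7, h8]
  norm_num

theorem cnt_sum (q : ℕ) (hq3 : 3 ≤ q) :
    ∑ a ∈ range q, (if a = 0 ∨ a = 1 then (0 : ℝ) else 1) = (q : ℝ) - 2 := by
  have h5 : ∑ a ∈ range q, (if a = 0 ∨ a = 1 then (0 : ℝ) else 1) =
      ∑ a ∈ range q, (1 : ℝ) - ∑ a ∈ range q, (if a = 0 ∨ a = 1 then (1 : ℝ) else 0) := by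
    rw [← sum_sub_distrib]
    apply sum_congr rfl
    intro a _
    split_ifs <;> simp
  rw [h5, ← sum_filter]
  have h6 : (range q).filter (fun a => a = 0 ∨ a = 1) = {0, 1} := by
    ext a
    rw [mem_filter, mem_range, mem_insert, mem_singleton]
    constructor
    · exact fun h => h.2
    · intro h
      exact ⟨by omega, h⟩
  rw [h6, sum_pair (by norm_num)]
  simp
  norm_num

/-- the classes -/
def cls (m : ℕ) : Finset ℕ :=
  (range m).filter (fun a => (∀ q ∈ m.primeFactors, ¬ (a % q = 0 ∨ a % q = 1)) ∧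
    jacobiSym (a : ℤ) m = -1)

theorem cls_card (m : ℕ) (hm : Squarefree m) (hm3 : ∀ q ∈ m.primeFactors, 3 ≤ q) :
    2 * ((cls m).card : ℝ) = (∏ q ∈ m.primeFactors, ((q : ℝ) - 2)) -
      ((ArithmeticFunction.moebius m : ℤ) : ℝ) := by
  classical
  have hpr : ∀ q ∈ m.primeFactors, q.Prime := fun q hq => Nat.prime_of_mem_primeFactors hq
  have hmp : ∏ q ∈ m.primeFactors, q = m := Nat.prod_primeFactors_of_squarefree hm
  have e1 : (∏ q ∈ m.primeFactors, ((q : ℝ) - 2)) =
      ∑ a ∈ range m, ∏ q ∈ m.primeFactors, (if a % q = 0 ∨ a % q = 1 then (0 : ℝ) else 1) := by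
    have h := sum_crt_prod m.primeFactors hpr (fun q a => if a = 0 ∨ a = 1 then (0 : ℝ) else 1)
    rw [hmp] at h
    rw [h]
    apply prod_congr rfl
    intro q hq
    exact (cnt_sum q (hm3 q hq)).symm
  have e2 : ((ArithmeticFunction.moebius m : ℤ) : ℝ) =
      ∑ a ∈ range m, ∏ q ∈ m.primeFactors,
        (if a % q = 0 ∨ a % q = 1 then (0 : ℝ) else ((jacobiSym ((a % q : ℕ) : ℤ) q : ℤ) : ℝ)) := by
    have h := sum_crt_prod m.primeFactors hpr
      (fun q a => if a = 0 ∨ a = 1 then (0 : ℝ) else ((jacobiSym a q : ℤ) : ℝ))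
    rw [hmp] at h
    rw [h, prod_congr rfl fun q hq => leg_sum q (hpr q hq) (hm3 q hq), prod_const,
      ArithmeticFunction.moebius_apply_of_squarefree hm]
    push_cast
    congr 1
    rw [← (ArithmeticFunction.cardDistinctFactors_eq_cardFactors_iff_squarefree hm.ne_zero).2 hm]
    rfl
  rw [e1, e2, ← sum_sub_distrib]
  unfold cls
  rw [card_filter, Nat.cast_sum, mul_sum]
  simp only [Nat.cast_ite, Nat.cast_one, Nat.cast_zero]
  apply sum_congr rfl
  intro a _
  by_cases h : ∀ q ∈ m.primeFactors, ¬ (a % q = 0 ∨ a % q = 1)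
  · have h1 : ∏ q ∈ m.primeFactors, (if a % q = 0 ∨ a % q = 1 then (0 : ℝ) else 1) = 1 :=
      prod_eq_one fun q hq => by rw [if_neg (h q hq)]
    have h2 : ∏ q ∈ m.primeFactors, (if a % q = 0 ∨ a % q = 1 then (0 : ℝ)
        else ((jacobiSym ((a % q : ℕ) : ℤ) q : ℤ) : ℝ)) = ((jacobiSym (a : ℤ) m : ℤ) : ℝ) := by
      have h3 := jac_prod m.primeFactors hpr (a : ℤ)
      rw [hmp] at h3
      rw [h3]
      push_cast
      apply prod_congr rfl
      intro q hq
      rw [if_neg (h q hq), ← jacobiSym.mod_left]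
    have hcop : Int.gcd (a : ℤ) m = 1 := by
      rw [Int.gcd_natCast_natCast]
      refine Nat.Coprime.symm (Nat.coprime_of_dvd fun k hk hkm hka => ?_)
      exact h k (Nat.mem_primeFactors.2 ⟨hk, hkm, hm.ne_zero⟩) (Or.inl (Nat.mod_eq_zero_of_dvd hka))
    rw [h1, h2]
    rcases (jacobiSym.eq_one_or_neg_one hcop) with h4 | h4
    · rw [h4]
      simp
    · rw [if_pos ⟨h, h4⟩, h4]
      norm_num
  · have h1 : ∏ q ∈ m.primeFactors, (if a % q = 0 ∨ a % q = 1 then (0 : ℝ) else 1) = 0 := by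
      push Not at h
      obtain ⟨q, hq, hq2⟩ := h
      exact prod_eq_zero hq (by rw [if_pos hq2])
    have h2 : ∏ q ∈ m.primeFactors, (if a % q = 0 ∨ a % q = 1 then (0 : ℝ)
        else ((jacobiSym ((a % q : ℕ) : ℤ) q : ℤ) : ℝ)) = 0 := by
      push Not at h
      obtain ⟨q, hq, hq2⟩ := h
      exact prod_eq_zero hq (by rw [if_pos hq2])
    rw [h1, h2, if_neg (fun h' => h h'.1)]
    simp

end Pool.Agent.Y855
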