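import Pool.Agent.Y855.A4

/-!
Asymptotic formulas for the sifted primes and for those with `(p / m) = -1`.
-/

set_option autoImplicit false

open Finset

namespace Pool.Agent.Y855

open Pool.Agent.H442R2.KF

/-- the odd primes up to `z` -/
def OP (z : ℕ) : Finset ℕ := (Icc 3 z).filter Nat.Prime

theorem mem_OP {z q : ℕ} : q ∈ OP z ↔ q.Prime ∧ 3 ≤ q ∧ q ≤ z := by
  unfold OP
  rw [mem_filter, mem_Icc]
  tauto

/-- the primes `p ≤ x` such that `p - 1` has no odd prime factor `≤ z` -/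
def TT (x z : ℕ) : Finset ℕ := (Icc 1 x).filter (fun p => p.Prime ∧ ∀ q ∈ OP z, ¬ q ∣ p - 1)

/-- those with `(p / m) = -1` -/
def TQ (x z m : ℕ) : Finset ℕ := (TT x z).filter (fun p => jacobiSym (p : ℤ) m = -1)

theorem NS_one (x z a : ℕ) : NS x 1 a (OP z) = TT x z := by
  unfold NS TT
  apply filter_congr
  intro p _
  have : p ≡ a [MOD 1] := Nat.modEq_one
  tauto

theorem TQ_fiber (x z m : ℕ) (hm : Squarefree m) (hz : m.primeFactors ⊆ OP z) :
    (TQ x z m).card = ∑ a ∈ cls m, (NS x m a (OP z \ m.primeFactors)).card := by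
  classical
  have hm0 : 0 < m := Nat.pos_of_ne_zero hm.ne_zero
  have hmaps : ∀ p ∈ TQ x z m, p % m ∈ cls m := by
    intro p hp
    unfold TQ TT at hp
    rw [mem_filter, mem_filter, mem_Icc] at hp
    obtain ⟨⟨⟨hp1, hpx⟩, hpp, hpq⟩, hj⟩ := hp
    unfold cls
    rw [mem_filter, mem_range]
    refine ⟨Nat.mod_lt _ hm0, ?_, ?_⟩
    · intro q hq
      have hqp := Nat.prime_of_mem_primeFactors hq
      have hqm := Nat.dvd_of_mem_primeFactors hq
      rw [Nat.mod_mod_of_dvd p hqm]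
      rintro (h | h)
      · have h1 : q ∣ p := Nat.dvd_of_mod_eq_zero h
        have h2 : jacobiSym (p : ℤ) m = 0 := by
          rw [jacobiSym.eq_zero_iff]
          refine ⟨hm0.ne', ?_⟩
          intro h3
          rw [Int.gcd_natCast_natCast] at h3
          have := Nat.dvd_gcd h1 hqm
          rw [h3] at this
          exact hqp.one_lt.ne' (Nat.dvd_one.1 this)
        rw [h2] at hj
        norm_num at hj
      · apply hpq q (hz hq)
        exact (Nat.modEq_iff_dvd' hp1).1 (by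
          unfold Nat.ModEq
          rw [h, Nat.mod_eq_of_lt hqp.one_lt])
    · have := jacobiSym.mod_left (p : ℤ) m
      rw [hj] at this
      rw [this]
      push_cast
      rfl
  rw [card_eq_sum_card_fiberwise hmaps]
  apply sum_congr rfl
  intro a ha
  congr 1
  unfold cls at ha
  rw [mem_filter, mem_range] at ha
  ext p
  unfold TQ TT NS
  rw [mem_filter, mem_filter, mem_filter, mem_filter]
  constructor
  · rintro ⟨⟨⟨h1, h2, h3⟩, h4⟩, h5⟩
    refine ⟨h1, h2, ?_, ?_⟩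
    · unfold Nat.ModEq
      rw [h5, Nat.mod_eq_of_lt ha.1]
    · intro q hq
      exact h3 q (mem_sdiff.1 hq).1
  · rintro ⟨h1, h2, h3, h4⟩
    have h5 : p % m = a := by
      unfold Nat.ModEq at h3
      rw [h3, Nat.mod_eq_of_lt ha.1]
    refine ⟨⟨⟨h1, h2, ?_⟩, ?_⟩, h5⟩
    · intro q hq hqd
      by_cases hqm : q ∈ m.primeFactors
      · have hqp := Nat.prime_of_mem_primeFactors hqm
        apply ha.2.1 q hqm
        right
        have h6 : 1 ≡ p [MOD q] := (Nat.modEq_iff_dvd' (mem_Icc.1 h1).1).2 hqd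
        rw [← h5, Nat.mod_mod_of_dvd p (Nat.dvd_of_mem_primeFactors hqm)]
        unfold Nat.ModEq at h6
        rw [← h6, Nat.mod_eq_of_lt hqp.one_lt]
      · exact h4 q (mem_sdiff.2 ⟨hq, hqm⟩) hqd
    · have h6 := jacobiSym.mod_left (p : ℤ) m
      rw [h6]
      have h7 : ((p : ℤ) % (m : ℤ)) = ((p % m : ℕ) : ℤ) := by push_cast; rfl
      rw [h7, h5]
      exact ha.2.2

theorem ErS_le (x m z B : ℕ) (hm : 1 ≤ m) (P : Finset ℕ) (hP : ∀ p ∈ P, p.Prime) :
    ErS x m z B P ≤ ∑ d ∈ Icc 1 (m * z ^ B), Es x d := by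
  classical
  unfold ErS
  have hinj : Set.InjOn (fun U : Finset ℕ => m * ∏ p ∈ U, p)
      (P.powerset.filter (fun U => ∏ p ∈ U, p ≤ z ^ B)) := by
    intro U hU V hV h
    rw [mem_coe, mem_filter, mem_powerset] at hU hV
    have h1 : ∏ p ∈ U, p = ∏ p ∈ V, p := Nat.eq_of_mul_eq_mul_left hm h
    have h2 : (∏ p ∈ U, p).primeFactors = U := Nat.primeFactors_prod fun p hp => hP p (hU.1 hp)
    have h3 : (∏ p ∈ V, p).primeFactors = V := Nat.primeFactors_prod fun p hp => hP p (hV.1 hp)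
    rw [← h2, ← h3, h1]
  rw [← sum_image (f := fun d => Es x d) hinj]
  apply sum_le_sum_of_subset_of_nonneg
  · intro d hd
    rw [mem_image] at hd
    obtain ⟨U, hU, rfl⟩ := hd
    rw [mem_filter, mem_powerset] at hU
    rw [mem_Icc]
    refine ⟨Nat.mul_pos hm (prod_pos fun p hp => (hP p (hU.1 hp)).pos), ?_⟩
    exact Nat.mul_le_mul_left m hU.2
  · intro d _ _
    exact Es_nonneg x d

/-- the relative density -/
noncomputable def dl (m : ℕ) : ℝ :=
  1 / 2 * (1 - ((ArithmeticFunction.moebius m : ℤ) : ℝ) * ∏ q ∈ m.primeFactors, (1 / ((q : ℝ) - 2)))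

theorem dl_eq (m : ℕ) (hm : Squarefree m) (hm3 : ∀ q ∈ m.primeFactors, 3 ≤ q) (P : Finset ℕ)
    (hP : m.primeFactors ⊆ P) :
    ((cls m).card : ℝ) * (1 / (Nat.totient m : ℝ) * VP (P \ m.primeFactors)) = dl m * VP P := by
  classical
  have h1 := cls_card m hm hm3
  have hq : ∀ q ∈ m.primeFactors, (0 : ℝ) < (q : ℝ) - 2 ∧ (0 : ℝ) < (q : ℝ) - 1 := by
    intro q hq
    have h3 : (3 : ℝ) ≤ q := by exact_mod_cast hm3 q hq
    constructor <;> linarith
  have hφ : ((Nat.totient m : ℕ) : ℝ) = ∏ q ∈ m.primeFactors, ((q : ℝ) - 1) := by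
    have h7 := Nat.totient_mul_prod_primeFactors m
    rw [Nat.prod_primeFactors_of_squarefree hm] at h7
    have h8 : Nat.totient m = ∏ p ∈ m.primeFactors, (p - 1) :=
      Nat.eq_of_mul_eq_mul_right (Nat.pos_of_ne_zero hm.ne_zero) (by rw [h7, mul_comm])
    rw [h8]
    push_cast
    apply prod_congr rfl
    intro p hp
    rw [Nat.cast_sub (by have := hm3 p hp; omega), Nat.cast_one]
  have hV : VP P = (∏ q ∈ m.primeFactors, (((q : ℝ) - 2) / ((q : ℝ) - 1))) *
      VP (P \ m.primeFactors) := by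
    unfold VP
    rw [← prod_sdiff hP, mul_comm]
    congr 1
    apply prod_congr rfl
    intro q hq'
    have := (hq q hq').2
    field_simp
    ring
  have hA : (0 : ℝ) < ∏ q ∈ m.primeFactors, ((q : ℝ) - 2) := prod_pos fun q h => (hq q h).1
  have hB : (0 : ℝ) < ∏ q ∈ m.primeFactors, ((q : ℝ) - 1) := prod_pos fun q h => (hq q h).2
  unfold dl
  rw [hV, hφ, prod_div_distrib, prod_div_distrib, prod_const_one]
  set A := ∏ q ∈ m.primeFactors, ((q : ℝ) - 2)
  set B := ∏ q ∈ m.primeFactors, ((q : ℝ) - 1)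
  have hc : ((cls m).card : ℝ) = (A - ((ArithmeticFunction.moebius m : ℤ) : ℝ)) / 2 := by linarith
  rw [hc]
  field_simp

theorem dl_nonneg (m : ℕ) (hm : Squarefree m) (hm3 : ∀ q ∈ m.primeFactors, 3 ≤ q) : 0 ≤ dl m := by
  have h := dl_eq m hm hm3 m.primeFactors (Subset.refl _)
  have h1 := VP_pos m.primeFactors hm3
  have h2 : 0 ≤ dl m * VP m.primeFactors := by
    rw [← h]
    have h4 : 0 < VP (m.primeFactors \ m.primeFactors) := by
      apply VP_pos
      intro q hq
      exact hm3 q (mem_sdiff.1 hq).1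
    positivity
  exact nonneg_of_mul_nonneg_left h2 h1

theorem dl_le_one (m : ℕ) (hm3 : ∀ q ∈ m.primeFactors, 3 ≤ q) : dl m ≤ 1 := by
  unfold dl
  have h1 : 0 ≤ ∏ q ∈ m.primeFactors, (1 / ((q : ℝ) - 2)) := by
    apply prod_nonneg
    intro q hq
    have h3 : (3 : ℝ) ≤ q := by exact_mod_cast hm3 q hq
    apply div_nonneg zero_le_one; linarith
  have h2 : ∏ q ∈ m.primeFactors, (1 / ((q : ℝ) - 2)) ≤ 1 := by
    apply prod_le_one
    · intro q hq
      have h3 : (3 : ℝ) ≤ q := by exact_mod_cast hm3 q hq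
      apply div_nonneg zero_le_one; linarith
    · intro q hq
      have h3 : (3 : ℝ) ≤ q := by exact_mod_cast hm3 q hq
      rw [div_le_one (by linarith)]
      linarith
  have h3 : -1 ≤ ((ArithmeticFunction.moebius m : ℤ) : ℝ) := by
    have := ArithmeticFunction.abs_moebius_le_one (n := m)
    have h4 := (abs_le.1 this).1
    exact_mod_cast h4
  nlinarith

/-- the asymptotic formulas -/
theorem asymp (ε : ℝ) (hε : 0 < ε) : ∃ B : ℕ, 1 ≤ B ∧ ∀ z : ℕ, 2 ≤ z → ∀ x : ℕ,
    (|((TT x z).card : ℝ) - piN x * VP (OP z)| ≤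
      ε * (piN x * VP (OP z)) + (Nat.log 2 z + 2) * ∑ d ∈ Icc 1 (z ^ B), Es x d) ∧
    (∀ m : ℕ, Squarefree m → m.primeFactors ⊆ OP z →
      |((TQ x z m).card : ℝ) - dl m * (piN x * VP (OP z))| ≤
      ε * (piN x * VP (OP z)) + m * ((Nat.log 2 z + 2) * ∑ d ∈ Icc 1 (m * z ^ B), Es x d)) ∧
    (∀ l : ℕ, l.Prime → z < l →
      ((NS x l 1 (OP z)).card : ℝ) ≤ (1 + ε) * (piN x / ((l : ℝ) - 1) * VP (OP z)) +
        (Nat.log 2 z + 2) * ErS x l z B (OP z)) := by
  classical
  obtain ⟨B, hB, h⟩ := sieve_class ε hε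
  refine ⟨B, hB, fun z hz x => ⟨?_, ?_, ?_⟩⟩
  · have h1 := h z hz (OP z) (fun p hp => mem_OP.1 hp) 1 le_rfl
      (fun p hp h' => (mem_OP.1 hp).1.one_lt.ne' (Nat.dvd_one.1 h')) 1 (Nat.coprime_one_left 1) x
    rw [NS_one, Nat.totient_one, Nat.cast_one, div_one] at h1
    refine h1.trans (add_le_add le_rfl (mul_le_mul_of_nonneg_left ?_ (by positivity)))
    have := ErS_le x 1 z B le_rfl (OP z) (fun p hp => (mem_OP.1 hp).1)
    rwa [one_mul] at this
  · intro m hm hmz
    have hm3 : ∀ q ∈ m.primeFactors, 3 ≤ q := fun q hq => (mem_OP.1 (hmz hq)).2.1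
    have hm0 : 1 ≤ m := Nat.pos_of_ne_zero hm.ne_zero
    set P := OP z \ m.primeFactors with hP
    have hPz : ∀ p ∈ P, p.Prime ∧ 3 ≤ p ∧ p ≤ z := fun p hp => mem_OP.1 (mem_sdiff.1 hp).1
    have hPm : ∀ p ∈ P, ¬ p ∣ m := fun p hp hpm => (mem_sdiff.1 hp).2
      (Nat.mem_primeFactors.2 ⟨(hPz p hp).1, hpm, hm.ne_zero⟩)
    set X : ℝ := (piN x : ℝ) / (Nat.totient m : ℝ) * VP P with hX
    have hX0 : 0 ≤ X := by
      have := VP_pos P fun q hq => (hPz q hq).2.1
      positivity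
    set R : ℝ := (Nat.log 2 z + 2) * ErS x m z B P with hR
    have hR0 : 0 ≤ R := mul_nonneg (by positivity) (ErS_nonneg _ _ _ _ _)
    have hcl : ∀ a ∈ cls m, |((NS x m a P).card : ℝ) - X| ≤ ε * X + R := by
      intro a ha
      apply h z hz P hPz m hm0 hPm a
      unfold cls at ha
      rw [mem_filter] at ha
      refine Nat.Coprime.symm (Nat.coprime_of_dvd fun k hk hkm hka => ?_)
      exact ha.2.1 k (Nat.mem_primeFactors.2 ⟨hk, hkm, hm.ne_zero⟩)
        (Or.inl (Nat.mod_eq_zero_of_dvd hka))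
    have hmain : dl m * (piN x * VP (OP z)) = ((cls m).card : ℝ) * X := by
      have := dl_eq m hm hm3 (OP z) hmz
      rw [hX]
      calc dl m * (piN x * VP (OP z)) = (dl m * VP (OP z)) * piN x := by ring
        _ = ((cls m).card : ℝ) * (1 / (Nat.totient m : ℝ) * VP (OP z \ m.primeFactors)) * piN x := by
            rw [this]
        _ = _ := by rw [hP]; ring
    rw [hmain, TQ_fiber x z m hm hmz]
    push_cast
    rw [← nsmul_eq_mul, ← sum_const, ← sum_sub_distrib]
    refine (abs_sum_le_sum_abs _ _).trans ((sum_le_sum hcl).trans ?_)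
    rw [sum_const, nsmul_eq_mul, mul_add]
    have hclm : ((cls m).card : ℝ) ≤ m := by
      have : (cls m).card ≤ m := by
        unfold cls
        exact (card_filter_le _ _).trans (by rw [card_range])
      exact_mod_cast this
    have h2 : ((cls m).card : ℝ) * (ε * X) ≤ ε * (piN x * VP (OP z)) := by
      have h3 : ((cls m).card : ℝ) * (ε * X) = ε * (dl m * (piN x * VP (OP z))) := by
        rw [hmain]; ring
      rw [h3]
      apply mul_le_mul_of_nonneg_left _ hε.le
      have h4 : 0 ≤ (piN x : ℝ) * VP (OP z) :=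
        mul_nonneg (Nat.cast_nonneg _) (VP_pos _ fun q hq => (mem_OP.1 hq).2.1).le
      calc dl m * (piN x * VP (OP z)) ≤ 1 * (piN x * VP (OP z)) :=
            mul_le_mul_of_nonneg_right (dl_le_one m hm3) h4
        _ = _ := one_mul _
    have h5 : ((cls m).card : ℝ) * R ≤ m * ((Nat.log 2 z + 2) *
        ∑ d ∈ Icc 1 (m * z ^ B), Es x d) := by
      have h6 : R ≤ (Nat.log 2 z + 2) * ∑ d ∈ Icc 1 (m * z ^ B), Es x d :=
        mul_le_mul_of_nonneg_left (ErS_le x m z B hm0 P fun p hp => (hPz p hp).1) (by positivity)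
      calc ((cls m).card : ℝ) * R ≤ m * R := mul_le_mul_of_nonneg_right hclm hR0
        _ ≤ _ := mul_le_mul_of_nonneg_left h6 (Nat.cast_nonneg _)
    linarith
  · intro l hl hzl
    have h1 := h z hz (OP z) (fun p hp => mem_OP.1 hp) l hl.pos
      (fun p hp h' => by
        have h2 := (Nat.prime_dvd_prime_iff_eq (mem_OP.1 hp).1 hl).1 h'
        have := (mem_OP.1 hp).2.2
        omega) 1 (Nat.coprime_one_left l) x
    have h2 := (abs_le.1 h1).2
    rw [Nat.totient_prime hl, Nat.cast_sub hl.one_le, Nat.cast_one] at h2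
    linarith

end Pool.Agent.Y855
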