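import Mathlib

/-!
Few primes have a small subgroup containing many multiplicatively independent integers.
-/

set_option autoImplicit false

open Finset

namespace Pool.Agent.Y855

/-- multiplicative independence -/
def MI (I : Finset ℤ) : Prop :=
  ∀ c : ℤ → ℤ, ∏ n ∈ I, (n : ℚ) ^ (c n) = 1 → ∀ n ∈ I, c n = 0

theorem MI.subset {I J : Finset ℤ} (h : MI J) (hIJ : I ⊆ J) : MI I := by
  classical
  intro c hc n hn
  have h1 := h (fun n => if n ∈ I then c n else 0) (by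
    rw [← hc, ← prod_subset hIJ]
    · apply prod_congr rfl
      intro m hm
      rw [if_pos hm]
    · intro m _ hm
      rw [if_neg hm, zpow_zero]) n (hIJ hn)
  rw [if_pos hn] at h1
  exact h1

/-- the difference of two monomials -/
def Dl (I : Finset ℤ) (c : ℤ → ℤ) : ℤ :=
  ∏ n ∈ I, n ^ (c n).toNat - ∏ n ∈ I, n ^ (-(c n)).toNat

theorem Dl_ne (I : Finset ℤ) (h0 : ∀ n ∈ I, n ≠ 0) (hI : MI I) (c : ℤ → ℤ)
    (hc : ∃ n ∈ I, c n ≠ 0) : Dl I c ≠ 0 := by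
  intro h
  unfold Dl at h
  obtain ⟨n, hn, hne⟩ := hc
  apply hne
  refine hI c ?_ n hn
  have h1 : ∏ n ∈ I, n ^ (c n).toNat = ∏ n ∈ I, n ^ (-(c n)).toNat := by linarith
  have h2 : ∏ n ∈ I, (n : ℚ) ^ (c n).toNat = ∏ n ∈ I, (n : ℚ) ^ (-(c n)).toNat := by
    exact_mod_cast congrArg (fun t : ℤ => (t : ℚ)) h1
  have h3 : ∀ n ∈ I, (n : ℚ) ^ (c n) = (n : ℚ) ^ (c n).toNat / (n : ℚ) ^ (-(c n)).toNat := by
    intro n hn
    have hn0 : (n : ℚ) ≠ 0 := by exact_mod_cast h0 n hn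
    rw [← zpow_natCast, ← zpow_natCast, ← zpow_sub₀ hn0]
    congr 1
    omega
  rw [prod_congr rfl h3, prod_div_distrib, h2]
  apply div_self
  rw [prod_ne_zero_iff]
  intro n hn
  exact pow_ne_zero _ (by exact_mod_cast h0 n hn)

theorem Dl_le (I : Finset ℤ) (c : ℤ → ℤ) (H A : ℕ) (hH1 : 1 ≤ H) (hH : ∀ n ∈ I, n.natAbs ≤ H)
    (hc : ∀ n ∈ I, -(A : ℤ) ≤ c n ∧ c n ≤ A) : (Dl I c).natAbs ≤ 2 * H ^ (I.card * A) := by
  have key : ∀ e : ℤ → ℕ, (∀ n ∈ I, e n ≤ A) →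
      (∏ n ∈ I, n ^ (e n)).natAbs ≤ H ^ (I.card * A) := by
    intro e he
    have h1 : (∏ n ∈ I, n ^ (e n)).natAbs = ∏ n ∈ I, n.natAbs ^ (e n) := by
      rw [← Int.natAbsHom_apply, map_prod]
      apply prod_congr rfl
      intro n _
      rw [map_pow, Int.natAbsHom_apply]
    rw [h1, mul_comm, pow_mul, ← prod_const]
    apply prod_le_prod' ?_
    intro n hn
    calc n.natAbs ^ (e n) ≤ H ^ (e n) := Nat.pow_le_pow_left (hH n hn) _
      _ ≤ H ^ A := Nat.pow_le_pow_right hH1 (he n hn)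
  unfold Dl
  have h1 := key (fun n => (c n).toNat) (fun n hn => by have := hc n hn; omega)
  have h2 := key (fun n => (-(c n)).toNat) (fun n hn => by have := hc n hn; omega)
  have h3 := Int.natAbs_sub_le (∏ n ∈ I, n ^ (c n).toNat) (∏ n ∈ I, n ^ (-(c n)).toNat)
  omega

/-- the number of primes dividing a nonzero integer -/
theorem card_dvd_le (D : ℤ) (hD : D ≠ 0) (E : ℕ) (hE : D.natAbs ≤ 2 ^ E) (T : Finset ℕ)
    (hT : ∀ p ∈ T, p.Prime ∧ (p : ℤ) ∣ D) : T.card ≤ E := by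
  have h1 : ∏ p ∈ T, p ∣ D.natAbs := by
    apply Finset.prod_primes_dvd
    · intro p hp
      exact (hT p hp).1.prime
    · intro p hp
      exact Int.natCast_dvd.1 (hT p hp).2
  have h2 : 2 ^ T.card ≤ ∏ p ∈ T, p := by
    rw [← prod_const]
    exact prod_le_prod' fun p hp => (hT p hp).1.two_le
  have h3 : ∏ p ∈ T, p ≤ D.natAbs := Nat.le_of_dvd (Int.natAbs_pos.2 hD) h1
  exact (Nat.pow_le_pow_iff_right (by norm_num)).1 (h2.trans (h3.trans hE))

theorem dvd_of_pow (I : Finset ℤ) (p A k : ℕ) (hp : p.Prime) (hpI : ∀ n ∈ I, ¬ (p : ℤ) ∣ n)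
    (hk : 0 < k) (hkA : k < A ^ I.card) (hI : ∀ n ∈ I, (n : ZMod p) ^ k = 1) :
    ∃ c : ℤ → ℤ, (∀ n, c n ≠ 0 → n ∈ I) ∧ (∃ n ∈ I, c n ≠ 0) ∧
      (∀ n ∈ I, -(A : ℤ) ≤ c n ∧ c n ≤ A) ∧ (p : ℤ) ∣ Dl I c := by
  classical
  have : Fact p.Prime := ⟨hp⟩
  set F : (↥I → Fin A) → ZMod p := fun a => ∏ n : ↥I, ((n : ℤ) : ZMod p) ^ (a n : ℕ) with hF
  have hmaps : ∀ a ∈ (univ : Finset (↥I → Fin A)), F a ∈ Polynomial.nthRootsFinset k (1 : ZMod p) := by
    intro a _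
    rw [Polynomial.mem_nthRootsFinset hk]
    simp only [hF]
    rw [← prod_pow]
    apply prod_eq_one
    intro n _
    rw [← pow_mul, mul_comm, pow_mul, hI n n.2, one_pow]
  have hcard : (Polynomial.nthRootsFinset k (1 : ZMod p)).card <
      (univ : Finset (↥I → Fin A)).card := by
    have h1 : (Polynomial.nthRootsFinset k (1 : ZMod p)).card ≤ k := by
      rw [Polynomial.nthRootsFinset_def]
      exact (Multiset.toFinset_card_le _).trans (Polynomial.card_nthRoots k 1)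
    have h2 : (univ : Finset (↥I → Fin A)).card = A ^ I.card := by
      rw [Finset.card_univ, Fintype.card_fun, Fintype.card_fin, Fintype.card_coe]
    omega
  obtain ⟨a, _, a', _, hne, heq⟩ := exists_ne_map_eq_of_card_lt_of_maps_to hcard hmaps
  refine ⟨fun n => if h : n ∈ I then ((a ⟨n, h⟩ : ℕ) : ℤ) - ((a' ⟨n, h⟩ : ℕ) : ℤ) else 0,
    ?_, ?_, ?_, ?_⟩
  · intro n hn
    by_contra h
    apply hn
    change (if h : n ∈ I then ((a ⟨n, h⟩ : ℕ) : ℤ) - ((a' ⟨n, h⟩ : ℕ) : ℤ) else 0) = 0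
    rw [dif_neg h]
  · by_contra hcon
    push Not at hcon
    apply hne
    funext n
    have := hcon n n.2
    rw [dif_pos n.2] at this
    apply Fin.ext
    have h3 : ((a n : ℕ) : ℤ) - ((a' n : ℕ) : ℤ) = 0 := this
    omega
  · intro n hn
    have h1 := (a ⟨n, hn⟩).2
    have h2 := (a' ⟨n, hn⟩).2
    have h3 : (if h : n ∈ I then ((a ⟨n, h⟩ : ℕ) : ℤ) - ((a' ⟨n, h⟩ : ℕ) : ℤ) else 0) =
        ((a ⟨n, hn⟩ : ℕ) : ℤ) - ((a' ⟨n, hn⟩ : ℕ) : ℤ) := dif_pos hn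
    change -(A : ℤ) ≤ (if h : n ∈ I then ((a ⟨n, h⟩ : ℕ) : ℤ) - ((a' ⟨n, h⟩ : ℕ) : ℤ) else 0) ∧
      (if h : n ∈ I then ((a ⟨n, h⟩ : ℕ) : ℤ) - ((a' ⟨n, h⟩ : ℕ) : ℤ) else 0) ≤ (A : ℤ)
    rw [h3]
    constructor <;> omega
  · rw [← ZMod.intCast_zmod_eq_zero_iff_dvd]
    unfold Dl
    push_cast
    rw [sub_eq_zero]
    set mn : ↥I → ℕ := fun n => min (a n : ℕ) (a' n : ℕ) with hmn
    have hne0 : ∏ n : ↥I, ((n : ℤ) : ZMod p) ^ (mn n) ≠ 0 := by
      rw [prod_ne_zero_iff]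
      intro n _
      apply pow_ne_zero
      intro h
      exact hpI n n.2 ((ZMod.intCast_zmod_eq_zero_iff_dvd _ _).1 h)
    apply mul_left_cancel₀ hne0
    rw [← prod_coe_sort I, ← prod_coe_sort I, ← prod_mul_distrib, ← prod_mul_distrib]
    have e1 : ∏ n : ↥I, (((n : ℤ) : ZMod p) ^ (mn n) * ((n : ℤ) : ZMod p) ^
        (if h : (n : ℤ) ∈ I then ((a ⟨n, h⟩ : ℕ) : ℤ) - ((a' ⟨n, h⟩ : ℕ) : ℤ) else 0).toNat) = F a := by
      simp only [hF]
      apply prod_congr rfl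
      intro n _
      rw [dif_pos n.2, ← pow_add]
      congr 1
      simp only [hmn]
      have : (⟨(n : ℤ), n.2⟩ : ↥I) = n := rfl
      rw [this]
      omega
    have e2 : ∏ n : ↥I, (((n : ℤ) : ZMod p) ^ (mn n) * ((n : ℤ) : ZMod p) ^
        (-(if h : (n : ℤ) ∈ I then ((a ⟨n, h⟩ : ℕ) : ℤ) - ((a' ⟨n, h⟩ : ℕ) : ℤ) else 0)).toNat) =
        F a' := by
      simp only [hF]
      apply prod_congr rfl
      intro n _
      rw [dif_pos n.2, ← pow_add]
      congr 1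
      simp only [hmn]
      have : (⟨(n : ℤ), n.2⟩ : ↥I) = n := rfl
      rw [this]
      omega
    rw [e1, e2, heq]

theorem rank_one (I : Finset ℤ) (h0 : ∀ n ∈ I, n ≠ 0) (hI : MI I) (H A : ℕ) (hH1 : 1 ≤ H)
    (hH : ∀ n ∈ I, n.natAbs ≤ H) (T : Finset ℕ)
    (hT : ∀ p ∈ T, p.Prime ∧ (∀ n ∈ I, ¬ (p : ℤ) ∣ n) ∧
      ∃ k : ℕ, 0 < k ∧ k < A ^ I.card ∧ ∀ n ∈ I, (n : ZMod p) ^ k = 1) :
    T.card ≤ (2 * A + 1) ^ I.card * (1 + (Nat.log 2 H + 1) * (I.card * A)) := by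
  classical
  -- the exponent vectors
  set C : Finset (↥I → ℤ) := Fintype.piFinset (fun _ => Icc (-(A : ℤ)) A) with hC
  set ex : (↥I → ℤ) → ℤ → ℤ := fun c n => if h : n ∈ I then c ⟨n, h⟩ else 0 with hex
  set E : ℕ := 1 + (Nat.log 2 H + 1) * (I.card * A) with hE
  have hCcard : C.card = (2 * A + 1) ^ I.card := by
    rw [hC, Fintype.card_piFinset, prod_const, Int.card_Icc, Finset.card_univ, Fintype.card_coe]
    congr 1
    omega
  have hsub : T ⊆ (C.filter (fun c => ∃ n ∈ I, ex c n ≠ 0)).biUnion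
      (fun c => T.filter (fun p : ℕ => (p : ℤ) ∣ Dl I (ex c))) := by
    intro p hp
    obtain ⟨hpp, hpI, k, hk, hkA, hkI⟩ := hT p hp
    obtain ⟨c, hc1, hc2, hc3, hc4⟩ := dvd_of_pow I p A k hpp hpI hk hkA hkI
    rw [mem_biUnion]
    have hexc : ex (fun n => c n) = c := by
      funext n
      simp only [hex]
      split_ifs with h
      · rfl
      · by_contra hne
        exact h (hc1 n (fun h' => hne h'.symm))
    refine ⟨fun n => c n, ?_, ?_⟩
    · rw [mem_filter, hexc]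
      refine ⟨?_, hc2⟩
      rw [hC, Fintype.mem_piFinset]
      intro n
      rw [mem_Icc]
      exact hc3 n n.2
    · rw [mem_filter, hexc]
      exact ⟨hp, hc4⟩
  refine (card_le_card hsub).trans (card_biUnion_le.trans ?_)
  calc ∑ c ∈ C.filter (fun c => ∃ n ∈ I, ex c n ≠ 0),
        (T.filter (fun p : ℕ => (p : ℤ) ∣ Dl I (ex c))).card
      ≤ ∑ _c ∈ C.filter (fun c => ∃ n ∈ I, ex c n ≠ 0), E := by
        apply sum_le_sum
        intro c hc
        rw [mem_filter] at hc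
        apply card_dvd_le (Dl I (ex c)) (Dl_ne I h0 hI _ hc.2)
        · have h1 := Dl_le I (ex c) H A hH1 hH (by
            intro n hn
            simp only [hex]
            rw [dif_pos hn]
            have h2 := hc.1
            rw [hC, Fintype.mem_piFinset] at h2
            exact mem_Icc.1 (h2 ⟨n, hn⟩))
          refine h1.trans ?_
          have h3 : H ≤ 2 ^ (Nat.log 2 H + 1) := (Nat.lt_pow_succ_log_self (by norm_num) H).le
          calc 2 * H ^ (I.card * A) ≤ 2 * (2 ^ (Nat.log 2 H + 1)) ^ (I.card * A) :=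
                Nat.mul_le_mul_left 2 (Nat.pow_le_pow_left h3 _)
            _ = 2 ^ E := by
                rw [← pow_mul, hE, pow_add 2 1, pow_one]
        · intro p hp
          rw [mem_filter] at hp
          exact ⟨(hT p hp.1).1, hp.2⟩
    _ = (C.filter (fun c => ∃ n ∈ I, ex c n ≠ 0)).card * E := by
        rw [sum_const, smul_eq_mul]
    _ ≤ (2 * A + 1) ^ I.card * E := by
        apply Nat.mul_le_mul_right
        rw [← hCcard]
        exact card_filter_le _ _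

end Pool.Agent.Y855
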