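import Pool.Agent.Y855.A6

/-!
The exceptional primes.
-/

set_option autoImplicit false

open Finset

namespace Pool.Agent.Y855

open Classical in
/-- the exceptional primes of index `r` -/
noncomputable def Exc (x r : ℕ) (M : Finset ℤ) : Finset ℕ :=
  (Icc 1 x).filter (fun p => p.Prime ∧ (∀ n ∈ M, ¬ (p : ℤ) ∣ n) ∧ ∃ l : ℕ, l.Prime ∧ l ∣ p - 1 ∧
    x ^ 2 ≤ l ^ r ∧ r ≤ (M.filter (fun n : ℤ => (n : ZMod p) ^ ((p - 1) / l) = 1)).card)

theorem Exc_card (x r : ℕ) (hx : 1 ≤ x) (hr : 2 ≤ r) (M : Finset ℤ) (h0 : ∀ n ∈ M, n ≠ 0)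
    (hM : MI M) (H A : ℕ) (hH1 : 1 ≤ H) (hH : ∀ n ∈ M, n.natAbs ≤ H) (hA : x ^ (r - 2) < A ^ (r * r)) :
    (Exc x r M).card ≤ M.card ^ r * ((2 * A + 1) ^ r * (1 + (Nat.log 2 H + 1) * (r * A))) := by
  classical
  set T : Finset ℤ → Finset ℕ := fun I => (Exc x r M).filter (fun p =>
    ∃ k : ℕ, 0 < k ∧ k < A ^ I.card ∧ ∀ n ∈ I, (n : ZMod p) ^ k = 1) with hT
  have hsub : Exc x r M ⊆ (M.powersetCard r).biUnion T := by
    intro p hp
    have hp' := hp
    unfold Exc at hp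
    rw [mem_filter, mem_Icc] at hp
    obtain ⟨⟨hp1, hpx⟩, hpp, hpM, l, hl, hlp, hlr, hcard⟩ := hp
    obtain ⟨I, hI, hIc⟩ := exists_subset_card_eq hcard
    rw [mem_biUnion]
    refine ⟨I, mem_powersetCard.2 ⟨hI.trans (filter_subset _ _), hIc⟩, ?_⟩
    simp only [hT]
    rw [mem_filter]
    refine ⟨hp', (p - 1) / l, ?_, ?_, ?_⟩
    · apply Nat.div_pos _ hl.pos
      exact Nat.le_of_dvd (by have := hpp.two_le; omega) hlp
    · rw [hIc]
      set k := (p - 1) / l with hk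
      have h1 : k * l = p - 1 := Nat.div_mul_cancel hlp
      have h2 : k * l ≤ x := by omega
      have h3 : k ^ r * x ^ 2 ≤ x ^ (r - 2) * x ^ 2 := by
        calc k ^ r * x ^ 2 ≤ k ^ r * l ^ r := Nat.mul_le_mul_left _ hlr
          _ = (k * l) ^ r := (mul_pow _ _ _).symm
          _ ≤ x ^ r := Nat.pow_le_pow_left h2 r
          _ = x ^ (r - 2) * x ^ 2 := by rw [← pow_add]; congr 1; omega
      have h4 : k ^ r ≤ x ^ (r - 2) := Nat.le_of_mul_le_mul_right h3 (by positivity)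
      have h5 : k ^ r < (A ^ r) ^ r := by
        rw [← pow_mul]
        exact lt_of_le_of_lt h4 hA
      exact lt_of_pow_lt_pow_left₀ r (Nat.zero_le _) h5
    · intro n hn
      exact (mem_filter.1 (hI hn)).2
  refine (card_le_card hsub).trans (card_biUnion_le.trans ?_)
  calc ∑ I ∈ M.powersetCard r, (T I).card
      ≤ ∑ _I ∈ M.powersetCard r, ((2 * A + 1) ^ r * (1 + (Nat.log 2 H + 1) * (r * A))) := by
        apply sum_le_sum
        intro I hI
        rw [mem_powersetCard] at hI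
        have h1 := rank_one I (fun n hn => h0 n (hI.1 hn)) (hM.subset hI.1) H A hH1
          (fun n hn => hH n (hI.1 hn)) (T I) (by
            intro p hp
            simp only [hT] at hp
            rw [mem_filter] at hp
            obtain ⟨hp1, hp2⟩ := hp
            unfold Exc at hp1
            rw [mem_filter] at hp1
            exact ⟨hp1.2.1, fun n hn => hp1.2.2.1 n (hI.1 hn), hp2⟩)
        rw [hI.2] at h1
        exact h1
    _ = M.card.choose r * ((2 * A + 1) ^ r * (1 + (Nat.log 2 H + 1) * (r * A))) := by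
        rw [sum_const, card_powersetCard, smul_eq_mul]
    _ ≤ _ := Nat.mul_le_mul_right _ (Nat.choose_le_pow _ _)

theorem Exc_real (x r : ℕ) (hx : 1 ≤ x) (hr : 2 ≤ r) (M : Finset ℤ) (h0 : ∀ n ∈ M, n ≠ 0)
    (hM : MI M) (H : ℕ) (hH1 : 1 ≤ H) (hH : ∀ n ∈ M, n.natAbs ≤ H) (hMc : M.card ≤ 3 * H) :
    ((Exc x r M).card : ℝ) ≤ (40 * H) ^ (2 * r) * (x : ℝ) ^ (1 - 1 / (r : ℝ)) := by
  have hx1 : (1 : ℝ) ≤ x := by exact_mod_cast hx
  have hx0 : (0 : ℝ) < x := by linarith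
  have hr0 : (0 : ℝ) < r := by exact_mod_cast (by omega : 0 < r)
  have hr2 : (2 : ℝ) ≤ r := by exact_mod_cast hr
  have hH0 : (1 : ℝ) ≤ H := by exact_mod_cast hH1
  set θ : ℝ := ((r : ℝ) - 2) / ((r : ℝ) * r) with hθ
  have hθ0 : 0 ≤ θ := div_nonneg (by linarith) (by positivity)
  set y : ℝ := (x : ℝ) ^ θ with hy
  have hy1 : 1 ≤ y := Real.one_le_rpow hx1 hθ0
  set A : ℕ := ⌊y⌋₊ + 1 with hA
  have hyA : y < A := by rw [hA]; push_cast; exact Nat.lt_floor_add_one y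
  have hA2 : (A : ℝ) ≤ 2 * y := by
    rw [hA]; push_cast
    have := Nat.floor_le (by linarith : 0 ≤ y)
    linarith
  have hA1 : (1 : ℝ) ≤ A := by linarith
  have hcond : x ^ (r - 2) < A ^ (r * r) := by
    have h1 : ((x : ℝ)) ^ (r - 2) = y ^ (r * r) := by
      rw [hy, ← Real.rpow_natCast, ← Real.rpow_natCast, ← Real.rpow_mul hx0.le]
      congr 1
      push_cast [Nat.cast_sub hr]
      rw [hθ]
      field_simp
    have h2 : y ^ (r * r) < (A : ℝ) ^ (r * r) :=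
      pow_lt_pow_left₀ hyA (by linarith) (by positivity)
    rw [← h1] at h2
    exact_mod_cast h2
  have h1 := Exc_card x r hx hr M h0 hM H A hH1 hH hcond
  have h2 : ((Exc x r M).card : ℝ) ≤
      (M.card : ℝ) ^ r * ((2 * (A : ℝ) + 1) ^ r * (1 + ((Nat.log 2 H : ℝ) + 1) * (r * A))) := by
    exact_mod_cast h1
  have h3 : (M.card : ℝ) ≤ 3 * H := by exact_mod_cast hMc
  have h4 : (Nat.log 2 H : ℝ) + 1 ≤ H := by
    have h5 : Nat.log 2 H + 1 ≤ 2 ^ Nat.log 2 H := Nat.lt_two_pow_self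
    have h6 : 2 ^ Nat.log 2 H ≤ H := Nat.pow_log_le_self 2 (by omega)
    exact_mod_cast h5.trans h6
  have h5 : (2 * (A : ℝ) + 1) ≤ 6 * y := by linarith
  have hr2' : (r : ℝ) ≤ 2 ^ r := by exact_mod_cast (Nat.lt_two_pow_self (n := r)).le
  have h6 : 1 + ((Nat.log 2 H : ℝ) + 1) * (r * A) ≤ 3 * H * (2 ^ r * y) := by
    have h7 : ((Nat.log 2 H : ℝ) + 1) * (r * A) ≤ H * (2 ^ r * (2 * y)) := by
      apply mul_le_mul h4 _ (by positivity) (by positivity)
      exact mul_le_mul hr2' hA2 (by positivity) (by positivity)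
    have h8 : (1 : ℝ) ≤ H * (2 ^ r * y) := by
      have h9 : (1 : ℝ) ≤ 2 ^ r := one_le_pow₀ (by norm_num)
      have h10 : (1 : ℝ) ≤ 2 ^ r * y := by nlinarith
      nlinarith
    nlinarith
  have h7 : (M.card : ℝ) ^ r * ((2 * (A : ℝ) + 1) ^ r * (1 + ((Nat.log 2 H : ℝ) + 1) * (r * A))) ≤
      (3 * H) ^ r * ((6 * y) ^ r * (3 * H * (2 ^ r * y))) := by
    gcongr
  have h8 : (3 * (H : ℝ)) ^ r * ((6 * y) ^ r * (3 * H * (2 ^ r * y))) =
      (3 * H) * (36 * H) ^ r * y ^ (r + 1) := by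
    have : (36 * (H : ℝ)) ^ r = (3 * H) ^ r * 6 ^ r * 2 ^ r := by
      rw [← mul_pow, ← mul_pow]
      congr 1
      ring
    rw [this, mul_pow 6 y r, pow_succ y r]
    ring
  have h9 : (3 * (H : ℝ)) * (36 * H) ^ r ≤ (40 * H) ^ (2 * r) := by
    calc (3 * (H : ℝ)) * (36 * H) ^ r ≤ (40 * H) ^ 1 * (40 * H) ^ r := by
          rw [pow_one]
          gcongr
          · norm_num
          · norm_num
      _ = (40 * H) ^ (1 + r) := by rw [pow_add]
      _ ≤ _ := by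
          apply pow_le_pow_right₀
          · linarith
          · omega
  have h10 : y ^ (r + 1) ≤ (x : ℝ) ^ (1 - 1 / (r : ℝ)) := by
    rw [hy, ← Real.rpow_natCast, ← Real.rpow_mul hx0.le]
    apply Real.rpow_le_rpow_of_exponent_le hx1
    rw [hθ]
    push_cast
    have e : 1 - 1 / (r : ℝ) = ((r : ℝ) * r - r) / (r * r) := by field_simp
    rw [e, div_mul_eq_mul_div, div_le_div_iff_of_pos_right (by positivity)]
    nlinarith
  calc ((Exc x r M).card : ℝ) ≤ _ := h2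
    _ ≤ _ := h7
    _ = _ := h8
    _ ≤ (40 * H) ^ (2 * r) * (x : ℝ) ^ (1 - 1 / (r : ℝ)) := by
        apply mul_le_mul h9 h10 (by positivity) (by positivity)

end Pool.Agent.Y855
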