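import Pool.Agent.Y727.PSP.Fa
import Pool.Agent.Y727.PSP.Rs
import Pool.Agent.Y674.PSP.CS
import Pool.Agent.Y317.PSP.SLF
import Pool.Agent.Y814.PSP.CNT
import Pool.Agent.Y500.PSP.Dmt
import Pool.Agent.Y46.PSP.Phi
import Pool.Agent.Y46.PSP.Var
import Pool.Agent.Y79.PSP.MK

/-!
The relative Szemeredi theorem (all parts of the library put together).
-/

set_option autoImplicit false

namespace Pool.Agent.Y855

open Pool.Agent.Y727.PSP

/-- the relative Szemeredi theorem -/
theorem rsz : S_RS :=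
  have hslf := Pool.Agent.Y317.PSP.slf Pool.Agent.Y674.PSP.cs
  rs hslf (Pool.Agent.Y814.PSP.cnt hslf) Pool.Agent.Y500.PSP.DMT Pool.Agent.Y46.PSP.phi
    Pool.Agent.Y46.PSP.var

end Pool.Agent.Y855
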