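import Pool.Agent.Y848.MS.Ord

set_option autoImplicit false

/-! # Few primes modulo which many given integers have small order
(from `Pool/Agent/Y848/MS/ThmA.lean`) -/

open Finset

namespace Pool.Agent.Y855

open Pool.Agent.Y848.MS

/-- the exceptional primes for the group generated by some elements of `T` -/
theorem bad_set (T : Finset ℤ) (hT : ∀ n ∈ T, 2 ≤ n.natAbs) (hcop : ∀ n ∈ T, ∀ n' ∈ T, n ≠ n' → IsCoprime n n')
    (η : ℝ) (hη : 0 < η) (hη1 : η ≤ 1) : ∃ C : ℝ, 0 < C ∧ ∀ L : ℝ, 0 ≤ L → ∃ B : Finset ℕ,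
      (#B : ℝ) ≤ C * Real.exp ((1 - η ^ 2) * L) ∧
      ∀ p : ℕ, p.Prime → (∀ n ∈ T, ¬ (p : ℤ) ∣ n) → p ∉ B → ∀ g : ℕ, 0 < g → (g : ℝ) ≤ Real.exp ((1 - η) * L) →
        #(T.filter (fun n : ℤ => (n : ZMod p) ^ g = 1)) < ⌈1 / η⌉₊ := by
  classical
  obtain ⟨r, hr⟩ : ∃ r, r = ⌈1 / η⌉₊ := ⟨_, rfl⟩
  have hr1 : 1 ≤ r := by
    rw [hr]; exact Nat.one_le_ceil_iff.2 (by positivity)
  have hrη : 1 ≤ η * r := by
    have h1 : 1 / η ≤ r := by rw [hr]; exact Nat.le_ceil _
    rw [div_le_iff₀ hη] at h1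
    linarith
  obtain ⟨M, hM⟩ : ∃ M, M = T.sup Int.natAbs := ⟨_, rfl⟩
  have hMT : ∀ n ∈ T, n.natAbs ≤ M := fun n hn => by rw [hM]; exact Finset.le_sup (f := Int.natAbs) hn
  refine ⟨(#T : ℝ) ^ r * 3 ^ r * (M ^ r + 1) + 1, by positivity, ?_⟩
  intro L hL
  obtain ⟨u, hu⟩ : ∃ u, u = Real.exp ((1 - η) * L / r) := ⟨_, rfl⟩
  have hr0 : (0:ℝ) < r := by exact_mod_cast hr1
  have hu1 : 1 ≤ u := by
    rw [hu]; apply Real.one_le_exp
    apply div_nonneg _ hr0.le
    exact mul_nonneg (by linarith) hL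
  have hur : u ^ r = Real.exp ((1 - η) * L) := by
    rw [hu, ← Real.exp_nat_mul]
    congr 1
    field_simp
  obtain ⟨N, hN⟩ : ∃ N, N = ⌊u⌋₊ := ⟨_, rfl⟩
  have hNu : (N : ℝ) ≤ u := by rw [hN]; exact Nat.floor_le (by linarith)
  have huN : u < (N : ℝ) + 1 := by rw [hN]; exact Nat.lt_floor_add_one u
  have hBb : ∀ b : Fin r → ℤ, ∃ B : Finset ℕ, (∀ i, b i ∈ T) → Function.Injective b →
      B.card ≤ (2 * N + 1) ^ r * (N * M ^ r + 1) ∧
      ∀ p : ℕ, p.Prime → (∀ i, ¬ (p : ℤ) ∣ b i) → ∀ g : ℕ, 0 < g → g < (N + 1) ^ r →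
        (∀ i, ((b i : ℤ) : ZMod p) ^ g = 1) → p ∈ B := by
    intro b
    by_cases hb : (∀ i, b i ∈ T) ∧ Function.Injective b
    · obtain ⟨B, hB1, hB2⟩ := gm_count b (fun i => hT _ (hb.1 i))
        (fun i j hij => hcop _ (hb.1 i) _ (hb.1 j) (fun h => hij (hb.2 h))) N
      refine ⟨B, fun _ _ => ⟨hB1.trans ?_, hB2⟩⟩
      apply Nat.mul_le_mul_left
      apply Nat.add_le_add_right
      apply Nat.mul_le_mul_left
      calc ∏ i, (b i).natAbs ≤ ∏ _i : Fin r, M := Finset.prod_le_prod' fun i _ => hMT _ (hb.1 i)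
        _ = M ^ r := by rw [prod_const, card_univ, Fintype.card_fin]
    · exact ⟨∅, fun h1 h2 => absurd ⟨h1, h2⟩ hb⟩
  choose Bb hBb using hBb
  refine ⟨(Fintype.piFinset (fun _ : Fin r => T)).biUnion (fun b => if Function.Injective b then Bb b else ∅), ?_, ?_⟩
  · have h1 : ∀ b ∈ Fintype.piFinset (fun _ : Fin r => T),
        (if Function.Injective b then Bb b else ∅).card ≤ (2 * N + 1) ^ r * (N * M ^ r + 1) := by
      intro b hb
      rw [Fintype.mem_piFinset] at hb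
      split_ifs with hi
      · exact (hBb b hb hi).1
      · rw [card_empty]; exact Nat.zero_le _
    have h2 := card_biUnion_le.trans (sum_le_card_nsmul _ _ _ h1)
    rw [Fintype.card_piFinset, prod_const, card_univ, Fintype.card_fin, smul_eq_mul] at h2
    have h3 : ((#((Fintype.piFinset (fun _ : Fin r => T)).biUnion (fun b => if Function.Injective b then Bb b else ∅)) : ℕ) : ℝ) ≤
        (#T : ℝ) ^ r * ((2 * N + 1) ^ r * (N * M ^ r + 1)) := by exact_mod_cast h2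
    refine h3.trans ?_
    have h4 : (2 * (N : ℝ) + 1) ^ r ≤ 3 ^ r * Real.exp ((1 - η) * L) := by
      rw [← hur, ← mul_pow]
      apply pow_le_pow_left₀ (by positivity)
      linarith
    have h5 : (N : ℝ) * M ^ r + 1 ≤ (M ^ r + 1) * u := by
      have : (0:ℝ) ≤ (M:ℝ) ^ r := by positivity
      nlinarith
    have h6 : Real.exp ((1 - η) * L) * u ≤ Real.exp ((1 - η ^ 2) * L) := by
      rw [hu, ← Real.exp_add]
      apply Real.exp_le_exp.2
      have h7 : (1 - η) * L / r ≤ (1 - η) * L * η := by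
        rw [div_le_iff₀ hr0]
        have h8 : 0 ≤ (1 - η) * L := mul_nonneg (by linarith) hL
        nlinarith
      nlinarith
    have hM0 : (0:ℝ) ≤ (M:ℝ) ^ r := by positivity
    calc (#T : ℝ) ^ r * ((2 * N + 1) ^ r * (N * M ^ r + 1)) ≤
        (#T : ℝ) ^ r * ((3 ^ r * Real.exp ((1 - η) * L)) * ((M ^ r + 1) * u)) := by gcongr
      _ = (#T : ℝ) ^ r * 3 ^ r * (M ^ r + 1) * (Real.exp ((1 - η) * L) * u) := by ring
      _ ≤ (#T : ℝ) ^ r * 3 ^ r * (M ^ r + 1) * Real.exp ((1 - η ^ 2) * L) := by gcongr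
      _ ≤ _ := by
          apply mul_le_mul_of_nonneg_right _ (Real.exp_pos _).le
          linarith
  · intro p hp hpT hpB g hg0 hg
    rw [← hr]
    by_contra hcon
    push Not at hcon
    obtain ⟨S, hST, hSc⟩ := exists_subset_card_eq hcon
    apply hpB
    rw [mem_biUnion]
    set e := S.equivFinOfCardEq hSc
    have hbT : ∀ i, ((e.symm i : S) : ℤ) ∈ T.filter (fun n : ℤ => (n : ZMod p) ^ g = 1) := fun i => hST (e.symm i).2
    refine ⟨fun i => ((e.symm i : S) : ℤ), ?_, ?_⟩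
    · rw [Fintype.mem_piFinset]
      intro i
      exact (mem_filter.1 (hbT i)).1
    · have hinj : Function.Injective (fun i => ((e.symm i : S) : ℤ)) := by
        intro i j hij
        exact e.symm.injective (Subtype.ext hij)
      rw [if_pos hinj]
      apply (hBb _ (fun i => (mem_filter.1 (hbT i)).1) hinj).2 p hp (fun i => hpT _ (mem_filter.1 (hbT i)).1) g hg0
      · have h1 : (g : ℝ) < ((N + 1) ^ r : ℕ) := by
          push_cast
          calc (g : ℝ) ≤ u ^ r := by rw [hur]; exact hg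
            _ < ((N : ℝ) + 1) ^ r := pow_lt_pow_left₀ huN (by linarith) (by omega)
        exact_mod_cast h1
      · intro i
        exact (mem_filter.1 (hbT i)).2

/-- square-free part -/
lemma sqf_part {n : ℤ} (hn : ¬ IsSquare n) : ∃ D b : ℤ, n = D * b ^ 2 ∧ Squarefree D ∧ D ≠ 1 ∧ b ≠ 0 := by
  have hn0 : n ≠ 0 := by
    rintro rfl
    exact hn ⟨0, by ring⟩
  obtain ⟨a, b, hab, ha⟩ := Nat.sq_mul_squarefree n.natAbs
  have hb0 : b ≠ 0 := by
    rintro rfl
    rw [zero_pow (by norm_num), zero_mul] at hab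
    exact hn0 (Int.natAbs_eq_zero.1 hab.symm)
  rcases Int.natAbs_eq n with h | h
  · refine ⟨a, b, ?_, ?_, ?_, by exact_mod_cast hb0⟩
    · rw [h, ← hab]; push_cast; ring
    · rwa [Int.squarefree_natCast]
    · rintro h1
      apply hn
      refine ⟨b, ?_⟩
      rw [h, ← hab]
      push_cast
      rw [h1]; ring
  · refine ⟨-a, b, ?_, ?_, ?_, by exact_mod_cast hb0⟩
    · rw [h, ← hab]; push_cast; ring
    · rw [← Int.squarefree_natAbs, Int.natAbs_neg, Int.natAbs_natCast]; exact ha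
    · omega


end Pool.Agent.Y855
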