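import Pool.Agent.Y855.A15
import Pool.Agent.Y855.B9

/-!
Disjoint finite sets of coprime integers: for one of them all the elements are good for many primes.
-/

set_option autoImplicit false

open Finset

namespace Pool.Agent.Y855

/-- `n` is an `l`-th power modulo `p` for some odd prime divisor `l` of `p - 1` -/
def bad (n : ℤ) (p : ℕ) : Prop :=
  ∃ l : ℕ, l.Prime ∧ 3 ≤ l ∧ l ∣ p - 1 ∧ (n : ZMod p) ^ ((p - 1) / l) = 1

open Classical in
theorem gmfew (K : ℕ) (hK : 1 ≤ K) (U : Finset ℤ) (hU : ∀ n ∈ U, 2 ≤ n.natAbs)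
    (hcop : ∀ n ∈ U, ∀ n' ∈ U, n ≠ n' → IsCoprime n n') : ∃ C : ℝ, 0 < C ∧ ∀ t : ℕ, 1 ≤ t →
    ∃ B : Finset ℕ, (B.card : ℝ) ≤ C * Real.exp ((1 - (1 / (K : ℝ)) ^ 2) * Real.log ((2 : ℝ) ^ (K * t))) ∧
      ∀ p ∈ TT (2 ^ (K * t)) (2 ^ t), p ∉ B → (∀ n ∈ U, ¬ (p : ℤ) ∣ n) →
        (U.filter (fun n => bad n p)).card ≤ K * K := by
  have hK0 : (0 : ℝ) < K := by exact_mod_cast hK
  have hK1 : (1 : ℝ) ≤ K := by exact_mod_cast hK
  obtain ⟨C, hC, h⟩ := bad_set U hU hcop (1 / (K : ℝ)) (by positivity) (by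
    rw [div_le_one hK0]; exact hK1)
  refine ⟨C, hC, fun t ht => ?_⟩
  have ht0 : (0 : ℝ) < t := by exact_mod_cast ht
  have hlog2 : 0 < Real.log 2 := Real.log_pos (by norm_num)
  have hLx : Real.log ((2 : ℝ) ^ (K * t)) = K * t * Real.log 2 := by
    rw [Real.log_pow]; push_cast; ring
  obtain ⟨B, hB1, hB2⟩ := h (Real.log ((2 : ℝ) ^ (K * t))) (by rw [hLx]; positivity)
  refine ⟨B, hB1, ?_⟩
  intro p hp hpB hpU
  have hz2 : 2 ≤ 2 ^ t := by
    calc 2 = 2 ^ 1 := rfl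
      _ ≤ 2 ^ t := Nat.pow_le_pow_right (by norm_num) ht
  have hLF := LF_card (2 ^ (K * t)) (2 ^ t) p hz2 hp
  have hLFK : (LF (2 ^ t) p).card ≤ K := by
    have h1 : Real.log ((2 ^ (K * t) : ℕ) : ℝ) / Real.log ((2 ^ t : ℕ) : ℝ) = K := by
      push_cast
      rw [hLx, Real.log_pow]
      field_simp
    rw [h1] at hLF
    exact_mod_cast hLF
  have hp' := hp
  unfold TT at hp'
  rw [mem_filter, mem_Icc] at hp'
  obtain ⟨⟨hp1, hpx⟩, hpp, hpq⟩ := hp'
  have hp10 : 0 < p - 1 := by have := hpp.two_le; omega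
  have hsub : U.filter (fun n => bad n p) ⊆ (LF (2 ^ t) p).biUnion
      (fun l => U.filter (fun n : ℤ => (n : ZMod p) ^ ((p - 1) / l) = 1)) := by
    intro n hn
    rw [mem_filter] at hn
    obtain ⟨hnU, l, hl, hl3, hlp, hln⟩ := hn
    rw [mem_biUnion]
    refine ⟨l, ?_, mem_filter.2 ⟨hnU, hln⟩⟩
    unfold LF
    rw [mem_filter, Nat.mem_primeFactors]
    refine ⟨⟨hl, hlp, by omega⟩, ?_⟩
    by_contra hcon
    exact hpq l (mem_OP.2 ⟨hl, hl3, not_lt.1 hcon⟩) hlp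
  refine (card_le_card hsub).trans (card_biUnion_le.trans ((sum_le_card_nsmul _ _ K ?_).trans ?_))
  · intro l hl
    unfold LF at hl
    rw [mem_filter, Nat.mem_primeFactors] at hl
    obtain ⟨⟨hl, hlp, -⟩, hlz⟩ := hl
    have h2 := hB2 p hpp hpU hpB ((p - 1) / l) (Nat.div_pos (Nat.le_of_dvd hp10 hlp) hl.pos) (by
      have hl0 : (0 : ℝ) < l := by exact_mod_cast hl.pos
      have e1 : (((p - 1) / l : ℕ) : ℝ) ≤ (2 : ℝ) ^ (K * t) / 2 ^ t := by
        refine Nat.cast_div_le.trans ?_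
        have e2 : ((p - 1 : ℕ) : ℝ) ≤ (2 : ℝ) ^ (K * t) := by
          have : p - 1 ≤ 2 ^ (K * t) := by omega
          exact_mod_cast this
        have e3 : (2 : ℝ) ^ t ≤ l := by exact_mod_cast hlz.le
        gcongr
      refine e1.trans (le_of_eq ?_)
      have e4 : Real.exp (Real.log ((2 : ℝ) ^ (K * t))) = (2 : ℝ) ^ (K * t) :=
        Real.exp_log (by positivity)
      have e5 : Real.exp (Real.log ((2 : ℝ) ^ t)) = (2 : ℝ) ^ t := Real.exp_log (by positivity)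
      rw [sub_mul, one_mul, Real.exp_sub, e4]
      congr 1
      rw [← e5]
      congr 1
      rw [hLx, Real.log_pow]
      field_simp)
    have h3 : ⌈1 / (1 / (K : ℝ))⌉₊ = K := by
      rw [one_div_one_div, Nat.ceil_natCast]
    rw [h3] at h2
    exact h2.le
  · rw [smul_eq_mul]
    exact Nat.mul_le_mul_right _ hLFK

open Classical in
/-- one of the sets has few bad primes -/
theorem good_fam (K : ℕ) (FF : Finset (Finset ℤ)) (hd : ∀ F ∈ FF, ∀ F' ∈ FF, F ≠ F' → Disjoint F F')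
    (hne : FF.Nonempty) (T : Finset ℕ)
    (hT : ∀ p ∈ T, ((FF.biUnion id).filter (fun n => bad n p)).card ≤ K * K) :
    ∃ F ∈ FF, (T.filter (fun p => ∃ n ∈ F, bad n p)).card * FF.card ≤ K * K * T.card := by
  have hsum : ∑ F ∈ FF, (T.filter (fun p => ∃ n ∈ F, bad n p)).card ≤ T.card * (K * K) := by
    have e1 : ∀ F ∈ FF, (T.filter (fun p => ∃ n ∈ F, bad n p)).card =
        ∑ p ∈ T, if ∃ n ∈ F, bad n p then 1 else 0 := fun F _ => card_filter _ _
    rw [sum_congr rfl e1, sum_comm]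
    refine (sum_le_card_nsmul _ _ (K * K) fun p hp => ?_).trans (by rw [smul_eq_mul])
    rw [← card_filter]
    refine le_trans ?_ (hT p hp)
    -- choose a bad element
    have hex : ∀ F : Finset ℤ, ∃ n : ℤ, (∃ n ∈ F, bad n p) → n ∈ F ∧ bad n p := by
      intro F
      by_cases h : ∃ n ∈ F, bad n p
      · obtain ⟨n, hn⟩ := h
        exact ⟨n, fun _ => hn⟩
      · exact ⟨0, fun h' => absurd h' h⟩
    choose w hw using hex
    apply card_le_card_of_injOn w
    · intro F hF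
      rw [mem_coe, mem_filter] at hF
      rw [mem_coe, mem_filter, mem_biUnion]
      exact ⟨⟨F, hF.1, (hw F hF.2).1⟩, (hw F hF.2).2⟩
    · intro F hF F' hF' hFF
      rw [mem_coe, mem_filter] at hF hF'
      by_contra hne
      have h1 := hd F hF.1 F' hF'.1 hne
      rw [Finset.disjoint_left] at h1
      exact h1 (hw F hF.2).1 (hFF ▸ (hw F' hF'.2).1)
  by_contra hcon
  push Not at hcon
  have h1 : ∑ F ∈ FF, K * K * T.card < ∑ F ∈ FF, (T.filter (fun p => ∃ n ∈ F, bad n p)).card * FF.card :=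
    sum_lt_sum_of_nonempty hne hcon
  rw [sum_const, smul_eq_mul, ← sum_mul] at h1
  have h2 := Nat.mul_le_mul_right FF.card hsum
  have h3 : T.card * (K * K) * FF.card = FF.card * (K * K * T.card) := by ring
  omega

end Pool.Agent.Y855
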