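import Mathlib

/-!
The choice of a dyadic scale.
-/

set_option autoImplicit false

open Finset Filter

namespace Pool.Agent.Y855

theorem ev_scale (B' : ℕ) (κ : ℝ) : ∃ m₀ : ℕ, ∀ m : ℕ, m₀ ≤ m → ∀ L : ℝ, L = Real.log ((2 : ℝ) ^ m) →
    2 * L ^ (B' + 3) ≤ Real.exp (L / 2) ∧ 8 / κ ≤ L ∧ 4 / κ * L ^ (2 * B' + 3) ≤ Real.exp L ∧ 2 ≤ L := by
  have h1 : Tendsto (fun m : ℕ => Real.log ((2 : ℝ) ^ m)) atTop atTop := by
    have h2 : (fun m : ℕ => Real.log ((2 : ℝ) ^ m)) = fun m : ℕ => (m : ℝ) * Real.log 2 := by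
      funext m
      rw [Real.log_pow]
    rw [h2]
    exact tendsto_natCast_atTop_atTop.atTop_mul_const (Real.log_pos (by norm_num))
  have key : ∀ (k : ℕ) (a c : ℝ), 0 < a → ∀ᶠ L : ℝ in atTop, c * L ^ k ≤ Real.exp (a * L) := by
    intro k a c ha
    have h3 := (Real.tendsto_pow_mul_exp_neg_atTop_nhds_zero k)
    have h4 : Tendsto (fun L : ℝ => a * L) atTop atTop := tendsto_id.const_mul_atTop ha
    have h5 := h3.comp h4
    have h6 : ∀ᶠ L : ℝ in atTop, (a * L) ^ k * Real.exp (-(a * L)) < a ^ k / (|c| + 1) :=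
      h5.eventually (gt_mem_nhds (by positivity))
    filter_upwards [h6, eventually_ge_atTop 0] with L h7 h8
    rw [Real.exp_neg, ← div_eq_mul_inv, div_lt_iff₀ (Real.exp_pos _), mul_pow,
      div_mul_eq_mul_div, lt_div_iff₀ (by positivity)] at h7
    have h9 : L ^ k * (|c| + 1) < Real.exp (a * L) := by
      have h10 : 0 < a ^ k := by positivity
      have h11 : a ^ k * (L ^ k * (|c| + 1)) < a ^ k * Real.exp (a * L) := by linarith
      exact lt_of_mul_lt_mul_left h11 h10.le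
    have h12 : c * L ^ k ≤ |c| * L ^ k := mul_le_mul_of_nonneg_right (le_abs_self c) (by positivity)
    have h13 : 0 ≤ L ^ k := by positivity
    nlinarith
  have h3 := h1.eventually ((key (B' + 3) (1 / 2) 2 (by norm_num)).and ((eventually_ge_atTop (8 / κ)).and
    ((key (2 * B' + 3) 1 (4 / κ) one_pos).and (eventually_ge_atTop 2))))
  obtain ⟨m₀, hm₀⟩ := eventually_atTop.1 h3
  refine ⟨m₀, fun m hm L hL => ?_⟩
  have h4 := hm₀ m hm
  rw [← hL] at h4
  obtain ⟨h5, h6, h7, h8⟩ := h4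
  refine ⟨?_, h6, ?_, h8⟩
  · rwa [one_div_mul_eq_div] at h5
  · rwa [one_mul] at h7

theorem scale_pick (κ : ℝ) (hκ : 0 < κ) (B' : ℕ) : ∃ m₀ : ℕ, ∀ m : ℕ, m₀ ≤ m → ∀ (W N : ℕ) (Q L : ℝ),
    L = Real.log ((2 : ℝ) ^ m) → 1 ≤ W → 1 ≤ Q → (W : ℝ) ≤ L ^ B' → ((W * N : ℕ) : ℝ) ≤ L ^ B' →
    ∀ S : Finset ℕ, (∀ n ∈ S, 1 ≤ n ∧ n ≤ 2 ^ m) → κ * ((2 : ℝ) ^ m / W) * Q / L ^ 2 ≤ S.card →
    ∃ X : ℕ, 2 * X ≤ 2 ^ m ∧ L ≤ 2 * Real.log X ∧
      κ / 16 * ((X : ℝ) / W) * Q / Real.log X ^ 2 ≤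
        ((S.filter (fun n => X + W * N < n ∧ n ≤ 2 * X)).card : ℝ) := by
  obtain ⟨m₀, hm₀⟩ := ev_scale B' κ
  refine ⟨m₀, ?_⟩
  intro m hm W N Q L hL hW hQ hWL hWNL S hS hcard
  obtain ⟨f1, f2, f3, f4⟩ := hm₀ m hm L hL
  have hL0 : 0 < L := by linarith
  have hL1 : 1 ≤ L := by linarith
  have hW0 : (0 : ℝ) < W := by exact_mod_cast hW
  have hQ0 : 0 < Q := by linarith
  have hexpL : Real.exp L = (2 : ℝ) ^ m := by rw [hL, Real.exp_log (by positivity)]
  have hlog2 : 0.6931471803 < Real.log 2 := Real.log_two_gt_d9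
  have hLm : L = m * Real.log 2 := by rw [hL, Real.log_pow]
  -- the number of scales
  have hy1 : 1 ≤ L ^ (B' + 3) := one_le_pow₀ hL1
  obtain ⟨J, hJ1, hJ2⟩ := exists_nat_pow_near hy1 (by norm_num : (1 : ℝ) < 2)
  have hJe : 2 * (2 : ℝ) ^ J ≤ Real.exp (L / 2) := by linarith
  have hJL : (J : ℝ) * Real.log 2 ≤ L / 2 := by
    have h1 : (2 : ℝ) ^ J ≤ Real.exp (L / 2) := by
      have : (0 : ℝ) < 2 ^ J := by positivity
      linarith
    have h2 := Real.log_le_log (by positivity) h1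
    rwa [Real.log_pow, Real.log_exp] at h2
  have hJL' : (J : ℝ) ≤ L := by
    have : (0 : ℝ) ≤ J := Nat.cast_nonneg J
    nlinarith
  have hJm : J < m := by
    have h1 : (J : ℝ) * Real.log 2 < m * Real.log 2 := by rw [← hLm]; linarith
    have h2 : (J : ℝ) < m := lt_of_mul_lt_mul_right h1 (by linarith)
    exact_mod_cast h2
  have hee : Real.exp L = Real.exp (L / 2) * Real.exp (L / 2) := by
    rw [← Real.exp_add, add_halves]
  have hlogX : ∀ j < J, L ≤ 2 * Real.log ((2 ^ (m - 1 - j) : ℕ) : ℝ) := by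
    intro j hj
    have h1 : Real.exp (L / 2) ≤ ((2 ^ (m - 1 - j) : ℕ) : ℝ) := by
      have h2 : (2 : ℝ) ^ (m - J) * 2 ^ J = 2 ^ m := by
        rw [← pow_add]; congr 1; omega
      have h3 : (2 : ℝ) ^ (m - J) ≤ 2 ^ (m - 1 - j) := pow_le_pow_right₀ (by norm_num) (by omega)
      have h4 : Real.exp (L / 2) * (2 : ℝ) ^ J ≤ 2 ^ (m - J) * 2 ^ J := by
        rw [h2, ← hexpL, hee]
        have : (0 : ℝ) < 2 ^ J := by positivity
        gcongr
        linarith
      have h5 : Real.exp (L / 2) ≤ (2 : ℝ) ^ (m - J) := le_of_mul_le_mul_right h4 (by positivity)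
      push_cast
      exact h5.trans h3
    have h2 : L / 2 ≤ Real.log ((2 ^ (m - 1 - j) : ℕ) : ℝ) := by
      rw [Real.le_log_iff_exp_le (by positivity)]
      exact h1
    linarith
  by_contra hcon
  push Not at hcon
  -- the cover
  set E0 := S.filter (fun n => n ≤ 2 ^ (m - J)) with hE0
  set E1 : ℕ → Finset ℕ := fun j => Ioc (2 ^ (m - 1 - j)) (2 ^ (m - 1 - j) + W * N) with hE1
  set E2 : ℕ → Finset ℕ := fun j => S.filter (fun n => 2 ^ (m - 1 - j) + W * N < n ∧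
    n ≤ 2 * 2 ^ (m - 1 - j)) with hE2
  have hcov : S ⊆ E0 ∪ ((range J).biUnion E1 ∪ (range J).biUnion E2) := by
    intro n hn
    obtain ⟨hn1, hn2⟩ := hS n hn
    rw [mem_union, mem_union]
    by_cases h0 : n ≤ 2 ^ (m - J)
    · left
      exact mem_filter.2 ⟨hn, h0⟩
    · right
      push Not at h0
      have hJ0 : 0 < J := by
        by_contra hJ
        have : J = 0 := by omega
        rw [this, Nat.sub_zero] at h0
        omega
      have hex : ∃ j, 2 ^ (m - 1 - j) < n := ⟨J - 1, by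
        have : m - 1 - (J - 1) = m - J := by omega
        rwa [this]⟩
      have h1 := Nat.find_spec hex
      have h2 : Nat.find hex ≤ J - 1 := Nat.find_min' hex (by
        have : m - 1 - (J - 1) = m - J := by omega
        rwa [this])
      have h3 : n ≤ 2 * 2 ^ (m - 1 - Nat.find hex) := by
        by_cases h4 : Nat.find hex = 0
        · rw [h4, Nat.sub_zero]
          have : 2 ^ m = 2 * 2 ^ (m - 1) := by
            rw [← pow_succ']; congr 1; omega
          omega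
        · have h5 := Nat.find_min hex (m := Nat.find hex - 1) (by omega)
          push Not at h5
          have : 2 ^ (m - 1 - (Nat.find hex - 1)) = 2 * 2 ^ (m - 1 - Nat.find hex) := by
            rw [← pow_succ']; congr 1; omega
          omega
      by_cases h6 : 2 ^ (m - 1 - Nat.find hex) + W * N < n
      · right
        rw [mem_biUnion]
        refine ⟨Nat.find hex, mem_range.2 (by omega), ?_⟩
        simp only [hE2]
        exact mem_filter.2 ⟨hn, h6, h3⟩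
      · left
        rw [mem_biUnion]
        refine ⟨Nat.find hex, mem_range.2 (by omega), ?_⟩
        simp only [hE1]
        rw [mem_Ioc]
        exact ⟨h1, not_lt.1 h6⟩
  have hc := (card_le_card hcov).trans ((card_union_le _ _).trans
    (Nat.add_le_add_left (card_union_le _ _) _))
  have hc' : (S.card : ℝ) ≤ E0.card + (((range J).biUnion E1).card + ((range J).biUnion E2).card) := by
    exact_mod_cast hc
  have c0 : (E0.card : ℝ) ≤ κ / 4 * ((2 : ℝ) ^ m / W) / L ^ 2 := by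
    have h1 : E0 ⊆ Icc 1 (2 ^ (m - J)) := by
      intro n hn
      rw [mem_filter] at hn
      exact mem_Icc.2 ⟨(hS n hn.1).1, hn.2⟩
    have h2 := card_le_card h1
    rw [Nat.card_Icc, Nat.add_sub_cancel] at h2
    have h3 : (E0.card : ℝ) ≤ (2 : ℝ) ^ (m - J) := by exact_mod_cast h2
    refine h3.trans ?_
    have h4 : (2 : ℝ) ^ (m - J) * 2 ^ (J + 1) = 2 * 2 ^ m := by
      rw [← pow_add, ← pow_succ']; congr 1; omega
    have h5 : (2 : ℝ) ^ (m - J) * L ^ (B' + 3) ≤ 2 * 2 ^ m := by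
      rw [← h4]
      have : (0 : ℝ) < 2 ^ (m - J) := by positivity
      gcongr
    rw [le_div_iff₀ (by positivity)]
    have h6 : κ / 4 * ((2 : ℝ) ^ m / W) ≥ κ / 4 * (2 ^ m / L ^ B') := by
      gcongr
    refine le_trans ?_ h6
    rw [mul_div_assoc', le_div_iff₀ (by positivity)]
    rw [div_le_iff₀ hκ] at f2
    have h7 : (2 : ℝ) ^ (m - J) * L ^ 2 * L ^ B' * L ≤ 2 * 2 ^ m := by
      calc (2 : ℝ) ^ (m - J) * L ^ 2 * L ^ B' * L = 2 ^ (m - J) * L ^ (B' + 3) := by ring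
        _ ≤ _ := h5
    have h8 : 0 ≤ (2 : ℝ) ^ (m - J) * L ^ 2 * L ^ B' := by positivity
    have h9 : (2 : ℝ) ^ (m - J) * L ^ 2 * L ^ B' * 8 ≤ 2 ^ (m - J) * L ^ 2 * L ^ B' * (L * κ) := by
      gcongr
    nlinarith
  have c1 : (((range J).biUnion E1).card : ℝ) ≤ κ / 4 * ((2 : ℝ) ^ m / W) / L ^ 2 := by
    have h1 := card_biUnion_le_card_mul (range J) E1 (W * N) (fun j _ => by
      simp only [hE1]
      rw [Nat.card_Ioc]
      omega)
    rw [card_range] at h1
    have h2 : (((range J).biUnion E1).card : ℝ) ≤ J * ((W * N : ℕ) : ℝ) := by exact_mod_cast h1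
    refine h2.trans ?_
    rw [le_div_iff₀ (by positivity)]
    have h6 : κ / 4 * ((2 : ℝ) ^ m / W) ≥ κ / 4 * (2 ^ m / L ^ B') := by
      gcongr
    refine le_trans ?_ h6
    rw [mul_div_assoc', le_div_iff₀ (by positivity)]
    rw [hexpL, div_mul_eq_mul_div, div_le_iff₀ hκ] at f3
    calc (J : ℝ) * ((W * N : ℕ) : ℝ) * L ^ 2 * L ^ B' ≤ L * L ^ B' * L ^ 2 * L ^ B' := by gcongr
      _ = L ^ (2 * B' + 3) := by ring
      _ ≤ κ / 4 * 2 ^ m := by linarith
  have c2 : (((range J).biUnion E2).card : ℝ) ≤ κ / 4 * ((2 : ℝ) ^ m / W) * Q / L ^ 2 := by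
    have h1 : (((range J).biUnion E2).card : ℝ) ≤ ∑ j ∈ range J, ((E2 j).card : ℝ) := by
      exact_mod_cast card_biUnion_le
    refine h1.trans ?_
    have h2 : ∀ j ∈ range J, ((E2 j).card : ℝ) ≤
        κ / 4 * ((2 : ℝ) ^ (m - 1 - j) / W) * Q / L ^ 2 := by
      intro j hj
      rw [mem_range] at hj
      have h3 := (hcon (2 ^ (m - 1 - j)) (by
        rw [← pow_succ']
        exact Nat.pow_le_pow_right (by norm_num) (by omega)) (hlogX j hj)).le
      simp only [hE2]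
      refine h3.trans ?_
      have h4 := hlogX j hj
      have h5 : 0 < Real.log ((2 ^ (m - 1 - j) : ℕ) : ℝ) := by linarith
      have h6 : L ^ 2 ≤ 4 * Real.log ((2 ^ (m - 1 - j) : ℕ) : ℝ) ^ 2 := by nlinarith
      rw [div_le_div_iff₀ (by positivity) (by positivity)]
      push_cast at h6 ⊢
      have h7 : 0 ≤ κ / 16 * ((2 : ℝ) ^ (m - 1 - j) / W) * Q := by positivity
      calc κ / 16 * ((2 : ℝ) ^ (m - 1 - j) / W) * Q * L ^ 2 ≤
          κ / 16 * ((2 : ℝ) ^ (m - 1 - j) / W) * Q * (4 * Real.log ((2 : ℝ) ^ (m - 1 - j)) ^ 2) := by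
            gcongr
        _ = _ := by ring
    refine (sum_le_sum h2).trans ?_
    have h3 : ∑ j ∈ range J, κ / 4 * ((2 : ℝ) ^ (m - 1 - j) / W) * Q / L ^ 2 =
        κ / 4 * ((∑ j ∈ range J, (2 : ℝ) ^ (m - 1 - j)) / W) * Q / L ^ 2 := by
      rw [sum_div, mul_sum, sum_mul, sum_div]
    rw [h3]
    have h4 : ∑ j ∈ range J, (2 : ℝ) ^ (m - 1 - j) ≤ 2 ^ m := by
      have h5 : ∀ n ≤ J, ∑ j ∈ range n, (2 : ℝ) ^ (m - 1 - j) = 2 ^ m - 2 ^ (m - n) := by
        intro n
        induction n with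
        | zero => intro _; simp
        | succ n ih =>
          intro hn
          rw [sum_range_succ, ih (by omega)]
          have e1 : (2 : ℝ) ^ (m - n) = 2 * 2 ^ (m - 1 - n) := by
            rw [← pow_succ']; congr 1; omega
          have e2 : m - (n + 1) = m - 1 - n := by omega
          rw [e1, e2]
          ring
      rw [h5 J le_rfl]
      have : (0 : ℝ) < 2 ^ (m - J) := by positivity
      linarith
    gcongr
  have hmain : 0 < κ * ((2 : ℝ) ^ m / W) / L ^ 2 := by positivity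
  have hQm : κ * ((2 : ℝ) ^ m / W) / L ^ 2 ≤ κ * ((2 : ℝ) ^ m / W) * Q / L ^ 2 := by
    apply div_le_div_of_nonneg_right _ (by positivity)
    exact le_mul_of_one_le_right (by positivity) hQ
  have e1 : κ / 4 * ((2 : ℝ) ^ m / W) / L ^ 2 = (κ * ((2 : ℝ) ^ m / W) / L ^ 2) / 4 := by ring
  have e2 : κ / 4 * ((2 : ℝ) ^ m / W) * Q / L ^ 2 = (κ * ((2 : ℝ) ^ m / W) * Q / L ^ 2) / 4 := by ring
  rw [e1] at c0 c1
  rw [e2] at c2
  linarith

end Pool.Agent.Y855
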