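import Pool.Agent.Y855.A15

/-!
The choice of the parameters.
-/

set_option autoImplicit false

open Finset Filter

namespace Pool.Agent.Y855

/-- the density of an allowed class -/
theorem cl_low (W : ℕ) (hW : 1 ≤ W) (h2 : 2 ∣ W) :
    (1 / 2) * (1 / (W : ℝ)) * ((W : ℝ) / W.totient) ^ 2 ≤ cl W := by
  have hW0 : (0 : ℝ) < W := by exact_mod_cast hW
  have hφ : (0 : ℝ) < W.totient := by exact_mod_cast Nat.totient_pos.2 hW
  have hV := VP_pos (OF W) (OF_three W)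
  -- `φ(W) / W ≥ VP / 2`
  have h1 : VP (OF W) * (1 / 2) ≤ (W.totient : ℝ) / W := by
    have e1 : ((W.totient : ℚ) : ℝ) = ((W : ℚ) * ∏ p ∈ W.primeFactors, (1 - (p : ℚ)⁻¹) : ℚ) := by
      rw [Nat.totient_eq_mul_prod_factors]
    push_cast at e1
    rw [e1, mul_comm (W : ℝ), mul_div_assoc, div_self hW0.ne', mul_one]
    have e2 : W.primeFactors = insert 2 (OF W) := by
      ext q
      rw [mem_insert]
      unfold OF
      rw [mem_filter]
      constructor
      · intro hq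
        have := (Nat.prime_of_mem_primeFactors hq).two_le
        by_cases h3 : 3 ≤ q
        · exact Or.inr ⟨hq, h3⟩
        · left; omega
      · rintro (rfl | hq)
        · rw [Nat.mem_primeFactors]
          exact ⟨Nat.prime_two, h2, by omega⟩
        · exact hq.1
    rw [e2, prod_insert (by
      intro h
      have := OF_three W 2 h
      omega), mul_comm (VP _)]
    apply mul_le_mul
    · norm_num
    · unfold VP
      apply Finset.prod_le_prod
      · intro q hq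
        have h3 : (3 : ℝ) ≤ q := by exact_mod_cast OF_three W q hq
        rw [sub_nonneg, div_le_one (by linarith)]
        linarith
      · intro q hq
        have h3 : (3 : ℝ) ≤ q := by exact_mod_cast OF_three W q hq
        rw [← one_div]
        have : 1 / (q : ℝ) ≤ 1 / ((q : ℝ) - 1) := one_div_le_one_div_of_le (by linarith) (by linarith)
        linarith
    · exact hV.le
    · norm_num
  unfold cl
  rw [le_div_iff₀ (by positivity)]
  rw [le_div_iff₀ hW0] at h1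
  have e : 1 / 2 * (1 / (W : ℝ)) * ((W : ℝ) / W.totient) ^ 2 * (W.totient * VP (OF W)) =
      (VP (OF W) * (1 / 2) * W) / W.totient := by
    field_simp
  rw [e, div_le_one hφ]
  exact h1

theorem params (s₀ : ℝ) (B₁ y₀ : ℕ) : ∃ L₀ : ℝ, ∀ L : ℝ, L₀ ≤ L → ∃ N y : ℕ, N.Prime ∧
    L ^ (B₁ + 1) ≤ N ∧ (N : ℝ) ≤ L ^ (B₁ + 2) ∧ y₀ ≤ y ∧ 2 ≤ y ∧ s₀ ≤ Real.log N ∧
    (∀ p : ℕ, (p : ℝ) ≤ Real.log N → p ≤ y) ∧ ((4 * primorial y : ℕ) : ℝ) ≤ (N : ℝ) ^ 2 := by
  have h1 : ∀ᶠ L : ℝ in atTop, s₀ ≤ Real.log L ∧ 2 * ((y₀ : ℝ) + 5) * Real.log 4 ≤ Real.log L :=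
    (Real.tendsto_log_atTop.eventually_ge_atTop s₀).and
      (Real.tendsto_log_atTop.eventually_ge_atTop (2 * ((y₀ : ℝ) + 5) * Real.log 4))
  obtain ⟨L₀, hL₀⟩ := eventually_atTop.1 (h1.and (eventually_ge_atTop (5 : ℝ)))
  refine ⟨L₀, fun L hL => ?_⟩
  obtain ⟨⟨g1, g2⟩, g3⟩ := hL₀ L hL
  have hL0 : 0 < L := by linarith
  have hL1 : 1 ≤ L := by linarith
  have hP : L ≤ L ^ (B₁ + 1) := by
    calc L = L ^ 1 := (pow_one L).symm
      _ ≤ _ := pow_le_pow_right₀ hL1 (by omega)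
  have hn1 : L ^ (B₁ + 1) ≤ (⌈L ^ (B₁ + 1)⌉₊ : ℕ) := Nat.le_ceil _
  have hn2 : ((⌈L ^ (B₁ + 1)⌉₊ : ℕ) : ℝ) ≤ L ^ (B₁ + 1) + 1 := (Nat.ceil_lt_add_one (by positivity)).le
  generalize ⌈L ^ (B₁ + 1)⌉₊ = n at hn1 hn2
  have hn0 : n ≠ 0 := by
    rintro rfl
    push_cast at hn1
    linarith
  obtain ⟨N, hNp, hN1, hN2⟩ := Nat.exists_prime_lt_and_le_two_mul n hn0
  have hN1' : (n : ℝ) < N := by exact_mod_cast hN1
  have hN2' : (N : ℝ) ≤ 2 * n := by exact_mod_cast hN2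
  have hN0 : (0 : ℝ) < N := by linarith
  have hLN : L ≤ N := by linarith
  have hlogLN : Real.log L ≤ Real.log N := Real.log_le_log hL0 hLN
  have hlN0 : 0 ≤ Real.log N := Real.log_nonneg (by linarith)
  have hc : (⌈Real.log N⌉₊ : ℝ) ≤ Real.log N + 1 := (Nat.ceil_lt_add_one hlN0).le
  refine ⟨N, y₀ + 2 + ⌈Real.log N⌉₊, hNp, by linarith, ?_, by omega, by omega, by linarith, ?_, ?_⟩
  · calc (N : ℝ) ≤ 2 * n := hN2'
      _ ≤ 2 * (L ^ (B₁ + 1) + 1) := by linarith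
      _ ≤ 4 * L ^ (B₁ + 1) := by linarith
      _ ≤ L ^ (B₁ + 1) * L := by
        have : 0 < L ^ (B₁ + 1) := by positivity
        nlinarith
      _ = L ^ (B₁ + 2) := by rw [← pow_succ]
  · intro p hp
    have h2 : (p : ℝ) ≤ ⌈Real.log N⌉₊ := hp.trans (Nat.le_ceil _)
    have h3 : p ≤ ⌈Real.log N⌉₊ := by exact_mod_cast h2
    omega
  · have h4 : Real.log 4 ≤ 1.5 := by
      have : Real.log 4 = 2 * Real.log 2 := by
        rw [show (4 : ℝ) = 2 ^ 2 by norm_num, Real.log_pow]; push_cast; ring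
      rw [this]
      linarith [Real.log_two_lt_d9]
    have h40 : 0 < Real.log 4 := Real.log_pos (by norm_num)
    calc ((4 * primorial (y₀ + 2 + ⌈Real.log N⌉₊) : ℕ) : ℝ)
        ≤ ((4 * 4 ^ (y₀ + 2 + ⌈Real.log N⌉₊) : ℕ) : ℝ) := by
          exact_mod_cast Nat.mul_le_mul_left 4 (primorial_le_four_pow _)
      _ = Real.exp (((y₀ + 3 + ⌈Real.log N⌉₊ : ℕ) : ℝ) * Real.log 4) := by
          rw [mul_comm (((y₀ + 3 + ⌈Real.log N⌉₊ : ℕ) : ℝ)), Real.exp_mul, Real.exp_log (by norm_num),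
            Real.rpow_natCast]
          push_cast
          rw [← pow_succ']
          congr 1
          ring
      _ ≤ Real.exp (2 * Real.log N) := by
          apply Real.exp_le_exp.2
          push_cast
          have e1 : ((y₀ : ℝ) + 3 + ⌈Real.log N⌉₊) * Real.log 4 ≤
              ((y₀ : ℝ) + 3 + (Real.log N + 1)) * Real.log 4 := by gcongr
          have e2 : Real.log N * Real.log 4 ≤ Real.log N * 1.5 := by gcongr
          have e3 : ((y₀ : ℝ) + 5) * Real.log 4 ≤ Real.log N / 2 := by linarith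
          nlinarith
      _ = (N : ℝ) ^ 2 := by
          rw [mul_comm, Real.exp_mul, Real.exp_log hN0]
          norm_num

/-- the conditions on the size -/
theorem ev_fin (K B' H : ℕ) (C₁ R : ℝ) (hK : 1 ≤ K) : ∃ L₀ : ℝ, ∀ L : ℝ, L₀ ≤ L →
    C₁ * (16 * K) * L ^ (B' + 2) ≤ Real.exp (L / K ^ 2) ∧ H * (16 * K) * L ^ (B' + 2) ≤ Real.exp L ∧
    R ≤ L := by
  have key : ∀ (k : ℕ) (a c : ℝ), 0 < a → ∀ᶠ L : ℝ in atTop, c * L ^ k ≤ Real.exp (a * L) := by
    intro k a c ha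
    have h3 := (Real.tendsto_pow_mul_exp_neg_atTop_nhds_zero k)
    have h4 : Tendsto (fun L : ℝ => a * L) atTop atTop := tendsto_id.const_mul_atTop ha
    have h5 := h3.comp h4
    have h6 : ∀ᶠ L : ℝ in atTop, (a * L) ^ k * Real.exp (-(a * L)) < a ^ k / (|c| + 1) :=
      h5.eventually (gt_mem_nhds (by positivity))
    filter_upwards [h6, eventually_ge_atTop 0] with L h7 h8
    rw [Real.exp_neg, ← div_eq_mul_inv, div_lt_iff₀ (Real.exp_pos _), mul_pow,
      div_mul_eq_mul_div, lt_div_iff₀ (by positivity)] at h7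
    have h9 : L ^ k * (|c| + 1) < Real.exp (a * L) := by
      have h10 : 0 < a ^ k := by positivity
      have h11 : a ^ k * (L ^ k * (|c| + 1)) < a ^ k * Real.exp (a * L) := by linarith
      exact lt_of_mul_lt_mul_left h11 h10.le
    have h12 : c * L ^ k ≤ |c| * L ^ k := mul_le_mul_of_nonneg_right (le_abs_self c) (by positivity)
    have h13 : 0 ≤ L ^ k := by positivity
    nlinarith
  have hK0 : (0 : ℝ) < K := by exact_mod_cast hK
  obtain ⟨L₀, hL₀⟩ := eventually_atTop.1 ((key (B' + 2) (1 / (K : ℝ) ^ 2) (C₁ * (16 * K)) (by positivity)).and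
    ((key (B' + 2) 1 (H * (16 * K)) one_pos).and (eventually_ge_atTop R)))
  refine ⟨L₀, fun L hL => ?_⟩
  obtain ⟨h1, h2, h3⟩ := hL₀ L hL
  refine ⟨?_, ?_, h3⟩
  · rwa [one_div_mul_eq_div] at h1
  · rwa [one_mul] at h2

end Pool.Agent.Y855
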