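import Pool.Agent.Y855.B7
import Pool.Agent.Y855.B8
import Pool.Agent.Y855.B10
import Pool.Agent.Y855.B11
import Pool.Agent.Y855.B12
import Pool.Agent.Y855.A17

/-!
Arithmetic progressions of primes with common primitive roots.
-/

set_option autoImplicit false

open Finset Filter

namespace Pool.Agent.Y855

/-- the parameters are admissible -/
theorem okS_of (s₀ : ℝ) (B₁ X y N : ℕ) (L : ℝ) (hLX : L ≤ 2 * Real.log X) (hL1 : 1 ≤ L)
    (hN1 : L ^ (B₁ + 1) ≤ N)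
    (hN2 : (N : ℝ) ≤ L ^ (B₁ + 2)) (hs : s₀ ≤ Real.log N)
    (hy : ∀ p : ℕ, (p : ℝ) ≤ Real.log N → p ≤ y) (hW : ((4 * primorial y : ℕ) : ℝ) ≤ (N : ℝ) ^ 2)
    (hX : (2 : ℝ) ^ (3 * (B₁ + 2)) ≤ Real.log X) :
    OkS (3 * B₁ + 7) s₀ X (4 * primorial y) (4 * primorial y * N) (Real.log N) ∧
    ((4 * primorial y * N : ℕ) : ℝ) ≤ Real.log X ^ (3 * B₁ + 7) ∧
    ((4 * primorial y * N : ℕ) : ℝ) ≤ L ^ (3 * B₁ + 7) := by
  have hP1 : 1 ≤ 4 * primorial y := Nat.mul_pos (by norm_num) (primorial_pos y)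
  have hN1' : (1 : ℝ) ≤ N := (one_le_pow₀ hL1).trans hN1
  have hN0 : (0 : ℝ) < N := by linarith
  have hWN : ((4 * primorial y * N : ℕ) : ℝ) ≤ (N : ℝ) ^ 3 := by
    push_cast at hW ⊢
    calc 4 * (primorial y : ℝ) * N ≤ (N : ℝ) ^ 2 * N := by gcongr
      _ = _ := by ring
  have hN3 : (N : ℝ) ^ 3 ≤ L ^ (3 * (B₁ + 2)) := by
    calc (N : ℝ) ^ 3 ≤ (L ^ (B₁ + 2)) ^ 3 := pow_le_pow_left₀ hN0.le hN2 3
      _ = _ := by rw [← pow_mul]; congr 1; ring
  have hlX0 : 0 < Real.log X := lt_of_lt_of_le (by positivity) hX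
  have hLX3 : L ^ (3 * (B₁ + 2)) ≤ Real.log X ^ (3 * B₁ + 7) := by
    calc L ^ (3 * (B₁ + 2)) ≤ (2 * Real.log X) ^ (3 * (B₁ + 2)) :=
          pow_le_pow_left₀ (by linarith) hLX _
      _ = 2 ^ (3 * (B₁ + 2)) * Real.log X ^ (3 * (B₁ + 2)) := by rw [mul_pow]
      _ ≤ Real.log X * Real.log X ^ (3 * (B₁ + 2)) := by gcongr
      _ = Real.log X ^ (3 * B₁ + 7) := by rw [← pow_succ']; congr 1
  have h1 : ((4 * primorial y * N : ℕ) : ℝ) ≤ Real.log X ^ (3 * B₁ + 7) := hWN.trans (hN3.trans hLX3)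
  have hWle : ((4 * primorial y : ℕ) : ℝ) ≤ ((4 * primorial y * N : ℕ) : ℝ) := by
    have : 4 * primorial y ≤ 4 * primorial y * N := Nat.le_mul_of_pos_right _ (by exact_mod_cast hN0)
    exact_mod_cast this
  refine ⟨⟨hP1, hs, hWle.trans h1, h1, ?_, ?_⟩, h1, ?_⟩
  · intro p hp hpl
    exact (hp.dvd_primorial_iff.2 (hy p hpl)).mul_left 4
  · have h2 : (0 : ℝ) < ((4 * primorial y * N : ℕ) : ℝ) := by
      have : 0 < ((4 * primorial y : ℕ) : ℝ) := by exact_mod_cast hP1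
      linarith
    have h3 := Real.log_le_log h2 hWN
    rw [Real.log_pow] at h3
    have h4 : 0 ≤ Real.log N := Real.log_nonneg hN1'
    refine h3.trans ?_
    push_cast
    linarith
  · refine hWN.trans (hN3.trans (pow_le_pow_right₀ hL1 (by omega)))

/-- the order from the quadratic symbol -/
theorem ord_of (n D b : ℤ) (hn : n = D * b ^ 2) (p : ℕ) (hp : p.Prime) (hp2 : 2 < p)
    (hpn : ¬ (p : ℤ) ∣ n) (hD : jacobiSym D p = -1) (hb : ¬ bad n p) :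
    orderOf ((n : ℤ) : ZMod p) = p - 1 := by
  have : Fact p.Prime := ⟨hp⟩
  rw [order_iff' n p hp2 hpn]
  refine ⟨?_, hb⟩
  rw [jacobiSym.legendreSym.to_jacobiSym, hn, jacobiSym.mul_left, hD, jacobiSym.pow_left]
  have hpb : ¬ (p : ℤ) ∣ b := by
    intro h
    apply hpn
    rw [hn]
    exact (h.trans (dvd_pow_self b (by norm_num))).mul_left D
  have h1 : jacobiSym b p = 1 ∨ jacobiSym b p = -1 := by
    apply jacobiSym.eq_one_or_neg_one
    have h2 : IsCoprime (p : ℤ) b := (Prime.coprime_iff_not_dvd (Nat.prime_iff_prime_int.1 hp)).2 hpb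
    exact Int.isCoprime_iff_gcd_eq_one.1 h2.symm
  rcases h1 with h1 | h1 <;> rw [h1] <;> norm_num

end Pool.Agent.Y855
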