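import Pool.Agent.Y855.B13

/-!
Arithmetic progressions of primes with common primitive roots: the main theorem for finite families.
-/

set_option autoImplicit false

open Finset Filter

namespace Pool.Agent.Y855

open Classical in
/-- the set of good primes is large -/
theorem good_large (K : ℕ) (hK2 : 2 ≤ K) (x W c z : ℕ) (L Q C₁ : ℝ) (B' H : ℕ) (hL1 : 1 ≤ L)
    (hx : (x : ℝ) = Real.exp L)
    (hW1 : 1 ≤ W) (hWL : (W : ℝ) ≤ L ^ B') (hQ : 1 ≤ Q)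
    (hNS : Q * (x / W) / (4 * K * L ^ 2) ≤ ((NS x W c (OP z)).card : ℝ))
    (hf1 : C₁ * (16 * K) * L ^ (B' + 2) ≤ Real.exp (L / K ^ 2))
    (hf2 : H * (16 * K) * L ^ (B' + 2) ≤ Real.exp L)
    (B : Finset ℕ) (hB : (B.card : ℝ) ≤ C₁ * Real.exp ((1 - (1 / (K : ℝ)) ^ 2) * L))
    (FF : Finset (Finset ℤ)) (hFC : 2 * (K * K) < FF.card)
    (hdis : ∀ F ∈ FF, ∀ F' ∈ FF, F ≠ F' → Disjoint F F')
    (hT : ∀ p ∈ NS x W c (OP z), p ∉ B → H < p →
      ((FF.biUnion id).filter (fun n => bad n p)).card ≤ K * K) :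
    ∃ F ∈ FF, 1 / (16 * (K : ℝ)) * (x / W) * Q / L ^ 2 ≤
      (((NS x W c (OP z)).filter (fun p => (p ∉ B ∧ H < p) ∧ ¬ ∃ n ∈ F, bad n p)).card : ℝ) := by
  have hK0 : (0 : ℝ) < K := by exact_mod_cast (show 0 < K by omega)
  have hL0 : 0 < L := by linarith
  have hW0 : (0 : ℝ) < W := by exact_mod_cast hW1
  have hx0 : (0 : ℝ) < x := by rw [hx]; exact Real.exp_pos L
  set T' := (NS x W c (OP z)).filter (fun p => p ∉ B ∧ H < p) with hT'
  obtain ⟨Y, hY⟩ : ∃ Y : ℝ, Y = Q * (x / W) / (K * L ^ 2) := ⟨_, rfl⟩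
  have hY0 : 0 < Y := by rw [hY]; positivity
  have hbase : ∀ e : ℝ, e * (16 * K) * L ^ (B' + 2) ≤ Real.exp L → e ≤ Y / 16 := by
    intro e he
    rw [hY]
    have h1 : e * (16 * K) * L ^ 2 * L ^ B' ≤ x := by
      rw [hx]
      calc e * (16 * K) * L ^ 2 * L ^ B' = e * (16 * K) * L ^ (B' + 2) := by ring
        _ ≤ _ := he
    have h2 : e * (16 * K) * L ^ 2 ≤ x / W := by
      by_cases h0 : e ≤ 0
      · have h4 : e * (16 * K) * L ^ 2 ≤ 0 := by
          have : 0 ≤ (16 * (K : ℝ)) * L ^ 2 := by positivity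
          calc e * (16 * K) * L ^ 2 = e * ((16 * K) * L ^ 2) := by ring
            _ ≤ 0 := mul_nonpos_of_nonpos_of_nonneg h0 this
        exact h4.trans (by positivity)
      · push Not at h0
        rw [le_div_iff₀ hW0]
        calc e * (16 * K) * L ^ 2 * W ≤ e * (16 * K) * L ^ 2 * L ^ B' := by gcongr
          _ ≤ _ := h1
    rw [div_div, le_div_iff₀ (by positivity)]
    have h3 : e * (K * L ^ 2 * 16) = e * (16 * K) * L ^ 2 := by ring
    rw [h3]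
    exact h2.trans (le_mul_of_one_le_left (by positivity) hQ)
  have hBY : (B.card : ℝ) ≤ Y / 16 := by
    apply hbase
    calc (B.card : ℝ) * (16 * K) * L ^ (B' + 2) ≤
        (C₁ * Real.exp ((1 - (1 / (K : ℝ)) ^ 2) * L)) * (16 * K) * L ^ (B' + 2) := by gcongr
      _ = (C₁ * (16 * K) * L ^ (B' + 2)) * Real.exp ((1 - (1 / (K : ℝ)) ^ 2) * L) := by ring
      _ ≤ Real.exp (L / K ^ 2) * Real.exp ((1 - (1 / (K : ℝ)) ^ 2) * L) := by gcongr
      _ = Real.exp L := by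
        rw [← Real.exp_add]
        congr 1
        field_simp
        ring
  have hHY : (H : ℝ) ≤ Y / 16 := hbase H hf2
  have hNS' : Y / 4 ≤ ((NS x W c (OP z)).card : ℝ) := by
    refine le_trans (le_of_eq ?_) hNS
    rw [hY]
    field_simp
  have hcov : NS x W c (OP z) ⊆ T' ∪ (B ∪ Icc 1 H) := by
    intro p hp
    have hp1 : 1 ≤ p := by
      unfold NS at hp
      rw [mem_filter, mem_Icc] at hp
      exact hp.1.1
    rw [mem_union, mem_union, mem_Icc, hT', mem_filter]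
    by_cases h1 : p ∈ B
    · exact Or.inr (Or.inl h1)
    by_cases h2 : H < p
    · exact Or.inl ⟨hp, h1, h2⟩
    · exact Or.inr (Or.inr ⟨hp1, not_lt.1 h2⟩)
  have hc := (card_le_card hcov).trans ((card_union_le _ _).trans
    (Nat.add_le_add_left (card_union_le _ _) _))
  rw [Nat.card_Icc, Nat.add_sub_cancel] at hc
  have hc' : ((NS x W c (OP z)).card : ℝ) ≤ T'.card + (B.card + H) := by exact_mod_cast hc
  have hT'Y : Y / 8 ≤ T'.card := by linarith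
  have hne : FF.Nonempty := by
    rw [← card_pos]
    omega
  obtain ⟨F, hF, hFb⟩ := good_fam K FF hdis hne T' (by
    intro p hp
    rw [hT', mem_filter] at hp
    exact hT p hp.1 hp.2.1 hp.2.2)
  refine ⟨F, hF, ?_⟩
  have hKK : 0 < K * K := Nat.mul_pos (by omega) (by omega)
  have h2 : 2 * (T'.filter (fun p => ∃ n ∈ F, bad n p)).card ≤ T'.card := by
    have h3 : (T'.filter (fun p => ∃ n ∈ F, bad n p)).card * (2 * (K * K)) ≤ K * K * T'.card :=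
      (Nat.mul_le_mul_left _ hFC.le).trans hFb
    have h4 : (K * K) * (2 * (T'.filter (fun p => ∃ n ∈ F, bad n p)).card) ≤ (K * K) * T'.card := by
      calc (K * K) * (2 * (T'.filter (fun p => ∃ n ∈ F, bad n p)).card) =
          (T'.filter (fun p => ∃ n ∈ F, bad n p)).card * (2 * (K * K)) := by ring
        _ ≤ _ := h3
    exact Nat.le_of_mul_le_mul_left h4 hKK
  have h5 := card_filter_add_card_filter_not (s := T') (p := fun p => ∃ n ∈ F, bad n p)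
  have h6 : (NS x W c (OP z)).filter (fun p => (p ∉ B ∧ H < p) ∧ ¬ ∃ n ∈ F, bad n p) =
      T'.filter (fun p => ¬ ∃ n ∈ F, bad n p) := by
    rw [hT', filter_filter]
  rw [h6]
  have h7 : (T'.card : ℝ) ≤ 2 * ((T'.filter (fun p => ¬ ∃ n ∈ F, bad n p)).card : ℝ) := by
    have : T'.card ≤ 2 * (T'.filter (fun p => ¬ ∃ n ∈ F, bad n p)).card := by omega
    exact_mod_cast this
  have h8 : 1 / (16 * (K : ℝ)) * (x / W) * Q / L ^ 2 = Y / 16 := by
    rw [hY]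
    field_simp
  rw [h8]
  linarith

open Classical in
theorem thmAP : ∃ C : ℕ, ∀ k : ℕ, 2 ≤ k → ∃ D : ℕ, ∀ FF : Finset (Finset ℤ), C < FF.card →
    (∀ F ∈ FF, ∀ n ∈ F, 2 ≤ n.natAbs ∧ ¬ (2:ℤ) ∣ n ∧ ¬ (3:ℤ) ∣ n ∧ ¬ IsSquare n) →
    (∀ F ∈ FF, ∀ F' ∈ FF, F ≠ F' → Disjoint F F') →
    (∀ n ∈ FF.biUnion id, ∀ n' ∈ FF.biUnion id, n ≠ n' → IsCoprime n n') →
    ∀ A : ℕ, ∃ F ∈ FF, ∃ a d : ℕ, A ≤ a ∧ 0 < d ∧ (d : ℝ) ≤ Real.log a ^ D ∧
      ∀ j < k, (a + j * d).Prime ∧ ∀ n ∈ F, orderOf ((n : ℤ) : ZMod (a + j * d)) = a + j * d - 1 := by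
  obtain ⟨Kr, hKr1, hcore⟩ := core (1 / 2) (by norm_num)
  obtain ⟨K, hK⟩ : ∃ K : ℕ, K = max ⌈Kr⌉₊ 2 := ⟨_, rfl⟩
  have hK2 : 2 ≤ K := hK ▸ le_max_right _ _
  have hKrK : Kr ≤ K := by
    have h1 : Kr ≤ (⌈Kr⌉₊ : ℝ) := Nat.le_ceil _
    have h2 : ((⌈Kr⌉₊ : ℕ) : ℝ) ≤ K := by exact_mod_cast hK ▸ le_max_left _ _
    linarith
  have hK0 : (0 : ℝ) < K := by exact_mod_cast (show 0 < K by omega)
  have hK2r : (2 : ℝ) ≤ K := by exact_mod_cast hK2
  obtain ⟨κ₀, hκ₀⟩ : ∃ κ₀ : ℝ, κ₀ = 1 / (16 * K) := ⟨_, rfl⟩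
  have hκ₀0 : 0 < κ₀ := by rw [hκ₀]; positivity
  refine ⟨2 * (K * K), fun k hk => ?_⟩
  obtain ⟨s₀, B₁, hAP⟩ := ap_core k hk K (κ₀ / 16) (by positivity)
  obtain ⟨B', hB'⟩ : ∃ B', B' = 3 * B₁ + 7 := ⟨_, rfl⟩
  refine ⟨B', fun FF hFC hF hdis hcop A => ?_⟩
  obtain ⟨X₀, hAP⟩ := hAP B'
  set U := FF.biUnion id with hU
  have hUF : ∀ n ∈ U, 2 ≤ n.natAbs ∧ ¬ (2:ℤ) ∣ n ∧ ¬ (3:ℤ) ∣ n ∧ ¬ IsSquare n := by
    intro n hn
    rw [hU, mem_biUnion] at hn
    obtain ⟨F, hF1, hF2⟩ := hn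
    exact hF F hF1 n hF2
  have hsp : ∀ n : ℤ, ∃ D b : ℤ, n ∈ U → n = D * b ^ 2 ∧ Squarefree D ∧ D ≠ 1 ∧ b ≠ 0 := by
    intro n
    by_cases hn : n ∈ U
    · obtain ⟨D, b, h⟩ := sqf_part (hUF n hn).2.2.2
      exact ⟨D, b, fun _ => h⟩
    · exact ⟨0, 0, fun h => absurd h hn⟩
  choose D b hDb using hsp
  have hDdvd : ∀ n ∈ U, D n ∣ n := by
    intro n hn
    exact ⟨b n ^ 2, (hDb n hn).1⟩
  obtain ⟨y₀, hy₀⟩ : ∃ y₀, y₀ = (U.image D).sup Int.natAbs := ⟨_, rfl⟩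
  obtain ⟨H, hH⟩ : ∃ H, H = U.sup Int.natAbs + 2 := ⟨_, rfl⟩
  obtain ⟨C₁, hC₁, hgm⟩ := gmfew K (by omega) U (fun n hn => (hUF n hn).1) hcop
  obtain ⟨x₀, hx₀3, hcore⟩ := hcore B'
  obtain ⟨L₁, hpar⟩ := params s₀ B₁ y₀
  obtain ⟨m₀, hscale⟩ := scale_pick κ₀ hκ₀0 B'
  obtain ⟨R, hR⟩ : ∃ R : ℝ, R = 2 * X₀ + 2 * A + 2 * 2 ^ (3 * (B₁ + 2)) + |L₁| + 4 := ⟨_, rfl⟩
  obtain ⟨L₂, hev⟩ := ev_fin K B' H C₁ R (by omega)
  obtain ⟨t, ht⟩ : ∃ t : ℕ, t = m₀ + x₀ + 2 * K + ⌈|L₂|⌉₊ + 2 := ⟨_, rfl⟩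
  obtain ⟨L, hL⟩ : ∃ L : ℝ, L = Real.log ((2 : ℝ) ^ (K * t)) := ⟨_, rfl⟩
  have hlog2 : 0.6931471803 < Real.log 2 := Real.log_two_gt_d9
  have hLt : L = K * (t * Real.log 2) := by rw [hL, Real.log_pow]; push_cast; ring
  have ht0 : (0 : ℝ) < t := by
    have : 0 < t := by omega
    exact_mod_cast this
  have htK : 2 * (K : ℝ) ≤ t := by
    have : 2 * K ≤ t := by omega
    exact_mod_cast this
  have htl : (t : ℝ) / 2 ≤ t * Real.log 2 := by nlinarith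
  have hLt2 : (t : ℝ) ≤ L := by
    rw [hLt]
    calc (t : ℝ) = 2 * (t / 2) := by ring
      _ ≤ K * (t * Real.log 2) := by gcongr
  have hL₂L : L₂ ≤ L := by
    have h1 : |L₂| ≤ (⌈|L₂|⌉₊ : ℝ) := Nat.le_ceil _
    have h2 : (⌈|L₂|⌉₊ : ℝ) ≤ t := by
      have : ⌈|L₂|⌉₊ ≤ t := by omega
      exact_mod_cast this
    exact (le_abs_self _).trans (h1.trans (h2.trans hLt2))
  obtain ⟨f1, f2, f3⟩ := hev L hL₂L
  have hX₀0 : (0 : ℝ) ≤ X₀ := Nat.cast_nonneg _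
  have hA0 : (0 : ℝ) ≤ A := Nat.cast_nonneg _
  have hp20 : (0 : ℝ) < 2 ^ (3 * (B₁ + 2)) := by positivity
  have hL₁0 : 0 ≤ |L₁| := abs_nonneg _
  have hL1 : 1 ≤ L := by linarith
  have hL0 : 0 < L := by linarith
  have hL₁L : L₁ ≤ L := by
    have := le_abs_self L₁
    linarith
  obtain ⟨N, y, hNp, hN1, hN2, hy0, hy2, hs, hyp, hWN2⟩ := hpar L hL₁L
  -- the residue class
  obtain ⟨c, hc8, hc0, hc1, hcD⟩ := common_class (U.image D)
    (by
      intro d hd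
      obtain ⟨n, hn, rfl⟩ := mem_image.1 hd
      exact ⟨(hDb n hn).2.1, fun h => (hUF n hn).2.1 (h.trans (hDdvd n hn)),
        fun h => (hUF n hn).2.2.1 (h.trans (hDdvd n hn)), (hDb n hn).2.2.1⟩)
    (by
      intro d hd d' hd' hdd
      obtain ⟨n, hn, rfl⟩ := mem_image.1 hd
      obtain ⟨n', hn', rfl⟩ := mem_image.1 hd'
      have hnn : n ≠ n' := fun h => hdd (by rw [h])
      exact (hcop n hn n' hn' hnn).of_isCoprime_of_dvd_left (hDdvd n hn) |>.of_isCoprime_of_dvd_right (hDdvd n' hn'))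
    (y := y) hy2
    (by
      intro d hd
      have := Finset.le_sup (f := Int.natAbs) hd
      omega)
  obtain ⟨W, hW⟩ : ∃ W : ℕ, W = 4 * primorial y := ⟨_, rfl⟩
  have hW1 : 1 ≤ W := by rw [hW]; exact Nat.mul_pos (by norm_num) (primorial_pos y)
  have h2W : 2 ∣ W := by
    rw [hW]
    exact (by norm_num : 2 ∣ 4).mul_right _
  have hW0 : (0 : ℝ) < W := by exact_mod_cast hW1
  have hφ0 : (0 : ℝ) < W.totient := by exact_mod_cast Nat.totient_pos.2 hW1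
  have hqW : ∀ q : ℕ, q.Prime → q ∣ W → q ≠ 2 → q ≤ y := by
    intro q hq hqW hq2
    rw [hW] at hqW
    rcases (Nat.Prime.dvd_mul hq).1 hqW with h | h
    · exfalso
      have h4 : q ∣ 2 ^ 2 := by norm_num; exact h
      exact hq2 ((Nat.prime_dvd_prime_iff_eq hq Nat.prime_two).1 (hq.dvd_of_dvd_pow h4))
    · exact hq.dvd_primorial_iff.1 h
  have hcW : c.Coprime W := by
    rw [Nat.coprime_iff_gcd_eq_one]
    by_contra hne
    obtain ⟨q, hq, hqd⟩ := Nat.exists_prime_and_dvd hne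
    have h1 := hqd.trans (Nat.gcd_dvd_left _ _)
    by_cases hq2 : q = 2
    · rw [hq2] at h1
      omega
    · exact hc0 q hq (hqW q hq (hqd.trans (Nat.gcd_dvd_right _ _)) hq2) h1
  have hcq : ∀ q ∈ W.primeFactors, 3 ≤ q → c % q ≠ 1 := by
    intro q hq hq3 h
    have hqp := Nat.prime_of_mem_primeFactors hq
    have h1 := hc1 q hqp (hqW q hqp (Nat.dvd_of_mem_primeFactors hq) (by omega)) (by
      unfold Nat.ModEq
      rw [h, Nat.mod_eq_of_lt hqp.one_lt])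
    omega
  obtain ⟨Q, hQ⟩ : ∃ Q : ℝ, Q = ((W : ℝ) / W.totient) ^ 2 := ⟨_, rfl⟩
  have hQ1 : 1 ≤ Q := by
    rw [hQ]
    apply one_le_pow₀
    rw [one_le_div hφ0]
    exact_mod_cast Nat.totient_le W
  -- the size of `W`
  have hWNL : ((W * N : ℕ) : ℝ) ≤ L ^ B' := by
    have h1 : (N : ℝ) ^ 3 ≤ L ^ (3 * (B₁ + 2)) := by
      calc (N : ℝ) ^ 3 ≤ (L ^ (B₁ + 2)) ^ 3 := pow_le_pow_left₀ (Nat.cast_nonneg _) hN2 3
        _ = _ := by rw [← pow_mul]; congr 1; ring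
    rw [← hW] at hWN2
    calc ((W * N : ℕ) : ℝ) = (W : ℝ) * N := by push_cast; ring
      _ ≤ (N : ℝ) ^ 2 * N := by gcongr
      _ = (N : ℝ) ^ 3 := by ring
      _ ≤ L ^ (3 * (B₁ + 2)) := h1
      _ ≤ L ^ B' := pow_le_pow_right₀ hL1 (by omega)
  have hWL : (W : ℝ) ≤ L ^ B' := by
    refine le_trans ?_ hWNL
    have : W ≤ W * N := Nat.le_mul_of_pos_right _ hNp.pos
    exact_mod_cast this
  -- the sifted primes
  obtain ⟨x, hx⟩ : ∃ x : ℕ, x = 2 ^ (K * t) := ⟨_, rfl⟩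
  obtain ⟨z, hz⟩ : ∃ z : ℕ, z = 2 ^ t := ⟨_, rfl⟩
  have hxr : (x : ℝ) = (2 : ℝ) ^ (K * t) := by rw [hx]; push_cast; rfl
  have hzr : (z : ℝ) = (2 : ℝ) ^ t := by rw [hz]; push_cast; rfl
  have hLx : L = Real.log x := by rw [hL, hxr]
  have hxe : (x : ℝ) = Real.exp L := by rw [hL, Real.exp_log (by positivity), hxr]
  have hlz : Real.log z = t * Real.log 2 := by rw [hzr, Real.log_pow]
  have hx0x : x₀ ≤ x := by
    rw [hx]
    calc x₀ ≤ t := by omega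
      _ ≤ 2 ^ t := Nat.lt_two_pow_self.le
      _ ≤ 2 ^ (K * t) := Nat.pow_le_pow_right (by norm_num) (Nat.le_mul_of_pos_left t (by omega))
  obtain ⟨-, hcz⟩ := hcore x hx0x
  obtain ⟨-, -, hTT0, hTTl, -, hNSc⟩ := hcz z (by
      rw [← hLx, hlz]
      apply Real.sqrt_le_iff.2
      refine ⟨by positivity, ?_⟩
      rw [hLt, pow_two]
      have : (K : ℝ) ≤ t * Real.log 2 := by linarith
      have h0 : 0 ≤ t * Real.log 2 := by positivity
      exact mul_le_mul_of_nonneg_right this h0) (by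
      rw [hxr, hzr]
      calc ((2 : ℝ) ^ t) ^ Kr ≤ ((2 : ℝ) ^ t) ^ (K : ℝ) :=
            Real.rpow_le_rpow_of_exponent_le (one_le_pow₀ (by norm_num)) hKrK
        _ = (2 : ℝ) ^ (K * t) := by
          rw [Real.rpow_natCast, ← pow_mul, mul_comm])
  have hNSc' := hNSc W c hW1 (by rw [← hLx]; exact hWL) hcW hcq
  have hcl := cl_low W hW1 h2W
  rw [← hQ] at hcl
  rw [← hLx] at hTTl
  have hNS : Q * (x / W) / (4 * K * L ^ 2) ≤ ((NS x W c (OP z)).card : ℝ) := by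
    have h1 := (abs_le.1 hNSc').1
    have hx0 : (0 : ℝ) < x := by rw [hxe]; exact Real.exp_pos L
    have hlz0 : 0 < Real.log z := by rw [hlz]; positivity
    have hlzL : Real.log z ≤ L := by
      rw [hlz, hLt]
      have : 0 ≤ (t : ℝ) * Real.log 2 := by positivity
      nlinarith
    have hKr0 : 0 < Kr := by linarith
    have h2 : (x : ℝ) / (K * L ^ 2) ≤ ((TT x z).card : ℝ) := by
      refine le_trans ?_ hTTl
      apply div_le_div_of_nonneg_left hx0.le (by positivity)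
      calc Kr * (L * Real.log z) ≤ K * (L * L) := by gcongr
        _ = _ := by ring
    have hcl0 : 0 < cl W := cl_pos W hW1
    have h3 : 1 / 2 * (cl W * (TT x z).card) ≤ ((NS x W c (OP z)).card : ℝ) := by linarith
    refine le_trans ?_ h3
    calc Q * (x / W) / (4 * K * L ^ 2) = 1 / 2 * ((1 / 2 * (1 / (W : ℝ)) * Q) * (x / (K * L ^ 2))) := by
          field_simp
          norm_num
      _ ≤ 1 / 2 * (cl W * (TT x z).card) := by gcongr
  obtain ⟨B, hB1, hB2⟩ := hgm t (by omega)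
  rw [← hL] at hB1
  have hHn : ∀ n ∈ U, ∀ p : ℕ, H < p → ¬ (p : ℤ) ∣ n := by
    intro n hn p hp hd
    have h9 := Int.natAbs_dvd_natAbs.2 hd
    rw [Int.natAbs_natCast] at h9
    have h10 := Nat.le_of_dvd (by have := (hUF n hn).1; omega) h9
    have h11 : n.natAbs ≤ U.sup Int.natAbs := Finset.le_sup (f := Int.natAbs) hn
    omega
  have hNSTT : ∀ p ∈ NS x W c (OP z), p ∈ TT x z := by
    intro p hp
    unfold NS at hp
    unfold TT
    rw [mem_filter] at hp ⊢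
    exact ⟨hp.1, hp.2.1, hp.2.2.2⟩
  obtain ⟨F, hFF, hFl⟩ := good_large K hK2 x W c z L Q C₁ B' H hL1 hxe hW1 hWL hQ1 hNS f1 f2 B hB1
    FF hFC hdis (by
      intro p hp hpB hpH
      apply hB2 p _ hpB (fun n hn => hHn n hn p hpH)
      rw [← hx, ← hz]
      exact hNSTT p hp)
  rw [← hκ₀] at hFl
  set S := (NS x W c (OP z)).filter (fun p => (p ∉ B ∧ H < p) ∧ ¬ ∃ n ∈ F, bad n p) with hS
  obtain ⟨X, hX1, hX2, hX3⟩ := hscale (K * t) (by
      calc m₀ ≤ t := by omega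
        _ ≤ K * t := Nat.le_mul_of_pos_left t (by omega)) W N Q L hL hW1 hQ1 hWL hWNL S (by
      intro p hp
      rw [hS, mem_filter] at hp
      have := hp.1
      unfold NS at this
      rw [mem_filter, mem_Icc] at this
      rw [← hx]
      exact this.1) (by
      rw [← hxr]
      exact hFl)
  have hlXL : L / 2 ≤ Real.log X := by linarith
  have hlX0 : 0 < Real.log X := by linarith
  have hX0 : (0 : ℝ) < X := by
    rcases Nat.eq_zero_or_pos X with h | h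
    · rw [h] at hlX0
      norm_num at hlX0
    · exact_mod_cast h
  have hXl : L / 2 ≤ X := by
    refine hlXL.trans ?_
    have := Real.log_le_sub_one_of_pos hX0
    linarith
  have hX₀X : X₀ ≤ X := by
    have : (X₀ : ℝ) ≤ X := by linarith
    exact_mod_cast this
  have hAX : A ≤ X := by
    have : (A : ℝ) ≤ X := by linarith
    exact_mod_cast this
  have hlXle : Real.log X ≤ L := by
    rw [hLx]
    apply Real.log_le_log hX0
    have : X ≤ x := by rw [hx]; omega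
    exact_mod_cast this
  obtain ⟨hOk, hWNX, -⟩ := okS_of s₀ B₁ X y N L hX2 hL1 hN1 hN2 hs hyp hWN2 (by linarith)
  rw [← hW, ← hB'] at hOk
  rw [← hW, ← hB'] at hWNX
  obtain ⟨a, d, hXa, hd0, hdW, had⟩ := hAP X W N c (Real.log N) hX₀X hNp (by
      refine le_trans ?_ hN1
      calc Real.log X ^ B₁ ≤ L ^ B₁ := pow_le_pow_left₀ hlX0.le hlXle _
        _ ≤ L ^ (B₁ + 1) := pow_le_pow_right₀ hL1 (by omega)) (Nat.le_of_dvd hW1 h2W) hOk
    (S.filter (fun n => X + W * N < n ∧ n ≤ 2 * X)) (by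
      intro p hp
      rw [mem_filter, hS, mem_filter] at hp
      obtain ⟨⟨hpNS, -⟩, hp1, hp2⟩ := hp
      unfold NS at hpNS
      rw [mem_filter, mem_Icc] at hpNS
      obtain ⟨⟨hp3, hpx⟩, hpp, hpc, hpq⟩ := hpNS
      refine ⟨hp1, hp2, hpc, ?_, ?_⟩
      · intro q hq hqp _
        have := (Nat.prime_dvd_prime_iff_eq hq hpp).1 hqp
        rw [this]
        calc X < p := by omega
          _ = p ^ 1 := (pow_one p).symm
          _ ≤ p ^ K := Nat.pow_le_pow_right hpp.pos (by omega)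
      · intro q hq hqp hqW'
        have hq2 : q ≠ 2 := by
          rintro rfl
          exact hqW' h2W
        have hq3 : 3 ≤ q := by
          have := hq.two_le
          omega
        have hqz : z < q := by
          by_contra hcon
          exact hpq q (mem_OP.2 ⟨hq, hq3, not_lt.1 hcon⟩) hqp
        calc X < x := by rw [hx]; omega
          _ = z ^ K := by rw [hx, hz, ← pow_mul, mul_comm]
          _ ≤ q ^ K := Nat.pow_le_pow_left hqz.le K) (by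
      rw [hQ] at hX3
      exact hX3)
  refine ⟨F, hFF, a, d, by omega, hd0, ?_, ?_⟩
  · have h1 : (d : ℝ) ≤ ((W * N : ℕ) : ℝ) := by exact_mod_cast hdW
    refine h1.trans (hWNX.trans ?_)
    apply pow_le_pow_left₀ hlX0.le
    apply Real.log_le_log hX0
    exact_mod_cast hXa.le
  · intro j hj
    have h1 := had j hj
    rw [mem_filter, hS, mem_filter] at h1
    obtain ⟨⟨hpNS, ⟨-, hHp⟩, hbad⟩, -⟩ := h1
    unfold NS at hpNS
    rw [mem_filter, mem_Icc] at hpNS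
    obtain ⟨-, hpp, hpc, -⟩ := hpNS
    refine ⟨hpp, fun n hn => ?_⟩
    have hnU : n ∈ U := by
      rw [hU, mem_biUnion]
      exact ⟨F, hFF, hn⟩
    refine ord_of n (D n) (b n) (hDb n hnU).1 _ hpp (by omega) (hHn n hnU _ hHp) ?_ (fun h => hbad ⟨n, hn, h⟩)
    apply hcD (D n) (mem_image_of_mem D hnU)
    rw [← hW]
    exact hpc

end Pool.Agent.Y855
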