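import Pool.Agent.Y855.B13

/-!
Narrow arithmetic progressions of primes in a residue class with few bad elements: the general
theorem.
-/

set_option autoImplicit false

open Finset Filter

namespace Pool.Agent.Y855

theorem params' (s₀ : ℝ) (B₁ y₀ w₀ : ℕ) (hw₀ : 1 ≤ w₀) : ∃ L₀ : ℝ, ∀ L : ℝ, L₀ ≤ L → ∃ N y : ℕ, N.Prime ∧
    L ^ (B₁ + 1) ≤ N ∧ (N : ℝ) ≤ L ^ (B₁ + 2) ∧ y₀ ≤ y ∧ 2 ≤ y ∧ s₀ ≤ Real.log N ∧
    (∀ p : ℕ, (p : ℝ) ≤ Real.log N → p ≤ y) ∧ ((w₀ * primorial y : ℕ) : ℝ) ≤ (N : ℝ) ^ 2 := by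
  have h1 : ∀ᶠ L : ℝ in atTop, s₀ ≤ Real.log L ∧ 2 * ((y₀ : ℝ) + w₀ + 5) * Real.log 4 ≤ Real.log L :=
    (Real.tendsto_log_atTop.eventually_ge_atTop s₀).and
      (Real.tendsto_log_atTop.eventually_ge_atTop (2 * ((y₀ : ℝ) + w₀ + 5) * Real.log 4))
  obtain ⟨L₀, hL₀⟩ := eventually_atTop.1 (h1.and (eventually_ge_atTop (5 : ℝ)))
  refine ⟨L₀, fun L hL => ?_⟩
  obtain ⟨⟨g1, g2⟩, g3⟩ := hL₀ L hL
  have hL0 : 0 < L := by linarith
  have hL1 : 1 ≤ L := by linarith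
  have hP : L ≤ L ^ (B₁ + 1) := by
    calc L = L ^ 1 := (pow_one L).symm
      _ ≤ _ := pow_le_pow_right₀ hL1 (by omega)
  have hn1 : L ^ (B₁ + 1) ≤ (⌈L ^ (B₁ + 1)⌉₊ : ℕ) := Nat.le_ceil _
  have hn2 : ((⌈L ^ (B₁ + 1)⌉₊ : ℕ) : ℝ) ≤ L ^ (B₁ + 1) + 1 := (Nat.ceil_lt_add_one (by positivity)).le
  generalize ⌈L ^ (B₁ + 1)⌉₊ = n at hn1 hn2
  have hn0 : n ≠ 0 := by
    rintro rfl
    push_cast at hn1
    linarith
  obtain ⟨N, hNp, hN1, hN2⟩ := Nat.exists_prime_lt_and_le_two_mul n hn0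
  have hN1' : (n : ℝ) < N := by exact_mod_cast hN1
  have hN2' : (N : ℝ) ≤ 2 * n := by exact_mod_cast hN2
  have hN0 : (0 : ℝ) < N := by linarith
  have hLN : L ≤ N := by linarith
  have hlogLN : Real.log L ≤ Real.log N := Real.log_le_log hL0 hLN
  have hlN0 : 0 ≤ Real.log N := Real.log_nonneg (by linarith)
  have hc : (⌈Real.log N⌉₊ : ℝ) ≤ Real.log N + 1 := (Nat.ceil_lt_add_one hlN0).le
  refine ⟨N, y₀ + 2 + ⌈Real.log N⌉₊, hNp, by linarith, ?_, by omega, by omega, by linarith, ?_, ?_⟩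
  · calc (N : ℝ) ≤ 2 * n := hN2'
      _ ≤ 2 * (L ^ (B₁ + 1) + 1) := by linarith
      _ ≤ 4 * L ^ (B₁ + 1) := by linarith
      _ ≤ L ^ (B₁ + 1) * L := by
        have : 0 < L ^ (B₁ + 1) := by positivity
        nlinarith
      _ = L ^ (B₁ + 2) := by rw [← pow_succ]
  · intro p hp
    have h2 : (p : ℝ) ≤ ⌈Real.log N⌉₊ := hp.trans (Nat.le_ceil _)
    have h3 : p ≤ ⌈Real.log N⌉₊ := by exact_mod_cast h2
    omega
  · have h4 : Real.log 4 ≤ 1.5 := by
      have : Real.log 4 = 2 * Real.log 2 := by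
        rw [show (4 : ℝ) = 2 ^ 2 by norm_num, Real.log_pow]; push_cast; ring
      rw [this]
      linarith [Real.log_two_lt_d9]
    have h40 : 0 < Real.log 4 := Real.log_pos (by norm_num)
    calc ((w₀ * primorial (y₀ + 2 + ⌈Real.log N⌉₊) : ℕ) : ℝ)
        ≤ ((4 ^ w₀ * 4 ^ (y₀ + 2 + ⌈Real.log N⌉₊) : ℕ) : ℝ) := by
          have hw4 : w₀ ≤ 4 ^ w₀ := (Nat.lt_pow_self (by norm_num)).le
          exact_mod_cast Nat.mul_le_mul hw4 (primorial_le_four_pow _)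
      _ = Real.exp (((w₀ + (y₀ + 2 + ⌈Real.log N⌉₊) : ℕ) : ℝ) * Real.log 4) := by
          rw [mul_comm (((w₀ + (y₀ + 2 + ⌈Real.log N⌉₊) : ℕ) : ℝ)), Real.exp_mul, Real.exp_log (by norm_num),
            Real.rpow_natCast]
          push_cast
          rw [← pow_add]
      _ ≤ Real.exp (2 * Real.log N) := by
          apply Real.exp_le_exp.2
          push_cast
          have e1 : ((w₀ : ℝ) + (y₀ + 2 + ⌈Real.log N⌉₊)) * Real.log 4 ≤
              ((w₀ : ℝ) + (y₀ + 2 + (Real.log N + 1))) * Real.log 4 := by gcongr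
          have e2 : Real.log N * Real.log 4 ≤ Real.log N * 1.5 := by gcongr
          have e3 : ((y₀ : ℝ) + w₀ + 5) * Real.log 4 ≤ Real.log N / 2 := by linarith
          nlinarith
      _ = (N : ℝ) ^ 2 := by
          rw [mul_comm, Real.exp_mul, Real.exp_log hN0]
          norm_num

/-- the parameters are admissible -/
theorem okS_of' (s₀ : ℝ) (B₁ X y N w₀ : ℕ) (hw₀ : 1 ≤ w₀) (L : ℝ) (hLX : L ≤ 2 * Real.log X) (hL1 : 1 ≤ L)
    (hN1 : L ^ (B₁ + 1) ≤ N)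
    (hN2 : (N : ℝ) ≤ L ^ (B₁ + 2)) (hs : s₀ ≤ Real.log N)
    (hy : ∀ p : ℕ, (p : ℝ) ≤ Real.log N → p ≤ y) (hW : ((w₀ * primorial y : ℕ) : ℝ) ≤ (N : ℝ) ^ 2)
    (hX : (2 : ℝ) ^ (3 * (B₁ + 2)) ≤ Real.log X) :
    OkS (3 * B₁ + 7) s₀ X (w₀ * primorial y) (w₀ * primorial y * N) (Real.log N) ∧
    ((w₀ * primorial y * N : ℕ) : ℝ) ≤ Real.log X ^ (3 * B₁ + 7) := by
  have hP1 : 1 ≤ w₀ * primorial y := Nat.mul_pos hw₀ (primorial_pos y)
  have hN1' : (1 : ℝ) ≤ N := (one_le_pow₀ hL1).trans hN1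
  have hN0 : (0 : ℝ) < N := by linarith
  have hWN : ((w₀ * primorial y * N : ℕ) : ℝ) ≤ (N : ℝ) ^ 3 := by
    push_cast at hW ⊢
    calc w₀ * (primorial y : ℝ) * N ≤ (N : ℝ) ^ 2 * N := by gcongr
      _ = _ := by ring
  have hN3 : (N : ℝ) ^ 3 ≤ L ^ (3 * (B₁ + 2)) := by
    calc (N : ℝ) ^ 3 ≤ (L ^ (B₁ + 2)) ^ 3 := pow_le_pow_left₀ hN0.le hN2 3
      _ = _ := by rw [← pow_mul]; congr 1; ring
  have hlX0 : 0 < Real.log X := lt_of_lt_of_le (by positivity) hX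
  have hLX3 : L ^ (3 * (B₁ + 2)) ≤ Real.log X ^ (3 * B₁ + 7) := by
    calc L ^ (3 * (B₁ + 2)) ≤ (2 * Real.log X) ^ (3 * (B₁ + 2)) :=
          pow_le_pow_left₀ (by linarith) hLX _
      _ = 2 ^ (3 * (B₁ + 2)) * Real.log X ^ (3 * (B₁ + 2)) := by rw [mul_pow]
      _ ≤ Real.log X * Real.log X ^ (3 * (B₁ + 2)) := by gcongr
      _ = Real.log X ^ (3 * B₁ + 7) := by rw [← pow_succ']; congr 1
  have h1 : ((w₀ * primorial y * N : ℕ) : ℝ) ≤ Real.log X ^ (3 * B₁ + 7) := hWN.trans (hN3.trans hLX3)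
  have hWle : ((w₀ * primorial y : ℕ) : ℝ) ≤ ((w₀ * primorial y * N : ℕ) : ℝ) := by
    have : w₀ * primorial y ≤ w₀ * primorial y * N := Nat.le_mul_of_pos_right _ (by exact_mod_cast hN0)
    exact_mod_cast this
  refine ⟨⟨hP1, hs, hWle.trans h1, h1, ?_, ?_⟩, h1⟩
  · intro p hp hpl
    exact (hp.dvd_primorial_iff.2 (hy p hpl)).mul_left w₀
  · have h2 : (0 : ℝ) < ((w₀ * primorial y * N : ℕ) : ℝ) := by
      have : 0 < ((w₀ * primorial y : ℕ) : ℝ) := by exact_mod_cast hP1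
      linarith
    have h3 := Real.log_le_log h2 hWN
    rw [Real.log_pow] at h3
    have h4 : 0 ≤ Real.log N := Real.log_nonneg hN1'
    refine h3.trans ?_
    push_cast
    linarith

open Classical in
/-- one of the indices has few bad primes -/
theorem good_fam' {ι : Type*} (M : ℕ) (I : Finset ι) (bd : ι → ℕ → Prop) (hI : I.Nonempty) (T : Finset ℕ)
    (hT : ∀ p ∈ T, (I.filter (fun i => bd i p)).card ≤ M) :
    ∃ i ∈ I, (T.filter (fun p => bd i p)).card * I.card ≤ M * T.card := by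
  have hsum : ∑ i ∈ I, (T.filter (fun p => bd i p)).card ≤ T.card * M := by
    have e1 : ∀ i ∈ I, (T.filter (fun p => bd i p)).card = ∑ p ∈ T, if bd i p then 1 else 0 :=
      fun i _ => card_filter _ _
    rw [sum_congr rfl e1, sum_comm]
    refine (sum_le_card_nsmul _ _ M fun p hp => ?_).trans (by rw [smul_eq_mul])
    rw [← card_filter]
    exact hT p hp
  by_contra hcon
  push Not at hcon
  have h1 : ∑ i ∈ I, M * T.card < ∑ i ∈ I, (T.filter (fun p => bd i p)).card * I.card :=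
    sum_lt_sum_of_nonempty hI hcon
  rw [sum_const, smul_eq_mul, ← sum_mul] at h1
  have h2 := Nat.mul_le_mul_right I.card hsum
  have h3 : T.card * M * I.card = I.card * (M * T.card) := by ring
  omega

open Classical in
/-- the set of good primes is large -/
theorem good_large' {ι : Type*} (K : ℕ) (hK2 : 2 ≤ K) (x W c z : ℕ) (L Q C₁ : ℝ) (B' H : ℕ) (hL1 : 1 ≤ L)
    (hx : (x : ℝ) = Real.exp L)
    (hW1 : 1 ≤ W) (hWL : (W : ℝ) ≤ L ^ B') (hQ : 1 ≤ Q)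
    (hNS : Q * (x / W) / (4 * K * L ^ 2) ≤ ((NS x W c (OP z)).card : ℝ))
    (hf1 : C₁ * (16 * K) * L ^ (B' + 2) ≤ Real.exp (L / K ^ 2))
    (hf2 : H * (16 * K) * L ^ (B' + 2) ≤ Real.exp L)
    (B : Finset ℕ) (hB : (B.card : ℝ) ≤ C₁ * Real.exp ((1 - (1 / (K : ℝ)) ^ 2) * L))
    (M : ℕ) (I : Finset ι) (bd : ι → ℕ → Prop) (hIC : 2 * M < I.card)
    (hT : ∀ p ∈ NS x W c (OP z), p ∉ B → H < p → (I.filter (fun i => bd i p)).card ≤ M) :
    ∃ i ∈ I, 1 / (16 * (K : ℝ)) * (x / W) * Q / L ^ 2 ≤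
      (((NS x W c (OP z)).filter (fun p => (p ∉ B ∧ H < p) ∧ ¬ bd i p)).card : ℝ) := by
  have hK0 : (0 : ℝ) < K := by exact_mod_cast (show 0 < K by omega)
  have hL0 : 0 < L := by linarith
  have hW0 : (0 : ℝ) < W := by exact_mod_cast hW1
  have hx0 : (0 : ℝ) < x := by rw [hx]; exact Real.exp_pos L
  set T' := (NS x W c (OP z)).filter (fun p => p ∉ B ∧ H < p) with hT'
  obtain ⟨Y, hY⟩ : ∃ Y : ℝ, Y = Q * (x / W) / (K * L ^ 2) := ⟨_, rfl⟩
  have hY0 : 0 < Y := by rw [hY]; positivity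
  have hbase : ∀ e : ℝ, e * (16 * K) * L ^ (B' + 2) ≤ Real.exp L → e ≤ Y / 16 := by
    intro e he
    rw [hY]
    have h1 : e * (16 * K) * L ^ 2 * L ^ B' ≤ x := by
      rw [hx]
      calc e * (16 * K) * L ^ 2 * L ^ B' = e * (16 * K) * L ^ (B' + 2) := by ring
        _ ≤ _ := he
    have h2 : e * (16 * K) * L ^ 2 ≤ x / W := by
      by_cases h0 : e ≤ 0
      · have h4 : e * (16 * K) * L ^ 2 ≤ 0 := by
          have : 0 ≤ (16 * (K : ℝ)) * L ^ 2 := by positivity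
          calc e * (16 * K) * L ^ 2 = e * ((16 * K) * L ^ 2) := by ring
            _ ≤ 0 := mul_nonpos_of_nonpos_of_nonneg h0 this
        exact h4.trans (by positivity)
      · push Not at h0
        rw [le_div_iff₀ hW0]
        calc e * (16 * K) * L ^ 2 * W ≤ e * (16 * K) * L ^ 2 * L ^ B' := by gcongr
          _ ≤ _ := h1
    rw [div_div, le_div_iff₀ (by positivity)]
    have h3 : e * (K * L ^ 2 * 16) = e * (16 * K) * L ^ 2 := by ring
    rw [h3]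
    exact h2.trans (le_mul_of_one_le_left (by positivity) hQ)
  have hBY : (B.card : ℝ) ≤ Y / 16 := by
    apply hbase
    calc (B.card : ℝ) * (16 * K) * L ^ (B' + 2) ≤
        (C₁ * Real.exp ((1 - (1 / (K : ℝ)) ^ 2) * L)) * (16 * K) * L ^ (B' + 2) := by gcongr
      _ = (C₁ * (16 * K) * L ^ (B' + 2)) * Real.exp ((1 - (1 / (K : ℝ)) ^ 2) * L) := by ring
      _ ≤ Real.exp (L / K ^ 2) * Real.exp ((1 - (1 / (K : ℝ)) ^ 2) * L) := by gcongr
      _ = Real.exp L := by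
        rw [← Real.exp_add]
        congr 1
        field_simp
        ring
  have hHY : (H : ℝ) ≤ Y / 16 := hbase H hf2
  have hNS' : Y / 4 ≤ ((NS x W c (OP z)).card : ℝ) := by
    refine le_trans (le_of_eq ?_) hNS
    rw [hY]
    field_simp
  have hcov : NS x W c (OP z) ⊆ T' ∪ (B ∪ Icc 1 H) := by
    intro p hp
    have hp1 : 1 ≤ p := by
      unfold NS at hp
      rw [mem_filter, mem_Icc] at hp
      exact hp.1.1
    rw [mem_union, mem_union, mem_Icc, hT', mem_filter]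
    by_cases h1 : p ∈ B
    · exact Or.inr (Or.inl h1)
    by_cases h2 : H < p
    · exact Or.inl ⟨hp, h1, h2⟩
    · exact Or.inr (Or.inr ⟨hp1, not_lt.1 h2⟩)
  have hc := (card_le_card hcov).trans ((card_union_le _ _).trans
    (Nat.add_le_add_left (card_union_le _ _) _))
  rw [Nat.card_Icc, Nat.add_sub_cancel] at hc
  have hc' : ((NS x W c (OP z)).card : ℝ) ≤ T'.card + (B.card + H) := by exact_mod_cast hc
  have hT'Y : Y / 8 ≤ T'.card := by linarith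
  have hne : I.Nonempty := by
    rw [← card_pos]
    omega
  obtain ⟨i, hi, hib⟩ := good_fam' M I bd hne T' (by
    intro p hp
    rw [hT', mem_filter] at hp
    exact hT p hp.1 hp.2.1 hp.2.2)
  refine ⟨i, hi, ?_⟩
  have h2 : 2 * (T'.filter (fun p => bd i p)).card ≤ T'.card := by
    have h3 : (T'.filter (fun p => bd i p)).card * (2 * M + 1) ≤ M * T'.card :=
      (Nat.mul_le_mul_left _ hIC).trans hib
    by_contra hcon
    push Not at hcon
    have h4 : T'.card * (2 * M + 1) < (2 * (T'.filter (fun p => bd i p)).card) * (2 * M + 1) :=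
      Nat.mul_lt_mul_of_pos_right hcon (by omega)
    have h5 : (2 * (T'.filter (fun p => bd i p)).card) * (2 * M + 1) =
      2 * ((T'.filter (fun p => bd i p)).card * (2 * M + 1)) := by ring
    have h6 : T'.card * (2 * M + 1) = 2 * (M * T'.card) + T'.card := by ring
    omega
  have h5 := card_filter_add_card_filter_not (s := T') (p := fun p => bd i p)
  have h6 : (NS x W c (OP z)).filter (fun p => (p ∉ B ∧ H < p) ∧ ¬ bd i p) =
      T'.filter (fun p => ¬ bd i p) := by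
    rw [hT', filter_filter]
  rw [h6]
  have h7 : (T'.card : ℝ) ≤ 2 * ((T'.filter (fun p => ¬ bd i p)).card : ℝ) := by
    have : T'.card ≤ 2 * (T'.filter (fun p => ¬ bd i p)).card := by omega
    exact_mod_cast this
  have h8 : 1 / (16 * (K : ℝ)) * (x / W) * Q / L ^ 2 = Y / 16 := by
    rw [hY]
    field_simp
  rw [h8]
  linarith

end Pool.Agent.Y855
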