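import Pool.Agent.Y855.A14
import Pool.Agent.Y848.MS.Ord

/-!
Few primes modulo which many groups of rational numbers consist of powers.
-/

set_option autoImplicit false

open Finset

namespace Pool.Agent.Y855

/-- the integer attached to an exponent vector, for the rational numbers `a i / c i` -/
def Mr {r : ℕ} (a c : Fin r → ℤ) (v : Fin r → ℤ) : ℤ :=
  ∏ i, (a i ^ (v i).toNat * c i ^ (-v i).toNat) - ∏ i, (c i ^ (v i).toNat * a i ^ (-v i).toNat)

/-- multiplicative independence of rational numbers -/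
def Ind {r : ℕ} (b : Fin r → ℚ) : Prop := ∀ e : Fin r → ℤ, ∏ i, b i ^ e i = 1 → ∀ i, e i = 0

theorem Mr_ne {r : ℕ} {b : Fin r → ℚ} (hb : ∀ i, b i ≠ 0) (hI : Ind b) {v : Fin r → ℤ} (hv : v ≠ 0) :
    Mr (fun i => (b i).num) (fun i => ((b i).den : ℤ)) v ≠ 0 := by
  intro h
  unfold Mr at h
  rw [sub_eq_zero] at h
  apply hv
  funext i
  apply hI v
  have hd : ∀ i, ((b i).den : ℚ) ≠ 0 := fun i => by exact_mod_cast (b i).den_nz
  have hn : ∀ i, ((b i).num : ℚ) ≠ 0 := fun i => by exact_mod_cast Rat.num_ne_zero.2 (hb i)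
  have h1 : ∏ i, (((b i).num : ℚ) ^ (v i).toNat * ((b i).den : ℚ) ^ (-v i).toNat) =
      ∏ i, (((b i).den : ℚ) ^ (v i).toNat * ((b i).num : ℚ) ^ (-v i).toNat) := by
    exact_mod_cast h
  have h2 : ∀ i, b i ^ v i = (((b i).num : ℚ) ^ (v i).toNat * ((b i).den : ℚ) ^ (-v i).toNat) /
      (((b i).den : ℚ) ^ (v i).toNat * ((b i).num : ℚ) ^ (-v i).toNat) := by
    intro i
    rw [eq_div_iff (mul_ne_zero (pow_ne_zero _ (hd i)) (pow_ne_zero _ (hn i)))]
    have e1 : b i ^ v i = b i ^ ((v i).toNat : ℤ) / b i ^ ((-v i).toNat : ℤ) := by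
      rw [← zpow_sub₀ (hb i), Int.toNat_sub_toNat_neg]
    rw [e1, zpow_natCast, zpow_natCast, ← Rat.num_div_den (b i)]
    have e2 : ((b i).num : ℚ) / (b i).den ≠ 0 := div_ne_zero (hn i) (hd i)
    have hd' := hd i
    have hn' := hn i
    simp only [Rat.num_div_den]
    generalize (v i).toNat = x
    generalize (-v i).toNat = y
    have hbi : b i = ((b i).num : ℚ) / (b i).den := (Rat.num_div_den (b i)).symm
    generalize ((b i).num : ℚ) = n at hbi hn' ⊢
    generalize ((b i).den : ℚ) = d at hbi hd' ⊢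
    rw [hbi, div_pow, div_pow]
    field_simp
  rw [prod_congr rfl (fun i _ => h2 i), prod_div_distrib, h1, div_self]
  rw [prod_ne_zero_iff]
  intro i _
  exact mul_ne_zero (pow_ne_zero _ (hd i)) (pow_ne_zero _ (hn i))

theorem Mr_le {r : ℕ} {a c : Fin r → ℤ} {H : ℕ} (hH : 1 ≤ H) (ha : ∀ i, (a i).natAbs ≤ H)
    (hc : ∀ i, (c i).natAbs ≤ H) {v : Fin r → ℤ} {N : ℕ} (hv : ∀ i, (v i).natAbs ≤ N) :
    (Mr a c v).natAbs ≤ 2 ^ (2 * r * N * H + 1) := by
  have key : ∀ a c : Fin r → ℤ, (∀ i, (a i).natAbs ≤ H) → (∀ i, (c i).natAbs ≤ H) →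
      (∏ i, (a i ^ (v i).toNat * c i ^ (-v i).toNat)).natAbs ≤ 2 ^ (2 * r * N * H) := by
    intro a c ha hc
    have e0 : (∏ i, (a i ^ (v i).toNat * c i ^ (-v i).toNat)).natAbs =
        ∏ i, (a i ^ (v i).toNat * c i ^ (-v i).toNat).natAbs := map_prod Int.natAbsHom _ _
    rw [e0]
    calc ∏ i, (a i ^ (v i).toNat * c i ^ (-v i).toNat).natAbs ≤ ∏ _i : Fin r, H ^ (2 * N) := by
          apply Finset.prod_le_prod'
          intro i _
          rw [Int.natAbs_mul, Int.natAbs_pow, Int.natAbs_pow]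
          have h1 := hv i
          calc (a i).natAbs ^ (v i).toNat * (c i).natAbs ^ (-v i).toNat
              ≤ H ^ (v i).toNat * H ^ (-v i).toNat :=
                Nat.mul_le_mul (Nat.pow_le_pow_left (ha i) _) (Nat.pow_le_pow_left (hc i) _)
            _ ≤ H ^ N * H ^ N := Nat.mul_le_mul (Nat.pow_le_pow_right hH (by omega))
                (Nat.pow_le_pow_right hH (by omega))
            _ = H ^ (2 * N) := by rw [← pow_add]; congr 1; ring
      _ = H ^ (2 * N * r) := by rw [prod_const, card_univ, Fintype.card_fin, ← pow_mul]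
      _ ≤ (2 ^ H) ^ (2 * N * r) := Nat.pow_le_pow_left Nat.lt_two_pow_self.le _
      _ = 2 ^ (2 * r * N * H) := by rw [← pow_mul]; congr 1; ring
  unfold Mr
  refine (Int.natAbs_sub_le _ _).trans ?_
  have h1 := key a c ha hc
  have h2 := key c a hc ha
  rw [pow_succ]
  omega

/-- few primes modulo which `r` independent rational numbers generate a small group -/
theorem gm_rat {r : ℕ} (a c : Fin r → ℤ) (H : ℕ) (hH : 1 ≤ H) (ha : ∀ i, (a i).natAbs ≤ H)
    (hc : ∀ i, (c i).natAbs ≤ H) (hne : ∀ v : Fin r → ℤ, v ≠ 0 → Mr a c v ≠ 0)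
    (N : ℕ) : ∃ B : Finset ℕ, B.card ≤ (2 * N + 1) ^ r * (2 * r * N * H + 1) ∧
      ∀ p : ℕ, p.Prime → (∀ i, ¬ (p : ℤ) ∣ a i) → (∀ i, ¬ (p : ℤ) ∣ c i) → ∀ g : ℕ, 0 < g → g < (N + 1) ^ r →
        (∀ i, ((a i : ℤ) : ZMod p) ^ g = ((c i : ℤ) : ZMod p) ^ g) → p ∈ B := by
  classical
  refine ⟨(Fintype.piFinset (fun _ : Fin r => Icc (-(N : ℤ)) N)).biUnion
    (fun v => if v = 0 then ∅ else (Mr a c v).natAbs.primeFactors), ?_, ?_⟩
  · refine card_biUnion_le.trans ?_
    have h2 : ∀ v ∈ Fintype.piFinset (fun _ : Fin r => Icc (-(N : ℤ)) N),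
        (if v = 0 then ∅ else (Mr a c v).natAbs.primeFactors).card ≤ 2 * r * N * H + 1 := by
      intro v hv
      rw [Fintype.mem_piFinset] at hv
      split_ifs with h0
      · rw [card_empty]; exact Nat.zero_le _
      · apply Pool.Agent.Y848.MS.card_pf_le
        · rw [Int.natAbs_ne_zero]; exact hne v h0
        · exact Mr_le hH ha hc (fun i => by have := mem_Icc.1 (hv i); omega)
    refine (sum_le_card_nsmul _ _ _ h2).trans ?_
    rw [smul_eq_mul]
    apply Nat.mul_le_mul_right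
    rw [Fintype.card_piFinset, prod_const, card_univ, Fintype.card_fin, Int.card_Icc]
    apply Nat.pow_le_pow_left
    omega
  · intro p hp hpa hpc g hg0 hgN hbg
    have : Fact p.Prime := ⟨hp⟩
    have ha0 : ∀ i, ((a i : ℤ) : ZMod p) ≠ 0 := by
      intro i h
      exact hpa i ((ZMod.intCast_zmod_eq_zero_iff_dvd _ _).1 h)
    have hc0 : ∀ i, ((c i : ℤ) : ZMod p) ≠ 0 := by
      intro i h
      exact hpc i ((ZMod.intCast_zmod_eq_zero_iff_dvd _ _).1 h)
    obtain ⟨b, hb⟩ : ∃ b : Fin r → ZMod p, b = fun i => ((a i : ℤ) : ZMod p) / ((c i : ℤ) : ZMod p) := ⟨_, rfl⟩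
    have hb0 : ∀ i, b i ≠ 0 := fun i => by rw [hb]; exact div_ne_zero (ha0 i) (hc0 i)
    have hb1 : ∀ i, b i ^ g = 1 := by
      intro i
      rw [hb]
      simp only
      rw [div_pow, hbg i, div_self (pow_ne_zero _ (hc0 i))]
    have hab : ∀ i, ((a i : ℤ) : ZMod p) = b i * ((c i : ℤ) : ZMod p) := by
      intro i
      rw [hb]
      simp only
      rw [div_mul_cancel₀ _ (hc0 i)]
    -- pigeonhole
    set φ : (Fin r → Fin (N + 1)) → ZMod p := fun e => ∏ i, b i ^ (e i : ℕ) with hφ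
    have hmaps : ∀ e ∈ (univ : Finset (Fin r → Fin (N + 1))), φ e ∈ (Polynomial.nthRoots g (1 : ZMod p)).toFinset := by
      intro e _
      rw [Multiset.mem_toFinset, Polynomial.mem_nthRoots hg0]
      simp only [hφ]
      rw [← Finset.prod_pow]
      apply prod_eq_one
      intro i _
      rw [← pow_mul, mul_comm, pow_mul, hb1 i, one_pow]
    have hcard : ((Polynomial.nthRoots g (1 : ZMod p)).toFinset).card < (univ : Finset (Fin r → Fin (N + 1))).card := by
      calc ((Polynomial.nthRoots g (1 : ZMod p)).toFinset).card ≤ Multiset.card (Polynomial.nthRoots g (1 : ZMod p)) :=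
            Multiset.toFinset_card_le _
        _ ≤ g := Polynomial.card_nthRoots g 1
        _ < (N + 1) ^ r := hgN
        _ = _ := by rw [card_univ, Fintype.card_fun, Fintype.card_fin, Fintype.card_fin]
    obtain ⟨e, _, f, _, hef, hφef⟩ := exists_ne_map_eq_of_card_lt_of_maps_to hcard hmaps
    rw [mem_biUnion]
    refine ⟨fun i => (e i : ℤ) - (f i : ℤ), ?_, ?_⟩
    · rw [Fintype.mem_piFinset]
      intro i
      rw [mem_Icc]
      have h1 := (e i).2
      have h2 := (f i).2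
      constructor <;> omega
    · have hv0 : (fun i => ((e i : ℕ) : ℤ) - ((f i : ℕ) : ℤ)) ≠ 0 := by
        intro h
        apply hef
        funext i
        have := congrFun h i
        simp only [Pi.zero_apply] at this
        exact Fin.ext (by omega)
      rw [if_neg hv0, Nat.mem_primeFactors]
      refine ⟨hp, ?_, by rw [Int.natAbs_ne_zero]; exact hne _ hv0⟩
      rw [← Int.natCast_dvd, ← ZMod.intCast_zmod_eq_zero_iff_dvd]
      have e1 : φ e = (∏ i, b i ^ (min (e i : ℕ) (f i : ℕ))) *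
          ∏ i, b i ^ (((e i : ℕ) : ℤ) - ((f i : ℕ) : ℤ)).toNat := by
        simp only [hφ]
        rw [← prod_mul_distrib]
        apply prod_congr rfl
        intro i _
        rw [← pow_add]
        congr 1
        omega
      have e2 : φ f = (∏ i, b i ^ (min (e i : ℕ) (f i : ℕ))) *
          ∏ i, b i ^ (-(((e i : ℕ) : ℤ) - ((f i : ℕ) : ℤ))).toNat := by
        simp only [hφ]
        rw [← prod_mul_distrib]
        apply prod_congr rfl
        intro i _
        rw [← pow_add]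
        congr 1
        omega
      rw [e1, e2] at hφef
      have h3 : ∏ i, b i ^ (((e i : ℕ) : ℤ) - ((f i : ℕ) : ℤ)).toNat =
          ∏ i, b i ^ (-(((e i : ℕ) : ℤ) - ((f i : ℕ) : ℤ))).toNat := by
        refine mul_left_cancel₀ ?_ hφef
        rw [prod_ne_zero_iff]
        intro i _
        exact pow_ne_zero _ (hb0 i)
      unfold Mr
      push_cast
      rw [sub_eq_zero]
      have h4 : ∀ x y : Fin r → ℕ, ∏ i, (((a i : ℤ) : ZMod p) ^ x i * ((c i : ℤ) : ZMod p) ^ y i) =
          (∏ i, b i ^ x i) * ∏ i, ((c i : ℤ) : ZMod p) ^ (x i + y i) := by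
        intro x y
        rw [← prod_mul_distrib]
        apply prod_congr rfl
        intro i _
        rw [hab i, mul_pow, pow_add]
        ring
      have h5 : ∀ x y : Fin r → ℕ, ∏ i, (((c i : ℤ) : ZMod p) ^ x i * ((a i : ℤ) : ZMod p) ^ y i) =
          (∏ i, b i ^ y i) * ∏ i, ((c i : ℤ) : ZMod p) ^ (x i + y i) := by
        intro x y
        rw [← prod_mul_distrib]
        apply prod_congr rfl
        intro i _
        rw [hab i, mul_pow, pow_add]
        ring
      rw [h4, h5, h3]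

/-- the same with real exponents -/
theorem gm_exp {r : ℕ} (hr : 1 ≤ r) (b : Fin r → ℚ) (hb : ∀ i, b i ≠ 0) (hI : Ind b) (η : ℝ) (hη : 0 < η)
    (hη1 : η ≤ 1) (hrη : 1 ≤ η * r) : ∃ (C : ℝ) (H : ℕ), 0 < C ∧ ∀ L : ℝ, 0 ≤ L → ∃ B : Finset ℕ,
      (#B : ℝ) ≤ C * Real.exp ((1 - η ^ 2) * L) ∧
      ∀ p : ℕ, p.Prime → H < p → p ∉ B → ∀ g : ℕ, 0 < g → (g : ℝ) ≤ Real.exp ((1 - η) * L) →
        ¬ ∀ i, (((b i).num : ℤ) : ZMod p) ^ g = (((b i).den : ℕ) : ZMod p) ^ g := by
  obtain ⟨H, hH⟩ : ∃ H : ℕ, H = 1 + ∑ i, ((b i).num.natAbs + (b i).den) := ⟨_, rfl⟩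
  have hHi : ∀ i, (b i).num.natAbs + (b i).den ≤ H := by
    intro i
    have := Finset.single_le_sum (f := fun i => (b i).num.natAbs + (b i).den) (fun j _ => Nat.zero_le _)
      (mem_univ i)
    omega
  have hr0 : (0:ℝ) < r := by exact_mod_cast hr
  refine ⟨3 ^ r * (2 * r * H + 1), H, by positivity, ?_⟩
  intro L hL
  obtain ⟨u, hu⟩ : ∃ u, u = Real.exp ((1 - η) * L / r) := ⟨_, rfl⟩
  have hu1 : 1 ≤ u := by
    rw [hu]; apply Real.one_le_exp
    apply div_nonneg _ hr0.le
    exact mul_nonneg (by linarith) hL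
  have hur : u ^ r = Real.exp ((1 - η) * L) := by
    rw [hu, ← Real.exp_nat_mul]
    congr 1
    field_simp
  obtain ⟨N, hN⟩ : ∃ N, N = ⌊u⌋₊ := ⟨_, rfl⟩
  have hNu : (N : ℝ) ≤ u := by rw [hN]; exact Nat.floor_le (by linarith)
  have huN : u < (N : ℝ) + 1 := by rw [hN]; exact Nat.lt_floor_add_one u
  obtain ⟨B, hB1, hB2⟩ := gm_rat (fun i => (b i).num) (fun i => ((b i).den : ℤ)) H (by omega)
    (fun i => by have := hHi i; omega) (fun i => by
      have := hHi i
      rw [Int.natAbs_natCast]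
      omega)
    (fun v hv => Mr_ne hb hI hv) N
  refine ⟨B, ?_, ?_⟩
  · have h3 : (B.card : ℝ) ≤ (2 * N + 1) ^ r * (2 * r * N * H + 1) := by exact_mod_cast hB1
    refine h3.trans ?_
    have h4 : (2 * (N : ℝ) + 1) ^ r ≤ 3 ^ r * Real.exp ((1 - η) * L) := by
      rw [← hur, ← mul_pow]
      apply pow_le_pow_left₀ (by positivity)
      linarith
    have h5 : (2 * r * N * H + 1 : ℝ) ≤ (2 * r * H + 1) * u := by
      have h7 : (0 : ℝ) ≤ 2 * r * H := by positivity
      nlinarith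
    have h6 : Real.exp ((1 - η) * L) * u ≤ Real.exp ((1 - η ^ 2) * L) := by
      rw [hu, ← Real.exp_add]
      apply Real.exp_le_exp.2
      have h7 : (1 - η) * L / r ≤ (1 - η) * L * η := by
        rw [div_le_iff₀ hr0]
        have h8 : 0 ≤ (1 - η) * L := mul_nonneg (by linarith) hL
        nlinarith
      nlinarith
    calc (2 * (N : ℝ) + 1) ^ r * (2 * r * N * H + 1) ≤
        (3 ^ r * Real.exp ((1 - η) * L)) * ((2 * r * H + 1) * u) := by gcongr
      _ = 3 ^ r * (2 * r * H + 1) * (Real.exp ((1 - η) * L) * u) := by ring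
      _ ≤ 3 ^ r * (2 * r * H + 1) * Real.exp ((1 - η ^ 2) * L) := by gcongr
  · intro p hp hpH hpB g hg0 hg hall
    apply hpB
    have hnd : ∀ m : ℕ, m ≠ 0 → m ≤ H → ¬ p ∣ m := by
      intro m hm hmH hd
      have := Nat.le_of_dvd (Nat.pos_of_ne_zero hm) hd
      omega
    apply hB2 p hp _ _ g hg0 _ _
    · intro i hd
      refine hnd (b i).num.natAbs ?_ ?_ (Int.natCast_dvd.1 hd)
      · rw [Int.natAbs_ne_zero]
        exact Rat.num_ne_zero.2 (hb i)
      · have := hHi i; omega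
    · intro i hd
      refine hnd (b i).den (b i).den_nz ?_ (Int.natCast_dvd_natCast.1 hd)
      have := hHi i; omega
    · have h1 : (g : ℝ) < ((N + 1) ^ r : ℕ) := by
        push_cast
        calc (g : ℝ) ≤ u ^ r := by rw [hur]; exact hg
          _ < ((N : ℝ) + 1) ^ r := pow_lt_pow_left₀ huN (by linarith) (by omega)
      exact_mod_cast h1
    · intro i
      have := hall i
      push_cast
      exact this

end Pool.Agent.Y855
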