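import Pool.Agent.Y855.B16
import Pool.Agent.Y855.B17

/-!
Few primes modulo which many groups of rational numbers consist of powers: families.
-/

set_option autoImplicit false

open Finset

namespace Pool.Agent.Y855

open Classical in
theorem gmfam (K : ℕ) (hK : 1 ≤ K) {ι : Type} (I : Finset ι) (h : ℕ) (hh : 1 ≤ h)
    (P : ι → ℕ → ℕ → Prop) (H₀ : ℕ)
    (hP : ∀ J ⊆ I, J.card = h → ∃ b : Fin K → ℚ, (∀ j, b j ≠ 0) ∧ Ind b ∧
      ∀ p l : ℕ, p.Prime → H₀ < p → l.Prime → 3 ≤ l → l ∣ p - 1 → (∀ i ∈ J, P i p l) →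
        ∀ j, (((b j).num : ℤ) : ZMod p) ^ ((p - 1) / l) = (((b j).den : ℕ) : ZMod p) ^ ((p - 1) / l)) :
    ∃ (C₁ : ℝ) (H : ℕ), ∀ t : ℕ, 1 ≤ t → ∃ B : Finset ℕ,
      (B.card : ℝ) ≤ C₁ * Real.exp ((1 - (1 / (K : ℝ)) ^ 2) * Real.log ((2 : ℝ) ^ (K * t))) ∧
      ∀ p ∈ TT (2 ^ (K * t)) (2 ^ t), p ∉ B → H < p →
        (I.filter (fun i => ∃ l : ℕ, l.Prime ∧ 3 ≤ l ∧ l ∣ p - 1 ∧ P i p l)).card ≤ K * (h - 1) := by
  have hK0 : (0 : ℝ) < K := by exact_mod_cast hK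
  have hK1 : (1 : ℝ) ≤ K := by exact_mod_cast hK
  have hJ : ∀ J : Finset ι, ∃ (C : ℝ) (H : ℕ), 0 < C ∧ (J ⊆ I → J.card = h → ∀ L : ℝ, 0 ≤ L → ∃ B : Finset ℕ,
      (#B : ℝ) ≤ C * Real.exp ((1 - (1 / (K : ℝ)) ^ 2) * L) ∧
      ∀ p l : ℕ, p.Prime → H < p → p ∉ B → l.Prime → 3 ≤ l → l ∣ p - 1 →
        (((p - 1) / l : ℕ) : ℝ) ≤ Real.exp ((1 - (1 / (K : ℝ))) * L) → ¬ ∀ i ∈ J, P i p l) := by
    intro J
    by_cases hJI : J ⊆ I ∧ J.card = h
    · obtain ⟨b, hb0, hbI, hb⟩ := hP J hJI.1 hJI.2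
      obtain ⟨C, H, hC, hgm⟩ := gm_exp hK b hb0 hbI (1 / (K : ℝ)) (by positivity)
        (by rw [div_le_one hK0]; exact hK1) (by rw [one_div_mul_cancel hK0.ne'])
      refine ⟨C, H + H₀, hC, fun _ _ L hL => ?_⟩
      obtain ⟨B, hB1, hB2⟩ := hgm L hL
      refine ⟨B, hB1, fun p l hp hpH hpB hl hl3 hlp hg hall => ?_⟩
      have hp10 : 0 < p - 1 := by have := hp.two_le; omega
      refine hB2 p hp (by omega) hpB ((p - 1) / l) (Nat.div_pos (Nat.le_of_dvd hp10 hlp) hl.pos) hg ?_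
      exact hb p l hp (by omega) hl hl3 hlp hall
    · exact ⟨1, 0, one_pos, fun h1 h2 => absurd ⟨h1, h2⟩ hJI⟩
  choose C HJ hC hJ using hJ
  refine ⟨∑ J ∈ I.powersetCard h, C J, ∑ J ∈ I.powersetCard h, HJ J, fun t ht => ?_⟩
  have ht0 : (0 : ℝ) < t := by exact_mod_cast ht
  have hlog2 : 0 < Real.log 2 := Real.log_pos (by norm_num)
  have hLx : Real.log ((2 : ℝ) ^ (K * t)) = K * t * Real.log 2 := by
    rw [Real.log_pow]; push_cast; ring
  have hL0 : 0 ≤ Real.log ((2 : ℝ) ^ (K * t)) := by rw [hLx]; positivity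
  have hBJ : ∀ J : Finset ι, ∃ B : Finset ℕ, J ⊆ I → J.card = h →
      (#B : ℝ) ≤ C J * Real.exp ((1 - (1 / (K : ℝ)) ^ 2) * Real.log ((2 : ℝ) ^ (K * t))) ∧
      ∀ p l : ℕ, p.Prime → HJ J < p → p ∉ B → l.Prime → 3 ≤ l → l ∣ p - 1 →
        (((p - 1) / l : ℕ) : ℝ) ≤ Real.exp ((1 - (1 / (K : ℝ))) * Real.log ((2 : ℝ) ^ (K * t))) →
        ¬ ∀ i ∈ J, P i p l := by
    intro J
    by_cases hJI : J ⊆ I ∧ J.card = h
    · obtain ⟨B, hB⟩ := hJ J hJI.1 hJI.2 _ hL0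
      exact ⟨B, fun _ _ => hB⟩
    · exact ⟨∅, fun h1 h2 => absurd ⟨h1, h2⟩ hJI⟩
  choose BJ hBJ using hBJ
  refine ⟨(I.powersetCard h).biUnion BJ, ?_, ?_⟩
  · have h1 : (((I.powersetCard h).biUnion BJ).card : ℝ) ≤ ∑ J ∈ I.powersetCard h, ((BJ J).card : ℝ) := by
      exact_mod_cast card_biUnion_le
    refine h1.trans ?_
    rw [sum_mul]
    apply sum_le_sum
    intro J hJ
    rw [mem_powersetCard] at hJ
    exact (hBJ J hJ.1 hJ.2).1
  · intro p hp hpB hpH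
    have hz2 : 2 ≤ 2 ^ t := by
      calc 2 = 2 ^ 1 := rfl
        _ ≤ 2 ^ t := Nat.pow_le_pow_right (by norm_num) ht
    have hLF := LF_card (2 ^ (K * t)) (2 ^ t) p hz2 hp
    have hLFK : (LF (2 ^ t) p).card ≤ K := by
      have h1 : Real.log ((2 ^ (K * t) : ℕ) : ℝ) / Real.log ((2 ^ t : ℕ) : ℝ) = K := by
        push_cast
        rw [hLx, Real.log_pow]
        field_simp
      rw [h1] at hLF
      exact_mod_cast hLF
    have hp' := hp
    unfold TT at hp'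
    rw [mem_filter, mem_Icc] at hp'
    obtain ⟨⟨hp1, hpx⟩, hpp, hpq⟩ := hp'
    have hp10 : 0 < p - 1 := by have := hpp.two_le; omega
    have hsub : I.filter (fun i => ∃ l : ℕ, l.Prime ∧ 3 ≤ l ∧ l ∣ p - 1 ∧ P i p l) ⊆
        (LF (2 ^ t) p).biUnion (fun l => I.filter (fun i => P i p l)) := by
      intro i hi
      rw [mem_filter] at hi
      obtain ⟨hiI, l, hl, hl3, hlp, hPi⟩ := hi
      rw [mem_biUnion]
      refine ⟨l, ?_, mem_filter.2 ⟨hiI, hPi⟩⟩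
      unfold LF
      rw [mem_filter, Nat.mem_primeFactors]
      refine ⟨⟨hl, hlp, by omega⟩, ?_⟩
      by_contra hcon
      exact hpq l (mem_OP.2 ⟨hl, hl3, not_lt.1 hcon⟩) hlp
    refine (card_le_card hsub).trans (card_biUnion_le.trans ((sum_le_card_nsmul _ _ (h - 1) ?_).trans ?_))
    · intro l hl
      unfold LF at hl
      rw [mem_filter, Nat.mem_primeFactors] at hl
      obtain ⟨⟨hl, hlp, -⟩, hlz⟩ := hl
      have hl2 : 2 < l := lt_of_le_of_lt hz2 hlz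
      by_contra hcon
      obtain ⟨J, hJs, hJc⟩ := exists_subset_card_eq (show h ≤ (I.filter (fun i => P i p l)).card by omega)
      have hJI : J ⊆ I := hJs.trans (filter_subset _ _)
      have hJm : J ∈ I.powersetCard h := mem_powersetCard.2 ⟨hJI, hJc⟩
      refine (hBJ J hJI hJc).2 p l hpp ?_ (fun h1 => hpB (mem_biUnion.2 ⟨J, hJm, h1⟩)) hl hl2 hlp ?_
        (fun i hi => (mem_filter.1 (hJs hi)).2)
      · have := Finset.single_le_sum (f := HJ) (fun j _ => Nat.zero_le _) hJm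
        omega
      · have hl0 : (0 : ℝ) < l := by exact_mod_cast hl.pos
        have e1 : (((p - 1) / l : ℕ) : ℝ) ≤ (2 : ℝ) ^ (K * t) / 2 ^ t := by
          refine Nat.cast_div_le.trans ?_
          have e2 : ((p - 1 : ℕ) : ℝ) ≤ (2 : ℝ) ^ (K * t) := by
            have : p - 1 ≤ 2 ^ (K * t) := by omega
            exact_mod_cast this
          have e3 : (2 : ℝ) ^ t ≤ l := by exact_mod_cast hlz.le
          gcongr
        refine e1.trans (le_of_eq ?_)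
        have e4 : Real.exp (Real.log ((2 : ℝ) ^ (K * t))) = (2 : ℝ) ^ (K * t) :=
          Real.exp_log (by positivity)
        have e5 : Real.exp (Real.log ((2 : ℝ) ^ t)) = (2 : ℝ) ^ t := Real.exp_log (by positivity)
        rw [sub_mul, one_mul, Real.exp_sub, e4]
        congr 1
        rw [← e5]
        congr 1
        rw [hLx, Real.log_pow]
        field_simp
    · rw [smul_eq_mul]
      exact Nat.mul_le_mul_right _ hLFK

end Pool.Agent.Y855
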