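import Pool.Agent.Y855.B18

/-!
The reduction of finitely generated groups of rational numbers modulo the primes of narrow
arithmetic progressions.
-/

set_option autoImplicit false

open Finset

namespace Pool.Agent.Y855

/-- a class modulo `2 m P`, `P` the product of the primes up to `y` -/
theorem class_ex (m a : ℕ) (hm : 0 < m) (ham : a.Coprime m)
    (ha1 : ∀ l : ℕ, l.Prime → l ∣ m → l ≠ 2 → ¬ a ≡ 1 [MOD l]) (y : ℕ) (hy2 : 2 ≤ y) :
    ∃ c : ℕ, c.Coprime (2 * m * primorial y) ∧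
      (∀ q : ℕ, q.Prime → q ∣ 2 * m * primorial y → 3 ≤ q → c % q ≠ 1) ∧
      ∀ p : ℕ, p ≡ c [MOD 2 * m * primorial y] → p ≡ a [MOD m] := by
  classical
  obtain ⟨E, hE⟩ : ∃ E : Finset ℕ, E = ((y + 1).primesBelow).filter (fun q => ¬ q ∣ m) := ⟨_, rfl⟩
  have hEp : ∀ q, q ∈ E ↔ (q ≤ y ∧ q.Prime) ∧ ¬ q ∣ m := by
    intro q
    rw [hE, mem_filter, Nat.mem_primesBelow]
    constructor
    · rintro ⟨⟨h1, h2⟩, h3⟩; exact ⟨⟨by omega, h2⟩, h3⟩
    · rintro ⟨⟨h1, h2⟩, h3⟩; exact ⟨⟨by omega, h2⟩, h3⟩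
  obtain ⟨m₂, hm₂⟩ : ∃ m₂ : ℕ, m₂ = ∏ q ∈ E, q := ⟨_, rfl⟩
  have hm₂0 : 0 < m₂ := by
    rw [hm₂]
    exact Finset.prod_pos fun q hq => ((hEp q).1 hq).1.2.pos
  have hcop : m.Coprime m₂ := by
    rw [hm₂]
    apply Nat.Coprime.prod_right
    intro q hq
    have := (hEp q).1 hq
    exact ((Nat.Prime.coprime_iff_not_dvd this.1.2).2 this.2).symm
  obtain ⟨c, hc1, hc2⟩ := Nat.chineseRemainder hcop a (m₂ - 1)
  have hcq : ∀ q ∈ E, (q : ℤ) ∣ (c : ℤ) + 1 := by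
    intro q hq
    have h1 : q ∣ m₂ := by rw [hm₂]; exact dvd_prod_of_mem _ hq
    have h2 : (m₂ : ℤ) ∣ (c : ℤ) - ((m₂ - 1 : ℕ) : ℤ) := (Nat.modEq_iff_dvd.1 hc2.symm)
    rw [Nat.cast_sub (by omega)] at h2
    have h3 : (m₂ : ℤ) ∣ (c : ℤ) + 1 := by
      have e : (c : ℤ) + 1 = ((c : ℤ) - ((m₂ : ℤ) - ((1 : ℕ) : ℤ))) + m₂ := by push_cast; ring
      rw [e]
      exact dvd_add h2 dvd_rfl
    exact (Int.natCast_dvd_natCast.2 h1).trans h3
  have hcase : ∀ q : ℕ, q.Prime → q ∣ 2 * m * primorial y → q ∣ m ∨ q ∈ E := by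
    intro q hq hqd
    by_cases hqm : q ∣ m
    · exact Or.inl hqm
    right
    rw [hEp]
    refine ⟨⟨?_, hq⟩, hqm⟩
    rcases (Nat.Prime.dvd_mul hq).1 hqd with h | h
    · rcases (Nat.Prime.dvd_mul hq).1 h with h | h
      · exact (Nat.le_of_dvd (by norm_num) h).trans hy2
      · exact absurd h hqm
    · exact hq.dvd_primorial_iff.1 h
  refine ⟨c, ?_, ?_, ?_⟩
  · rw [Nat.coprime_iff_gcd_eq_one]
    by_contra hne
    obtain ⟨q, hq, hqd⟩ := Nat.exists_prime_and_dvd hne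
    have h1 := hqd.trans (Nat.gcd_dvd_left _ _)
    rcases hcase q hq (hqd.trans (Nat.gcd_dvd_right _ _)) with h | h
    · have h2 : q ∣ a := by
        have h3 : c ≡ a [MOD q] := hc1.of_dvd h
        exact (h3.dvd_iff dvd_rfl).1 h1
      have h3 := Nat.dvd_gcd h2 h
      rw [Nat.coprime_iff_gcd_eq_one.1 ham] at h3
      exact hq.one_lt.ne' (Nat.dvd_one.1 h3)
    · have h2 := dvd_sub (hcq q h) (Int.natCast_dvd_natCast.2 h1)
      have h3 : (q : ℤ) ∣ ((1 : ℕ) : ℤ) := by simpa using h2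
      exact hq.one_lt.ne' (Nat.dvd_one.1 (Int.natCast_dvd_natCast.1 h3))
  · intro q hq hqd hq3 hcq1
    have hcq1' : c ≡ 1 [MOD q] := by
      unfold Nat.ModEq
      rw [hcq1, Nat.mod_eq_of_lt hq.one_lt]
    rcases hcase q hq hqd with h | h
    · exact ha1 q hq h (by omega) ((hc1.of_dvd h).symm.trans hcq1')
    · have h1 : (q : ℤ) ∣ (c : ℤ) - 1 := by
        have := Nat.modEq_iff_dvd.1 hcq1'.symm
        exact_mod_cast this
      have h2 : (q : ℤ) ∣ ((2 : ℕ) : ℤ) := by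
        have := dvd_sub (hcq q h) h1
        have e : (c : ℤ) + 1 - (c - 1) = ((2 : ℕ) : ℤ) := by push_cast; ring
        rwa [e] at this
      have := Nat.le_of_dvd (by norm_num) (Int.natCast_dvd_natCast.1 h2)
      omega
  · intro p hp
    exact (hp.of_dvd ((Dvd.intro_left _ rfl : m ∣ 2 * m).mul_right _)).trans hc1

/-- the group of the rational numbers that are units at `p` and whose `e`-th power is `1` modulo `p` -/
def Qs (p : ℕ) (hp : p.Prime) (e : ℕ) : Subgroup ℚˣ where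
  carrier := {w | ∃ a c : ℤ, ¬ (p : ℤ) ∣ a ∧ ¬ (p : ℤ) ∣ c ∧ (w : ℚ) * c = a ∧
    (a : ZMod p) ^ e = (c : ZMod p) ^ e}
  one_mem' := by
    have h1 : ¬ (p : ℤ) ∣ 1 := by
      intro h
      have : p ∣ 1 := by exact_mod_cast h
      exact hp.one_lt.ne' (Nat.dvd_one.1 this)
    exact ⟨1, 1, h1, h1, by simp, rfl⟩
  mul_mem' := by
    rintro w w' ⟨a, c, h1, h2, h3, h4⟩ ⟨a', c', h1', h2', h3', h4'⟩
    have hpi := Nat.prime_iff_prime_int.1 hp
    refine ⟨a * a', c * c', fun h => (hpi.dvd_or_dvd h).elim h1 h1', fun h => (hpi.dvd_or_dvd h).elim h2 h2',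
      ?_, ?_⟩
    · push_cast
      rw [← h3, ← h3']
      ring
    · push_cast
      rw [mul_pow, mul_pow, h4, h4']
  inv_mem' := by
    rintro w ⟨a, c, h1, h2, h3, h4⟩
    refine ⟨c, a, h2, h1, ?_, h4.symm⟩
    rw [← h3]
    push_cast
    have := w.ne_zero
    field_simp

theorem Qs_mem (p : ℕ) (hp : p.Prime) (e : ℕ) (w : ℚˣ) :
    w ∈ Qs p hp e ↔ (¬ (p : ℤ) ∣ (w : ℚ).num ∧ ¬ p ∣ (w : ℚ).den) ∧
      (((w : ℚ).num : ℤ) : ZMod p) ^ e = (((w : ℚ).den : ℕ) : ZMod p) ^ e := by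
  have : Fact p.Prime := ⟨hp⟩
  have hpi := Nat.prime_iff_prime_int.1 hp
  constructor
  · rintro ⟨a, c, h1, h2, h3, h4⟩
    -- `num * c = a * den`
    have h5 : (w : ℚ).num * c = a * (w : ℚ).den := by
      have h6 : ((w : ℚ).num : ℚ) / (w : ℚ).den * c = a := by rw [Rat.num_div_den]; exact h3
      have h7 : ((w : ℚ).den : ℚ) ≠ 0 := by exact_mod_cast (w : ℚ).den_nz
      field_simp at h6
      rw [mul_comm a]
      exact_mod_cast h6
    have hcop : IsCoprime (w : ℚ).num ((w : ℚ).den : ℤ) := by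
      rw [Int.isCoprime_iff_gcd_eq_one]
      exact (w : ℚ).reduced
    have hnn : ¬ (p : ℤ) ∣ (w : ℚ).num := by
      intro h
      have h6 : (p : ℤ) ∣ a * (w : ℚ).den := by rw [← h5]; exact h.mul_right c
      rcases hpi.dvd_or_dvd h6 with h7 | h7
      · exact h1 h7
      · exact hpi.not_isUnit (hcop.isUnit_of_dvd' h h7)
    have hdd : ¬ (p : ℤ) ∣ ((w : ℚ).den : ℤ) := by
      intro h
      have h6 : (p : ℤ) ∣ (w : ℚ).num * c := by rw [h5]; exact h.mul_left a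
      rcases hpi.dvd_or_dvd h6 with h7 | h7
      · exact hnn h7
      · exact h2 h7
    refine ⟨⟨hnn, fun h => hdd (Int.natCast_dvd_natCast.2 h)⟩, ?_⟩
    have h6 : (((w : ℚ).num : ℤ) : ZMod p) * c = a * (((w : ℚ).den : ℕ) : ZMod p) := by
      have := congrArg (Int.cast : ℤ → ZMod p) h5
      push_cast at this
      exact this
    have h7 := congrArg (fun t => t ^ e) h6
    simp only [mul_pow] at h7
    rw [← h4, mul_comm] at h7
    have ha0 : (a : ZMod p) ≠ 0 := fun h => h1 ((ZMod.intCast_zmod_eq_zero_iff_dvd _ _).1 h)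
    exact mul_left_cancel₀ (pow_ne_zero _ ha0) h7
  · rintro ⟨⟨h1, h2⟩, h3⟩
    refine ⟨(w : ℚ).num, (w : ℚ).den, h1, fun h => h2 (Int.natCast_dvd_natCast.1 h), ?_, ?_⟩
    · push_cast
      exact Rat.mul_den_eq_num _
    · push_cast
      exact h3

theorem Qs_mono (p : ℕ) (hp : p.Prime) (e : ℕ) : Qs p hp e ≤ Qs p hp 0 := by
  intro w hw
  rw [Qs_mem] at hw ⊢
  exact ⟨hw.1, by simp⟩

/-- finitely generated groups consist of units at all large primes -/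
theorem fg_units (W : Subgroup ℚˣ) (hW : W.FG) : ∃ H : ℕ, ∀ p : ℕ, ∀ hp : p.Prime, H < p → W ≤ Qs p hp 0 := by
  obtain ⟨S, hS⟩ := hW
  refine ⟨∑ w ∈ S, ((w : ℚ).num.natAbs + (w : ℚ).den), fun p hp hpH => ?_⟩
  rw [← hS, Subgroup.closure_le]
  intro w hw
  have h1 := Finset.single_le_sum (f := fun w : ℚˣ => (w : ℚ).num.natAbs + (w : ℚ).den)
    (fun j _ => Nat.zero_le _) (show w ∈ S from hw)
  have hn0 : (w : ℚ).num.natAbs ≠ 0 := by
    rw [Int.natAbs_ne_zero]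
    exact Rat.num_ne_zero.2 w.ne_zero
  have hd0 := (w : ℚ).den_nz
  change w ∈ Qs p hp 0
  rw [Qs_mem]
  refine ⟨⟨fun h => ?_, fun h => ?_⟩, by simp⟩
  · have := Nat.le_of_dvd (Nat.pos_of_ne_zero hn0) (Int.natCast_dvd.1 h)
    omega
  · have := Nat.le_of_dvd (Nat.pos_of_ne_zero hd0) h
    omega

/-- the image of `W` modulo `q` -/
def img (q : ℕ) (W : Subgroup ℚˣ) : Subgroup (ZMod q)ˣ :=
  Subgroup.closure {u : (ZMod q)ˣ | ∃ w ∈ W, (((w : ℚ).num : ℤ) : ZMod q) =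
    (u : ZMod q) * (((w : ℚ).den : ℕ) : ZMod q)}

/-- a prime factor of the index -/
theorem img_index (p : ℕ) (hp : p.Prime) (W : Subgroup ℚˣ) (hW : W ≤ Qs p hp 0) (l : ℕ) (hl : l.Prime)
    (hli : l ∣ (img p W).index) : l ∣ p - 1 ∧ W ≤ Qs p hp ((p - 1) / l) := by
  have : Fact p.Prime := ⟨hp⟩
  have hcard : Nat.card (img p W) * (img p W).index = p - 1 := by
    rw [Subgroup.card_mul_index, Nat.card_eq_fintype_card, ZMod.card_units]
  obtain ⟨f, hf⟩ := hli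
  have hlp : l ∣ p - 1 := by
    rw [← hcard, hf]
    exact ⟨Nat.card (img p W) * f, by ring⟩
  refine ⟨hlp, fun w hw => ?_⟩
  have h1 := hW hw
  rw [Qs_mem] at h1 ⊢
  refine ⟨h1.1, ?_⟩
  have hn0 : (((w : ℚ).num : ℤ) : ZMod p) ≠ 0 :=
    fun h => h1.1.1 ((ZMod.intCast_zmod_eq_zero_iff_dvd _ _).1 h)
  have hd0 : (((w : ℚ).den : ℕ) : ZMod p) ≠ 0 := fun h => h1.1.2 ((ZMod.natCast_eq_zero_iff _ _).1 h)
  obtain ⟨u, hu⟩ : ∃ u : (ZMod p)ˣ, (u : ZMod p) = (((w : ℚ).num : ℤ) : ZMod p) / (((w : ℚ).den : ℕ) : ZMod p) :=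
    ⟨Units.mk0 _ (div_ne_zero hn0 hd0), rfl⟩
  have huW : u ∈ img p W := by
    apply Subgroup.subset_closure
    exact ⟨w, hw, by rw [hu, div_mul_cancel₀ _ hd0]⟩
  have h2 : u ^ ((p - 1) / l) = 1 := by
    have h3 : (p - 1) / l = Nat.card (img p W) * f := by
      rw [← hcard, hf]
      have : Nat.card (img p W) * (l * f) = l * (Nat.card (img p W) * f) := by ring
      rw [this]
      exact Nat.mul_div_cancel_left _ hl.pos
    rw [h3, pow_mul]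
    have h4 : (⟨u, huW⟩ : img p W) ^ Nat.card (img p W) = 1 := pow_card_eq_one'
    have h5 := congrArg Subtype.val h4
    simp only [SubmonoidClass.mk_pow, OneMemClass.coe_one] at h5
    rw [h5, one_pow]
  have h6 := congrArg (Units.val) h2
  rw [Units.val_pow_eq_pow_val, hu, div_pow, Units.val_one, div_eq_one_iff_eq (pow_ne_zero _ hd0)] at h6
  exact h6

open Classical in
theorem AP_grp : ∃ R : ℕ, 2 ≤ R ∧ ∀ k : ℕ, 2 ≤ k → ∃ D : ℕ, ∀ (m a h : ℕ), 0 < m → a.Coprime m →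
    (∀ l : ℕ, l.Prime → l ∣ m → l ≠ 2 → ¬ a ≡ 1 [MOD l]) → 1 ≤ h →
    ∀ I : Finset (Subgroup ℚˣ), 2 * (R * (h - 1)) < I.card → (∀ W ∈ I, W.FG) →
    (∀ J ⊆ I, J.card = h → ∃ b : Fin R → ℚˣ, (∀ j, b j ∈ sSup (J : Set (Subgroup ℚˣ))) ∧
      ∀ e : Fin R → ℤ, ∏ j, b j ^ e j = 1 → ∀ j, e j = 0) →
    ∀ A : ℕ, ∃ W ∈ I, ∃ x d : ℕ, A ≤ x ∧ 0 < d ∧ (d : ℝ) ≤ Real.log x ^ D ∧
      ∀ j < k, ∃ hp : (x + j * d).Prime, A < x + j * d ∧ x + j * d ≡ a [MOD m] ∧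
        W ≤ Qs (x + j * d) hp 0 ∧ ∀ l : ℕ, l.Prime → l ∣ (img (x + j * d) W).index → l = 2 := by
  obtain ⟨K, hK2, hAP⟩ := AP_gen
  refine ⟨K, hK2, fun k hk => ?_⟩
  obtain ⟨D, hAP⟩ := hAP k hk
  refine ⟨D, fun m a h hm ham ha1 hh I hIc hFG hJ A => ?_⟩
  -- the units
  have hun : ∀ W : Subgroup ℚˣ, ∃ H : ℕ, W ∈ I → ∀ p : ℕ, ∀ hp : p.Prime, H < p → W ≤ Qs p hp 0 := by
    intro W
    by_cases hW : W ∈ I
    · obtain ⟨H, hH⟩ := fg_units W (hFG W hW)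
      exact ⟨H, fun _ => hH⟩
    · exact ⟨0, fun h => absurd h hW⟩
  choose HW hHW using hun
  obtain ⟨H₀, hH₀⟩ : ∃ H₀ : ℕ, H₀ = ∑ W ∈ I, HW W := ⟨_, rfl⟩
  have hH₀W : ∀ W ∈ I, ∀ p : ℕ, ∀ hp : p.Prime, H₀ < p → W ≤ Qs p hp 0 := by
    intro W hW p hp hpH
    apply hHW W hW p hp
    have := Finset.single_le_sum (f := HW) (fun j _ => Nat.zero_le _) hW
    omega
  obtain ⟨C₁, H, hgm⟩ := gmfam K (by omega) I h hh
    (fun W p l => ∃ hp : p.Prime, W ≤ Qs p hp ((p - 1) / l)) H₀ (by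
      intro J hJI hJc
      obtain ⟨b, hb1, hb2⟩ := hJ J hJI hJc
      refine ⟨fun j => ((b j : ℚˣ) : ℚ), fun j => (b j).ne_zero, ?_, ?_⟩
      · intro e he
        apply hb2 e
        apply Units.ext
        rw [Units.val_one, ← he]
        push_cast
        rfl
      · intro p l hp hpH hl hl3 hlp hall j
        have h1 : sSup (J : Set (Subgroup ℚˣ)) ≤ Qs p hp ((p - 1) / l) := by
          apply sSup_le
          intro W hW
          obtain ⟨_, h2⟩ := hall W hW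
          exact h2
        have h2 := h1 (hb1 j)
        rw [Qs_mem] at h2
        exact h2.2)
  obtain ⟨W, hWI, x, d, hAx, hd0, hdD, hx⟩ := hAP (Subgroup ℚˣ) I
    (fun W p => ∃ l : ℕ, l.Prime ∧ 3 ≤ l ∧ l ∣ p - 1 ∧ ∃ hp : p.Prime, W ≤ Qs p hp ((p - 1) / l))
    (K * (h - 1)) hIc C₁ (H + H₀ + A) (2 * m) 2 (by omega) (Dvd.intro _ rfl) (by
      intro t ht
      obtain ⟨B, hB1, hB2⟩ := hgm t ht
      exact ⟨B, hB1, fun p hp hpB hpH => hB2 p hp hpB (by omega)⟩)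
    (fun p => p ≡ a [MOD m]) (fun y _ hy2 => class_ex m a hm ham ha1 y hy2) A
  refine ⟨W, hWI, x, d, hAx, hd0, hdD, fun j hj => ?_⟩
  obtain ⟨hp, hpH, hpa, hbad⟩ := hx j hj
  have hWu := hH₀W W hWI _ hp (by omega)
  refine ⟨hp, by omega, hpa, hWu, fun l hl hli => ?_⟩
  by_contra hl2
  obtain ⟨h1, h2⟩ := img_index _ hp W hWu l hl hli
  exact hbad ⟨l, hl, by have := hl.two_le; omega, h1, hp, h2⟩

end Pool.Agent.Y855
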