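import Pool.Agent.Y855.B1

/-!
Arithmetic progressions in sets which are relatively dense with respect to a family of weights.
-/

set_option autoImplicit false

namespace Pool.Agent.Y855

open Finset
open Pool.Agent.H602R3.DHJ (av av_mono av_nonneg)
open Pool.Agent.Y727.PSP (rp LFk LF rp_cast rp_pos rp_le rp_of sum_rp exAP lift)
open Pool.Agent.Y79.PSP.MK (rp_mem)

/-- arithmetic progressions of length `k` on average over a family of weights -/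
theorem rsa (k : ℕ) (hk : 2 ≤ k) (δ : ℝ) (hδ : 0 < δ) : ∃ η c : ℝ, 0 < η ∧ 0 < c ∧
    ∀ N : ℕ, N.Prime → k < N → 5 ≤ N → ∀ (A : Finset ℕ) (G : ℕ → ℕ → ℝ) (L : ℝ), A.Nonempty →
    1 ≤ L → MajG A G (2 * (k * 2 ^ k)) η L N → L ^ (2 * (k * 2 ^ k)) ≤ c * N →
    ∀ F : ℕ → ℕ → ℝ, (∀ a ∈ A, ∀ u, 0 ≤ F a u ∧ F a u ≤ G a u) →
    δ * A.card * N ≤ ∑ a ∈ A, ∑ u ∈ Icc 1 ((N - 1) / 2), F a u →
    ∃ a ∈ A, ∃ u r : ℕ, 1 ≤ u ∧ 1 ≤ r ∧ ∀ j < k, u + j * r ≤ (N - 1) / 2 ∧ F a (u + j * r) ≠ 0 := by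
  classical
  obtain ⟨δ', hδ'⟩ : ∃ δ' : ℝ, δ' = min δ 1 / 4 := ⟨_, rfl⟩
  have hmin : 0 < min δ 1 := lt_min hδ one_pos
  have hδ'0 : 0 < δ' := by rw [hδ']; positivity
  have hδ'δ : 4 * δ' ≤ δ := by
    rw [hδ']
    have := min_le_left δ 1
    linarith
  have hδ'1 : δ' ≤ 1 := by
    rw [hδ']
    have := min_le_right δ 1
    linarith
  obtain ⟨cR, ηR, hcR, hηR, hR⟩ := rsz k hk δ' hδ'0
  obtain ⟨η₀, hη₀⟩ : ∃ η₀ : ℝ, η₀ = min ηR (δ' / 2) := ⟨_, rfl⟩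
  have hη₀0 : 0 < η₀ := by rw [hη₀]; exact lt_min hηR (by positivity)
  have hη₀R : η₀ ≤ ηR := by rw [hη₀]; exact min_le_left _ _
  have hη₀δ : η₀ ≤ δ' / 2 := by rw [hη₀]; exact min_le_right _ _
  obtain ⟨M, hM⟩ : ∃ M : ℕ, M = 2 * (k * 2 ^ k) := ⟨_, rfl⟩
  have hkM : k ≤ M := by
    rw [hM]
    have : k * 1 ≤ k * 2 ^ k := Nat.mul_le_mul_left k Nat.one_le_two_pow
    omega
  obtain ⟨m₀, hm₀⟩ : ∃ m₀ : ℝ, m₀ = min (η₀ ^ 2) (η₀ ^ 3 / 2 ^ (k * 2 ^ k)) := ⟨_, rfl⟩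
  have hm₀0 : 0 < m₀ := by rw [hm₀]; exact lt_min (by positivity) (by positivity)
  have hm₀a : m₀ ≤ η₀ ^ 2 := by rw [hm₀]; exact min_le_left _ _
  have hm₀b : 2 ^ (k * 2 ^ k) * m₀ ≤ η₀ ^ 3 := by
    have h1 : m₀ ≤ η₀ ^ 3 / 2 ^ (k * 2 ^ k) := by rw [hm₀]; exact min_le_right _ _
    rw [le_div_iff₀ (by positivity)] at h1
    linarith
  have hM0 : 0 < M := lt_of_lt_of_le (by omega) hkM
  have hM0' : (0 : ℝ) < M := by exact_mod_cast hM0
  obtain ⟨c, hc⟩ : ∃ c : ℝ, c = min (m₀ / (8 * (M : ℝ) ^ 2)) (cR / 2) := ⟨_, rfl⟩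
  have hc0 : 0 < c := by rw [hc]; exact lt_min (by positivity) (by positivity)
  refine ⟨m₀ / 4, c, by positivity, hc0, ?_⟩
  intro N hNp hkN hN5 A G L hA hL hmaj hLN F hF hsum
  rw [← hM] at hmaj hLN
  have : NeZero N := ⟨hNp.ne_zero⟩
  have hfact : Fact N.Prime := ⟨hNp⟩
  have hN0 : (0 : ℝ) < N := by exact_mod_cast hNp.pos
  have hA0 : (0 : ℝ) < A.card := by exact_mod_cast hA.card_pos
  have hL0 : 0 ≤ L := by linarith
  have hsmall : 2 * (M : ℝ) ^ 2 * L ^ M / N ≤ m₀ / 4 := by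
    rw [div_le_iff₀ hN0]
    have h1 : c ≤ m₀ / (8 * (M : ℝ) ^ 2) := by rw [hc]; exact min_le_left _ _
    rw [le_div_iff₀ (by positivity)] at h1
    calc 2 * (M : ℝ) ^ 2 * L ^ M ≤ 2 * (M : ℝ) ^ 2 * (c * N) := by gcongr
      _ = (c * (8 * (M : ℝ) ^ 2)) * N / 4 := by ring
      _ ≤ m₀ * N / 4 := by gcongr
      _ = _ := by ring
  have hδm : 3 * (m₀ / 4) + 2 * (M : ℝ) ^ 2 * L ^ M / N ≤ m₀ := by linarith
  have hmain := mainG hk hkN.le hmaj hL (by positivity) hA hM.ge hη₀0 (hδm.trans hm₀a) (by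
    calc 2 ^ (k * 2 ^ k) * (3 * (m₀ / 4) + 2 * (M : ℝ) ^ 2 * L ^ M / N) ≤ 2 ^ (k * 2 ^ k) * m₀ :=
          mul_le_mul_of_nonneg_left hδm (by positivity)
      _ ≤ η₀ ^ 3 := hm₀b)
  obtain ⟨hm1, hm2⟩ := hmain
  obtain ⟨h, hh⟩ : ∃ h : ℕ, h = (N - 1) / 2 := ⟨_, rfl⟩
  rw [← hh] at hsum ⊢
  have hhN : h ≤ N := by omega
  have h2h : 2 * h < N := by omega
  set f : ℕ → ZMod N → ℝ := fun a t => if rp t ≤ h then F a (rp t) else 0 with hf
  have hf0 : ∀ a ∈ A, ∀ t, 0 ≤ f a t ∧ f a t ≤ gK G N a t := by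
    intro a ha t
    simp only [hf]
    have h1 := hF a ha (rp t)
    split_ifs
    · exact h1
    · exact ⟨le_rfl, hmaj.nonneg _ _⟩
  have hfL : ∀ a ∈ A, ∀ t, f a t ≤ L := by
    intro a ha t
    exact (hf0 a ha t).2.trans (hmaj.bound a ha _ (rp_mem _).1 (rp_mem _).2)
  have hav : ∀ a, av (f a) = (∑ u ∈ Icc 1 h, F a u) / N := by
    intro a
    rw [av, ZMod.card]
    congr 1
    have h1 := sum_rp N (fun u => if u ≤ h then F a u else 0)
    simp only [hf]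
    rw [h1, ← sum_filter]
    apply sum_congr _ fun _ _ => rfl
    ext u
    rw [mem_filter, mem_Icc, mem_Icc]
    omega
  have hlow : 4 * δ' * A.card ≤ ∑ a ∈ A, av (f a) := by
    simp_rw [hav]
    rw [← sum_div, le_div_iff₀ hN0]
    refine le_trans ?_ hsum
    gcongr
  set Bd := A.filter (fun a => ¬ LFk k N (gK G N a) η₀) with hBd
  obtain ⟨a, haA, haB, haδ⟩ : ∃ a ∈ A, a ∉ Bd ∧ δ' ≤ av (f a) := by
    by_contra hcon
    push Not at hcon
    have hsub : Bd ⊆ A := filter_subset _ _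
    have hup : ∑ a ∈ A, av (f a) ≤ δ' * A.card + (Bd.card + η₀ * A.card) := by
      rw [← sum_sdiff hsub]
      apply add_le_add
      · calc ∑ a ∈ A \ Bd, av (f a) ≤ ∑ a ∈ A \ Bd, δ' := by
              apply sum_le_sum
              intro a ha
              rw [mem_sdiff] at ha
              exact (hcon a ha.1 ha.2).le
          _ ≤ ∑ a ∈ A, δ' := sum_le_sum_of_subset_of_nonneg sdiff_subset fun _ _ _ => hδ'0.le
          _ = δ' * A.card := by rw [sum_const, nsmul_eq_mul]; ring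
      · calc ∑ a ∈ Bd, av (f a) ≤ ∑ a ∈ Bd, (1 + |av (gK G N a) - 1|) := by
              apply sum_le_sum
              intro a ha
              have h5 : av (f a) ≤ av (gK G N a) := av_mono fun t => (hf0 a (hsub ha) t).2
              have h6 := le_abs_self (av (gK G N a) - 1)
              linarith
          _ = Bd.card + ∑ a ∈ Bd, |av (gK G N a) - 1| := by
              rw [sum_add_distrib, sum_const, nsmul_eq_mul, mul_one]
          _ ≤ Bd.card + η₀ * A.card := by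
              gcongr
              exact (sum_le_sum_of_subset_of_nonneg hsub fun _ _ _ => abs_nonneg _).trans hm1
    have h7 : η₀ * A.card ≤ δ' / 2 * A.card := by gcongr
    have h8 : 0 < δ' * A.card := by positivity
    linarith
  have hLF : LFk k N (gK G N a) ηR := by
    have h1 : LFk k N (gK G N a) η₀ := by
      by_contra hcon
      exact haB (mem_filter.2 ⟨haA, hcon⟩)
    intro T hT
    exact (h1 T hT).trans hη₀R
  have hc1 := hR N hNp hkN (gK G N a) (f a) (hf0 a haA) hLF haδ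
  obtain ⟨b, d, hd, hbd⟩ := exAP k N (f a) (fun t => (hf0 a haA t).1) L cR (hfL a haA) hc1 (by
    rw [div_lt_iff₀ hN0]
    have h1 : c ≤ cR / 2 := by rw [hc]; exact min_le_right _ _
    calc L ^ k ≤ L ^ M := pow_le_pow_right₀ hL hkM
      _ ≤ c * N := hLN
      _ ≤ cR / 2 * N := by gcongr
      _ < cR * N := by
        apply mul_lt_mul_of_pos_right _ hN0
        linarith)
  have hbd' : ∀ j < k, rp (b + (j : ZMod N) * d) ≤ h ∧ F a (rp (b + (j : ZMod N) * d)) ≠ 0 := by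
    intro j hj
    have h1 := hbd j hj
    simp only [hf] at h1
    by_cases h2 : rp (b + (j : ZMod N) * d) ≤ h
    · rw [if_pos h2] at h1
      exact ⟨h2, h1⟩
    · rw [if_neg h2] at h1
      exact absurd rfl h1
  obtain ⟨u, r, hu, hr, hur⟩ := lift k N h hk h2h b d hd (fun j hj => (hbd' j hj).1)
  refine ⟨a, haA, u, r, hu, hr, fun j hj => ?_⟩
  obtain ⟨j', hj', e⟩ := hur j hj
  rw [e]
  exact hbd' j' hj'

end Pool.Agent.Y855
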