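import Pool.Agent.Y855.B19

/-!
The index of the reduction of a group of rational numbers.
-/

set_option autoImplicit false

open Finset

namespace Pool.Agent.Y855

theorem index_dvd (p : ℕ) (hp : p.Prime) (hp2 : 2 < p) (W : Subgroup ℚˣ) (hW : W ≤ Qs p hp 0)
    (hodd : ∀ l : ℕ, l.Prime → l ∣ (img p W).index → l = 2) (κ : ℕ)
    (h : (∃ w ∈ W, ¬ IsSquare ((((w : ℚ).num * (w : ℚ).den : ℤ)) : ZMod p)) ∨
      ¬ 2 ^ (κ.factorization 2 + 1) ∣ p - 1) : (img p W).index ∣ κ := by
  have : Fact p.Prime := ⟨hp⟩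
  have hcard : Nat.card (img p W) * (img p W).index = p - 1 := by
    rw [Subgroup.card_mul_index, Nat.card_eq_fintype_card, ZMod.card_units]
  have hi0 : (img p W).index ≠ 0 := by
    intro h0
    rw [h0, mul_zero] at hcard
    omega
  have h6 : (img p W).index = 2 ^ (img p W).index.primeFactorsList.length :=
    Nat.eq_prime_pow_of_unique_prime_dvd hi0 (fun {d} hd1 hd2 => hodd d hd1 hd2)
  generalize (img p W).index.primeFactorsList.length = s at h6
  rcases h with ⟨w, hw, hsq⟩ | h
  · have hs : s = 0 := by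
      by_contra hs0
      have h7 : 2 ∣ (img p W).index := by
        rw [h6]
        exact dvd_pow_self 2 hs0
      obtain ⟨-, h8⟩ := img_index p hp W hW 2 Nat.prime_two h7
      have h9 := h8 hw
      rw [Qs_mem] at h9
      apply hsq
      have hn0 : (((w : ℚ).num : ℤ) : ZMod p) ≠ 0 :=
        fun h => h9.1.1 ((ZMod.intCast_zmod_eq_zero_iff_dvd _ _).1 h)
      have hd0 : (((w : ℚ).den : ℕ) : ZMod p) ≠ 0 := fun h => h9.1.2 ((ZMod.natCast_eq_zero_iff _ _).1 h)
      push_cast
      have hodd : p % 2 = 1 := by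
        rcases hp.eq_two_or_odd with h10 | h10
        · omega
        · exact h10
      have e2 : (p - 1) / 2 = p / 2 := by omega
      rw [ZMod.euler_criterion p (mul_ne_zero hn0 hd0), mul_pow, ← e2, h9.2, ← mul_pow, ← pow_two, ← pow_mul]
      have e3 : 2 * ((p - 1) / 2) = p - 1 := by omega
      rw [e3]
      exact ZMod.pow_card_sub_one_eq_one hd0
    rw [h6, hs, pow_zero]
    exact one_dvd _
  · have h7 : s ≤ κ.factorization 2 := by
      by_contra hcon
      apply h
      refine (pow_dvd_pow 2 (by omega : κ.factorization 2 + 1 ≤ s)).trans ?_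
      rw [← h6, ← hcard]
      exact Dvd.intro_left _ rfl
    rw [h6]
    exact (pow_dvd_pow 2 h7).trans (Nat.ordProj_dvd κ 2)

theorem val_zero (p : ℕ) (hp : p.Prime) (W : Subgroup ℚˣ) (hW : W ≤ Qs p hp 0) :
    ∀ w ∈ W, padicValRat p (w : ℚ) = 0 := by
  intro w hw
  have h1 := hW hw
  rw [Qs_mem] at h1
  unfold padicValRat
  have h2 : padicValInt p (w : ℚ).num = 0 := by
    unfold padicValInt
    apply padicValNat.eq_zero_of_not_dvd
    intro h
    exact h1.1.1 (Int.natCast_dvd.2 h)
  have h3 : padicValNat p (w : ℚ).den = 0 := padicValNat.eq_zero_of_not_dvd h1.1.2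
  rw [h2, h3]
  simp

end Pool.Agent.Y855
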