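import Pool.Agent.Y855.B19

/-!
Narrow progressions of primes `3 mod 4` for which given integers have large order.
-/

set_option autoImplicit false

open Finset

namespace Pool.Agent.Y855

/-- independent sets of integers -/
def IndZ (T : Finset ℤ) : Prop := ∀ e : ℤ → ℤ, ∏ n ∈ T, (n : ℚ) ^ e n = 1 → ∀ n ∈ T, e n = 0

theorem IndZ.ind {T : Finset ℤ} (hT : IndZ T) {R : ℕ} (e : T ≃ Fin R) :
    Ind (fun j => (((e.symm j : T) : ℤ) : ℚ)) := by
  classical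
  intro c hc j
  set f : ℤ → ℤ := fun n => if h : n ∈ T then c (e ⟨n, h⟩) else 0 with hf
  have h1 := hT f (by
    rw [← prod_coe_sort T (fun n : ℤ => (n : ℚ) ^ f n), ← hc]
    apply Fintype.prod_equiv e
    intro x
    simp only [hf]
    rw [dif_pos x.2]
    simp only [Subtype.coe_eta, Equiv.symm_apply_apply]) (e.symm j) (e.symm j).2
  simp only [hf] at h1
  rw [dif_pos (e.symm j).2] at h1
  simpa using h1

/-- an element of `F` is bad -/
def badF (F : Finset ℤ) (p : ℕ) : Prop := ∃ n ∈ F, bad n p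

open Classical in
theorem AP_adm : ∃ R : ℕ, 2 ≤ R ∧ ∀ k : ℕ, 2 ≤ k → ∃ D : ℕ, ∀ h : ℕ, 1 ≤ h →
    ∀ FF : Finset (Finset ℤ), 2 * (R * (h - 1)) < FF.card → (∀ F ∈ FF, (0 : ℤ) ∉ F) →
    (∀ F ∈ FF, ∀ F' ∈ FF, F ≠ F' → Disjoint F F') →
    (∀ T : Finset ℤ, (∀ n ∈ T, ∃ F ∈ FF, n ∈ F) → T.card = h → ∃ T' ⊆ T, T'.card = R ∧ IndZ T') →
    ∀ A : ℕ, ∃ F ∈ FF, ∃ x d : ℕ, A ≤ x ∧ 0 < d ∧ (d : ℝ) ≤ Real.log x ^ D ∧
      ∀ j < k, (x + j * d).Prime ∧ (x + j * d) % 4 = 3 ∧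
        ∀ n ∈ F, orderOf ((n : ℤ) : ZMod (x + j * d)) = x + j * d - 1 ∨
          2 * orderOf ((n : ℤ) : ZMod (x + j * d)) = x + j * d - 1 := by
  obtain ⟨K, hK2, hAP⟩ := AP_gen
  refine ⟨K, hK2, fun k hk => ?_⟩
  obtain ⟨D, hAP⟩ := hAP k hk
  refine ⟨D, fun h hh FF hFc hF0 hdis hsp A => ?_⟩
  set U := FF.biUnion id with hU
  have hUF : ∀ n : ℤ, n ∈ U ↔ ∃ F ∈ FF, n ∈ F := by
    intro n
    rw [hU, mem_biUnion]
    rfl
  obtain ⟨H₀, hH₀⟩ : ∃ H₀ : ℕ, H₀ = U.sup Int.natAbs := ⟨_, rfl⟩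
  have hHn : ∀ n ∈ U, ∀ p : ℕ, H₀ < p → ¬ (p : ℤ) ∣ n := by
    intro n hn p hp hd
    have h0 : n ≠ 0 := by
      obtain ⟨F, hF, hnF⟩ := (hUF n).1 hn
      rintro rfl
      exact hF0 F hF hnF
    have h9 := Nat.le_of_dvd (Int.natAbs_pos.2 h0) (Int.natCast_dvd.1 hd)
    have h11 : n.natAbs ≤ U.sup Int.natAbs := Finset.le_sup (f := Int.natAbs) hn
    omega
  obtain ⟨C₁, H, hgm⟩ := gmfam K (by omega) U h hh
    (fun (n : ℤ) p l => (n : ZMod p) ^ ((p - 1) / l) = 1) H₀ (by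
      intro J hJI hJc
      obtain ⟨T', hT'J, hT'c, hT'⟩ := hsp J (fun n hn => (hUF n).1 (hJI hn)) hJc
      have e := T'.equivFinOfCardEq hT'c
      refine ⟨fun j => (((e.symm j : T') : ℤ) : ℚ), fun j => ?_, hT'.ind e, ?_⟩
      · have h1 : ((e.symm j : T') : ℤ) ∈ U := hJI (hT'J (e.symm j).2)
        obtain ⟨F, hF, hnF⟩ := (hUF _).1 h1
        intro h2
        have h3 : ((e.symm j : T') : ℤ) = 0 := by simpa using h2
        rw [h3] at hnF
        exact hF0 F hF hnF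
      · intro p l hp hpH hl hl3 hlp hall j
        have h1 := hall _ (hT'J (e.symm j).2)
        simp only [Rat.num_intCast, Rat.den_intCast, Nat.cast_one, one_pow]
        exact h1)
  obtain ⟨F, hFI, x, d, hAx, hd0, hdD, hx⟩ := hAP (Finset ℤ) FF
    badF (K * (h - 1)) hFc C₁ (H + H₀) (2 * 4) 2 (by omega) (Dvd.intro _ rfl) (by
      intro t ht
      obtain ⟨B, hB1, hB2⟩ := hgm t ht
      refine ⟨B, hB1, fun p hp hpB hpH => ?_⟩
      refine le_trans ?_ (hB2 p hp hpB (by omega))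
      have hex : ∀ F : Finset ℤ, ∃ n : ℤ, badF F p → n ∈ F ∧ bad n p := by
        intro F
        by_cases h : badF F p
        · obtain ⟨n, hn⟩ := h
          exact ⟨n, fun _ => hn⟩
        · exact ⟨0, fun h' => absurd h' h⟩
      choose w hw using hex
      apply card_le_card_of_injOn w
      · intro F hF
        rw [mem_coe, mem_filter] at hF
        rw [mem_coe, mem_filter]
        exact ⟨(hUF _).2 ⟨F, hF.1, (hw F hF.2).1⟩, (hw F hF.2).2⟩
      · intro F hF F' hF' hFF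
        rw [mem_coe, mem_filter] at hF hF'
        by_contra hne
        have h1 := hdis F hF.1 F' hF'.1 hne
        rw [Finset.disjoint_left] at h1
        exact h1 (hw F hF.2).1 (hFF ▸ (hw F' hF'.2).1))
    (fun p => p ≡ 3 [MOD 4]) (fun y _ hy2 => class_ex 4 3 (by norm_num) (by norm_num) (by
      intro l hl hl4 hl2
      exfalso
      have h4 : l ∣ 2 ^ 2 := by norm_num; exact hl4
      exact hl2 ((Nat.prime_dvd_prime_iff_eq hl Nat.prime_two).1 (hl.dvd_of_dvd_pow h4))) y hy2) A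
  refine ⟨F, hFI, x, d, hAx, hd0, hdD, fun j hj => ?_⟩
  obtain ⟨hp, hpH, hpa, hbad⟩ := hx j hj
  refine ⟨hp, hpa, fun n hn => ?_⟩
  rw [order_iff3 n _ hp hpa (hHn n ((hUF n).2 ⟨F, hFI, hn⟩) _ (by omega))]
  intro h1
  exact hbad ⟨n, hn, h1⟩

end Pool.Agent.Y855
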