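import Pool.Agent.Y394.PSP.LOC

/-!
The local factors of the shifts (adapted from `Pool/Agent/Y394/PSP/LOC.lean`).
-/

set_option autoImplicit false

open Finset

namespace Pool.Agent.Y855

open Pool.Agent.TH423.SH (PS PIj)
open Pool.Agent.Y394.PSP (sum_inv_le sum_inv_sq_le pow_le_quad log_natAbs_sub_le)

/-- the number of classes `r` modulo `p` with `p ∣ r + h i` for some `i` -/
def rhs {m : ℕ} (h : Fin m → ℕ) (p : ℕ) : ℕ := ((range p).filter (fun r => ∃ i, p ∣ r + h i)).card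

theorem rhs_le {m : ℕ} (h : Fin m → ℕ) (p : ℕ) (hp : p.Prime) : rhs h p ≤ m := by
  classical
  have h1 : (range p).filter (fun r => ∃ i, p ∣ r + h i) ⊆
      (univ : Finset (Fin m)).biUnion
        (fun i => (range p).filter (fun r => p ∣ r + h i)) := by
    intro r hr
    rw [mem_filter] at hr
    obtain ⟨hr1, i, hi⟩ := hr
    rw [mem_biUnion]
    exact ⟨i, mem_univ _, mem_filter.2 ⟨hr1, hi⟩⟩
  have h2 : ∀ i : Fin m, ((range p).filter (fun r => p ∣ r + h i)).card ≤ 1 := by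
    intro i
    rw [Finset.card_le_one]
    intro a ha b hb
    rw [mem_filter, mem_range] at ha hb
    have h3 : (p : ℤ) ∣ (a : ℤ) - b := by
      have ha2 : (p : ℤ) ∣ (a : ℤ) + h i := by exact_mod_cast ha.2
      have hb2 : (p : ℤ) ∣ (b : ℤ) + h i := by exact_mod_cast hb.2
      have h4 := dvd_sub ha2 hb2
      rwa [add_sub_add_right_eq_sub] at h4
    have h4 : |(a : ℤ) - b| < p := by
      rw [abs_lt]
      constructor <;> omega
    have h5 := Int.eq_zero_of_abs_lt_dvd h3 h4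
    omega
  calc rhs h p ≤ _ := Finset.card_le_card h1
    _ ≤ ∑ i : Fin m, ((range p).filter (fun r => p ∣ r + h i)).card :=
        Finset.card_biUnion_le
    _ ≤ ∑ _i : Fin m, 1 := Finset.sum_le_sum (fun i _ => h2 i)
    _ = m := by simp

theorem rhs_eq {m : ℕ} (h : Fin m → ℕ) (p : ℕ) (hp : p.Prime)
    (hh : ∀ i j, i ≠ j → ¬ p ∣ ((h i : ℤ) - (h j : ℤ)).natAbs) :
    rhs h p = m := by
  classical
  have : Fact p.Prime := ⟨hp⟩
  apply le_antisymm (rhs_le h p hp)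
  let g : Fin m → ℕ := fun i => (-(h i : ZMod p)).val
  have hg : ∀ i, ((g i : ℕ) : ZMod p) = -(h i : ZMod p) := by
    intro i
    exact ZMod.natCast_zmod_val _
  have hinj : Function.Injective g := by
    intro i j hij
    by_contra hne
    have h1 : (-(h i : ZMod p)) = -(h j : ZMod p) := by
      rw [← hg i, ← hg j, hij]
    rw [neg_inj] at h1
    apply hh i j hne
    rw [← Int.natCast_dvd_natCast, Int.dvd_natAbs, ← ZMod.intCast_zmod_eq_zero_iff_dvd]
    push_cast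
    rw [h1, sub_self]
  have hmem : ∀ i ∈ (univ : Finset (Fin m)),
      g i ∈ (range p).filter (fun r => ∃ i, p ∣ r + h i) := by
    intro i _
    rw [mem_filter, mem_range]
    refine ⟨ZMod.val_lt _, i, ?_⟩
    rw [← ZMod.natCast_eq_zero_iff]
    push_cast
    rw [hg i]
    ring
  have := Finset.card_le_card_of_injOn g hmem hinj.injOn
  simpa [rhs] using this

/-- the local factors -/
theorem locs (m : ℕ) (η : ℝ) (hη : 0 < η) : ∃ s₀ : ℝ, ∀ s : ℝ, s₀ ≤ s → ∀ W : ℕ, 1 ≤ W →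
    (∀ p : ℕ, p.Prime → (p : ℝ) ≤ s → p ∣ W) → ∀ h : Fin m → ℕ, Function.Injective h →
    (∀ i, 1 ≤ h i ∧ Real.log (h i) ≤ 4 * s) → ∀ R : ℕ,
    |∏ p ∈ PS W R, (1 - (rhs h p : ℝ) / p) - PIj W R 1 ^ m| ≤ η * PIj W R 1 ^ m := by
  classical
  set θ : ℝ := Real.log (1 + η) with hθ
  have hθ0 : 0 < θ := Real.log_pos (by linarith)
  refine ⟨max (Real.exp ((m : ℝ) ^ 2 * (4 + 8 * m) / θ + 1)) (2 * m + 2), ?_⟩
  intro s hs W hW1 hWs u hu hu1 R
  have hs1 : Real.exp ((m : ℝ) ^ 2 * (4 + 8 * m) / θ + 1) ≤ s := (le_max_left _ _).trans hs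
  have hs2 : 2 * (m : ℝ) + 2 ≤ s := (le_max_right _ _).trans hs
  have hm0 : (0 : ℝ) ≤ m := Nat.cast_nonneg m
  have hs1' : 1 < s := by linarith
  have hs0 : 0 < s := by linarith
  have hlog : (m : ℝ) ^ 2 * (4 + 8 * m) / θ + 1 ≤ Real.log s := by
    rw [Real.le_log_iff_exp_le hs0]
    exact hs1
  have hlog0 : 0 < Real.log s := Real.log_pos hs1'
  -- the primes in `PS W R` are larger than `s`
  have hPS : ∀ p ∈ PS W R, p.Prime ∧ ¬ p ∣ W ∧ s < (p : ℝ) := by
    intro p hp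
    unfold PS at hp
    rw [mem_filter] at hp
    refine ⟨hp.2.1, hp.2.2, ?_⟩
    by_contra h
    exact hp.2.2 (hWs p hp.2.1 (not_lt.1 h))
  set a : ℕ → ℝ := fun p => 1 - (rhs u p : ℝ) / p with ha
  set b : ℕ → ℝ := fun p => (1 - ((1 : ℕ) : ℝ) / p) ^ m with hb
  set Δ : ℕ := ∏ q ∈ (univ : Finset (Fin m)).offDiag,
    ((u q.1 : ℤ) - (u q.2 : ℤ)).natAbs with hΔ
  have hΔ2 : (∏ q ∈ (univ : Finset (Fin m)).offDiag,
      ((u q.1 : ℤ) - (u q.2 : ℤ)).natAbs) ≠ 0 := by
    rw [Finset.prod_ne_zero_iff]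
    intro q hq
    rw [mem_offDiag] at hq
    intro h
    apply hq.2.2
    apply hu
    omega
  have hΔ0 : Δ ≠ 0 := hΔ2
  have hlogΔ : Real.log Δ ≤ (4 * (m : ℝ) ^ 2) * s := by
    rw [hΔ, Nat.cast_prod, Real.log_prod]
    · have h2 : ∑ q ∈ (univ : Finset (Fin m)).offDiag,
          Real.log ((((u q.1 : ℤ) - (u q.2 : ℤ)).natAbs : ℕ) : ℝ) ≤ (m : ℝ) ^ 2 * (4 * s) := by
        calc ∑ q ∈ (univ : Finset (Fin m)).offDiag,
              Real.log ((((u q.1 : ℤ) - (u q.2 : ℤ)).natAbs : ℕ) : ℝ)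
            ≤ ∑ _q ∈ (univ : Finset (Fin m)).offDiag, (4 * s) := by
              apply Finset.sum_le_sum
              intro q _
              exact log_natAbs_sub_le (by positivity) _ _ (hu1 _).1 (hu1 _).1 (hu1 _).2 (hu1 _).2
          _ = ((univ : Finset (Fin m)).offDiag.card : ℝ) * (4 * s) := by
              rw [Finset.sum_const, nsmul_eq_mul]
          _ ≤ (m : ℝ) ^ 2 * (4 * s) := by
              apply mul_le_mul_of_nonneg_right _ (by positivity)
              rw [offDiag_card]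
              simp only [card_univ, Fintype.card_fin]
              have : m * m - m ≤ m ^ 2 := by
                rw [sq]; omega
              exact_mod_cast this
      linarith
    · intro q hq
      have := (Finset.prod_ne_zero_iff.1 hΔ2) q hq
      exact_mod_cast this
  -- bounds for the factors
  have hx : ∀ p ∈ PS W R, 0 < (1 : ℝ) / p ∧ (1 : ℝ) / p ≤ 1 ∧ (m : ℝ) * (1 / p) ≤ 1 / 2 := by
    intro p hp
    have h := (hPS p hp).2.2
    have hp0 : (0 : ℝ) < p := by linarith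
    refine ⟨by positivity, ?_, ?_⟩
    · rw [div_le_one hp0]; linarith
    · rw [mul_one_div, div_le_iff₀ hp0]
      linarith
  have hb1 : ∀ p ∈ PS W R, 1 - (m : ℝ) * (1 / p) ≤ b p := by
    intro p hp
    obtain ⟨h0, h1, h2⟩ := hx p hp
    have := one_add_mul_le_pow (a := -((1 : ℝ) / p)) (by linarith) m
    simp only [hb, Nat.cast_one]
    calc 1 - (m : ℝ) * (1 / p) = 1 + (m : ℝ) * (-((1 : ℝ) / p)) := by ring
      _ ≤ (1 + -((1 : ℝ) / p)) ^ m := this
      _ = (1 - 1 / (p : ℝ)) ^ m := by ring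
  have hb2 : ∀ p ∈ PS W R, 1 / 2 ≤ b p := by
    intro p hp
    have := (hx p hp).2.2
    have := hb1 p hp
    linarith
  have hb3 : ∀ p ∈ PS W R, b p ≤ 1 - (m : ℝ) * (1 / p) + (m : ℝ) ^ 2 * (1 / p) ^ 2 := by
    intro p hp
    obtain ⟨h0, h1, h2⟩ := hx p hp
    have := pow_le_quad m ((1 : ℝ) / p) h0.le h1
    simp only [hb, Nat.cast_one]
    exact this
  have hb4 : ∀ p ∈ PS W R, b p ≤ 1 := by
    intro p hp
    obtain ⟨h0, h1, h2⟩ := hx p hp
    simp only [hb, Nat.cast_one]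
    exact pow_le_one₀ (by linarith) (by linarith)
  have ha1 : ∀ p ∈ PS W R, 1 - (m : ℝ) * (1 / p) ≤ a p ∧ a p ≤ 1 := by
    intro p hp
    obtain ⟨h0, h1, h2⟩ := hx p hp
    have hr : (rhs u p : ℝ) ≤ m := by exact_mod_cast rhs_le u p (hPS p hp).1
    have hr0 : (0 : ℝ) ≤ rhs u p := Nat.cast_nonneg _
    simp only [ha]
    rw [div_eq_mul_one_div ((rhs u p : ℕ) : ℝ)]
    constructor
    · have := mul_le_mul_of_nonneg_right hr h0.le
      linarith
    · have := mul_nonneg hr0 h0.le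
      linarith
  have ha2 : ∀ p ∈ PS W R, ¬ p ∣ Δ → a p = 1 - (m : ℝ) * (1 / p) := by
    intro p hp hd
    obtain ⟨hp1, hp2, hp3⟩ := hPS p hp
    have hr : rhs u p = m := by
      apply rhs_eq u p hp1
      · intro i j hij hi
        apply hd
        refine hi.trans ?_
        exact Finset.dvd_prod_of_mem (fun q : Fin m × Fin m => ((u q.1 : ℤ) - (u q.2 : ℤ)).natAbs)
          (show (i, j) ∈ (univ : Finset (Fin m)).offDiag by
            rw [mem_offDiag]; exact ⟨mem_univ _, mem_univ _, hij⟩)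
    simp only [ha, hr]
    ring
  -- the relative error
  set f : ℕ → ℝ := fun p => a p / b p - 1 with hf
  have hbpos : ∀ p ∈ PS W R, 0 < b p := fun p hp => by
    have := hb2 p hp
    linarith
  have hf1 : ∀ p ∈ PS W R, |f p| ≤ 2 * |a p - b p| := by
    intro p hp
    have h0 := hbpos p hp
    have h1 : f p = (a p - b p) / b p := by
      simp only [hf]
      field_simp
    rw [h1, abs_div, abs_of_pos h0, div_le_iff₀ h0]
    have h2 := hb2 p hp
    have h3 := abs_nonneg (a p - b p)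
    nlinarith
  have hf2 : ∀ p ∈ PS W R, |f p| ≤ 2 * (m : ℝ) ^ 2 * (1 / (p : ℝ) ^ 2) +
      (if p ∣ Δ then 2 * (m : ℝ) * (1 / p) else 0) := by
    intro p hp
    obtain ⟨h0, h1, h2⟩ := hx p hp
    have e1 := hb1 p hp
    have e3 := hb3 p hp
    have e4 := hb4 p hp
    obtain ⟨e5, e6⟩ := ha1 p hp
    refine (hf1 p hp).trans ?_
    have hsq : (1 : ℝ) / (p : ℝ) ^ 2 = (1 / p) ^ 2 := by
      rw [div_pow, one_pow]
    split_ifs with hd
    · have h3 : |a p - b p| ≤ (m : ℝ) * (1 / p) := by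
        rw [abs_le]
        constructor <;> linarith
      have h4 : 0 ≤ 2 * (m : ℝ) ^ 2 * (1 / (p : ℝ) ^ 2) := by positivity
      linarith
    · have e7 := ha2 p hp hd
      have h3 : |a p - b p| ≤ (m : ℝ) ^ 2 * (1 / p) ^ 2 := by
        rw [abs_le]
        constructor
        · linarith
        · have : 0 ≤ (m : ℝ) ^ 2 * ((1 : ℝ) / p) ^ 2 := by positivity
          linarith
      rw [hsq]
      linarith
  have hsum : ∑ p ∈ PS W R, ‖f p‖ ≤ θ := by
    have h1 : ∑ p ∈ PS W R, ‖f p‖ ≤ ∑ p ∈ PS W R, (2 * (m : ℝ) ^ 2 * (1 / (p : ℝ) ^ 2) +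
      (if p ∣ Δ then 2 * (m : ℝ) * (1 / p) else 0)) := by
      apply Finset.sum_le_sum
      intro p hp
      rw [Real.norm_eq_abs]
      exact hf2 p hp
    rw [Finset.sum_add_distrib, ← Finset.mul_sum, ← Finset.sum_filter, ← Finset.mul_sum] at h1
    have h2 : ∑ p ∈ PS W R, (1 : ℝ) / (p : ℝ) ^ 2 ≤ 2 / s :=
      sum_inv_sq_le hs1' _ (fun p hp => (hPS p hp).2.2)
    have h3 : ∑ p ∈ (PS W R).filter (fun p => p ∣ Δ), (1 : ℝ) / p ≤
        Real.log Δ / (s * Real.log s) := by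
      apply sum_inv_le hs1' Δ hΔ0
      intro p hp
      rw [mem_filter] at hp
      exact ⟨(hPS p hp.1).1, (hPS p hp.1).2.2, hp.2⟩
    have h4 : Real.log Δ / (s * Real.log s) ≤ (4 * (m : ℝ) ^ 2) / Real.log s := by
      rw [div_le_div_iff₀ (by positivity) hlog0]
      calc Real.log Δ * Real.log s ≤ ((4 * (m : ℝ) ^ 2) * s) * Real.log s :=
            mul_le_mul_of_nonneg_right hlogΔ hlog0.le
        _ = _ := by ring
    have h5 : 2 / s ≤ 2 / Real.log s := by
      apply div_le_div_of_nonneg_left (by norm_num) hlog0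
      have := Real.log_le_sub_one_of_pos hs0
      linarith
    have h6 : 2 * (m : ℝ) ^ 2 * (∑ p ∈ PS W R, (1 : ℝ) / (p : ℝ) ^ 2) ≤
        2 * (m : ℝ) ^ 2 * (2 / Real.log s) :=
      mul_le_mul_of_nonneg_left (h2.trans h5) (by positivity)
    have h7 : 2 * (m : ℝ) * (∑ p ∈ (PS W R).filter (fun p => p ∣ Δ), (1 : ℝ) / p) ≤
        2 * (m : ℝ) * ((4 * (m : ℝ) ^ 2) / Real.log s) :=
      mul_le_mul_of_nonneg_left (h3.trans h4) (by positivity)
    have h8 : 2 * (m : ℝ) ^ 2 * (2 / Real.log s) +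
        2 * (m : ℝ) * ((4 * (m : ℝ) ^ 2) / Real.log s) =
        ((m : ℝ) ^ 2 * (4 + 8 * m)) / Real.log s := by
      field_simp
      ring
    have h9 : ((m : ℝ) ^ 2 * (4 + 8 * m)) / Real.log s ≤ θ := by
      rw [div_le_iff₀ hlog0, mul_comm θ]
      rw [← div_le_iff₀ hθ0]
      linarith
    linarith
  have hprod1 : ∏ p ∈ PS W R, (1 + f p) = (∏ p ∈ PS W R, a p) / ∏ p ∈ PS W R, b p := by
    rw [← Finset.prod_div_distrib]
    apply Finset.prod_congr rfl
    intro p _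
    simp only [hf]
    ring
  have hprodb : ∏ p ∈ PS W R, b p = PIj W R 1 ^ m := by
    unfold PIj
    rw [← Finset.prod_pow]
  have hpos : 0 < PIj W R 1 ^ m := by
    rw [← hprodb]
    exact Finset.prod_pos hbpos
  have hnorm := Finset.norm_prod_one_add_sub_one_le (PS W R) f
  rw [hprod1, hprodb, Real.norm_eq_abs] at hnorm
  have hexp : Real.exp (∑ p ∈ PS W R, ‖f p‖) - 1 ≤ η := by
    have : Real.exp (∑ p ∈ PS W R, ‖f p‖) ≤ Real.exp θ := Real.exp_le_exp.2 hsum
    rw [hθ, Real.exp_log (by linarith)] at this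
    linarith
  have hfin : |∏ p ∈ PS W R, a p - PIj W R 1 ^ m| =
      |(∏ p ∈ PS W R, a p) / PIj W R 1 ^ m - 1| * PIj W R 1 ^ m := by
    rw [← abs_of_pos hpos, ← abs_mul, abs_of_pos hpos, sub_mul, one_mul,
      div_mul_cancel₀ _ hpos.ne']
  change |∏ p ∈ PS W R, a p - PIj W R 1 ^ m| ≤ η * PIj W R 1 ^ m
  rw [hfin]
  exact mul_le_mul_of_nonneg_right (hnorm.trans hexp) hpos.le

end Pool.Agent.Y855
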