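import Pool.Agent.Y855.B3
import Pool.Agent.Y855.B4
import Pool.Agent.Y917.PSP.Maj

/-!
The number of solutions of the divisibility conditions for shifts in a residue class
(adapted from `Pool/Agent/Y917/PSP/Maj3.lean`).
-/

set_option autoImplicit false

open Finset

namespace Pool.Agent.Y855

open Pool.Agent.TH423.SH (PS PIj)
open Pool.Agent.Y727.PSP (qf)
open Pool.Agent.Y917.PSP (TT Dl wt mem_TT Dl_pos expand nuM)

/-- one congruence -/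
theorem one_classS (D h : ℕ) (hD : 1 ≤ D) : ∃ c : ℕ, ∀ a : ℕ, D ∣ a + h ↔ a ≡ c [MOD D] := by
  have : NeZero D := ⟨by omega⟩
  refine ⟨(-(h : ZMod D)).val, fun a => ?_⟩
  rw [← ZMod.natCast_eq_natCast_iff, ZMod.natCast_zmod_val, ← ZMod.natCast_eq_zero_iff]
  push_cast
  constructor
  · intro hh
    exact eq_neg_of_add_eq_zero_left hh
  · intro hh
    rw [hh, neg_add_cancel]

/-- several congruences together with a residue class -/
theorem all_classS {m : ℕ} (D h : Fin m → ℕ) (W b : ℕ) (hD : ∀ i, 1 ≤ D i)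
    (hW : ∀ i, Nat.Coprime W (D i)) (hcop : ∀ i j, i ≠ j → Nat.Coprime (D i) (D j)) :
    ∃ c : ℕ, ∀ a : ℕ, (a % W = b % W ∧ ∀ i, D i ∣ a + h i) ↔
      a % (W * ∏ i, D i) = c % (W * ∏ i, D i) := by
  choose c hca using fun i => one_classS (D i) (h i) (hD i)
  obtain ⟨e, he⟩ := Nat.chineseRemainderOfFinset c D univ (fun i _ => by have := hD i; omega)
    (fun i _ j _ hij => hcop i j hij)
  have hWP : Nat.Coprime W (∏ i, D i) := Nat.Coprime.prod_right fun i _ => hW i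
  obtain ⟨f, hf1, hf2⟩ := Nat.chineseRemainder hWP b e
  refine ⟨f, fun a => ?_⟩
  have h1 : (∀ i, D i ∣ a + h i) ↔ a ≡ e [MOD ∏ i, D i] := by
    have h2 : (∀ i, D i ∣ a + h i) ↔ ∀ i, a ≡ e [MOD D i] := by
      apply forall_congr'
      intro i
      rw [hca i a]
      exact ⟨fun h => h.trans (he i (mem_univ i)).symm, fun h => h.trans (he i (mem_univ i))⟩
    rw [h2]
    constructor
    · intro h
      rw [Nat.modEq_iff_dvd]
      push_cast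
      apply Finset.prod_dvd_of_coprime
      · intro i _ j _ hij
        rw [Function.onFun, Nat.isCoprime_iff_coprime]
        exact hcop i j hij
      · intro i _
        exact Nat.modEq_iff_dvd.1 (h i)
    · intro h i
      exact h.of_dvd (dvd_prod_of_mem D (mem_univ i))
  rw [h1]
  constructor
  · rintro ⟨h2, h3⟩
    exact (Nat.modEq_and_modEq_iff_modEq_mul hWP).1 ⟨(show a ≡ b [MOD W] from h2).trans hf1.symm,
      h3.trans hf2.symm⟩
  · intro h2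
    obtain ⟨h3, h4⟩ := (Nat.modEq_and_modEq_iff_modEq_mul hWP).2 (show a ≡ f [MOD W * ∏ i, D i] from h2)
    exact ⟨h3.trans hf1, h4.trans hf2⟩

open Classical in
/-- the number of `a` with the divisibility conditions -/
noncomputable def cnS (W b z X : ℕ) {m : ℕ} (h : Fin m → ℕ) (x : Fin m → ℕ × ℕ) : ℝ :=
  ((((Ioc X (2 * X)).filter (fun a => a % W = b % W ∧ ∀ p ∈ PS W z, ∀ i, ¬ p ∣ a + h i)).filter
      (fun a => ∀ i, Dl (x i) ∣ a + h i)).card : ℝ)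

open Classical in
theorem expandS (W b z X R : ℕ) (lam : ℕ → ℝ) (hlam : ∀ d, lam d ≠ 0 → 1 ≤ d ∧ d ≤ R) {m : ℕ}
    (h : Fin m → ℕ) (hh : ∀ i, 1 ≤ h i) :
    ∑ a ∈ (Ioc X (2 * X)).filter (fun a => a % W = b % W ∧ ∀ p ∈ PS W z, ∀ i, ¬ p ∣ a + h i),
      ∏ i, (∑ d ∈ (a + h i).divisors, lam d) ^ 2 =
    ∑ x ∈ Fintype.piFinset (fun _ : Fin m => TT R lam), (∏ i, wt lam (x i)) * cnS W b z X h x := by
  rw [expand R lam hlam (fun i a => a + h i) (fun i a => by have := hh i; omega)]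
  apply sum_congr rfl
  intro x _
  unfold cnS
  congr! 3

/-- the forbidden classes -/
def OmS {m : ℕ} (h : Fin m → ℕ) (p : ℕ) : Finset ℕ := (range p).filter (fun r => ∃ i, p ∣ r + h i)

theorem mod_OmS {m : ℕ} (h : Fin m → ℕ) {p : ℕ} (hp : p.Prime) (a : ℕ) :
    a % p ∉ OmS h p ↔ ∀ i, ¬ p ∣ a + h i := by
  unfold OmS
  rw [mem_filter, mem_range]
  have h1 : a % p < p := Nat.mod_lt _ hp.pos
  simp only [h1, true_and, not_exists]
  refine forall_congr' fun i => not_congr ?_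
  have h2 : a % p + h i ≡ a + h i [MOD p] := (Nat.mod_modEq a p).add_right (h i)
  exact h2.dvd_iff dvd_rfl

open Classical in
/-- the tuples with coprime moduli -/
theorem cnt_copS (C b₁ W b J X m R : ℕ) (h : Fin m → ℕ) (lam : ℕ → ℝ) (hW1 : 1 ≤ W)
    (hlam : ∀ d, lam d ≠ 0 → 1 ≤ d ∧ d ≤ R ∧ ∀ p : ℕ, p.Prime → p ∣ d → 2 ^ 2 ^ J < p)
    (hW : ∀ p : ℕ, p.Prime → p ∣ W → p ≤ 2 ^ 2 ^ J)
    (hC : ∀ (D a : ℕ), 1 ≤ D → (∀ p ∈ PS W (2 ^ 2 ^ J), ¬ p ∣ D) →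
      |(((Ioc X (2 * X)).filter (fun n => n % D = a % D ∧
      ∀ p ∈ PS W (2 ^ 2 ^ J), n % p ∉ OmS h p)).card : ℝ) -
      (X : ℝ) / D * ∏ p ∈ PS W (2 ^ 2 ^ J), (1 - ((OmS h p).card : ℝ) / p)| ≤
      (1 / 2 : ℝ) ^ b₁ * ((X : ℝ) / D * ∏ p ∈ PS W (2 ^ 2 ^ J), (1 - ((OmS h p).card : ℝ) / p)) +
        ((2 : ℝ) ^ 2 ^ J) ^ (C * b₁))
    (x : Fin m → ℕ × ℕ) (hx : ∀ i, x i ∈ TT R lam)
    (hcop : ∀ i j, i ≠ j → Nat.Coprime (Dl (x i)) (Dl (x j))) :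
    |cnS W b (2 ^ 2 ^ J) X h x -
      (X / W * ∏ p ∈ PS W (2 ^ 2 ^ J), (1 - (rhs h p : ℝ) / p)) * ∏ i, (1 : ℝ) / (Dl (x i) : ℝ)| ≤
      (1 / 2 : ℝ) ^ b₁ * ((X / W * ∏ p ∈ PS W (2 ^ 2 ^ J), (1 - (rhs h p : ℝ) / p)) *
        ∏ i, (1 : ℝ) / (Dl (x i) : ℝ)) + ((2 : ℝ) ^ 2 ^ J) ^ (C * b₁) := by
  have hDp : ∀ i, ∀ p : ℕ, p.Prime → p ∣ Dl (x i) → 2 ^ 2 ^ J < p := by
    intro i p hp hpi
    have hxi := mem_TT.1 (hx i)
    rcases (Nat.Prime.dvd_lcm hp).1 hpi with h1 | h1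
    · exact (hlam _ hxi.2.1).2.2 p hp h1
    · exact (hlam _ hxi.2.2).2.2 p hp h1
  have hD1 : ∀ i, 1 ≤ Dl (x i) := fun i => Dl_pos (hx i)
  have hWD : ∀ i, Nat.Coprime W (Dl (x i)) := by
    intro i
    rw [Nat.coprime_iff_gcd_eq_one]
    by_contra hne
    obtain ⟨p, hp, hpd⟩ := Nat.exists_prime_and_dvd hne
    have h1 := hDp i p hp (hpd.trans (Nat.gcd_dvd_right _ _))
    have := hW p hp (hpd.trans (Nat.gcd_dvd_left _ _))
    omega
  obtain ⟨c, hc⟩ := all_classS (fun i => Dl (x i)) h W b hD1 hWD hcop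
  have hP1 : 1 ≤ ∏ i, Dl (x i) := Nat.one_le_iff_ne_zero.2 (prod_ne_zero_iff.2 fun i _ => by
    have := hD1 i; omega)
  have h1 := hC (W * ∏ i, Dl (x i)) c (Nat.mul_pos hW1 hP1) (by
    intro p hp hpd
    unfold PS at hp
    rw [mem_filter, mem_Icc] at hp
    rcases (Nat.Prime.dvd_mul hp.2.1).1 hpd with h2 | h2
    · exact hp.2.2 h2
    · obtain ⟨i, _, hi⟩ := (Nat.Prime.prime hp.2.1).exists_mem_finset_dvd h2
      have := hDp i p hp.2.1 hi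
      omega)
  have h2 : cnS W b (2 ^ 2 ^ J) X h x = (((Ioc X (2 * X)).filter (fun n => n % (W * ∏ i, Dl (x i)) =
      c % (W * ∏ i, Dl (x i)) ∧ ∀ p ∈ PS W (2 ^ 2 ^ J), n % p ∉ OmS h p)).card : ℝ) := by
    unfold cnS
    refine congrArg (fun s : Finset ℕ => (s.card : ℝ)) ?_
    ext a
    simp only [mem_filter]
    have h3 := hc a
    have h4 : (∀ p ∈ PS W (2 ^ 2 ^ J), a % p ∉ OmS h p) ↔
        ∀ p ∈ PS W (2 ^ 2 ^ J), ∀ i, ¬ p ∣ a + h i := by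
      refine forall_congr' fun p => forall_congr' fun hp => ?_
      apply mod_OmS
      unfold PS at hp
      exact (mem_filter.1 hp).2.1
    rw [← h3, h4]
    tauto
  rw [h2]
  have h4 : (X : ℝ) / ((W * ∏ i, Dl (x i) : ℕ) : ℝ) = X / W * ∏ i, (1 : ℝ) / (Dl (x i) : ℝ) := by
    push_cast
    rw [prod_div_distrib, prod_const_one, mul_one_div, div_div]
  rw [h4] at h1
  have h5 : ∀ V : ℝ, (X / W * V) * ∏ i, (1 : ℝ) / (Dl (x i) : ℝ) =
      X / W * (∏ i, (1 : ℝ) / (Dl (x i) : ℝ)) * V := fun V => by ring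
  rw [h5]
  exact h1

open Classical in
/-- the tuples with a common prime factor -/
theorem cnt_ncopS (W b J X m R H : ℕ) (h : Fin m → ℕ) (hinj : Function.Injective h) (lam : ℕ → ℝ)
    (hlam : ∀ d, lam d ≠ 0 → 1 ≤ d ∧ d ≤ R ∧ ∀ p : ℕ, p.Prime → p ∣ d → 2 ^ 2 ^ J < p)
    (hh : ∀ i, h i ≤ H) (hH : H ≤ 2 ^ 2 ^ J) (x : Fin m → ℕ × ℕ) (hx : ∀ i, x i ∈ TT R lam)
    (hcop : ¬ ∀ i j, i ≠ j → Nat.Coprime (Dl (x i)) (Dl (x j))) :
    cnS W b (2 ^ 2 ^ J) X h x = 0 := by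
  unfold cnS
  rw [Nat.cast_eq_zero, card_eq_zero, filter_eq_empty_iff]
  intro a _ ha
  push Not at hcop
  obtain ⟨i, j, hij, hc⟩ := hcop
  obtain ⟨p, hp, hpi, hpj⟩ := Nat.Prime.not_coprime_iff_dvd.1 hc
  have hpz : 2 ^ 2 ^ J < p := by
    have hxi := mem_TT.1 (hx i)
    rcases (Nat.Prime.dvd_lcm hp).1 hpi with h1 | h1
    · exact (hlam _ hxi.2.1).2.2 p hp h1
    · exact (hlam _ hxi.2.2).2.2 p hp h1
  have h1 : (p : ℤ) ∣ (a : ℤ) + h i := by exact_mod_cast hpi.trans (ha i)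
  have h2 : (p : ℤ) ∣ (a : ℤ) + h j := by exact_mod_cast hpj.trans (ha j)
  have h3 : (p : ℤ) ∣ (h j : ℤ) - h i := by
    have e : (h j : ℤ) - h i = ((a : ℤ) + h j) - ((a : ℤ) + h i) := by ring
    rw [e]
    exact dvd_sub h2 h1
  have h4 : |(h j : ℤ) - h i| < p := by
    have := hh i
    have := hh j
    rw [abs_lt]
    constructor <;> omega
  have h5 := Int.eq_zero_of_abs_lt_dvd h3 h4
  apply hij
  apply hinj
  omega

open Classical in
theorem sum_nuMS (W b z X m : ℕ) (lam : ℕ → ℝ) (VG : ℝ) (h : Fin m → ℕ) :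
    ∑ a ∈ (Ioc X (2 * X)).filter (fun a => a % W = b % W), ∏ i, nuM W z lam VG (a + h i) =
      (∑ a ∈ (Ioc X (2 * X)).filter (fun a => a % W = b % W ∧ ∀ p ∈ PS W z, ∀ i, ¬ p ∣ a + h i),
        ∏ i, (∑ d ∈ (a + h i).divisors, lam d) ^ 2) / VG ^ m := by
  rw [sum_div, ← filter_filter, sum_filter (fun a => ∀ p ∈ PS W z, ∀ i, ¬ p ∣ a + h i)]
  apply sum_congr rfl
  intro a _
  unfold nuM
  rw [prod_ite_zero]
  by_cases hp : ∀ p ∈ PS W z, ∀ i, ¬ p ∣ a + h i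
  · rw [if_pos hp, if_pos fun i _ p hp' => hp p hp' i, prod_div_distrib, prod_const, card_univ,
      Fintype.card_fin]
  · rw [if_neg hp, if_neg]
    intro h2
    exact hp fun p hp' i => h2 i (mem_univ i) p hp'

end Pool.Agent.Y855
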