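import Pool.Agent.Y855.B2
import Pool.Agent.Y855.B6

/-!
Arithmetic progressions in dense sets of numbers `n` such that `n` and `n - 1` have no small prime
factors outside `W`.
-/

set_option autoImplicit false

open Finset Filter

namespace Pool.Agent.Y855

/-- no small prime factors outside `W` -/
def Rgh (M X W n : ℕ) : Prop := ∀ p : ℕ, p.Prime → p ∣ n → ¬ p ∣ W → X < p ^ M

theorem shift_inj {m W : ℕ} (hW : 2 ≤ W) (u : Fin m → ℕ) (hu : Function.Injective u)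
    (hu1 : ∀ i, 1 ≤ u i) :
    Function.Injective (Sum.elim (fun i => W * u i) (fun i => W * u i - 1) : Fin m ⊕ Fin m → ℕ) := by
  have hpos : ∀ i, 1 ≤ W * u i := fun i => Nat.mul_pos (by omega) (hu1 i)
  have hne : ∀ i j, W * u i ≠ W * u j - 1 := by
    intro i j h
    have h1 : W * u i + 1 = W * u j := by have := hpos j; omega
    have h2 : W ∣ 1 := by
      have h3 : W ∣ W * u i + 1 := by rw [h1]; exact Dvd.intro _ rfl
      exact (Nat.dvd_add_right (Dvd.intro _ rfl)).1 h3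
    have := Nat.le_of_dvd one_pos h2
    omega
  rintro (i | i) (j | j) h
  · simp only [Sum.elim_inl] at h
    rw [hu (Nat.eq_of_mul_eq_mul_left (by omega) h)]
  · simp only [Sum.elim_inl, Sum.elim_inr] at h
    exact absurd h (hne i j)
  · simp only [Sum.elim_inl, Sum.elim_inr] at h
    exact absurd h.symm (hne j i)
  · simp only [Sum.elim_inr] at h
    have h1 : W * u i = W * u j := by
      have := hpos i
      have := hpos j
      omega
    rw [hu (Nat.eq_of_mul_eq_mul_left (by omega) h1)]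

/-- the weights at the pairs -/
noncomputable def Gp (ν : ℕ → ℝ) (W a u : ℕ) : ℝ := ν (a + W * u) * ν (a + (W * u - 1))

open Classical in
/-- the family of weights -/
theorem majG_of (M₁ X W N b : ℕ) (η₁ η L : ℝ) (ν : ℕ → ℝ) (hη : 0 < η₁) (hη1 : η₁ ≤ 1 / 2)
    (hηη : 4 * η₁ ≤ η) (hW : 2 ≤ W) (hX : 1 ≤ X) (hν : ∀ n, 0 ≤ ν n) (hL : ∀ n, n ≤ X ^ 4 → ν n ≤ L)
    (hX4 : 2 * X + W * N ≤ X ^ 4)
    (hc : ∀ m ≤ 2 * M₁, ∀ h : Fin m → ℕ, Function.Injective h → (∀ i, 1 ≤ h i ∧ h i ≤ W * N) →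
      |(∑ a ∈ (Ioc X (2 * X)).filter (fun a => a % W = b % W), ∏ i, ν (a + h i)) / ((X : ℝ) / W) - 1| ≤
        η₁) :
    MajG ((Ioc X (2 * X)).filter (fun a => a % W = b % W)) (Gp ν W) M₁ η (L * L) N ∧
    ((Ioc X (2 * X)).filter (fun a => a % W = b % W)).Nonempty ∧
    ((((Ioc X (2 * X)).filter (fun a => a % W = b % W)).card : ℝ) ≤ 2 * ((X : ℝ) / W)) := by
  set A := (Ioc X (2 * X)).filter (fun a => a % W = b % W) with hA
  have hW0 : (0 : ℝ) < W := by exact_mod_cast (show 0 < W by omega)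
  have hX0 : (0 : ℝ) < X := by exact_mod_cast hX
  have hY : (0 : ℝ) < X / W := by positivity
  have h0 := hc 0 (Nat.zero_le _) (fun i => i.elim0) (fun i => i.elim0) (fun i => i.elim0)
  simp only [univ_eq_empty, prod_empty, sum_const, nsmul_eq_mul, mul_one] at h0
  have h0' := abs_le.1 h0
  have hAl : (1 - η₁) * (X / W) ≤ A.card := by
    have h1 : 1 - η₁ ≤ (A.card : ℝ) / (X / W) := by linarith [h0'.1]
    rwa [le_div_iff₀ hY] at h1
  have hAu : (A.card : ℝ) ≤ (1 + η₁) * (X / W) := by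
    have h1 : (A.card : ℝ) / (X / W) ≤ 1 + η₁ := by linarith [h0'.2]
    rwa [div_le_iff₀ hY] at h1
  have hA0 : (0 : ℝ) < A.card := by
    have : 0 < (1 - η₁) * (X / W) := mul_pos (by linarith) hY
    linarith
  refine ⟨⟨?_, ?_, ?_⟩, ?_, ?_⟩
  · intro a u
    exact mul_nonneg (hν _) (hν _)
  · intro m hm u hu hu1
    set h' : Fin m ⊕ Fin m → ℕ := Sum.elim (fun i => W * u i) (fun i => W * u i - 1) with hh'
    have h1 := hc (m + m) (by omega) (h' ∘ finSumFinEquiv.symm)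
      ((shift_inj hW u hu (fun i => (hu1 i).1)).comp finSumFinEquiv.symm.injective) (by
        intro i
        obtain ⟨j, hj⟩ : ∃ j, j = finSumFinEquiv.symm i := ⟨_, rfl⟩
        simp only [Function.comp]
        rw [← hj]
        have key : ∀ i, 2 ≤ W * u i ∧ W * u i ≤ W * N := fun i =>
          ⟨by have := Nat.mul_le_mul hW (hu1 i).1; omega, Nat.mul_le_mul_left W (hu1 i).2⟩
        rcases j with j | j
        · simp only [hh', Sum.elim_inl]
          have := key j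
          omega
        · simp only [hh', Sum.elim_inr]
          have := key j
          omega)
    have h2 : ∀ a, ∏ i, ν (a + (h' ∘ finSumFinEquiv.symm) i) = ∏ i, Gp ν W a (u i) := by
      intro a
      have e : ∏ i, ν (a + (h' ∘ finSumFinEquiv.symm) i) = ∏ j, ν (a + h' j) :=
        Equiv.prod_comp finSumFinEquiv.symm (fun j => ν (a + h' j))
      rw [e, Fintype.prod_sum_type, ← prod_mul_distrib]
      rfl
    simp_rw [h2] at h1
    obtain ⟨Sg, hSg⟩ : ∃ Sg : ℝ, Sg = ∑ a ∈ A, ∏ i, Gp ν W a (u i) := ⟨_, rfl⟩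
    rw [← hSg] at h1 ⊢
    have h1' := abs_le.1 h1
    have hl : (1 - η₁) * (X / W) ≤ Sg := by
      have h3 : 1 - η₁ ≤ Sg / (X / W) := by linarith [h1'.1]
      rwa [le_div_iff₀ hY] at h3
    have hr : Sg ≤ (1 + η₁) * (X / W) := by
      have h3 : Sg / (X / W) ≤ 1 + η₁ := by linarith [h1'.2]
      rwa [div_le_iff₀ hY] at h3
    have h4 : |Sg - A.card| ≤ 2 * η₁ * (X / W) := by
      rw [abs_le]
      constructor <;> linarith
    have h5 : Sg / A.card - 1 = (Sg - A.card) / A.card := by field_simp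
    rw [h5, abs_div, abs_of_pos hA0, div_le_iff₀ hA0]
    have h6 : (X : ℝ) / W ≤ 2 * A.card := by nlinarith
    calc |Sg - A.card| ≤ 2 * η₁ * (X / W) := h4
      _ ≤ 2 * η₁ * (2 * A.card) := by gcongr
      _ = 4 * η₁ * A.card := by ring
      _ ≤ η * A.card := by gcongr
  · intro a ha u hu1 huN
    rw [hA, mem_filter, mem_Ioc] at ha
    have h1 : W * u ≤ W * N := Nat.mul_le_mul_left W huN
    have h2 : a + W * u ≤ X ^ 4 := by omega
    have h3 : a + (W * u - 1) ≤ X ^ 4 := by omega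
    unfold Gp
    exact mul_le_mul (hL _ h2) (hL _ h3) (hν _) ((hν _).trans (hL _ h2))
  · rw [← card_pos]
    exact_mod_cast hA0
  · refine hAu.trans ?_
    gcongr
    linarith

open Classical in
theorem sum_low (X W N b h : ℕ) (ν : ℕ → ℝ) (hν : ∀ n, 0 ≤ ν n) (g : ℝ) (hg : 0 ≤ g) (hW : 1 ≤ W) (hX : 1 ≤ X)
    (hhN : h ≤ N) (S : Finset ℕ) (hS : ∀ n ∈ S, X + W * N < n ∧ n ≤ 2 * X ∧ n % W = b % W ∧
      g ≤ ν n ∧ g ≤ ν (n - 1)) :
    h * (S.card * (g * g)) ≤ ∑ a ∈ (Ioc X (2 * X)).filter (fun a => a % W = b % W),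
      ∑ u ∈ Icc 1 h, (if a + W * u ∈ S then Gp ν W a u else 0) := by
  rw [sum_comm]
  have key : ∀ u ∈ Icc 1 h, S.card * (g * g) ≤
      ∑ a ∈ (Ioc X (2 * X)).filter (fun a => a % W = b % W),
        (if a + W * u ∈ S then Gp ν W a u else 0) := by
    intro u hu
    rw [mem_Icc] at hu
    have hWu1 : 1 ≤ W * u := Nat.mul_pos hW hu.1
    have hWu : W * u ≤ W * N := Nat.mul_le_mul_left W (hu.2.trans hhN)
    have hinj : Set.InjOn (fun n => n - W * u) S := by
      intro n hn n' hn' h1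
      have h2 := (hS n hn).1
      have h3 := (hS n' hn').1
      simp only at h1
      omega
    have hsub : S.image (fun n => n - W * u) ⊆ (Ioc X (2 * X)).filter (fun a => a % W = b % W) := by
      intro a ha
      rw [mem_image] at ha
      obtain ⟨n, hn, rfl⟩ := ha
      obtain ⟨h1, h2, h3, -, -⟩ := hS n hn
      rw [mem_filter, mem_Ioc]
      refine ⟨⟨by omega, by omega⟩, ?_⟩
      rw [← h3]
      have h4 : n = (n - W * u) + W * u := by omega
      conv_rhs => rw [h4, Nat.add_mul_mod_self_left]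
    refine le_trans ?_ (sum_le_sum_of_subset_of_nonneg hsub ?_)
    · rw [sum_image hinj]
      calc (S.card : ℝ) * (g * g) = ∑ n ∈ S, g * g := by rw [sum_const, nsmul_eq_mul]
        _ ≤ _ := by
          apply sum_le_sum
          intro n hn
          obtain ⟨h1, h2, h3, h4, h5⟩ := hS n hn
          have e1 : n - W * u + W * u = n := by omega
          have e2 : n - W * u + (W * u - 1) = n - 1 := by omega
          rw [e1, if_pos hn]
          unfold Gp
          rw [e1, e2]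
          exact mul_le_mul h4 h5 hg (hν _)
    · intro a _ _
      split_ifs
      · exact mul_nonneg (hν _) (hν _)
      · exact le_rfl
  calc (h : ℝ) * (S.card * (g * g)) = ∑ u ∈ Icc 1 h, (S.card : ℝ) * (g * g) := by
        rw [sum_const, nsmul_eq_mul, Nat.card_Icc, Nat.add_sub_cancel]
    _ ≤ _ := sum_le_sum key

open Classical in
/-- arithmetic progressions in relatively dense sets of `n` with `n`, `n - 1` rough -/
theorem ap_core (k : ℕ) (hk : 2 ≤ k) (M₀ : ℕ) (κ : ℝ) (hκ : 0 < κ) : ∃ (s₀ : ℝ) (B₁ : ℕ), ∀ B' : ℕ,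
    ∃ X₀ : ℕ, ∀ (X W N b : ℕ) (s : ℝ), X₀ ≤ X → N.Prime → Real.log X ^ B₁ ≤ N → 2 ≤ W →
    OkS B' s₀ X W (W * N) s → ∀ S : Finset ℕ,
    (∀ n ∈ S, X + W * N < n ∧ n ≤ 2 * X ∧ n % W = b % W ∧ Rgh M₀ X W n ∧ Rgh M₀ X W (n - 1)) →
    κ * ((X : ℝ) / W) * ((W : ℝ) / W.totient) ^ 2 / Real.log X ^ 2 ≤ S.card →
    ∃ a d : ℕ, X < a ∧ 0 < d ∧ d ≤ W * N ∧ ∀ j < k, a + j * d ∈ S := by
  obtain ⟨M₁, hM₁⟩ : ∃ M₁ : ℕ, M₁ = 2 * (k * 2 ^ k) := ⟨_, rfl⟩
  have hM₁1 : 1 ≤ M₁ := by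
    have h1 : 1 ≤ k * 2 ^ k := Nat.mul_pos (by omega) (by positivity)
    omega
  obtain ⟨M, hM⟩ : ∃ M : ℕ, M = 2 * M₁ + M₀ := ⟨_, rfl⟩
  obtain ⟨c, hc, Hmaj⟩ := majS M (by omega)
  obtain ⟨δ, hδ⟩ : ∃ δ : ℝ, δ = κ * c ^ 2 / 6 := ⟨_, rfl⟩
  have hδ0 : 0 < δ := by rw [hδ]; positivity
  obtain ⟨η, c₂, hη, hc₂, Hrs⟩ := rsa k hk δ hδ0
  obtain ⟨η₁, hη₁⟩ : ∃ η₁ : ℝ, η₁ = min (η / 4) (1 / 2) := ⟨_, rfl⟩
  have hη₁0 : 0 < η₁ := by rw [hη₁]; exact lt_min (by positivity) (by norm_num)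
  have hη₁1 : η₁ ≤ 1 / 2 := by rw [hη₁]; exact min_le_right _ _
  have hη₁η : 4 * η₁ ≤ η := by
    have : η₁ ≤ η / 4 := by rw [hη₁]; exact min_le_left _ _
    linarith
  obtain ⟨B, s₀, Hmaj⟩ := Hmaj η₁ hη₁0
  refine ⟨s₀, 2 * B * M₁ + 1, fun B' => ?_⟩
  obtain ⟨X₁, Hmaj⟩ := Hmaj B'
  have hlog : Tendsto (fun X : ℕ => Real.log X) atTop atTop :=
    Real.tendsto_log_atTop.comp tendsto_natCast_atTop_atTop
  have hev2 : ∀ᶠ X : ℕ in atTop, Real.log X ^ B' ≤ X := by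
    have h4 : ∀ᶠ x : ℝ in atTop, ‖Real.log x ^ B'‖ ≤ 1 * ‖id x‖ :=
      (Real.isLittleO_pow_log_id_atTop (n := B')).bound one_pos
    have h5 := tendsto_natCast_atTop_atTop (R := ℝ) |>.eventually h4
    filter_upwards [h5] with X hX
    rw [one_mul, id, Real.norm_of_nonneg (Nat.cast_nonneg X)] at hX
    exact (le_abs_self _).trans hX
  obtain ⟨X₂, hX₂⟩ := eventually_atTop.1 ((eventually_ge_atTop 4).and
    ((hlog.eventually_ge_atTop (k + 5 : ℝ)).and ((hlog.eventually_ge_atTop (1 / c₂)).and hev2)))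
  refine ⟨max X₁ X₂, ?_⟩
  intro X W N b s hX hNp hNl hW2 hOk S hS hcard
  obtain ⟨hX4, hlk, hlc, hlX⟩ := hX₂ X ((le_max_right _ _).trans hX)
  obtain ⟨ν, hν0, hνB, hνr, hνc⟩ := Hmaj X W (W * N) b s ((le_max_left _ _).trans hX) hOk
  obtain ⟨l, hl⟩ : ∃ l : ℝ, l = Real.log X := ⟨_, rfl⟩
  rw [← hl] at hNl hcard hlk hlc hlX hνB hνr
  have hk0 : (0 : ℝ) ≤ k := Nat.cast_nonneg k
  have hl5 : 5 ≤ l := by linarith
  have hl1 : 1 ≤ l := by linarith
  have hl0 : 0 < l := by linarith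
  have hX0 : (0 : ℝ) < X := by exact_mod_cast (show 0 < X by omega)
  have hW0 : (0 : ℝ) < W := by exact_mod_cast (show 0 < W by omega)
  have hφ0 : (0 : ℝ) < W.totient := by exact_mod_cast Nat.totient_pos.2 (show 0 < W by omega)
  have hN0 : (0 : ℝ) < N := by exact_mod_cast hNp.pos
  have hlN : l ≤ N := by
    refine le_trans ?_ hNl
    calc l = l ^ 1 := (pow_one l).symm
      _ ≤ l ^ (2 * B * M₁ + 1) := pow_le_pow_right₀ hl1 (by omega)
  have hkN : k < N := by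
    have : (k : ℝ) < N := by linarith
    exact_mod_cast this
  have hN5 : 5 ≤ N := by
    have : (5 : ℝ) ≤ N := by linarith
    exact_mod_cast this
  have hWNX : W * N ≤ X := by
    have : ((W * N : ℕ) : ℝ) ≤ X := hOk.Hl.trans (by rw [← hl]; exact hlX)
    exact_mod_cast this
  have hX4' : 2 * X + W * N ≤ X ^ 4 := by
    have h1 : X ^ 4 = X * (X * X * X) := by ring
    have h2 : 4 * X ≤ X * (X * X * X) := by
      have h3 : 4 ≤ X * X * X := by nlinarith
      rw [mul_comm 4 X]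
      exact Nat.mul_le_mul_left X h3
    omega
  obtain ⟨hmG, hAne, hAu⟩ := majG_of M₁ X W N b η₁ η (l ^ B) ν hη₁0 hη₁1 hη₁η hW2 (by omega) hν0
    hνB hX4' (fun m hm h hinj hh => hνc m (by omega) h hinj hh)
  set A := (Ioc X (2 * X)).filter (fun a => a % W = b % W) with hA
  rw [hM₁] at hmG
  obtain ⟨h, hh⟩ : ∃ h : ℕ, h = (N - 1) / 2 := ⟨_, rfl⟩
  have hhN : h ≤ N := by omega
  have h3h : (N : ℝ) ≤ 3 * h := by
    have : N ≤ 3 * h := by omega
    exact_mod_cast this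
  obtain ⟨g, hg⟩ : ∃ g : ℝ, g = c * ((W.totient : ℝ) / W) * l := ⟨_, rfl⟩
  have hg0 : 0 < g := by rw [hg]; positivity
  have hrgh : ∀ n, 1 ≤ n → Rgh M₀ X W n → g ≤ ν n := by
    intro n hn hr
    rw [hg]
    apply hνr n hn
    intro p hp hpn hpW
    refine lt_of_lt_of_le (hr p hp hpn hpW) ?_
    exact Nat.pow_le_pow_right hp.pos (by omega)
  have hlow := sum_low X W N b h ν hν0 g hg0.le (by omega) (by omega) hhN S (by
    intro n hn
    obtain ⟨h1, h2, h3, h4, h5⟩ := hS n hn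
    exact ⟨h1, h2, h3, hrgh n (by omega) h4, hrgh (n - 1) (by omega) h5⟩)
  have hfin := Hrs N hNp hkN hN5 A (Gp ν W) (l ^ B * l ^ B) hAne
    (by
      have : 1 ≤ l ^ B := one_le_pow₀ hl1
      nlinarith) hmG
    (by
      have h1 : (l ^ B * l ^ B) ^ (2 * (k * 2 ^ k)) = l ^ (2 * B * M₁) := by
        rw [← pow_add, ← pow_mul, hM₁]
        congr 1
        ring
      rw [h1]
      rw [div_le_iff₀ hc₂] at hlc
      have h2 : 0 < l ^ (2 * B * M₁) := by positivity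
      calc l ^ (2 * B * M₁) ≤ l ^ (2 * B * M₁) * (l * c₂) := le_mul_of_one_le_right h2.le hlc
        _ = c₂ * l ^ (2 * B * M₁ + 1) := by rw [pow_succ]; ring
        _ ≤ c₂ * N := by gcongr)
    (fun a u => if a + W * u ∈ S then Gp ν W a u else 0)
    (by
      intro a _ u
      have h1 : 0 ≤ Gp ν W a u := mul_nonneg (hν0 _) (hν0 _)
      split_ifs
      · exact ⟨h1, le_rfl⟩
      · exact ⟨le_rfl, h1⟩)
    (by
      rw [← hh]
      refine le_trans ?_ hlow
      have h1 : κ * c ^ 2 * ((X : ℝ) / W) ≤ S.card * (g * g) := by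
        have h2 : g * g = c ^ 2 * (l ^ 2 / ((W : ℝ) / W.totient) ^ 2) := by
          rw [hg]
          field_simp
        rw [h2]
        calc κ * c ^ 2 * ((X : ℝ) / W) = (κ * ((X : ℝ) / W) * ((W : ℝ) / W.totient) ^ 2 / l ^ 2) *
              (c ^ 2 * (l ^ 2 / ((W : ℝ) / W.totient) ^ 2)) := by field_simp
          _ ≤ _ := by gcongr
      calc δ * A.card * N ≤ δ * (2 * ((X : ℝ) / W)) * (3 * h) := by gcongr
        _ = h * (κ * c ^ 2 * ((X : ℝ) / W)) := by rw [hδ]; ring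
        _ ≤ h * (S.card * (g * g)) := by gcongr)
  obtain ⟨a, haA, u, r, hu, hr, hap⟩ := hfin
  rw [hA, mem_filter, mem_Ioc] at haA
  have hr1 : r ≤ N := by
    have h1 := (hap 1 (by omega)).1
    rw [← hh] at h1
    omega
  refine ⟨a + W * u, W * r, by omega, Nat.mul_pos (by omega) hr, Nat.mul_le_mul_left W hr1, ?_⟩
  intro j hj
  have h1 := (hap j hj).2
  by_contra hcon
  apply h1
  rw [if_neg]
  intro h2
  apply hcon
  have e : a + W * (u + j * r) = a + W * u + j * (W * r) := by ring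
  rwa [e] at h2

end Pool.Agent.Y855
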