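import Mathlib

set_option autoImplicit false

namespace Pool.Agent.Y855.RS

open Filter Topology Finset BoundedContinuousFunction

/-- index of the free generators `T^m f_r`, `r = 0, …, N` -/
abbrev Gen (N : ℕ) := ℕ × Fin (N + 1)

section pairing
variable {𝕂 : Type} [RCLike 𝕂] {N : ℕ}

/-- value of the functional `f` on `T^s v` -/
noncomputable def pr (f : Gen N → 𝕂) (v : Gen N →₀ 𝕂) (s : ℕ) : 𝕂 :=
  v.sum fun i c => c * f (i.1 + s, i.2)

end pairing

/-- data: `N`-tuples of vectors `x k`, slot sets `A k`, precision `4^{-Lam k}` -/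
structure Data (𝕂 : Type) [RCLike 𝕂] (N : ℕ) where
  x : ℕ → Fin N → (Gen N →₀ 𝕂)
  A : ℕ → Set ℕ
  Lam : ℕ → ℕ
  b : ℕ → ℕ
  supp : ∀ k j, ∀ i ∈ (x k j).support, i.1 < b k
  nrm : ∀ k j, ∑ i ∈ (x k j).support, ‖x k j i‖ ≤ 4 ^ b k

variable {𝕂 : Type} [RCLike 𝕂] {N : ℕ} (D : Data 𝕂 N)

/-- the norming functionals -/
structure Fn where
  f : Gen N → 𝕂
  bd : ∀ m r, ‖f (m, r)‖ ≤ 4 ^ m
  ret : ∀ k, ∀ n ∈ D.A k, ∀ j m,
    ‖pr f (D.x k j) (n + m) - pr f (D.x k j) m‖ ≤ 4 ^ m / 4 ^ D.Lam k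

instance : TopologicalSpace (Fn D) := ⊥
instance : DiscreteTopology (Fn D) := ⟨rfl⟩

/-- ambient space -/
abbrev EE := BoundedContinuousFunction (Fn D) 𝕂

lemma pr_smul_shift (f : Gen N → 𝕂) (v : Gen N →₀ 𝕂) (c : 𝕂) (n s : ℕ) :
    pr (fun i => c * f (i.1 + n, i.2)) v s = c * pr f v (s + n) := by
  unfold pr
  rw [Finsupp.sum, Finsupp.sum, mul_sum]
  refine sum_congr rfl fun i _ => ?_
  simp only [add_assoc]
  ring

/-- the shift on functionals, normalised -/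
noncomputable def sh (n : ℕ) (ϕ : Fn D) : Fn D where
  f := fun i => (1 / 4 : 𝕂) ^ n * ϕ.f (i.1 + n, i.2)
  bd := by
    intro m r
    have h := ϕ.bd (m + n) r
    have h4 : ‖(1 / 4 : 𝕂)‖ = 1 / 4 := by simp
    rw [norm_mul, norm_pow, h4]
    calc (1 / 4 : ℝ) ^ n * ‖ϕ.f (m + n, r)‖ ≤ (1 / 4 : ℝ) ^ n * 4 ^ (m + n) := by gcongr
      _ = 4 ^ m := by rw [pow_add, one_div, inv_pow]; field_simp
  ret := by
    intro k y hy j m
    have h := ϕ.ret k y hy j (m + n)
    have h4 : ‖(1 / 4 : 𝕂)‖ = 1 / 4 := by simp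
    rw [pr_smul_shift, pr_smul_shift, ← mul_sub, norm_mul, norm_pow, h4, add_assoc]
    calc (1 / 4 : ℝ) ^ n * ‖pr ϕ.f (D.x k j) (y + (m + n)) - pr ϕ.f (D.x k j) (m + n)‖
        ≤ (1 / 4 : ℝ) ^ n * (4 ^ (m + n) / 4 ^ D.Lam k) := by gcongr
      _ = 4 ^ m / 4 ^ D.Lam k := by rw [pow_add, one_div, inv_pow]; field_simp

/-- the operator `g ↦ 4 g ∘ sh 1` -/
noncomputable def Tp : EE D →L[𝕂] EE D :=
  LinearMap.mkContinuous
    { toFun := fun g => (4 : 𝕂) • g.compContinuous ⟨sh D 1, continuous_of_discreteTopology⟩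
      map_add' := fun f g => by ext i; simp [mul_add]
      map_smul' := fun c f => by ext i; simp [mul_left_comm] } 4 (by
    intro f
    rw [BoundedContinuousFunction.norm_le (by positivity)]
    intro i
    simp only [LinearMap.coe_mk, AddHom.coe_mk, BoundedContinuousFunction.coe_smul,
      BoundedContinuousFunction.compContinuous_apply, smul_eq_mul, norm_mul]
    rw [show ‖(4 : 𝕂)‖ = 4 by simp]
    gcongr
    exact f.norm_coe_le_norm _)

lemma Tp_apply (g : EE D) (ϕ : Fn D) : Tp D g ϕ = 4 * g (sh D 1 ϕ) := rfl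

lemma Fn.ext' {ϕ ψ : Fn D} (h : ∀ i, ϕ.f i = ψ.f i) : ϕ = ψ := by
  cases ϕ; cases ψ
  simp only at h
  congr
  exact funext h

lemma sh_sh (n : ℕ) (ϕ : Fn D) : sh D n (sh D 1 ϕ) = sh D (n + 1) ϕ := by
  apply Fn.ext'
  intro i
  simp only [sh]
  rw [show i.1 + (n + 1) = i.1 + n + 1 by ring]
  ring

lemma Tp_iter (n : ℕ) (g : EE D) (ϕ : Fn D) :
    ((Tp D)^[n] g) ϕ = 4 ^ n * g (sh D n ϕ) := by
  induction n generalizing ϕ with
  | zero =>
    simp only [Function.iterate_zero, id_eq, pow_zero, one_mul]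
    congr 1
    apply Fn.ext'
    intro i
    simp [sh]
  | succ n ih =>
    rw [Function.iterate_succ_apply', Tp_apply, ih, sh_sh, pow_succ]
    ring

/-- generators -/
noncomputable def gen (i : Gen N) : EE D :=
  BoundedContinuousFunction.ofNormedAddCommGroup (fun ϕ : Fn D => ϕ.f i)
    continuous_of_discreteTopology (4 ^ i.1) (fun ϕ => ϕ.bd i.1 i.2)

lemma gen_apply (i : Gen N) (ϕ : Fn D) : gen D i ϕ = ϕ.f i := rfl

/-- vectors of the free module -/
noncomputable def vec (v : Gen N →₀ 𝕂) : EE D := v.sum fun i c => c • gen D i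

lemma vec_apply (v : Gen N →₀ 𝕂) (ϕ : Fn D) : vec D v ϕ = ∑ i ∈ v.support, v i * ϕ.f i := by
  unfold vec
  rw [Finsupp.sum]
  have : (∑ i ∈ v.support, v i • gen D i) ϕ =
      ∑ i ∈ v.support, (v i • gen D i) ϕ := by
    rw [BoundedContinuousFunction.coe_sum, Finset.sum_apply]
  rw [this]
  rfl

lemma Tp_iter_vec (n : ℕ) (v : Gen N →₀ 𝕂) (ϕ : Fn D) :
    ((Tp D)^[n] (vec D v)) ϕ = pr ϕ.f v n := by
  rw [Tp_iter, vec_apply]
  unfold pr
  rw [Finsupp.sum, mul_sum]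
  refine sum_congr rfl fun i _ => ?_
  simp only [sh]
  have : (4 : 𝕂) ^ n * (1 / 4) ^ n = 1 := by rw [← mul_pow]; norm_num
  calc (4 : 𝕂) ^ n * (v i * ((1 / 4) ^ n * ϕ.f (i.1 + n, i.2)))
      = ((4 : 𝕂) ^ n * (1 / 4) ^ n) * (v i * ϕ.f (i.1 + n, i.2)) := by ring
    _ = _ := by rw [this, one_mul]

lemma Tp_iter_gen (n : ℕ) (i : Gen N) (ϕ : Fn D) :
    ((Tp D)^[n] (gen D i)) ϕ = ϕ.f (i.1 + n, i.2) := by
  rw [Tp_iter, gen_apply]
  simp only [sh]
  have : (4 : 𝕂) ^ n * (1 / 4) ^ n = 1 := by rw [← mul_pow]; norm_num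
  rw [← mul_assoc, this, one_mul]

/-- the Banach space -/
noncomputable def MM : Submodule 𝕂 (EE D) :=
  (Submodule.span 𝕂 (Set.range (gen D))).topologicalClosure

lemma MM_closed : IsClosed (MM D : Set (EE D)) := Submodule.isClosed_topologicalClosure _

noncomputable instance : CompleteSpace (MM D) := (MM_closed D).completeSpace_coe

lemma gen_mem (i : Gen N) : gen D i ∈ MM D :=
  Submodule.le_topologicalClosure _ (Submodule.subset_span ⟨i, rfl⟩)

lemma vec_mem_span (v : Gen N →₀ 𝕂) : vec D v ∈ Submodule.span 𝕂 (Set.range (gen D)) :=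
  Submodule.sum_mem _ fun i _ => Submodule.smul_mem _ _ (Submodule.subset_span ⟨i, rfl⟩)

lemma vec_mem (v : Gen N →₀ 𝕂) : vec D v ∈ MM D :=
  Submodule.le_topologicalClosure _ (vec_mem_span D v)

lemma span_eq_vec (w : EE D) (hw : w ∈ Submodule.span 𝕂 (Set.range (gen D))) :
    ∃ v, w = vec D v := by
  rw [Finsupp.mem_span_range_iff_exists_finsupp] at hw
  obtain ⟨c, hc⟩ := hw
  exact ⟨c, hc.symm⟩

lemma Tp_gen (i : Gen N) : Tp D (gen D i) = gen D (i.1 + 1, i.2) := by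
  ext ϕ
  have := Tp_iter_gen D 1 i ϕ
  rw [gen_apply]
  simpa using this

lemma Tp_mem {f : EE D} (hf : f ∈ MM D) : Tp D f ∈ MM D := by
  have h1 : MM D ≤ (MM D).comap (Tp D : EE D →ₗ[𝕂] EE D) := by
    conv_lhs => unfold MM
    apply Submodule.topologicalClosure_minimal
    · rw [Submodule.span_le]
      rintro _ ⟨i, rfl⟩
      show Tp D (gen D i) ∈ MM D
      rw [Tp_gen]
      exact gen_mem D _
    · exact (MM_closed D).preimage (Tp D).continuous
  exact h1 hf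

/-- the operator -/
noncomputable def TT : MM D →L[𝕂] MM D :=
  ((Tp D).comp (MM D).subtypeL).codRestrict (MM D) (fun f => Tp_mem D f.2)

lemma TT_coe (u : MM D) : ((TT D u : MM D) : EE D) = Tp D (u : EE D) := rfl

lemma TT_iter (n : ℕ) (u : MM D) : (((TT D)^[n] u : MM D) : EE D) = (Tp D)^[n] (u : EE D) := by
  induction n with
  | zero => rfl
  | succ n ih => rw [Function.iterate_succ_apply', Function.iterate_succ_apply', TT_coe, ih]

/-- linear functional identities extend from generators -/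
lemma ext_of_gen (L : EE D →L[𝕂] 𝕂) (hL : ∀ i, L (gen D i) = 0) (w : EE D) (hw : w ∈ MM D) :
    L w = 0 := by
  have h1 : MM D ≤ LinearMap.ker (L : EE D →ₗ[𝕂] 𝕂) := by
    unfold MM
    apply Submodule.topologicalClosure_minimal
    · rw [Submodule.span_le]
      rintro _ ⟨i, rfl⟩
      exact hL i
    · exact L.isClosed_ker
  exact h1 hw

lemma avg_identity (F : Finset ℕ) (ϕ ψ : Fn D) (c : 𝕂)
    (h : ∀ i : Gen N, c * ψ.f i = ∑ n ∈ F, ϕ.f (i.1 + n, i.2)) (w : EE D) (hw : w ∈ MM D) :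
    c * w ψ = ∑ n ∈ F, ((Tp D)^[n] w) ϕ := by
  let L : EE D →L[𝕂] 𝕂 := c • BoundedContinuousFunction.evalCLM 𝕂 ψ -
    ∑ n ∈ F, (4 : 𝕂) ^ n • BoundedContinuousFunction.evalCLM 𝕂 (sh D n ϕ)
  have hL : ∀ g : EE D, L g = c * g ψ - ∑ n ∈ F, ((Tp D)^[n] g) ϕ := by
    intro g
    simp only [L, _root_.sub_apply, _root_.smul_apply, _root_.sum_apply,
      BoundedContinuousFunction.evalCLM_apply, smul_eq_mul, Tp_iter]
  have h2 := ext_of_gen D L (fun i => by
    rw [hL, gen_apply, h i, sub_eq_zero]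
    refine sum_congr rfl fun n _ => ?_
    rw [Tp_iter_gen]) w hw
  rw [hL, sub_eq_zero] at h2
  exact h2

/-- the invariant functional -/
noncomputable def inv (a : Fin (N + 1) → 𝕂) (ha : ∀ r, ‖a r‖ ≤ 1) : Fn D where
  f := fun i => a i.2
  bd := fun m r => (ha r).trans (one_le_pow₀ (by norm_num))
  ret := by
    intro k n _ j m
    have : pr (fun i : Gen N => a i.2) (D.x k j) (n + m) -
        pr (fun i : Gen N => a i.2) (D.x k j) m = 0 := by
      unfold pr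
      simp
    rw [this, norm_zero]
    positivity

end Pool.Agent.Y855.RS
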