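import Pool.Agent.Y855.R2

set_option autoImplicit false

namespace Pool.Agent.Y855.RS

open Filter Topology Finset BoundedContinuousFunction Classical

variable {𝕂 : Type} [RCLike 𝕂] {N : ℕ} (D : Data 𝕂 N)

/-- `pisum v` as a linear form -/
noncomputable def piL (v : Gen N →₀ 𝕂) : (Fin (N + 1) → 𝕂) →ₗ[𝕂] 𝕂 where
  toFun := pisum v
  map_add' := by
    intro a b
    unfold pisum
    rw [← sum_add_distrib]
    refine sum_congr rfl fun i _ => ?_
    simp only [Pi.add_apply]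
    ring
  map_smul' := by
    intro c a
    unfold pisum
    simp only [RingHom.id_apply, smul_eq_mul]
    rw [mul_sum]
    refine sum_congr rfl fun i _ => ?_
    simp only [Pi.smul_apply, smul_eq_mul]
    ring

lemma exists_perp (x : Fin N → (Gen N →₀ 𝕂)) : ∃ a : Fin (N + 1) → 𝕂,
    (∀ r, ‖a r‖ ≤ 1) ∧ (∃ r, ‖a r‖ = 1) ∧ ∀ j, pisum (x j) a = 0 := by
  let L : (Fin (N + 1) → 𝕂) →ₗ[𝕂] (Fin N → 𝕂) := LinearMap.pi fun j => piL (x j)
  have hker : LinearMap.ker L ≠ ⊥ := by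
    apply LinearMap.ker_ne_bot_of_finrank_lt
    simp
  obtain ⟨a, ha, ha0⟩ := Submodule.exists_mem_ne_zero_of_ne_bot hker
  obtain ⟨r, _, hr⟩ := Finset.exists_max_image (univ : Finset (Fin (N + 1))) (fun r => ‖a r‖)
    ⟨0, mem_univ _⟩
  have hr0 : a r ≠ 0 := by
    intro h0
    apply ha0
    ext s
    have h1 := hr s (mem_univ _)
    rw [h0, norm_zero, norm_le_zero_iff] at h1
    simpa using h1
  have hrn : ‖a r‖ ≠ 0 := norm_ne_zero_iff.2 hr0
  refine ⟨fun s => (a r)⁻¹ * a s, ?_, ⟨r, ?_⟩, ?_⟩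
  · intro s
    rw [norm_mul, norm_inv, inv_mul_le_iff₀ (norm_pos_iff.2 hr0), mul_one]
    exact hr s (mem_univ _)
  · rw [norm_mul, norm_inv, inv_mul_cancel₀ hrn]
  · intro j
    have h1 : piL (x j) a = 0 := by
      have h2 : L a = 0 := ha
      have h3 := congrFun h2 j
      simpa [L] using h3
    have h2 : (fun s => (a r)⁻¹ * a s) = (a r)⁻¹ • a := rfl
    show piL (x j) (fun s => (a r)⁻¹ * a s) = 0
    rw [h2, map_smul, h1, smul_zero]

/-- hypotheses on the data for a family `Big` of large sets of return times -/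
structure Hyp (Big : Set ℕ → Prop) : Prop where
  mono : ∀ S S' : Set ℕ, S ⊆ S' → Big S → Big S'
  dense : ∀ (v : Fin N → (Gen N →₀ 𝕂)) (η : ℝ), 0 < η →
    ∃ k, ∀ j, ‖vec D (v j) - vec D (D.x k j)‖ < η
  cof : ∀ k t : ℕ, ∃ k', D.x k' = D.x k ∧ t ≤ D.Lam k' ∧ Big (D.A k')
  good : ∀ S, Big S → ∃ k, ∀ a : Fin (N + 1) → 𝕂, (∀ r, ‖a r‖ ≤ 1) →
    (∀ j, pisum (D.x k j) a = 0) → Good D S a

variable {D}

lemma vec_slot (k : ℕ) (n : ℕ) (hn : n ∈ D.A k) (j : Fin N) :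
    ‖(Tp D)^[n] (vec D (D.x k j)) - vec D (D.x k j)‖ ≤ 1 / 4 ^ D.Lam k := by
  rw [BoundedContinuousFunction.norm_le (by positivity)]
  intro ϕ
  rw [BoundedContinuousFunction.sub_apply, Tp_iter_vec]
  have h1 : vec D (D.x k j) ϕ = pr ϕ.f (D.x k j) 0 := by
    have := Tp_iter_vec D 0 (D.x k j) ϕ
    simpa using this
  rw [h1]
  have := ϕ.ret k n hn j 0
  simpa using this

/-- the element of the space attached to a vector of the free module -/
noncomputable def vv (v : Gen N →₀ 𝕂) : MM D := ⟨vec D v, vec_mem D v⟩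

/-- the direct sum of `n` copies, iterated -/
lemma iter_sum {X : Type*} (T : X → X) (n : ℕ) {J : Type*} (x : J → X) :
    (fun (w : J → X) (j : J) => T (w j))^[n] x = fun j => T^[n] (x j) := by
  induction n with
  | zero => rfl
  | succ n ih =>
    rw [Function.iterate_succ_apply', ih]
    funext j
    rw [Function.iterate_succ_apply']

theorem Hyp.dense_rec {Big : Set ℕ → Prop} (h : Hyp D Big) :
    Dense {x : Fin N → MM D | ∀ U ∈ 𝓝 x,
      Big {n | (fun (w : Fin N → MM D) (j : Fin N) => TT D (w j))^[n] x ∈ U}} := by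
  rw [Metric.dense_iff]
  intro u r hr
  have hv : ∀ j, ∃ v : Gen N →₀ 𝕂, ‖(u j : EE D) - vec D v‖ < r / 4 := by
    intro j
    have hu : (u j : EE D) ∈ closure ((Submodule.span 𝕂 (Set.range (gen D)) :
        Submodule 𝕂 (EE D)) : Set (EE D)) := by
      rw [← Submodule.topologicalClosure_coe]; exact (u j).2
    obtain ⟨v, hv, hd⟩ := Metric.mem_closure_iff.1 hu (r / 4) (by positivity)
    obtain ⟨v, rfl⟩ := span_eq_vec D v hv
    exact ⟨v, by rwa [dist_eq_norm] at hd⟩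
  choose v hv using hv
  obtain ⟨k, hk⟩ := h.dense v (r / 4) (by positivity)
  refine ⟨fun j => vv (D.x k j), ?_, ?_⟩
  · rw [Metric.mem_ball, dist_comm]
    refine lt_of_le_of_lt ((dist_pi_le_iff (by positivity)).2 (fun j => ?_))
      (show r / 2 < r by linarith)
    show dist (u j : EE D) (vec D (D.x k j)) ≤ r / 2
    rw [dist_eq_norm]
    calc ‖(u j : EE D) - vec D (D.x k j)‖ = ‖((u j : EE D) - vec D (v j)) +
          (vec D (v j) - vec D (D.x k j))‖ := by congr 1; abel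
      _ ≤ ‖(u j : EE D) - vec D (v j)‖ + ‖vec D (v j) - vec D (D.x k j)‖ := norm_add_le _ _
      _ ≤ r / 4 + r / 4 := add_le_add (hv j).le (hk j).le
      _ = r / 2 := by ring
  · intro U hU
    obtain ⟨ε, hε, hball⟩ := Metric.mem_nhds_iff.1 hU
    obtain ⟨t, ht⟩ := exists_pow_lt_of_lt_one hε (by norm_num : (1 / 4 : ℝ) < 1)
    obtain ⟨k', hk', ht', hB⟩ := h.cof k t
    refine h.mono _ _ ?_ hB
    intro n hn
    apply hball
    rw [Metric.mem_ball, iter_sum]
    refine lt_of_le_of_lt ((dist_pi_le_iff (by positivity)).2 (fun j => ?_)) ht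
    rw [dist_eq_norm]
    have h1 : ‖(TT D)^[n] (vv (D.x k j)) - vv (D.x k j)‖ =
        ‖(Tp D)^[n] (vec D (D.x k' j)) - vec D (D.x k' j)‖ := by
      rw [hk']
      show ‖(((TT D)^[n] (vv (D.x k j)) : MM D) : EE D) - vec D (D.x k j)‖ = _
      rw [TT_iter]
      rfl
    rw [h1]
    calc _ ≤ 1 / 4 ^ D.Lam k' := vec_slot k' n hn j
      _ ≤ 1 / 4 ^ t := by
          apply one_div_le_one_div_of_le (by positivity)
          exact pow_le_pow_right₀ (by norm_num) ht'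
      _ = (1 / 4) ^ t := by rw [one_div, one_div, inv_pow]

lemma inv_gen_bound (a : Fin (N + 1) → 𝕂) (ha : ∀ r, ‖a r‖ ≤ 1) (r : Fin (N + 1)) (w : MM D)
    (hw : dist (vv (Finsupp.single ((0, r) : Gen N) (1 : 𝕂))) w < 1 / 4)
    (h0 : (w : EE D) (inv D a ha) = 0) : ‖a r‖ < 1 / 4 := by
  have h1 : (vec D (Finsupp.single ((0, r) : Gen N) (1 : 𝕂))) (inv D a ha) = a r := by
    rw [vec_apply]
    rw [Finsupp.support_single_ne_zero _ (one_ne_zero)]
    simp [inv]
  have h2 : ‖(vec D (Finsupp.single ((0, r) : Gen N) (1 : 𝕂)) - (w : EE D)) (inv D a ha)‖ ≤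
      ‖vec D (Finsupp.single ((0, r) : Gen N) (1 : 𝕂)) - (w : EE D)‖ :=
    BoundedContinuousFunction.norm_coe_le_norm _ _
  rw [BoundedContinuousFunction.sub_apply, h1, h0, sub_zero] at h2
  refine h2.trans_lt ?_
  rw [dist_eq_norm] at hw
  exact hw

lemma ball_set (S : Set ℕ) (w : MM D) (hS : ∀ n ∈ S, (TT D)^[n] w ∈ Metric.ball w 1) :
    ∀ n ∈ S, ‖(Tp D)^[n] (w : EE D) - (w : EE D)‖ ≤ 1 := by
  intro n hn
  have h1 := hS n hn
  rw [Metric.mem_ball, dist_eq_norm] at h1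
  have h2 : ‖(TT D)^[n] w - w‖ = ‖(Tp D)^[n] (w : EE D) - (w : EE D)‖ := by
    rw [← TT_iter]; rfl
  rw [← h2]
  exact h1.le

theorem Hyp.sum_not_dense {Big : Set ℕ → Prop} (h : Hyp D Big) :
    ¬ Dense {x : Fin (N + 1) → MM D | ∀ U ∈ 𝓝 x,
      Big {n | (fun (w : Fin (N + 1) → MM D) (j : Fin (N + 1)) => TT D (w j))^[n] x ∈ U}} := by
  intro hdense
  obtain ⟨w, hw, hd⟩ := hdense.exists_dist_lt
    (fun r : Fin (N + 1) => (vv (Finsupp.single ((0, r) : Gen N) (1 : 𝕂)) : MM D))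
      (show (0 : ℝ) < 1 / 4 by norm_num)
  have hd' : ∀ r, dist (vv (Finsupp.single ((0, r) : Gen N) (1 : 𝕂)) : MM D) (w r) < 1 / 4 :=
    (dist_pi_lt_iff (by norm_num)).1 hd
  have hB := hw _ (Metric.ball_mem_nhds _ one_pos)
  obtain ⟨k, hk⟩ := h.good _ hB
  obtain ⟨a, ha, ⟨r, hr⟩, hperp⟩ := exists_perp (D.x k)
  have hG := hk a ha hperp
  have hmem : ∀ n, (fun (w : Fin (N + 1) → MM D) (j : Fin (N + 1)) => TT D (w j))^[n] w ∈
      Metric.ball w 1 → (TT D)^[n] (w r) ∈ Metric.ball (w r) 1 := by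
    intro n hn
    rw [iter_sum, Metric.mem_ball, dist_pi_lt_iff one_pos] at hn
    exact hn r
  have z0 := good_zero _ a ha hG _ (w r).2 (ball_set _ _ (fun n hn => hmem n hn))
  have b0 := inv_gen_bound a ha r (w r) (hd' r) z0
  linarith

end Pool.Agent.Y855.RS
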