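import Pool.Agent.Y855.R3
import Pool.Agent.H615R3.FreeEnum

set_option autoImplicit false

namespace Pool.Agent.Y855.RS

open Filter Topology Finset BoundedContinuousFunction Classical
open Pool.Agent.H615R3.Free (cf cf_zero cf_dense cls cls_le cls_lt)

variable (𝕂 : Type) [RCLike 𝕂] (N : ℕ)

lemma exists_enum : ∃ e : ℕ → Fin N → (Gen N →₀ 𝕂), ∀ v : Fin N → (Gen N →₀ 𝕂), ∀ η : ℝ, 0 < η →
    ∃ j, ∀ s, (e j s).support ⊆ (v s).support ∧ ∀ i, ‖v s i - e j s i‖ ≤ η := by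
  obtain ⟨g, hg⟩ := exists_surjective_nat (Fin N → (Gen N →₀ ℚ × ℚ))
  refine ⟨fun n s => (g n s).mapRange (cf 𝕂) (cf_zero 𝕂), fun v η hη => ?_⟩
  choose q hq using fun z : 𝕂 => cf_dense 𝕂 z η hη
  obtain ⟨j, hj⟩ := hg (fun s => Finsupp.onFinset (v s).support
    (fun i => if v s i = 0 then 0 else q (v s i)) (by
      intro i hi
      rw [Finsupp.mem_support_iff]
      intro h0
      simp [h0] at hi))
  refine ⟨j, fun s => ⟨?_, fun i => ?_⟩⟩
  · refine Finsupp.support_mapRange.trans ?_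
    rw [hj]
    exact Finsupp.support_onFinset_subset
  · rw [Finsupp.mapRange_apply, hj, Finsupp.onFinset_apply]
    by_cases h0 : v s i = 0
    · rw [if_pos h0, h0, cf_zero]; simpa using hη.le
    · rw [if_neg h0]; exact hq _

variable {𝕂} {N}

lemma exists_b0 (v : Gen N →₀ 𝕂) :
    ∃ b : ℕ, (∀ i ∈ v.support, i.1 < b) ∧ ∑ i ∈ v.support, ‖v i‖ ≤ 4 ^ b := by
  obtain ⟨n, hn⟩ := pow_unbounded_of_one_lt (∑ i ∈ v.support, ‖v i‖) (by norm_num : (1 : ℝ) < 4)
  refine ⟨max (v.support.sup (fun i => i.1) + 1) n, fun i hi => ?_, ?_⟩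
  · have : i.1 ≤ v.support.sup (fun i => i.1) := Finset.le_sup (f := fun i : Gen N => i.1) hi
    exact lt_of_lt_of_le (by omega) (le_max_left _ _)
  · refine hn.le.trans ?_
    exact pow_le_pow_right₀ (by norm_num) (le_max_right _ _)

lemma exists_b (v : Fin N → (Gen N →₀ 𝕂)) :
    ∃ b : ℕ, ∀ s, (∀ i ∈ (v s).support, i.1 < b) ∧ ∑ i ∈ (v s).support, ‖v s i‖ ≤ 4 ^ b := by
  choose b hb1 hb2 using fun s => exists_b0 (v s)
  refine ⟨univ.sup b, fun s => ⟨fun i hi => ?_, ?_⟩⟩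
  · exact lt_of_lt_of_le (hb1 s i hi) (Finset.le_sup (f := b) (mem_univ s))
  · refine (hb2 s).trans ?_
    exact pow_le_pow_right₀ (by norm_num) (Finset.le_sup (f := b) (mem_univ s))

lemma vec_diff (D : Data 𝕂 N) (v u : Gen N →₀ 𝕂) (hsub : u.support ⊆ v.support) (η : ℝ)
    (h : ∀ i, ‖v i - u i‖ ≤ η) :
    ‖vec D v - vec D u‖ ≤ (∑ i ∈ v.support, (4 : ℝ) ^ i.1) * η := by
  have h1 : vec D u = ∑ i ∈ v.support, u i • gen D i := by
    unfold vec
    rw [Finsupp.sum_of_support_subset _ hsub]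
    intro i _
    simp
  have h2 : vec D v = ∑ i ∈ v.support, v i • gen D i := rfl
  rw [h1, h2, ← sum_sub_distrib, sum_mul]
  refine (norm_sum_le _ _).trans (sum_le_sum fun i _ => ?_)
  rw [← sub_smul, norm_smul, mul_comm]
  have h3 : ‖gen D i‖ ≤ 4 ^ i.1 := by
    rw [BoundedContinuousFunction.norm_le (by positivity)]
    intro ϕ
    exact ϕ.bd i.1 i.2
  have h4 := h i
  gcongr

variable (𝕂) (N)

/-- a dense sequence of tuples of vectors with bounds -/
structure Enum where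
  e : ℕ → Fin N → (Gen N →₀ 𝕂)
  bb : ℕ → ℕ
  dense : ∀ v : Fin N → (Gen N →₀ 𝕂), ∀ η : ℝ, 0 < η →
    ∃ j, ∀ s, (e j s).support ⊆ (v s).support ∧ ∀ i, ‖v s i - e j s i‖ ≤ η
  supp : ∀ k s, ∀ i ∈ (e k s).support, i.1 < bb k
  nrm : ∀ k s, ∑ i ∈ (e k s).support, ‖e k s i‖ ≤ 4 ^ bb k

lemma nonempty_enum : Nonempty (Enum 𝕂 N) := by
  obtain ⟨e, he⟩ := exists_enum 𝕂 N
  choose bb hb using fun k => exists_b (e k)
  exact ⟨⟨e, bb, he, fun k s => (hb k s).1, fun k s => (hb k s).2⟩⟩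

variable {𝕂} {N}

/-- the precision exponents -/
def Enum.Lam (E : Enum 𝕂 N) (k : ℕ) : ℕ := ∑ j ∈ range (k + 1), (1 + 2 * E.bb j)

lemma Enum.Lam_mono (E : Enum 𝕂 N) : Monotone E.Lam := by
  intro a b hab
  unfold Enum.Lam
  apply sum_le_sum_of_subset
  intro j hj
  rw [mem_range] at *
  omega

lemma Enum.Lam_ge (E : Enum 𝕂 N) (k : ℕ) : k + 1 + 2 * E.bb (cls k) ≤ E.Lam k := by
  unfold Enum.Lam
  rw [sum_add_distrib]
  have h1 : ∑ j ∈ range (k + 1), 1 = k + 1 := by simp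
  have h2 : 2 * E.bb (cls k) ≤ ∑ j ∈ range (k + 1), 2 * E.bb j := by
    apply Finset.single_le_sum (f := fun j => 2 * E.bb j) (fun j _ => Nat.zero_le _)
    rw [mem_range]
    have := cls_le k
    omega
  omega

/-- data from an enumeration and slot sets -/
def Enum.data (E : Enum 𝕂 N) (A : ℕ → Set ℕ) : Data 𝕂 N where
  x := fun k => E.e (cls k)
  A := A
  Lam := E.Lam
  b := fun k => E.bb (cls k)
  supp := fun k => E.supp (cls k)
  nrm := fun k => E.nrm (cls k)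

/-- the general theorem for slot sets -/
theorem Enum.hyp (E : Enum 𝕂 N) (A : ℕ → Set ℕ) (Big : Set ℕ → Prop)
    (hmono : ∀ S S' : Set ℕ, S ⊆ S' → Big S → Big S') (hA : ∀ k, Big (A k))
    (hgood : ∀ S, Big S → ∃ k, ∀ a : Fin (N + 1) → 𝕂, (∀ r, ‖a r‖ ≤ 1) →
      (∀ j, pisum (E.e (cls k) j) a = 0) → Good (E.data A) S a) : Hyp (E.data A) Big where
  mono := hmono
  dense := by
    intro v η hη
    obtain ⟨W, hW⟩ : ∃ W : ℝ, W = ∑ s : Fin N, ∑ i ∈ (v s).support, (4 : ℝ) ^ i.1 := ⟨_, rfl⟩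
    have hle : ∀ s : Fin N, 0 ≤ ∑ i ∈ (v s).support, (4 : ℝ) ^ i.1 := fun s =>
      sum_nonneg fun i _ => pow_nonneg (by norm_num) _
    have hW0 : 0 ≤ W := by rw [hW]; exact sum_nonneg fun s _ => hle s
    have hW1 : 0 < W + 1 := by linarith
    obtain ⟨j, hj⟩ := E.dense v (η / 2 / (W + 1)) (div_pos (half_pos hη) hW1)
    refine ⟨Nat.pair j 0, fun s => ?_⟩
    have h1 : (E.data A).x (Nat.pair j 0) = E.e j := by
      show E.e (cls (Nat.pair j 0)) = E.e j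
      unfold cls
      rw [Nat.unpair_pair]
    rw [h1]
    refine (vec_diff _ (v s) _ (hj s).1 _ (hj s).2).trans_lt ?_
    have h2 : ∑ i ∈ (v s).support, (4 : ℝ) ^ i.1 ≤ W := by
      rw [hW]
      exact Finset.single_le_sum (f := fun s : Fin N => ∑ i ∈ (v s).support, (4 : ℝ) ^ i.1)
        (fun s _ => hle s) (mem_univ s)
    have h3 := hle s
    rw [mul_div_assoc', div_lt_iff₀ hW1]
    nlinarith
  cof := by
    intro k t
    refine ⟨Nat.pair (cls k) t, ?_, ?_, hA _⟩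
    · show E.e (cls (Nat.pair (cls k) t)) = E.e (cls k)
      unfold cls
      rw [Nat.unpair_pair]
    · have h1 := E.Lam_ge (Nat.pair (cls k) t)
      have h2 := Nat.right_le_pair (cls k) t
      show t ≤ E.Lam (Nat.pair (cls k) t)
      omega
  good := hgood

end Pool.Agent.Y855.RS
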